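import Mathlib
set_option autoImplicit false
namespace Pool.Agent.Helper563_BV

/-- Z[1/p]G inside QG. -/
noncomputable def ZI (p : ℕ) (G : Type) [Group G] : Subring (MonoidAlgebra ℚ G) :=
  Subring.closure (Set.range (MonoidAlgebra.of ℚ G) ∪
    {algebraMap ℚ (MonoidAlgebra ℚ G) ((p : ℚ)⁻¹)})

/-- The additive span of all products a * e * b. -/
def Idl {A : Type*} [Ring A] (e : A) : AddSubgroup A :=
  AddSubgroup.closure {z | ∃ a b : A, z = a * e * b}

/-- tau is a trace functional. -/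
def IsTr {A : Type*} [Ring A] (τ : A →+ ℚ) : Prop := ∀ a b : A, τ (a * b) = τ (b * a)

/-- The group generated by the units 1 + f z (1 - f), f idempotent. -/
def EG (A : Type*) [Ring A] : Subgroup Aˣ :=
  Subgroup.closure {ε : Aˣ | ∃ f z : A, f * f = f ∧ (ε : A) = 1 + f * z * (1 - f)}

/-- Some odd multiple has integer coefficients. -/
def L2 {G : Type} [Group G] (a : MonoidAlgebra ℚ G) : Prop :=
  ∃ m : ℕ, Odd m ∧ ∀ g : G, ∃ k : ℤ, (m : ℚ) * a.coeff g = k

/-- Integer coefficients. -/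
def IntC {G : Type} [Group G] (a : MonoidAlgebra ℚ G) : Prop :=
  ∀ g : G, ∃ k : ℤ, a.coeff g = k

def pair {J : Type} [Fintype J] (β z : J → ZMod 2) : ZMod 2 := ∑ j, β j * z j

abbrev JJ (κ : Type) : Type := ZMod 9 × κ × Bool

abbrev ZZ (κ : Type) : Type := JJ κ → ZMod 2

abbrev VV (κ : Type) : Type := ZZ κ → ZMod 3

abbrev YY (κ : Type) : Type := Equiv.Perm (VV κ)

abbrev GG (κ : Type) : Type := Equiv.Perm (ZMod 3 × VV κ)

/-- shift of the ZMod 9 coordinate -/
def shJ (κ : Type) : JJ κ ≃ JJ κ := (Equiv.addRight (1 : ZMod 9)).prodCongr (Equiv.refl (κ × Bool))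

def shZ (κ : Type) : ZZ κ ≃ ZZ κ := Equiv.arrowCongr (shJ κ) (Equiv.refl (ZMod 2))

def yP (κ : Type) : YY κ := Equiv.arrowCongr (shZ κ) (Equiv.refl (ZMod 3))

def tP (κ : Type) : YY κ := Equiv.neg (VV κ)

def sP (κ : Type) [Fintype κ] [DecidableEq κ] : YY κ :=
  Equiv.addRight (Pi.single (0 : ZZ κ) (1 : ZMod 3))

noncomputable def bP {κ : Type} [Fintype κ] (β : ZZ κ) : YY κ where
  toFun v z := if pair β z = 0 then v z else - v z
  invFun v z := if pair β z = 0 then v z else - v z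
  left_inv v := by funext z; by_cases h : pair β z = 0 <;> simp [h]
  right_inv v := by funext z; by_cases h : pair β z = 0 <;> simp [h]

theorem add_add_self {κ : Type} (z w : ZZ κ) : z + w + w = z := by
  funext j
  have : ∀ c d : ZMod 2, c + d + d = c := by decide
  exact this _ _

def aP {κ : Type} (w : ZZ κ) : YY κ where
  toFun v z := v (z + w)
  invFun v z := v (z + w)
  left_inv v := by funext z; simp [add_add_self]
  right_inv v := by funext z; simp [add_add_self]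

/-- the three commuting copies of YY -/
def iG (κ : Type) (i : ZMod 3) : YY κ →* GG κ where
  toFun g := Equiv.Perm.prodExtendRight i g
  map_one' := by
    ext p : 1
    obtain ⟨j, v⟩ := p
    by_cases h : j = i
    · subst h; simp
    · rw [Equiv.Perm.prodExtendRight_apply_ne _ h]; rfl
  map_mul' g h := by
    ext p : 1
    obtain ⟨j, v⟩ := p
    by_cases hj : j = i
    · subst hj; simp
    · rw [Equiv.Perm.prodExtendRight_apply_ne _ hj, Equiv.Perm.mul_apply,
        Equiv.Perm.prodExtendRight_apply_ne _ hj, Equiv.Perm.prodExtendRight_apply_ne _ hj]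

def xG (κ : Type) : GG κ := (Equiv.addRight (1 : ZMod 3)).prodCongr (Equiv.refl (VV κ))

noncomputable def io (κ : Type) (i : ZMod 3) : MonoidAlgebra ℚ (YY κ) →+* MonoidAlgebra ℚ (GG κ) :=
  MonoidAlgebra.mapDomainRingHom ℚ (iG κ i)

noncomputable def X (κ : Type) : MonoidAlgebra ℚ (GG κ) := MonoidAlgebra.of ℚ (GG κ) (xG κ)

noncomputable def y0 (κ : Type) : MonoidAlgebra ℚ (YY κ) := MonoidAlgebra.of ℚ (YY κ) (yP κ)

noncomputable def tB (κ : Type) : MonoidAlgebra ℚ (YY κ) := MonoidAlgebra.of ℚ (YY κ) (tP κ)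

noncomputable def sB (κ : Type) [Fintype κ] [DecidableEq κ] : MonoidAlgebra ℚ (YY κ) :=
  MonoidAlgebra.of ℚ (YY κ) (sP κ)

noncomputable def yy (κ : Type) : MonoidAlgebra ℚ (GG κ) := io κ 0 (y0 κ) * X κ

/-- the labels mu_k and nu_k -/
def lab {κ : Type} [DecidableEq κ] (k : κ) (b : Bool) : ZZ κ := Pi.single (0, k, b) 1

/-- translation by v, as an element of the group algebra of Perm V -/
noncomputable def TT {Ω : Type} (v : Ω → ZMod 3) :
    MonoidAlgebra ℚ (Equiv.Perm (Ω → ZMod 3)) :=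
  MonoidAlgebra.of ℚ (Equiv.Perm (Ω → ZMod 3)) (Equiv.addRight v)

/-- negation -/
noncomputable def tt (Ω : Type) : MonoidAlgebra ℚ (Equiv.Perm (Ω → ZMod 3)) :=
  MonoidAlgebra.of ℚ (Equiv.Perm (Ω → ZMod 3)) (Equiv.neg (Ω → ZMod 3))

/-- theta -/
def th (c : ZMod 3) : ℚ := if c = 0 then 1 else if c = 1 then -1 else 0

noncomputable def eps {Ω : Type} [Fintype Ω] [DecidableEq Ω] (l : Ω → ZMod 3) :
    MonoidAlgebra ℚ (Equiv.Perm (Ω → ZMod 3)) :=
  ((Fintype.card (Ω → ZMod 3) : ℚ)⁻¹) • ((∑ v : Ω → ZMod 3, th (l ⬝ᵥ v) • TT v) * (1 + tt Ω))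

end Pool.Agent.Helper563_BV
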