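import Mathlib
import Pool.Agent.Helper563_BV.Defs
set_option autoImplicit false
namespace Pool.Agent.Helper563_BV

-- TARGET
theorem prim_exists {A : Type*} [Ring A] [IsSemisimpleRing A] (h : A) (hh : h * h = h)
    (h0 : h ≠ 0) :
    ∃ e : A, e ≠ 0 ∧ e * e = e ∧ h * e = e ∧ e * h = e ∧
      ∀ x : A, x * e ≠ 0 → ∃ z : A, z * (x * e) = e := by
  have hatomic : IsAtomic (Submodule A A) := inferInstance
  have hne : Submodule.span A {h} ≠ ⊥ := by
    rw [Ne, Submodule.span_singleton_eq_bot]
    exact h0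
  obtain ⟨S, hS, hSh⟩ := (eq_bot_or_exists_atom_le (Submodule.span A {h})).resolve_left hne
  obtain ⟨S', hcompl⟩ := exists_isCompl S
  have h1 : (1 : A) ∈ S ⊔ S' := by
    rw [hcompl.sup_eq_top]
    exact Submodule.mem_top
  obtain ⟨e', he', e'', he'', h11⟩ := Submodule.mem_sup.1 h1
  have hinf : ∀ y, y ∈ S → y ∈ S' → y = 0 := by
    intro y hy hy'
    have : y ∈ S ⊓ S' := ⟨hy, hy'⟩
    rw [hcompl.inf_eq_bot] at this
    exact (Submodule.mem_bot A).1 this
  have hse : ∀ s ∈ S, s * e' = s := by
    intro s hs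
    have h2 : s - s * e' = s * e'' := by
      have : s * (e' + e'') = s := by rw [h11, mul_one]
      rw [mul_add] at this
      rw [eq_comm, eq_sub_iff_add_eq, add_comm]
      exact this
    have h3 : s - s * e' ∈ S := S.sub_mem hs (S.smul_mem s he')
    have h4 : s - s * e' ∈ S' := by
      rw [h2]
      exact S'.smul_mem s he''
    exact (sub_eq_zero.1 (hinf _ h3 h4)).symm
  have hee : e' * e' = e' := hse e' he'
  have he'0 : e' ≠ 0 := by
    rintro rfl
    apply hS.1
    rw [Submodule.eq_bot_iff]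
    intro s hs
    rw [← hse s hs, mul_zero]
  have hSmul : ∀ s ∈ S, s * h = s := by
    intro s hs
    obtain ⟨a, ha⟩ := Submodule.mem_span_singleton.1 (hSh hs)
    rw [smul_eq_mul] at ha
    rw [← ha, mul_assoc, hh]
  have heh : e' * h = e' := hSmul e' he'
  have hheS : h * e' ∈ S := S.smul_mem h he'
  refine ⟨h * e', ?_, ?_, ?_, ?_, ?_⟩
  · intro h2
    apply he'0
    have : e' * (h * e') = e' := by rw [← mul_assoc, heh, hee]
    rw [← this, h2, mul_zero]
  · rw [← mul_assoc, mul_assoc h e' h, heh, mul_assoc, hee]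
  · rw [← mul_assoc, hh]
  · rw [mul_assoc, heh]
  · intro x hx
    have hxS : x * (h * e') ∈ S := S.smul_mem x hheS
    have hle : Submodule.span A {x * (h * e')} ≤ S := by
      rw [Submodule.span_singleton_le_iff_mem]
      exact hxS
    have hne2 : Submodule.span A {x * (h * e')} ≠ ⊥ := by
      rw [Ne, Submodule.span_singleton_eq_bot]
      exact hx
    have heq : Submodule.span A {x * (h * e')} = S := by
      rcases hS.le_iff.1 hle with h3 | h3
      · exact absurd h3 hne2
      · exact h3
    rw [← heq] at hheS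
    obtain ⟨z, hz⟩ := Submodule.mem_span_singleton.1 hheS
    exact ⟨z, hz⟩

end Pool.Agent.Helper563_BV
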