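import Mathlib
import Pool.Agent.Helper563_BV.Defs
set_option autoImplicit false
namespace Pool.Agent.Helper563_BV


/-
PROOF OF THE TARGET IN WORDS
Let J = Idl g. First: J is closed under multiplication by arbitrary elements on the left and on the right (closure induction), so
J is a left ideal (a submodule of A over A). As A is semisimple, J has a complement J'; write 1 = e + e', e in J, e' in J'. For
s in J: s - s e = s e' is in J and in J', so s e = s. So e is idempotent, e in J, and s e = s for every s in J. For every a:
e a is in J, hence e a e = e a. Let N = { (1-e) a e } (a in A), as a set. From e (a (1-e)) = e a - e a e = 0 we get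
e a (1-e) = 0 for all a. Then for all b, a: b (1-e) a e = (1-e) b (1-e) a e (because e b (1-e) = 0) so N is a left ideal. And
N N = 0: (1-e) a e (1-e) a' e = 0. A left ideal N of a semisimple ring with N N = 0 is zero: N = A e'' with e'' in N idempotent (same
argument with the complement as above), e'' = e'' e'' = 0. Hence (1-e) a e = 0, i.e. a e = e a e = e a for all a: e is central.
Take f = e; f z = z e = z for z in J.
-/
theorem central_idem_mul_left {A : Type*} [Ring A] (g c z : A) (hz : z ∈ Idl g) :
    c * z ∈ Idl g := by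
  unfold Idl at *
  induction hz using AddSubgroup.closure_induction with
  | mem x hx =>
    obtain ⟨a, b, rfl⟩ := hx
    exact AddSubgroup.subset_closure ⟨c * a, b, by simp [mul_assoc]⟩
  | zero => simp
  | add x y _ _ hx hy => rw [mul_add]; exact AddSubgroup.add_mem _ hx hy
  | neg x _ hx => rw [mul_neg]; exact AddSubgroup.neg_mem _ hx

theorem central_idem_mul_right {A : Type*} [Ring A] (g c z : A) (hz : z ∈ Idl g) :
    z * c ∈ Idl g := by
  unfold Idl at *
  induction hz using AddSubgroup.closure_induction with
  | mem x hx =>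
    obtain ⟨a, b, rfl⟩ := hx
    exact AddSubgroup.subset_closure ⟨a, b * c, by simp [mul_assoc]⟩
  | zero => simp
  | add x y _ _ hx hy => rw [add_mul]; exact AddSubgroup.add_mem _ hx hy
  | neg x _ hx => rw [neg_mul]; exact AddSubgroup.neg_mem _ hx

-- TARGET
theorem central_idem {A : Type*} [Ring A] [IsSemisimpleRing A] (g : A) :
    ∃ f : A, f * f = f ∧ (∀ a, f * a = a * f) ∧ f ∈ Idl g ∧ (∀ z ∈ Idl g, f * z = z) := by
  let J : Ideal A :=
    { carrier := Idl g
      add_mem' := fun ha hb => AddSubgroup.add_mem _ ha hb
      zero_mem' := AddSubgroup.zero_mem _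
      smul_mem' := fun c z hz => central_idem_mul_left g c z hz }
  obtain ⟨e, he, hJ⟩ := IsSemisimpleRing.ideal_eq_span_idempotent J
  have hee : e * e = e := he
  have heJ : e ∈ Idl g := by
    have : e ∈ J := by rw [hJ]; exact Ideal.mem_span_singleton_self e
    exact this
  have hs : ∀ s ∈ Idl g, s * e = s := by
    intro s hs
    have h1 : s ∈ J := hs
    rw [hJ, Ideal.mem_span_singleton'] at h1
    obtain ⟨a, rfl⟩ := h1
    rw [mul_assoc, hee]
  have h2 : ∀ a, e * a * e = e * a := fun a => hs _ (central_idem_mul_right g a e heJ)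
  -- the left ideal N = (1 - e) A e
  have h3 : ∀ a, e * (a * (1 - e)) = 0 := by
    intro a
    have := h2 a
    rw [mul_sub, mul_one, mul_sub, ← mul_assoc, this, sub_self]
  let N : Ideal A :=
    { carrier := {x | e * x = 0 ∧ x * e = x}
      add_mem' := by
        rintro x y ⟨hx1, hx2⟩ ⟨hy1, hy2⟩
        exact ⟨by rw [mul_add, hx1, hy1, add_zero], by rw [add_mul, hx2, hy2]⟩
      zero_mem' := by simp
      smul_mem' := by
        rintro c x ⟨hx1, hx2⟩
        refine ⟨?_, ?_⟩
        · have h4 : x = (1 - e) * x := by rw [sub_mul, one_mul, hx1, sub_zero]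
          have h5 : e * (c * x) = e * (c * (1 - e)) * x := by
            conv_lhs => rw [h4]
            simp only [mul_assoc]
          rw [smul_eq_mul, h5, h3, zero_mul]
        · rw [smul_eq_mul, mul_assoc, hx2] }
  obtain ⟨u, hu, hN⟩ := IsSemisimpleRing.ideal_eq_span_idempotent N
  have huu : u * u = u := hu
  have huN : u ∈ N := by rw [hN]; exact Ideal.mem_span_singleton_self u
  obtain ⟨hu1, hu2⟩ := huN
  have hu0 : u = 0 := by
    have h6 : u * u = u * e * u := by rw [hu2]
    rw [huu, mul_assoc, hu1, mul_zero] at h6
    exact h6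
  have hN0 : ∀ x, e * x = 0 → x * e = x → x = 0 := by
    intro x hx1 hx2
    have h7 : x ∈ N := ⟨hx1, hx2⟩
    rw [hN, hu0] at h7
    simpa using h7
  have hc : ∀ a, e * a = a * e := by
    intro a
    have h8 := hN0 ((1 - e) * (a * e)) (by
      rw [← mul_assoc, mul_sub, mul_one, hee, sub_self, zero_mul]) (by
      simp only [mul_assoc, hee])
    rw [sub_mul, one_mul, sub_eq_zero, ← mul_assoc, h2] at h8
    exact h8.symm
  exact ⟨e, hee, hc, heJ, fun z hz => by rw [hc z, hs z hz]⟩

end Pool.Agent.Helper563_BV
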