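import Mathlib
import Pool.Agent.Helper563_BV.Defs
set_option autoImplicit false
namespace Pool.Agent.Helper563_BV


/-
PROOF OF THE TARGET IN WORDS
Put p q = e, g1 = q p. Then g1 g1 = q (p q) p = q e p = g1, g g1 = g1 = g1 g, e g1 = e g q p = 0 and g1 e = 0. Let
E12(a) = 1 + a p (a in e A e; as a p = a p g1), E21(b) = 1 + q b (b in e A e). Both are units in EG A: 1 + e (a p) (1 - e) with
e e = e, because a p (1-e) = a p - a p g e = a p; inverse 1 - a p, since a p a p = a p g e a p = 0. Likewise
1 + q b = 1 + g1 (q b) (1 - g1) since g1 q b = q b and q b g1 = q b e g1 = 0. In the corner with matrix units e, p, q, g1 these are the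
elementary matrices [[1,a],[0,1]] and [[1,0],[b,1]]; Whitehead: [[d,0],[0,d']] = E12(d) E21(-d') E12(d) E12(-e) E21(e) E12(-e)
(d, d' mutually inverse in e A e). So eps := this product is in EG A and equals d + q d' p + (1 - e - g1); check by multiplying out
with the rules p q = e, p p = 0 (p p = p g e p = 0), q q = 0, p e = 0, e q = 0.
Let h = 1 - g1 + q d p, inverse 1 - g1 + q d' p. Then g h g + (1-g) = g - g1 + q d p + 1 - g = h. And
eps h = d + (1 - e - g1) + q d' p q d p = d + (1 - e - g1) + q p = d + (1 - e).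
(Any other arrangement of the computation is fine.)
-/

set_option linter.unusedSimpArgs false in
theorem whitehead_expand {A : Type*} [Ring A] (e g p q d d' : A) (he : e * e = e)
    (heg : e * g = 0) (hge : g * e = 0) (hpq : p * q = e) (hep : e * p = p) (hpg : p * g = p)
    (hgq : g * q = q) (hqe : q * e = q) (hed : e * d = d) (hde : d * e = d) (hed' : e * d' = d')
    (hde' : d' * e = d') (hdd : d * d' = e) (hdd' : d' * d = e) :
    (1 + d * p) * (1 + q * (-d')) * (1 + d * p) * ((1 + (-e) * p) * (1 + q * e) * (1 + (-e) * p)) =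
      d + q * d' * p + (1 - e - q * p) := by
  have hpe : p * e = 0 := by rw [← hpg, mul_assoc, hge, mul_zero]
  have heq : e * q = 0 := by rw [← hgq, ← mul_assoc, heg, zero_mul]
  have hpp : p * p = 0 := by
    calc p * p = p * (e * p) := by rw [hep]
      _ = (p * e) * p := by rw [mul_assoc]
      _ = 0 := by rw [hpe, zero_mul]
  have hqq : q * q = 0 := by
    calc q * q = (q * e) * q := by rw [hqe]
      _ = q * (e * q) := by rw [mul_assoc]
      _ = 0 := by rw [heq, mul_zero]
  have hpd : p * d = 0 := by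
    calc p * d = p * (e * d) := by rw [hed]
      _ = (p * e) * d := by rw [mul_assoc]
      _ = 0 := by rw [hpe, zero_mul]
  have hpd' : p * d' = 0 := by
    calc p * d' = p * (e * d') := by rw [hed']
      _ = (p * e) * d' := by rw [mul_assoc]
      _ = 0 := by rw [hpe, zero_mul]
  have hdq : d * q = 0 := by
    calc d * q = (d * e) * q := by rw [hde]
      _ = d * (e * q) := by rw [mul_assoc]
      _ = 0 := by rw [heq, mul_zero]
  have hdq' : d' * q = 0 := by
    calc d' * q = (d' * e) * q := by rw [hde']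
      _ = d' * (e * q) := by rw [mul_assoc]
      _ = 0 := by rw [heq, mul_zero]
  have a1 : ∀ x, p * (q * x) = e * x := fun x => by rw [← mul_assoc, hpq]
  have a2 : ∀ x, e * (p * x) = p * x := fun x => by rw [← mul_assoc, hep]
  have a3 : ∀ x, q * (e * x) = q * x := fun x => by rw [← mul_assoc, hqe]
  have a4 : ∀ x, e * (d * x) = d * x := fun x => by rw [← mul_assoc, hed]
  have a5 : ∀ x, d * (e * x) = d * x := fun x => by rw [← mul_assoc, hde]
  have a6 : ∀ x, e * (d' * x) = d' * x := fun x => by rw [← mul_assoc, hed']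
  have a7 : ∀ x, d' * (e * x) = d' * x := fun x => by rw [← mul_assoc, hde']
  have a8 : ∀ x, d * (d' * x) = e * x := fun x => by rw [← mul_assoc, hdd]
  have a9 : ∀ x, d' * (d * x) = e * x := fun x => by rw [← mul_assoc, hdd']
  have b1 : ∀ x, p * (e * x) = 0 := fun x => by rw [← mul_assoc, hpe, zero_mul]
  have b2 : ∀ x, e * (q * x) = 0 := fun x => by rw [← mul_assoc, heq, zero_mul]
  have b3 : ∀ x, p * (p * x) = 0 := fun x => by rw [← mul_assoc, hpp, zero_mul]
  have b4 : ∀ x, q * (q * x) = 0 := fun x => by rw [← mul_assoc, hqq, zero_mul]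
  have b5 : ∀ x, p * (d * x) = 0 := fun x => by rw [← mul_assoc, hpd, zero_mul]
  have b6 : ∀ x, p * (d' * x) = 0 := fun x => by rw [← mul_assoc, hpd', zero_mul]
  have b7 : ∀ x, d * (q * x) = 0 := fun x => by rw [← mul_assoc, hdq, zero_mul]
  have b8 : ∀ x, d' * (q * x) = 0 := fun x => by rw [← mul_assoc, hdq', zero_mul]
  have w1 : (1 + d * p) * (1 + q * (-d')) * (1 + d * p) = 1 - e - q * p + d * p - q * d' := by
    simp only [mul_add, add_mul, one_mul, mul_one, mul_neg, neg_mul, mul_assoc, hpq, hep, hqe, hed,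
      hde, hed', hde', hdd, hdd', hpe, heq, hpp, hqq, hpd, hpd', hdq, hdq', a1, a2, a3, a4, a5, a6,
      a7, a8, a9, b1, b2, b3, b4, b5, b6, b7, b8, he, mul_zero, zero_mul, neg_zero]
    abel
  have w2 : (1 + (-e) * p) * (1 + q * e) * (1 + (-e) * p) = 1 - e - q * p - p + q := by
    simp only [mul_add, add_mul, one_mul, mul_one, mul_neg, neg_mul, mul_assoc, hpq, hep, hqe, hed,
      hde, hed', hde', hdd, hdd', hpe, heq, hpp, hqq, hpd, hpd', hdq, hdq', a1, a2, a3, a4, a5, a6,
      a7, a8, a9, b1, b2, b3, b4, b5, b6, b7, b8, he, mul_zero, zero_mul, neg_zero]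
    abel
  rw [w1, w2]
  simp only [mul_add, add_mul, mul_sub, sub_mul, one_mul, mul_one, mul_neg, neg_mul, mul_assoc, hpq,
    hep, hqe, hed,
    hde, hed', hde', hdd, hdd', hpe, heq, hpp, hqq, hpd, hpd', hdq, hdq', a1, a2, a3, a4, a5, a6,
    a7, a8, a9, b1, b2, b3, b4, b5, b6, b7, b8, he, mul_zero, zero_mul, neg_zero]
  abel

theorem whitehead_mem12 {A : Type*} [Ring A] (e g p a : A) (he : e * e = e) (hge : g * e = 0)
    (hep : e * p = p) (hpg : p * g = p) (ha : e * a = a) (ha' : a * e = a) :
    ∃ ε ∈ EG A, (ε : A) = 1 + a * p := by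
  have hpe : p * e = 0 := by rw [← hpg, mul_assoc, hge, mul_zero]
  have hsq : (a * p) * (a * p) = 0 := by
    calc (a * p) * (a * p) = (a * p) * ((e * a) * p) := by rw [ha]
      _ = a * (p * e) * (a * p) := by simp only [mul_assoc]
      _ = 0 := by rw [hpe, mul_zero, zero_mul]
  refine ⟨⟨1 + a * p, 1 - a * p, ?_, ?_⟩, Subgroup.subset_closure ⟨e, a * p, he, ?_⟩, rfl⟩
  · have : (1 + a * p) * (1 - a * p) = 1 - (a * p) * (a * p) := by noncomm_ring
    rw [this, hsq, sub_zero]
  · have : (1 - a * p) * (1 + a * p) = 1 - (a * p) * (a * p) := by noncomm_ring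
    rw [this, hsq, sub_zero]
  · show 1 + a * p = 1 + e * (a * p) * (1 - e)
    rw [← mul_assoc, ha, mul_sub, mul_one, mul_assoc a p e, hpe, mul_zero, sub_zero]

theorem whitehead_mem21 {A : Type*} [Ring A] (e g p q b : A) (hpq : p * q = e)
    (heg : e * g = 0) (hgq : g * q = q) (hqe : q * e = q) (hep : e * p = p)
    (hb : e * b = b) (hb' : b * e = b) :
    ∃ ε ∈ EG A, (ε : A) = 1 + q * b := by
  have heq : e * q = 0 := by rw [← hgq, ← mul_assoc, heg, zero_mul]
  have hbq : b * q = 0 := by
    calc b * q = (b * e) * q := by rw [hb']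
      _ = b * (e * q) := by rw [mul_assoc]
      _ = 0 := by rw [heq, mul_zero]
  have hsq : (q * b) * (q * b) = 0 := by
    calc (q * b) * (q * b) = q * (b * q) * b := by simp only [mul_assoc]
      _ = 0 := by rw [hbq, mul_zero, zero_mul]
  refine ⟨⟨1 + q * b, 1 - q * b, ?_, ?_⟩, Subgroup.subset_closure ⟨q * p, q * b, ?_, ?_⟩, rfl⟩
  · have : (1 + q * b) * (1 - q * b) = 1 - (q * b) * (q * b) := by noncomm_ring
    rw [this, hsq, sub_zero]
  · have : (1 - q * b) * (1 + q * b) = 1 - (q * b) * (q * b) := by noncomm_ring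
    rw [this, hsq, sub_zero]
  · calc (q * p) * (q * p) = q * (p * q) * p := by simp only [mul_assoc]
      _ = q * p := by rw [hpq, hqe]
  · show 1 + q * b = 1 + (q * p) * (q * b) * (1 - q * p)
    have h1 : (q * p) * (q * b) = q * b := by
      calc (q * p) * (q * b) = q * (p * q) * b := by simp only [mul_assoc]
        _ = q * b := by rw [hpq, hqe]
    have h2 : (q * b) * (q * p) = 0 := by
      calc (q * b) * (q * p) = q * (b * q) * p := by simp only [mul_assoc]
        _ = 0 := by rw [hbq, mul_zero, zero_mul]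
    rw [h1, mul_sub, mul_one, h2, sub_zero]

-- TARGET
theorem whitehead {A : Type*} [Ring A] (e g p q d d' : A) (he : e * e = e) (hg : g * g = g)
    (heg : e * g = 0) (hge : g * e = 0) (hpq : p * q = e) (hep : e * p = p) (hpg : p * g = p)
    (hgq : g * q = q) (hqe : q * e = q) (hed : e * d = d) (hde : d * e = d) (hed' : e * d' = d')
    (hde' : d' * e = d') (hdd : d * d' = e) (hdd' : d' * d = e) :
    ∃ ε ∈ EG A, ∃ h : Aˣ, (h : A) = g * h * g + (1 - g) ∧
      (ε : A) * (h : A) = d + (1 - e) := by
  obtain ⟨x1, m1, v1⟩ := whitehead_mem12 e g p d he hge hep hpg hed hde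
  obtain ⟨x2, m2, v2⟩ := whitehead_mem21 e g p q (-d') hpq heg hgq hqe hep
    (by rw [mul_neg, hed']) (by rw [neg_mul, hde'])
  obtain ⟨x3, m3, v3⟩ := whitehead_mem12 e g p (-e) he hge hep hpg
    (by rw [mul_neg, he]) (by rw [neg_mul, he])
  obtain ⟨x4, m4, v4⟩ := whitehead_mem21 e g p q e hpq heg hgq hqe hep he he
  have hpe : p * e = 0 := by rw [← hpg, mul_assoc, hge, mul_zero]
  have heq : e * q = 0 := by rw [← hgq, ← mul_assoc, heg, zero_mul]
  have hgq' : q * p * (q * p) = q * p := by
    calc (q * p) * (q * p) = q * (p * q) * p := by simp only [mul_assoc]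
      _ = q * p := by rw [hpq, hqe]
  have ha : (q * p) * (q * d * p) = q * d * p := by
    calc (q * p) * (q * d * p) = q * (p * q) * d * p := by simp only [mul_assoc]
      _ = q * d * p := by rw [hpq, hqe]
  have ha' : (q * p) * (q * d' * p) = q * d' * p := by
    calc (q * p) * (q * d' * p) = q * (p * q) * d' * p := by simp only [mul_assoc]
      _ = q * d' * p := by rw [hpq, hqe]
  have hb : (q * d * p) * (q * p) = q * d * p := by
    calc (q * d * p) * (q * p) = q * (d * (p * q)) * p := by simp only [mul_assoc]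
      _ = q * d * p := by rw [hpq, hde]
  have hb' : (q * d' * p) * (q * p) = q * d' * p := by
    calc (q * d' * p) * (q * p) = q * (d' * (p * q)) * p := by simp only [mul_assoc]
      _ = q * d' * p := by rw [hpq, hde']
  have hc : (q * d * p) * (q * d' * p) = q * p := by
    calc (q * d * p) * (q * d' * p) = q * ((d * (p * q)) * d') * p := by simp only [mul_assoc]
      _ = q * p := by rw [hpq, hde, hdd, hqe]
  have hc' : (q * d' * p) * (q * d * p) = q * p := by
    calc (q * d' * p) * (q * d * p) = q * ((d' * (p * q)) * d) * p := by simp only [mul_assoc]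
      _ = q * p := by rw [hpq, hde', hdd', hqe]
  refine ⟨x1 * x2 * x1 * (x3 * x4 * x3), ?_, ⟨1 - q * p + q * d * p, 1 - q * p + q * d' * p, ?_, ?_⟩,
    ?_, ?_⟩
  · exact mul_mem (mul_mem (mul_mem m1 m2) m1) (mul_mem (mul_mem m3 m4) m3)
  · have : (1 - q * p + q * d * p) * (1 - q * p + q * d' * p) = 1 - q * p - q * p
        + (q * p) * (q * p) + q * d' * p - (q * p) * (q * d' * p) + q * d * p
        - (q * d * p) * (q * p) + (q * d * p) * (q * d' * p) := by noncomm_ring
    rw [this, hgq', ha', hb, hc]
    abel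
  · have : (1 - q * p + q * d' * p) * (1 - q * p + q * d * p) = 1 - q * p - q * p
        + (q * p) * (q * p) + q * d * p - (q * p) * (q * d * p) + q * d' * p
        - (q * d' * p) * (q * p) + (q * d' * p) * (q * d * p) := by noncomm_ring
    rw [this, hgq', ha, hb', hc']
    abel
  · show 1 - q * p + q * d * p = g * (1 - q * p + q * d * p) * g + (1 - g)
    have e1 : g * (q * p) * g = q * p := by
      calc g * (q * p) * g = (g * q) * (p * g) := by simp only [mul_assoc]
        _ = q * p := by rw [hgq, hpg]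
    have e2 : g * (q * d * p) * g = q * d * p := by
      calc g * (q * d * p) * g = (g * q) * d * (p * g) := by simp only [mul_assoc]
        _ = q * d * p := by rw [hgq, hpg]
    have e3 : g * (1 - q * p + q * d * p) * g = g * g - g * (q * p) * g + g * (q * d * p) * g := by
      rw [mul_add, mul_sub, mul_one, add_mul, sub_mul]
    rw [e3, e1, e2, hg]
    abel
  · have hE := whitehead_expand e g p q d d' he heg hge hpq hep hpg hgq hqe hed hde hed' hde' hdd
      hdd'
    have hv : ((x1 * x2 * x1 * (x3 * x4 * x3) : Aˣ) : A) = d + q * d' * p + (1 - e - q * p) := by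
      rw [← hE]
      simp only [Units.val_mul, v1, v2, v3, v4]
    rw [hv]
    show (d + q * d' * p + (1 - e - q * p)) * (1 - q * p + q * d * p) = d + (1 - e)
    have f1 : d * (q * p) = 0 := by
      calc d * (q * p) = (d * e) * (q * p) := by rw [hde]
        _ = d * (e * q) * p := by simp only [mul_assoc]
        _ = 0 := by rw [heq, mul_zero, zero_mul]
    have f2 : d * (q * d * p) = 0 := by
      calc d * (q * d * p) = (d * e) * (q * d * p) := by rw [hde]
        _ = d * (e * q) * d * p := by simp only [mul_assoc]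
        _ = 0 := by rw [heq, mul_zero, zero_mul, zero_mul]
    have f3 : e * (q * p) = 0 := by rw [← mul_assoc, heq, zero_mul]
    have f4 : e * (q * d * p) = 0 := by
      rw [← mul_assoc, ← mul_assoc, heq, zero_mul, zero_mul]
    have : (d + q * d' * p + (1 - e - q * p)) * (1 - q * p + q * d * p) =
        d - d * (q * p) + d * (q * d * p) + q * d' * p - (q * d' * p) * (q * p)
        + (q * d' * p) * (q * d * p) + 1 - q * p + q * d * p - e + e * (q * p) - e * (q * d * p)
        - q * p + (q * p) * (q * p) - (q * p) * (q * d * p) := by noncomm_ring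
    rw [this, f1, f2, f3, f4, hgq', ha, hb', hc']
    abel

end Pool.Agent.Helper563_BV
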