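import Mathlib
import Pool.Agent.Helper563_BV.Defs
set_option autoImplicit false

namespace Pool.Agent.Helper563_BV


theorem pivot_E {A : Type*} [Ring A] (p z : A) (hp : p * p = p) :
    ∃ u ∈ EG A, (u : A) = 1 + p * z * (1 - p) := by
  have h0 : (1 - p) * p = 0 := by rw [sub_mul, one_mul, hp, sub_self]
  have h1 : (p * z * (1 - p)) * (p * z * (1 - p)) = 0 := by
    calc (p * z * (1 - p)) * (p * z * (1 - p)) = p * z * ((1 - p) * p) * z * (1 - p) := by
          simp only [mul_assoc]
      _ = 0 := by rw [h0]; simp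
  obtain ⟨n, hn⟩ : ∃ n, n = p * z * (1 - p) := ⟨_, rfl⟩
  rw [← hn] at h1
  have k1 : (1 + n) * (1 - n) = 1 := by
    calc (1 + n) * (1 - n) = 1 - n * n := by noncomm_ring
      _ = 1 := by rw [h1, sub_zero]
  have k2 : (1 - n) * (1 + n) = 1 := by
    calc (1 - n) * (1 + n) = 1 - n * n := by noncomm_ring
      _ = 1 := by rw [h1, sub_zero]
  refine ⟨⟨1 + n, 1 - n, k1, k2⟩, Subgroup.subset_closure ⟨p, z, hp, ?_⟩, ?_⟩
  · show 1 + n = _
    rw [hn]
  · show 1 + n = _
    rw [hn]

/-- Steps 2 and 3. -/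
theorem pivot_main {A : Type*} [Ring A] (f e : A) (hf : f * f = f) (he : e * e = e)
    (hfe : f * e = e) (hef : e * f = e)
    (a : Aˣ) (ha : (a : A) = f * a * f + (1 - f)) (d d' : A) (hd : d = e * a * e)
    (hd'1 : e * d' = d') (hd'2 : d' * e = d') (hdd' : d * d' = e) (hd'd : d' * d = e) :
    ∃ ε₁ ∈ EG A, ∃ ε₂ ∈ EG A, ∃ a' : Aˣ, (a' : A) = (f - e) * a' * (f - e) + (1 - (f - e)) ∧
        (ε₁ : A) * (a : A) * (ε₂ : A) = (d + (1 - e)) * (a' : A) := by
  obtain ⟨g, hg⟩ : ∃ g, g = f - e := ⟨_, rfl⟩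
  have hgg : g * g = g := by rw [hg, mul_sub, sub_mul, sub_mul, hf, hef, hfe, he]; abel
  have heg : e * g = 0 := by rw [hg, mul_sub, hef, he, sub_self]
  have hge : g * e = 0 := by rw [hg, sub_mul, hfe, he, sub_self]
  have hfg : f * g = g := by rw [hg, mul_sub, hf, hfe]
  have hgf : g * f = g := by rw [hg, sub_mul, hf, hef]
  have hfeg : f = e + g := by rw [hg]; abel
  have hd'g : d' * g = 0 := by rw [← hd'2, mul_assoc, heg, mul_zero]
  have hgd' : g * d' = 0 := by rw [← hd'1, ← mul_assoc, hge, zero_mul]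
  have hed : e * d = d := by rw [hd, ← mul_assoc, ← mul_assoc, he]
  have hde : d * e = d := by rw [hd, mul_assoc, he]
  have hdg : d * g = 0 := by rw [← hde, mul_assoc, heg, mul_zero]
  obtain ⟨b, hb⟩ : ∃ b : A, b = (a : A) := ⟨_, rfl⟩
  rw [← hb] at ha hd
  -- the blocks
  have hbg : b = e * b * e + e * b * g + g * b * e + g * b * g + (1 - e - g) := by
    calc b = f * b * f + (1 - f) := ha
      _ = _ := by rw [hfeg]; noncomm_ring
  obtain ⟨x, hx⟩ : ∃ x, x = e * b * g := ⟨_, rfl⟩
  obtain ⟨y, hy⟩ : ∃ y, y = g * b * e := ⟨_, rfl⟩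
  obtain ⟨w, hw⟩ : ∃ w, w = g * b * g := ⟨_, rfl⟩
  have hbd : b = d + x + y + w + (1 - e - g) := by rw [hd, hx, hy, hw]; exact hbg
  have hex : e * x = x := by rw [hx, ← mul_assoc, ← mul_assoc, he]
  have hxg : x * g = x := by rw [hx, mul_assoc, hgg]
  have hgy : g * y = y := by rw [hy, ← mul_assoc, ← mul_assoc, hgg]
  have hye : y * e = y := by rw [hy, mul_assoc, he]
  have hgw : g * w = w := by rw [hw, ← mul_assoc, ← mul_assoc, hgg]
  have hwg : w * g = w := by rw [hw, mul_assoc, hgg]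
  have hgd : g * d = 0 := by rw [← hed, ← mul_assoc, hge, zero_mul]
  have hgx : g * x = 0 := by rw [← hex, ← mul_assoc, hge, zero_mul]
  have hxe : x * e = 0 := by rw [← hxg, mul_assoc, hge, mul_zero]
  have hyg : y * g = 0 := by rw [← hye, mul_assoc, heg, mul_zero]
  have hey : e * y = 0 := by rw [← hgy, ← mul_assoc, heg, zero_mul]
  have hew : e * w = 0 := by rw [← hgw, ← mul_assoc, heg, zero_mul]
  have hwe : w * e = 0 := by rw [← hwg, mul_assoc, hge, mul_zero]
  have hd'y : d' * y = 0 := by rw [← hd'2, mul_assoc, hey, mul_zero]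
  have hd'w : d' * w = 0 := by rw [← hd'2, mul_assoc, hew, mul_zero]
  have hxd' : x * d' = 0 := by rw [← hd'1, ← mul_assoc, hxe, zero_mul]
  have hwd' : w * d' = 0 := by rw [← hd'1, ← mul_assoc, hwe, zero_mul]
  -- the units
  obtain ⟨u, hu, hu'⟩ := pivot_E g (-(y * d')) hgg
  obtain ⟨v, hv, hv'⟩ := pivot_E e (-(d' * x)) he
  have hu1 : (u : A) = 1 - y * d' := by
    rw [hu']
    have : g * -(y * d') * (1 - g) = -(y * d') := by
      rw [mul_neg, neg_mul, mul_sub, mul_one, ← mul_assoc g, hgy, mul_assoc y, hd'g, mul_zero,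
        sub_zero]
    rw [this]; abel
  have hv1 : (v : A) = 1 - d' * x := by
    rw [hv']
    have : e * -(d' * x) * (1 - e) = -(d' * x) := by
      rw [mul_neg, neg_mul, mul_sub, mul_one, ← mul_assoc e, hd'1, mul_assoc d', hxe, mul_zero,
        sub_zero]
    rw [this]; abel
  -- the product
  have p1 : (u : A) * b = d + x + (w - y * d' * x) + (1 - e - g) := by
    rw [hu1, hbd, sub_mul, one_mul]
    have : y * d' * (d + x + y + w + (1 - e - g)) = y + y * d' * x := by
      simp only [mul_add, mul_sub, mul_assoc, hd'd, hd'y, hd'w, hd'2, hd'g, hye, mul_zero, mul_one]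
      abel
    rw [this]; abel
  have p2 : (u : A) * b * (v : A) = d + (w - y * d' * x) + (1 - e - g) := by
    rw [p1, hv1, mul_sub, mul_one]
    have : (d + x + (w - y * d' * x) + (1 - e - g)) * (d' * x) = x := by
      have e1 : d * (d' * x) = x := by rw [← mul_assoc, hdd', hex]
      have e2 : x * (d' * x) = 0 := by rw [← mul_assoc, hxd', zero_mul]
      have e3 : w * (d' * x) = 0 := by rw [← mul_assoc, hwd', zero_mul]
      have e4 : y * d' * x * (d' * x) = 0 := by rw [mul_assoc (y * d'), e2, mul_zero]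
      have e5 : e * (d' * x) = d' * x := by rw [← mul_assoc, hd'1]
      have e6 : g * (d' * x) = 0 := by rw [← mul_assoc, hgd', zero_mul]
      simp only [add_mul, sub_mul, e1, e2, e3, e4, e5, e6, one_mul]
      abel
    rw [this]; abel
  -- the first factor
  have q1 : (d + (1 - e)) * (d' + (1 - e)) = 1 := by
    simp only [mul_add, add_mul, mul_sub, sub_mul, hdd', hde, hd'1, he, one_mul, mul_one]
    abel
  have q2 : (d' + (1 - e)) * (d + (1 - e)) = 1 := by
    simp only [mul_add, add_mul, mul_sub, sub_mul, hd'd, hed, hd'2, he, one_mul, mul_one]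
    abel
  obtain ⟨D, hD⟩ : ∃ D : Aˣ, (D : A) = d + (1 - e) ∧ (↑D⁻¹ : A) = d' + (1 - e) :=
    ⟨⟨d + (1 - e), d' + (1 - e), q1, q2⟩, rfl, rfl⟩
  have p3 : (↑(D⁻¹ * (u * a * v)) : A) = (w - y * d' * x) + (1 - g) := by
    rw [Units.val_mul, Units.val_mul, Units.val_mul, ← hb, p2, hD.2]
    have e0 : d' * (w - y * d' * x) = 0 := by
      rw [mul_sub, hd'w, ← mul_assoc, ← mul_assoc, hd'y, zero_mul, zero_mul, sub_zero]
    have e1 : e * (w - y * d' * x) = 0 := by
      rw [mul_sub, hew, ← mul_assoc, ← mul_assoc, hey, zero_mul, zero_mul, sub_zero]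
    obtain ⟨s, hs⟩ : ∃ s, s = w - y * d' * x := ⟨_, rfl⟩
    rw [← hs] at e0 e1 ⊢
    simp only [mul_add, add_mul, mul_sub, sub_mul, hd'd, hed, hd'2, he, one_mul, mul_one, e0, e1,
      heg, hd'g, sub_zero]
    abel
  refine ⟨u, hu, v, hv, D⁻¹ * (u * a * v), ?_, ?_⟩
  · rw [← hg, p3]
    have e0 : g * (w - y * d' * x) * g = w - y * d' * x := by
      rw [mul_sub, sub_mul, hgw, hwg, ← mul_assoc, ← mul_assoc, hgy, mul_assoc (y * d'), hxg]
    rw [mul_add, add_mul, e0, mul_sub, mul_one, hgg, sub_self, zero_mul, add_zero]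
  · rw [← hD.1, ← Units.val_mul D, mul_inv_cancel_left, Units.val_mul, Units.val_mul]

-- TARGET
theorem pivot {A : Type*} [Ring A] (f e : A) (hf : f * f = f) (he : e * e = e)
    (hfe : f * e = e) (hef : e * f = e) (he0 : e ≠ 0)
    (hprim : ∀ x : A, x * e ≠ 0 → ∃ z : A, z * (x * e) = e)
    (a : Aˣ) (ha : (a : A) = f * a * f + (1 - f)) :
    ∃ ε₁ ∈ EG A, ∃ ε₂ ∈ EG A, ∃ d d' : A, e * d = d ∧ d * e = d ∧ e * d' = d' ∧ d' * e = d' ∧
      d * d' = e ∧ d' * d = e ∧ ∃ a' : Aˣ, (a' : A) = (f - e) * a' * (f - e) + (1 - (f - e)) ∧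
        (ε₁ : A) * (a : A) * (ε₂ : A) = (d + (1 - e)) * (a' : A) := by
  by_cases h : e * (a : A) * e = 0
  · -- the second case
    obtain ⟨g, hg⟩ : ∃ g, g = f - e := ⟨_, rfl⟩
    have hge : g * e = 0 := by rw [hg, sub_mul, hfe, he, sub_self]
    have hgf : g * f = g := by rw [hg, sub_mul, hf, hef]
    obtain ⟨z, hz⟩ : ∃ z : A, z = (↑a⁻¹ : A) := ⟨_, rfl⟩
    have hza : z * (a : A) = 1 := by rw [hz]; exact a.inv_mul
    have hae : (a : A) * e = g * (a : A) * e := by
      have h1 : (a : A) * e = f * (a : A) * e := by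
        have h2 : (a : A) * e = (f * a * f + (1 - f)) * e := by rw [← ha]
        rw [h2, add_mul, sub_mul, one_mul, hfe, sub_self, add_zero, mul_assoc (f * (a : A)), hfe]
      calc (a : A) * e = f * (a : A) * e := h1
        _ = (e + g) * (a : A) * e := by rw [hg]; congr 2; abel
        _ = e * (a : A) * e + g * (a : A) * e := by rw [add_mul, add_mul]
        _ = _ := by rw [h, zero_add]
    have hez : e * z * g * (a : A) * e = e := by
      calc e * z * g * (a : A) * e = e * z * (g * (a : A) * e) := by simp only [mul_assoc]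
        _ = e * z * ((a : A) * e) := by rw [← hae]
        _ = e * (z * (a : A)) * e := by simp only [mul_assoc]
        _ = e := by rw [hza, mul_one, he]
    obtain ⟨u, hu, hu'⟩ := pivot_E e (z * g) he
    have hu1 : (u : A) = 1 + e * z * g := by
      rw [hu', mul_sub, mul_one]
      have : e * (z * g) * e = 0 := by rw [mul_assoc, mul_assoc z, hge, mul_zero, mul_zero]
      rw [this, sub_zero, mul_assoc]
    have ha2 : (↑(u * a) : A) = f * ↑(u * a) * f + (1 - f) := by
      rw [Units.val_mul, hu1, add_mul, one_mul]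
      have e1 : g * (a : A) * f = g * (a : A) := by
        have h2 : g * (a : A) = g * (f * a * f + (1 - f)) := by rw [← ha]
        rw [h2, mul_add, mul_sub, mul_one, hgf, sub_self, add_zero, ← mul_assoc, ← mul_assoc, hgf,
          mul_assoc (g * (a : A)), hf]
      have e2 : f * (e * z * g * (a : A)) * f = e * z * g * (a : A) := by
        calc f * (e * z * g * (a : A)) * f = (f * e) * z * (g * (a : A) * f) := by
              simp only [mul_assoc]
          _ = e * z * (g * (a : A)) := by rw [hfe, e1]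
          _ = _ := by simp only [mul_assoc]
      rw [mul_add, add_mul, e2, add_right_comm, ← ha]
    have hd : e = e * ↑(u * a) * e := by
      rw [Units.val_mul, hu1, add_mul, one_mul, mul_add, add_mul, h, zero_add]
      have : e * (e * z * g * (a : A)) * e = e * z * g * (a : A) * e := by
        rw [← mul_assoc, ← mul_assoc, ← mul_assoc, he]
      rw [this, hez]
    obtain ⟨ε₁, h1, ε₂, h2, a', h3, h4⟩ := pivot_main f e hf he hfe hef (u * a) ha2 e e hd he he he
      he
    refine ⟨ε₁ * u, (EG A).mul_mem h1 hu, ε₂, h2, e, e, he, he, he, he, he, he, a', h3, ?_⟩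
    rw [← h4, Units.val_mul, Units.val_mul]
    simp only [mul_assoc]
  · -- the first case
    obtain ⟨z, hz⟩ := hprim (e * a) h
    obtain ⟨d, hd⟩ : ∃ d, d = e * (a : A) * e := ⟨_, rfl⟩
    obtain ⟨d', hd'⟩ : ∃ d', d' = e * z * e := ⟨_, rfl⟩
    have hed : e * d = d := by rw [hd, ← mul_assoc, ← mul_assoc, he]
    have hde : d * e = d := by rw [hd, mul_assoc, he]
    have hed' : e * d' = d' := by rw [hd', ← mul_assoc, ← mul_assoc, he]
    have hde' : d' * e = d' := by rw [hd', mul_assoc, he]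
    rw [← hd] at hz
    have h1 : d' * d = e := by rw [hd', mul_assoc, hed, mul_assoc, hz, he]
    have h2 : d' * e ≠ 0 := by
      rw [hde']
      intro h3
      rw [h3, zero_mul] at h1
      exact he0 h1.symm
    obtain ⟨z2, hz2⟩ := hprim d' h2
    rw [hde'] at hz2
    have h3 : d * d' = e := by
      have h4 : z2 * e = d := by
        calc z2 * e = z2 * (d' * d) := by rw [h1]
          _ = d := by rw [← mul_assoc, hz2, hed]
      calc d * d' = z2 * e * d' := by rw [h4]
        _ = e := by rw [mul_assoc, hed', hz2]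
    obtain ⟨ε₁, k1, ε₂, k2, a', k3, k4⟩ := pivot_main f e hf he hfe hef a ha d d' hd hed' hde' h3 h1
    exact ⟨ε₁, k1, ε₂, k2, d, d', hed, hde, hed', hde', h3, h1, a', k3, k4⟩

end Pool.Agent.Helper563_BV
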