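import Mathlib
import Pool.Agent.Helper563_BV.Defs
import Pool.Agent.Helper563_BV.A1
import Pool.Agent.Helper563_BV.A3a
import Pool.Agent.Helper563_BV.A3b
set_option autoImplicit false
namespace Pool.Agent.Helper563_BV






theorem K1lemma_normal {A : Type*} [Ring A] (h : Aˣ) {x : Aˣ} (hx : x ∈ EG A) :
    h * x * h⁻¹ ∈ EG A := by
  unfold EG at hx
  induction hx using Subgroup.closure_induction with
  | mem x hx =>
    obtain ⟨f, z, hf, hx⟩ := hx
    refine Subgroup.subset_closure ⟨h * f * (h⁻¹ : Aˣ), h * z * (h⁻¹ : Aˣ), ?_, ?_⟩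
    · calc (h : A) * f * (h⁻¹ : Aˣ) * (h * f * (h⁻¹ : Aˣ)) =
          h * f * ((h⁻¹ : Aˣ) * h) * f * (h⁻¹ : Aˣ) := by noncomm_ring
        _ = h * (f * f) * (h⁻¹ : Aˣ) := by rw [Units.inv_mul]; noncomm_ring
        _ = _ := by rw [hf]
    · have h1 : ((h * x * h⁻¹ : Aˣ) : A) = h * (1 + f * z * (1 - f)) * (h⁻¹ : Aˣ) := by
        rw [Units.val_mul, Units.val_mul, hx]
      rw [h1]
      calc (h : A) * (1 + f * z * (1 - f)) * (h⁻¹ : Aˣ) =
          h * (h⁻¹ : Aˣ) + h * f * 1 * z * 1 * (h⁻¹ : Aˣ) - h * f * 1 * z * 1 * f * (h⁻¹ : Aˣ) := by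
            noncomm_ring
        _ = h * (h⁻¹ : Aˣ) + h * f * ((h⁻¹ : Aˣ) * h) * z * ((h⁻¹ : Aˣ) * h) * (h⁻¹ : Aˣ) -
            h * f * ((h⁻¹ : Aˣ) * h) * z * ((h⁻¹ : Aˣ) * h) * f * (h⁻¹ : Aˣ) := by
            rw [Units.inv_mul]
        _ = h * (h⁻¹ : Aˣ) + h * f * ((h⁻¹ : Aˣ) * h) * z * (h⁻¹ : Aˣ) * (h * (h⁻¹ : Aˣ)) -
            h * f * ((h⁻¹ : Aˣ) * h) * z * ((h⁻¹ : Aˣ) * h) * f * (h⁻¹ : Aˣ) := by
            noncomm_ring
        _ = _ := by
            rw [Units.mul_inv]
            noncomm_ring
  | one => simpa using (EG A).one_mem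
  | mul x y _ _ hx hy =>
    have := (EG A).mul_mem hx hy
    rwa [show h * x * h⁻¹ * (h * y * h⁻¹) = h * (x * y) * h⁻¹ by group] at this
  | inv x _ hx =>
    have := (EG A).inv_mem hx
    rwa [show (h * x * h⁻¹)⁻¹ = h * x⁻¹ * h⁻¹ by group] at this

theorem K1lemma_left {A : Type*} [Ring A] {g z : A} (hz : z ∈ Idl g) (c : A) : c * z ∈ Idl g := by
  unfold Idl at hz
  induction hz using AddSubgroup.closure_induction with
  | mem x hx =>
    obtain ⟨a, b, rfl⟩ := hx
    exact AddSubgroup.subset_closure ⟨c * a, b, by noncomm_ring⟩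
  | zero => simpa using (Idl g).zero_mem
  | add x y _ _ hx hy =>
    rw [mul_add]
    exact (Idl g).add_mem hx hy
  | neg x _ hx =>
    rw [mul_neg]
    exact (Idl g).neg_mem hx

theorem K1lemma_comm {A : Type*} [Ring A] {g h : A} (hg : g * g = g)
    (hh : h = g * h * g + (1 - g)) : g * h = g * h * g ∧ h * g = g * h * g := by
  constructor
  · calc g * h = g * (g * h * g + (1 - g)) := by rw [← hh]
      _ = (g * g) * h * g + (g - g * g) := by noncomm_ring
      _ = g * h * g := by rw [hg]; noncomm_ring
  · calc h * g = (g * h * g + (1 - g)) * g := by rw [← hh]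
      _ = g * h * (g * g) + (g - g * g) := by noncomm_ring
      _ = g * h * g := by rw [hg]; noncomm_ring

theorem K1lemma_prod {A : Type*} [Ring A] {g h k : A} (hg : g * g = g)
    (hh : h = g * h * g + (1 - g)) (hk : k = g * k * g + (1 - g)) :
    h * k = g * (h * k) * g + (1 - g) := by
  obtain ⟨h1, h2⟩ := K1lemma_comm hg hh
  obtain ⟨h3, h4⟩ := K1lemma_comm hg hk
  have e1 : g * (h * k) * g = g * h * g * k * g := by
    calc g * (h * k) * g = (g * h) * (k * g) := by noncomm_ring
      _ = (g * h) * (g * k * g) := by rw [h4]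
      _ = g * h * g * k * g := by noncomm_ring
  rw [e1]
  calc h * k = (g * h * g + (1 - g)) * (g * k * g + (1 - g)) := by rw [← hh, ← hk]
    _ = g * h * (g * g) * k * g + g * h * (g - g * g) + (g - g * g) * k * g +
        (1 - g - g + g * g) := by noncomm_ring
    _ = g * h * g * k * g + (1 - g) := by rw [hg]; noncomm_ring

theorem K1lemma_aux {A : Type*} [Ring A] [IsSemisimpleRing A] (g : A) (hg : g * g = g)
    (L : Submodule A A) : ∀ f : A, f * f = f → f * g = g → g * f = g → f ∈ Idl g →
      Submodule.span A {f - g} = L → ∀ a : Aˣ, (a : A) = f * a * f + (1 - f) →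
      ∃ ε ∈ EG A, ∃ h : Aˣ, a = ε * h ∧ (h : A) = g * h * g + (1 - g) := by
  induction L using WellFoundedLT.induction with
  | ind L ih =>
    intro f hf hfg hgf hI hL a ha
    by_cases hfe : f = g
    · subst hfe
      exact ⟨1, (EG A).one_mem, a, by rw [one_mul], ha⟩
    · have h0 : f - g ≠ 0 := sub_ne_zero.2 hfe
      have hh : (f - g) * (f - g) = f - g := by
        calc (f - g) * (f - g) = f * f - f * g - g * f + g * g := by noncomm_ring
          _ = f - g := by rw [hf, hfg, hgf, hg]; noncomm_ring
      obtain ⟨e, he0, he, hhe, heh, hprim⟩ := prim_exists (f - g) hh h0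
      have f_e : f * e = e := by
        calc f * e = f * ((f - g) * e) := by rw [hhe]
          _ = (f * f - f * g) * e := by noncomm_ring
          _ = e := by rw [hf, hfg, hhe]
      have e_f : e * f = e := by
        calc e * f = (e * (f - g)) * f := by rw [heh]
          _ = e * (f * f - g * f) := by noncomm_ring
          _ = e := by rw [hf, hgf, heh]
      have g_e : g * e = 0 := by
        calc g * e = g * ((f - g) * e) := by rw [hhe]
          _ = (g * f - g * g) * e := by noncomm_ring
          _ = 0 := by rw [hgf, hg, sub_self, zero_mul]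
      have e_g : e * g = 0 := by
        calc e * g = (e * (f - g)) * g := by rw [heh]
          _ = e * (f * g - g * g) := by noncomm_ring
          _ = 0 := by rw [hfg, hg, sub_self, mul_zero]
      obtain ⟨ε₁, hε₁, ε₂, hε₂, d, d', hed, hde, hed', hde', hdd, hdd', a', ha', hpiv⟩ :=
        pivot f e hf he f_e e_f he0 hprim a ha
      have hf1 : (f - e) * (f - e) = f - e := by
        calc (f - e) * (f - e) = f * f - f * e - e * f + e * e := by noncomm_ring
          _ = f - e := by rw [hf, f_e, e_f, he]; noncomm_ring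
      have hlt : Submodule.span A {f - e - g} < L := by
        rw [← hL]
        refine lt_of_le_of_ne ?_ fun heq => ?_
        · rw [Submodule.span_singleton_le_iff_mem, Submodule.mem_span_singleton]
          refine ⟨f - e - g, ?_⟩
          rw [smul_eq_mul]
          calc (f - e - g) * (f - g) = (f - g) * (f - g) - e * (f - g) := by noncomm_ring
            _ = f - e - g := by rw [hh, heh]; noncomm_ring
        · have h1 : e ∈ Submodule.span A {f - g} :=
            Submodule.mem_span_singleton.2 ⟨e, heh⟩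
          rw [← heq, Submodule.mem_span_singleton] at h1
          obtain ⟨x, hx⟩ := h1
          rw [smul_eq_mul] at hx
          apply he0
          calc e = (x * (f - e - g)) * e := by rw [hx, he]
            _ = x * ((f - g) * e - e * e) := by noncomm_ring
            _ = 0 := by rw [hhe, he, sub_self, mul_zero]
      obtain ⟨ε₄, hε₄, h₄, ha4, hh4⟩ := ih _ hlt (f - e) hf1
        (by rw [sub_mul, hfg, e_g, sub_zero]) (by rw [mul_sub, hgf, g_e, sub_zero])
        (by
          have h1 := K1lemma_left hI (f - e)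
          rwa [show (f - e) * f = f - e by rw [sub_mul, hf, e_f]] at h1) rfl a' ha'
      -- matrix units
      obtain ⟨x, y, hxy⟩ : ∃ x y : A, e * x * g * y * e ≠ 0 := by
        by_contra hcon
        push Not at hcon
        have h1 : ∀ z ∈ Idl g, e * z * e = 0 := by
          intro z hz
          unfold Idl at hz
          induction hz using AddSubgroup.closure_induction with
          | mem z hz =>
            obtain ⟨a, b, rfl⟩ := hz
            have := hcon a b
            calc e * (a * g * b) * e = e * a * g * b * e := by noncomm_ring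
              _ = 0 := this
          | zero => simp
          | add x y _ _ hx hy =>
            rw [mul_add, add_mul, hx, hy, add_zero]
          | neg x _ hx =>
            rw [mul_neg, neg_mul, hx, neg_zero]
        have h2 := h1 f hI
        rw [e_f, he] at h2
        exact he0 h2
      obtain ⟨z, hz⟩ := hprim (e * x * g * y) hxy
      obtain ⟨ε₃, hε₃, h₃, hh3, h33⟩ := whitehead e g (e * z * e * x * g) (g * y * e) d d' he hg e_g
        g_e (by
          calc e * z * e * x * g * (g * y * e) = e * (z * (e * x * (g * g) * y * e)) := by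
                noncomm_ring
            _ = e * (z * (e * x * g * y * e)) := by rw [hg]
            _ = e := by rw [hz, he])
        (by
          calc e * (e * z * e * x * g) = (e * e) * z * e * x * g := by noncomm_ring
            _ = _ := by rw [he])
        (by rw [mul_assoc _ g g, hg]) (by
          calc g * (g * y * e) = (g * g) * y * e := by noncomm_ring
            _ = _ := by rw [hg]) (by rw [mul_assoc _ e e, he]) hed hde hed' hde' hdd hdd'
      have hkey : ε₁ * a * ε₂ = ε₃ * h₃ * (ε₄ * h₄) := by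
        refine Units.ext ?_
        rw [Units.val_mul, Units.val_mul, hpiv, ← h33, ha4]
        simp only [Units.val_mul]
      refine ⟨ε₁⁻¹ * ε₃ * (h₃ * ε₄ * h₃⁻¹) * ((h₃ * h₄) * ε₂⁻¹ * (h₃ * h₄)⁻¹),
        (EG A).mul_mem ((EG A).mul_mem ((EG A).mul_mem ((EG A).inv_mem hε₁) hε₃)
          (K1lemma_normal h₃ hε₄)) (K1lemma_normal (h₃ * h₄) ((EG A).inv_mem hε₂)),
        h₃ * h₄, ?_, ?_⟩
      · have h1 : a = ε₁⁻¹ * (ε₁ * a * ε₂) * ε₂⁻¹ := by group
        rw [h1, hkey]
        group
      · rw [Units.val_mul]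
        exact K1lemma_prod hg hh3 hh4

-- TARGET
theorem K1lemma {A : Type*} [Ring A] [IsSemisimpleRing A] (f g : A) (hf : f * f = f)
    (hg : g * g = g) (hfg : f * g = g) (hgf : g * f = g) (hI : f ∈ Idl g)
    (a : Aˣ) (ha : (a : A) = f * a * f + (1 - f)) :
    ∃ ε ∈ EG A, ∃ h : Aˣ, a = ε * h ∧ (h : A) = g * h * g + (1 - g) :=
  K1lemma_aux g hg _ f hf hfg hgf hI rfl a ha

end Pool.Agent.Helper563_BV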