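import Mathlib
import Pool.Agent.Helper563_BV.Defs
set_option autoImplicit false
namespace Pool.Agent.Helper563_BV

open Representation in
theorem rep_iso_trace {H V : Type} [Group H] [AddCommGroup V] [Module ℚ V] [FiniteDimensional ℚ V]
    (ρ : Representation ℚ H V) (K C : Subrepresentation ρ)
    (h : IsCompl K.toSubmodule C.toSubmodule) (g : H) :
    LinearMap.trace ℚ V (ρ g) = LinearMap.trace ℚ _ (K.toRepresentation g) +
      LinearMap.trace ℚ _ (C.toRepresentation g) := by
  rw [← LinearMap.trace_prodMap', ← LinearMap.trace_conj' _ (Submodule.prodEquivOfIsCompl _ _ h)]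
  congr 1
  apply LinearMap.ext
  intro v
  obtain ⟨x, rfl⟩ := (Submodule.prodEquivOfIsCompl _ _ h).surjective v
  rw [LinearEquiv.conj_apply_apply, LinearEquiv.symm_apply_apply,
    Submodule.coe_prodEquivOfIsCompl', Submodule.coe_prodEquivOfIsCompl', map_add]
  rfl

open Representation in
theorem rep_iso_compl {H V : Type} [Group H] [Finite H] [AddCommGroup V] [Module ℚ V]
    (ρ : Representation ℚ H V) (K : Subrepresentation ρ) :
    ∃ C : Subrepresentation ρ, IsCompl K.toSubmodule C.toSubmodule := by
  obtain ⟨C, hC⟩ := exists_isCompl K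
  refine ⟨C, ?_⟩
  rw [isCompl_iff, disjoint_iff, codisjoint_iff]
  constructor
  · rw [← Subrepresentation.toSubmodule_inf, hC.inf_eq_bot]
    rfl
  · rw [← Subrepresentation.toSubmodule_sup, hC.sup_eq_top]
    rfl

open Representation in
theorem rep_iso_aux (H : Type) [Group H] [Finite H] : ∀ (n : ℕ) (V W : Type)
    [AddCommGroup V] [Module ℚ V] [FiniteDimensional ℚ V] [AddCommGroup W] [Module ℚ W]
    [FiniteDimensional ℚ W] (ρ : Representation ℚ H V) (σ : Representation ℚ H W)
    (_ : ∀ g, LinearMap.trace ℚ V (ρ g) = LinearMap.trace ℚ W (σ g)),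
    Module.finrank ℚ V = n → ∃ φ : V ≃ₗ[ℚ] W, ∀ g v, φ (ρ g v) = σ g (φ v) := by
  intro n
  induction n using Nat.strong_induction_on with
  | _ n ih =>
  intro V W _ _ _ _ _ _ ρ σ h hn
  have hdim : Module.finrank ℚ V = Module.finrank ℚ W := by
    have := h 1
    rw [map_one ρ, map_one σ, LinearMap.trace_one, LinearMap.trace_one] at this
    exact_mod_cast this
  rcases Nat.eq_zero_or_pos n with h0 | h0
  · subst h0
    have hV : Subsingleton V := Module.finrank_zero_iff.1 hn
    have hW : Subsingleton W := Module.finrank_zero_iff.1 (hdim.symm.trans hn)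
    exact ⟨LinearEquiv.ofFinrankEq V W hdim, fun g v => Subsingleton.elim _ _⟩
  · have hVn : Nontrivial V := Module.finrank_pos_iff.1 (by rw [hn]; exact h0)
    have := Fintype.ofFinite H
    have hcard : (Nat.card H : ℚ) ≠ 0 := by exact_mod_cast Nat.card_pos.ne'
    have : Invertible (Nat.card H : ℚ) := invertibleOfNonzero hcard
    have e1 := card_inv_mul_sum_char_mul_char_eq_finrank ρ σ
    have e2 := card_inv_mul_sum_char_mul_char_eq_finrank ρ ρ
    have e3 : Module.finrank ℚ (IntertwiningMap ρ σ) = Module.finrank ℚ (IntertwiningMap ρ ρ) := by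
      have : (Module.finrank ℚ (IntertwiningMap ρ σ) : ℚ) =
          Module.finrank ℚ (IntertwiningMap ρ ρ) := by
        rw [← e1, ← e2]
        congr 1
        refine Finset.sum_congr rfl fun g _ => ?_
        congr 1
        exact (h g).symm
      exact_mod_cast this
    have hfin : Module.Finite ℚ (IntertwiningMap ρ ρ) :=
      Module.Finite.equiv (invariantsEquivIntertwiningMap ρ ρ)
    have hfin' : Module.Finite ℚ (IntertwiningMap ρ σ) :=
      Module.Finite.equiv (invariantsEquivIntertwiningMap ρ σ)
    have hpos : 0 < Module.finrank ℚ (IntertwiningMap ρ ρ) := by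
      rw [Module.finrank_pos_iff_exists_ne_zero]
      refine ⟨IntertwiningMap.id ρ, fun hid => ?_⟩
      obtain ⟨v, hv⟩ := exists_ne (0 : V)
      apply hv
      have := congrArg (fun f : IntertwiningMap ρ ρ => f v) hid
      simpa using this
    rw [← e3] at hpos
    obtain ⟨φ, hφ⟩ := Module.finrank_pos_iff_exists_ne_zero.1 hpos
    obtain ⟨C, hC⟩ := rep_iso_compl ρ φ.ker
    obtain ⟨D, hD⟩ := rep_iso_compl σ φ.range
    -- the isomorphism of `C` with the range
    let f : C.toSubmodule →ₗ[ℚ] φ.range.toSubmodule :=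
      (φ.toLinearMap.comp C.toSubmodule.subtype).codRestrict _ (fun c => ⟨(c : V), rfl⟩)
    have hf : Function.Bijective f := by
      constructor
      · rw [injective_iff_map_eq_zero]
        intro c hc
        have h1 : φ (c : V) = 0 := congrArg Subtype.val hc
        have h2 : (c : V) ∈ φ.ker.toSubmodule ⊓ C.toSubmodule := ⟨h1, c.2⟩
        rw [hC.inf_eq_bot, Submodule.mem_bot] at h2
        exact Subtype.ext h2
      · rintro ⟨w, v, rfl⟩
        obtain ⟨x, rfl⟩ := (Submodule.prodEquivOfIsCompl _ _ hC).surjective v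
        refine ⟨x.2, Subtype.ext ?_⟩
        have h1 : φ (x.1 : V) = 0 := x.1.2
        change φ (x.2 : V) = φ ((Submodule.prodEquivOfIsCompl _ _ hC) x)
        rw [Submodule.coe_prodEquivOfIsCompl', map_add, h1, zero_add]
    let F : C.toSubmodule ≃ₗ[ℚ] φ.range.toSubmodule := LinearEquiv.ofBijective f hf
    have hF : ∀ c : C.toSubmodule, ((F c : φ.range.toSubmodule) : W) = φ (c : V) := fun c => rfl
    have hFe : ∀ g (c : C.toSubmodule),
        F (C.toRepresentation g c) = φ.range.toRepresentation g (F c) := by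
      intro g c
      apply Subtype.ext
      rw [hF]
      exact IntertwiningMap.isIntertwining ρ σ φ g c
    have htr : ∀ g, LinearMap.trace ℚ _ (φ.ker.toRepresentation g) =
        LinearMap.trace ℚ _ (D.toRepresentation g) := by
      intro g
      have h1 := rep_iso_trace ρ φ.ker C hC g
      have h2 := rep_iso_trace σ φ.range D hD g
      have h3 : LinearMap.trace ℚ _ (φ.range.toRepresentation g) =
          LinearMap.trace ℚ _ (C.toRepresentation g) := by
        rw [← LinearMap.trace_conj' (C.toRepresentation g) F]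
        congr 1
        apply LinearMap.ext
        intro w
        obtain ⟨c, rfl⟩ := F.surjective w
        rw [LinearEquiv.conj_apply_apply, LinearEquiv.symm_apply_apply, hFe]
      have h4 := h g
      linarith
    have hlt : Module.finrank ℚ φ.ker.toSubmodule < n := by
      rw [← hn]
      apply Submodule.finrank_lt
      intro htop
      apply hφ
      ext v
      have : v ∈ φ.ker.toSubmodule := by rw [htop]; trivial
      exact this
    obtain ⟨ψ, hψ⟩ := ih _ hlt _ _ φ.ker.toRepresentation D.toRepresentation htr rfl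
    have hΦ : ∀ x : φ.ker.toSubmodule × C.toSubmodule,
        ((Submodule.prodEquivOfIsCompl _ _ hC).symm ≪≫ₗ LinearEquiv.prodComm ℚ _ _ ≪≫ₗ
          (LinearEquiv.prodCongr F ψ) ≪≫ₗ (Submodule.prodEquivOfIsCompl _ _ hD))
          (Submodule.prodEquivOfIsCompl _ _ hC x) = (F x.2 : W) + (ψ x.1 : W) := by
      intro x
      rw [LinearEquiv.trans_apply, LinearEquiv.trans_apply, LinearEquiv.trans_apply,
        LinearEquiv.symm_apply_apply, Submodule.coe_prodEquivOfIsCompl']
      rfl
    refine ⟨(Submodule.prodEquivOfIsCompl _ _ hC).symm ≪≫ₗ LinearEquiv.prodComm ℚ _ _ ≪≫ₗ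
      (LinearEquiv.prodCongr F ψ) ≪≫ₗ (Submodule.prodEquivOfIsCompl _ _ hD), ?_⟩
    intro g v
    obtain ⟨x, rfl⟩ := (Submodule.prodEquivOfIsCompl _ _ hC).surjective v
    have h1 : ρ g (Submodule.prodEquivOfIsCompl _ _ hC x) =
        Submodule.prodEquivOfIsCompl _ _ hC
          (φ.ker.toRepresentation g x.1, C.toRepresentation g x.2) := by
      rw [Submodule.coe_prodEquivOfIsCompl', Submodule.coe_prodEquivOfIsCompl', map_add]
      rfl
    rw [h1, hΦ, hΦ, map_add]
    change ((F (C.toRepresentation g x.2) : φ.range.toSubmodule) : W) +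
      ((ψ (φ.ker.toRepresentation g x.1) : D.toSubmodule) : W) = _
    rw [hFe, hψ]
    rfl

-- TARGET
theorem rep_iso (H : Type) [Group H] [Finite H] (V W : Type) [AddCommGroup V] [Module ℚ V]
    [FiniteDimensional ℚ V] [AddCommGroup W] [Module ℚ W] [FiniteDimensional ℚ W]
    (ρ : Representation ℚ H V) (σ : Representation ℚ H W)
    (h : ∀ g, LinearMap.trace ℚ V (ρ g) = LinearMap.trace ℚ W (σ g)) :
    ∃ φ : V ≃ₗ[ℚ] W, ∀ g v, φ (ρ g v) = σ g (φ v) :=
  rep_iso_aux H _ V W ρ σ h rfl

end Pool.Agent.Helper563_BV
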