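import Mathlib
import Pool.Agent.Helper563_BV.Defs
import Pool.Agent.Helper563_BV.B1
set_option autoImplicit false
namespace Pool.Agent.Helper563_BV



/-
PROOF OF THE TARGET IN WORDS
Let A = MonoidAlgebra Q G (finite dimensional over Q, as G is finite), H = G x Multiplicative (ZMod n) (finite). u1, u2 are units with
u^n = 1, so k -> u^k is a homomorphism from Multiplicative (ZMod n) to units (zpowersHom / ZMod.lift; or take H = G x (the subgroup of
units generated by (u1,u2)) etc). Define the representations rho_i(g, k) v = g * v * u_i^(-k) of H on A (inverse so that it is a left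
action; any variant works as the group is abelian, so v -> v * u_i^k is an action too).
Trace: for c in G and w in A the trace of v -> c v w on A is sum over h in G of the coefficient of h in c h w = sum_h w.coeff(h^(-1) c^(-1) h).
As a function of w it is additive and invariant under w w' -> w' w (trace of v -> c v w w' ... directly: the class sum function
w -> sum_h w.coeff(h^(-1) c^(-1) h) is a trace functional because g -> 1_{conjugate to c^(-1)} is a class function; or use
LinearMap.trace_mul_comm: v -> c v w w' is the composition of right multiplication by w' and v -> c v w, which commute up to order),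
so it is a functional tau with IsTr tau; by hypothesis its values at u1^j and u2^j agree for all j in N, and u^(-k) is u^j for some j in N.
So the characters of rho_1 and rho_2 agree, and rep_iso gives phi : A = A linear, bijective, with phi(g v) = g phi(v) for g in G, so
phi(a v) = a phi(v) for all a in A, and phi(v u1) = phi(v) u2. Put b = phi(1). phi(v) = v b for all v; phi surjective gives c with c b = 1,
and A is finite dimensional (or: injectivity) so b is a unit (b c = 1: (b c - 1) b = 0 and phi injective). phi(u1) = u1 b and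
phi(1 u1) = b u2. So u1 b = b u2; a = b^(-1) satisfies a u1 = u2 a.
-/
/-- the powers of an element of finite order -/
def conj_of_trace_E {A : Type} [Ring A] (u : A) (n : ℕ) (hn : NeZero n) (h : u ^ n = 1) :
    Multiplicative (ZMod n) →* A where
  toFun k := u ^ (Multiplicative.toAdd k).val
  map_one' := by
    show u ^ (0 : ZMod n).val = 1
    rw [ZMod.val_zero, pow_zero]
  map_mul' a b := by
    show u ^ (Multiplicative.toAdd a + Multiplicative.toAdd b).val = _
    rw [ZMod.val_add, ← pow_eq_pow_mod _ h, pow_add]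

/-- the representation `v ↦ g v u^k` -/
noncomputable def conj_of_trace_R (G : Type) [Group G] (u : MonoidAlgebra ℚ G) (n : ℕ)
    (hn : NeZero n) (h : u ^ n = 1) :
    Representation ℚ (G × Multiplicative (ZMod n)) (MonoidAlgebra ℚ G) where
  toFun x := (LinearMap.mulLeft ℚ (MonoidAlgebra.of ℚ G x.1)) ∘ₗ
    (LinearMap.mulRight ℚ (conj_of_trace_E u n hn h x.2))
  map_one' := by
    ext v
    simp
  map_mul' x y := by
    refine LinearMap.ext fun v => ?_
    show MonoidAlgebra.of ℚ G (x.1 * y.1) * (v * conj_of_trace_E u n hn h (x.2 * y.2)) =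
      MonoidAlgebra.of ℚ G x.1 * ((MonoidAlgebra.of ℚ G y.1 *
        (v * conj_of_trace_E u n hn h y.2)) * conj_of_trace_E u n hn h x.2)
    rw [mul_comm x.2 y.2, map_mul, map_mul]
    simp only [mul_assoc]

/-- the trace of `v ↦ c v w` -/
noncomputable def conj_of_trace_T (G : Type) [Group G] (c : MonoidAlgebra ℚ G) :
    MonoidAlgebra ℚ G →+ ℚ :=
  AddMonoidHom.mk' (fun w => LinearMap.trace ℚ (MonoidAlgebra ℚ G)
    ((LinearMap.mulLeft ℚ c) ∘ₗ (LinearMap.mulRight ℚ w))) (by
      intro a b
      rw [← map_add, ← LinearMap.comp_add]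
      congr 2
      refine LinearMap.ext fun v => ?_
      show v * (a + b) = v * a + v * b
      exact mul_add _ _ _)

theorem conj_of_trace_isTr (G : Type) [Group G] (c : MonoidAlgebra ℚ G) :
    IsTr (conj_of_trace_T G c) := by
  intro a b
  show LinearMap.trace ℚ (MonoidAlgebra ℚ G)
    ((LinearMap.mulLeft ℚ c) ∘ₗ (LinearMap.mulRight ℚ (a * b))) =
    LinearMap.trace ℚ (MonoidAlgebra ℚ G)
    ((LinearMap.mulLeft ℚ c) ∘ₗ (LinearMap.mulRight ℚ (b * a)))
  have e1 : (LinearMap.mulLeft ℚ c) ∘ₗ (LinearMap.mulRight ℚ (a * b)) =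
      ((LinearMap.mulLeft ℚ c) ∘ₗ (LinearMap.mulRight ℚ b)) * (LinearMap.mulRight ℚ a) := by
    refine LinearMap.ext fun v => ?_
    show c * (v * (a * b)) = c * ((v * a) * b)
    simp only [mul_assoc]
  have e2 : (LinearMap.mulLeft ℚ c) ∘ₗ (LinearMap.mulRight ℚ (b * a)) =
      (LinearMap.mulRight ℚ a) * ((LinearMap.mulLeft ℚ c) ∘ₗ (LinearMap.mulRight ℚ b)) := by
    refine LinearMap.ext fun v => ?_
    show c * (v * (b * a)) = (c * (v * b)) * a
    simp only [mul_assoc]
  rw [e1, e2]
  exact LinearMap.trace_mul_comm ℚ _ _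

-- TARGET
theorem conj_of_trace (G : Type) [Group G] [Finite G] (u₁ u₂ : MonoidAlgebra ℚ G) (n : ℕ)
    (hn : 0 < n) (h1 : u₁ ^ n = 1) (h2 : u₂ ^ n = 1)
    (h : ∀ τ : MonoidAlgebra ℚ G →+ ℚ, IsTr τ → ∀ j : ℕ, τ (u₁ ^ j) = τ (u₂ ^ j)) :
    ∃ a : (MonoidAlgebra ℚ G)ˣ, (a : MonoidAlgebra ℚ G) * u₁ = u₂ * a := by
  have hn' : NeZero n := ⟨hn.ne'⟩
  obtain ⟨φ, hφ⟩ := rep_iso (G × Multiplicative (ZMod n)) (MonoidAlgebra ℚ G)
    (MonoidAlgebra ℚ G) (conj_of_trace_R G u₁ n hn' h1) (conj_of_trace_R G u₂ n hn' h2)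
    (fun x => h (conj_of_trace_T G (MonoidAlgebra.of ℚ G x.1)) (conj_of_trace_isTr G _) _)
  have hφg : ∀ (g : G) (v : MonoidAlgebra ℚ G),
      φ (MonoidAlgebra.of ℚ G g * v) = MonoidAlgebra.of ℚ G g * φ v := by
    intro g v
    have h3 := hφ (g, 1) v
    have h4 : MonoidAlgebra.of ℚ G g * (v * conj_of_trace_E u₁ n hn' h1 1) =
      MonoidAlgebra.of ℚ G g * v := by rw [map_one, mul_one]
    have h5 : MonoidAlgebra.of ℚ G g * (φ v * conj_of_trace_E u₂ n hn' h2 1) =
      MonoidAlgebra.of ℚ G g * φ v := by rw [map_one, mul_one]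
    rw [← h4, ← h5]
    exact h3
  have hφu : ∀ v : MonoidAlgebra ℚ G, φ (v * u₁) = φ v * u₂ := by
    intro v
    have h3 := hφ (1, Multiplicative.ofAdd 1) v
    have h6 : ∀ (u : MonoidAlgebra ℚ G) (hu : u ^ n = 1),
        conj_of_trace_E u n hn' hu (Multiplicative.ofAdd 1) = u := by
      intro u hu
      show u ^ (1 : ZMod n).val = u
      rw [ZMod.val_one_eq_one_mod, ← pow_eq_pow_mod 1 hu, pow_one]
    have h4 : MonoidAlgebra.of ℚ G 1 *
        (v * conj_of_trace_E u₁ n hn' h1 (Multiplicative.ofAdd 1)) = v * u₁ := by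
      rw [map_one, one_mul, h6]
    have h5 : MonoidAlgebra.of ℚ G 1 *
        (φ v * conj_of_trace_E u₂ n hn' h2 (Multiplicative.ofAdd 1)) = φ v * u₂ := by
      rw [map_one, one_mul, h6]
    rw [← h4, ← h5]
    exact h3
  have hφa : ∀ a v : MonoidAlgebra ℚ G, φ (a * v) = a * φ v := by
    intro a v
    induction a using MonoidAlgebra.induction_on with
    | of g => exact hφg g v
    | add f g hf hg => rw [add_mul, add_mul, map_add, hf, hg]
    | smul r f hf => rw [smul_mul_assoc, smul_mul_assoc, map_smul, hf]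
  have hb : ∀ v, φ v = v * φ 1 := by
    intro v
    rw [← hφa v 1, mul_one]
  obtain ⟨c, hc⟩ := φ.surjective 1
  have hcb : c * φ 1 = 1 := by rw [← hb, hc]
  have hbc : φ 1 * c = 1 := by
    have h3 : φ (φ 1 * c - 1) = 0 := by
      rw [hb, sub_mul, mul_assoc, hcb, mul_one, one_mul, sub_self]
    have h4 := (LinearEquiv.map_eq_zero_iff φ).1 h3
    exact sub_eq_zero.1 h4
  have hub : u₁ * φ 1 = φ 1 * u₂ := by
    rw [← hb, ← hφu, one_mul]
  refine ⟨⟨c, φ 1, hcb, hbc⟩, ?_⟩
  show c * u₁ = u₂ * c
  calc c * u₁ = c * u₁ * (φ 1 * c) := by rw [hbc, mul_one]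
    _ = c * (u₁ * φ 1) * c := by simp only [mul_assoc]
    _ = c * (φ 1 * u₂) * c := by rw [hub]
    _ = (c * φ 1) * u₂ * c := by simp only [mul_assoc]
    _ = u₂ * c := by rw [hcb, one_mul]

end Pool.Agent.Helper563_BV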