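import Mathlib
import Pool.Agent.Helper563_BV.Defs
set_option autoImplicit false
namespace Pool.Agent.Helper563_BV


/-
PROOF OF THE TARGET IN WORDS
Direction left to right: Subring.closure_induction. of g: n = 0, coefficients 0 or 1. algebraMap p^(-1) = single 1 p^(-1): n = 1.
0, 1, sums (take the maximum, or add the exponents), negatives; products: the coefficient of a b at g is a finite sum of products
a(h) b(h^(-1) g) (G finite; MonoidAlgebra.mul_apply / coeff_mul or write a and b as sums of singles), exponents add.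
Right to left: a = sum_g (a.coeff g) * of g, with a.coeff g = k_g p^(-n): algebraMap (p^(-1))^n and integers are in the subring.
-/
theorem ZI_iff_lift {p : ℕ} {q : ℚ} {n m : ℕ} (h : ∃ k : ℤ, (p : ℚ) ^ n * q = k) :
    ∃ k : ℤ, (p : ℚ) ^ (n + m) * q = k := by
  obtain ⟨k, hk⟩ := h
  refine ⟨(p : ℤ) ^ m * k, ?_⟩
  rw [pow_add]
  push_cast
  rw [← hk]
  ring

theorem ZI_iff_sum {p n : ℕ} {ι : Type} (s : Finset ι) (f : ι → ℚ)
    (h : ∀ i ∈ s, ∃ k : ℤ, (p : ℚ) ^ n * f i = k) : ∃ k : ℤ, (p : ℚ) ^ n * ∑ i ∈ s, f i = k := by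
  classical
  induction s using Finset.induction_on with
  | empty => exact ⟨0, by simp⟩
  | insert a s ha ih =>
    obtain ⟨k, hk⟩ := ih fun i hi => h i (Finset.mem_insert_of_mem hi)
    obtain ⟨l, hl⟩ := h a (Finset.mem_insert_self a s)
    refine ⟨l + k, ?_⟩
    rw [Finset.sum_insert ha, mul_add, hk, hl]
    push_cast
    rfl

-- TARGET
theorem ZI_iff (p : ℕ) (hp : p ≠ 0) (G : Type) [Group G] [Finite G] (a : MonoidAlgebra ℚ G) :
    a ∈ ZI p G ↔ ∃ n : ℕ, ∀ g : G, ∃ k : ℤ, (p : ℚ) ^ n * a.coeff g = k := by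
  classical
  have hp0 : (p : ℚ) ≠ 0 := by exact_mod_cast hp
  have := Fintype.ofFinite G
  constructor
  · intro ha
    unfold ZI at ha
    induction ha using Subring.closure_induction with
    | mem x hx =>
      rcases hx with ⟨g, rfl⟩ | hx
      · refine ⟨0, fun h => ?_⟩
        rw [MonoidAlgebra.of_apply, MonoidAlgebra.coeff_single, Finsupp.single_apply]
        by_cases hgh : g = h
        · exact ⟨1, by simp [hgh]⟩
        · exact ⟨0, by simp [hgh]⟩
      · rw [Set.mem_singleton_iff] at hx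
        refine ⟨1, fun h => ?_⟩
        rw [hx, MonoidAlgebra.coe_algebraMap]
        show ∃ k : ℤ, (p : ℚ) ^ 1 * (MonoidAlgebra.single (1 : G) ((p : ℚ)⁻¹)).coeff h = k
        rw [MonoidAlgebra.coeff_single, Finsupp.single_apply]
        by_cases hgh : 1 = h
        · exact ⟨1, by simp [hgh, hp0]⟩
        · exact ⟨0, by simp [hgh]⟩
    | zero => exact ⟨0, fun g => ⟨0, by simp⟩⟩
    | one =>
      refine ⟨0, fun h => ?_⟩
      rw [MonoidAlgebra.one_def, MonoidAlgebra.coeff_single, Finsupp.single_apply]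
      by_cases hgh : 1 = h
      · exact ⟨1, by simp [hgh]⟩
      · exact ⟨0, by simp [hgh]⟩
    | add x y _ _ hx hy =>
      obtain ⟨n, hn⟩ := hx
      obtain ⟨m, hm⟩ := hy
      refine ⟨n + m, fun g => ?_⟩
      obtain ⟨k, hk⟩ := ZI_iff_lift (m := m) (hn g)
      obtain ⟨l, hl⟩ := ZI_iff_lift (m := n) (hm g)
      refine ⟨k + l, ?_⟩
      rw [MonoidAlgebra.coeff_add, Finsupp.add_apply, mul_add, hk, add_comm n m, hl]
      push_cast
      rfl
    | neg x _ hx =>
      obtain ⟨n, hn⟩ := hx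
      refine ⟨n, fun g => ?_⟩
      obtain ⟨k, hk⟩ := hn g
      refine ⟨-k, ?_⟩
      have : (-x).coeff g = -(x.coeff g) := rfl
      rw [this, mul_neg, hk]
      push_cast
      rfl
    | mul x y _ _ hx hy =>
      obtain ⟨n, hn⟩ := hx
      obtain ⟨m, hm⟩ := hy
      refine ⟨n + m, fun g => ?_⟩
      rw [MonoidAlgebra.coeff_mul_antidiag x y g (Finset.univ.filter fun c : G × G => c.1 * c.2 = g)
        (by intro c; simp)]
      apply ZI_iff_sum
      intro c _
      obtain ⟨k, hk⟩ := hn c.1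
      obtain ⟨l, hl⟩ := hm c.2
      refine ⟨k * l, ?_⟩
      push_cast
      rw [← hk, ← hl]
      ring
  · rintro ⟨n, hn⟩
    choose k hk using hn
    have hpi : algebraMap ℚ (MonoidAlgebra ℚ G) ((p : ℚ)⁻¹) ∈ ZI p G :=
      Subring.subset_closure (Or.inr rfl)
    have hof : ∀ g : G, MonoidAlgebra.of ℚ G g ∈ ZI p G := fun g =>
      Subring.subset_closure (Or.inl ⟨g, rfl⟩)
    have e : a = ∑ g : G, (algebraMap ℚ (MonoidAlgebra ℚ G) ((p : ℚ)⁻¹)) ^ n *
        ((k g : ℤ) • MonoidAlgebra.of ℚ G g) := by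
      apply MonoidAlgebra.ext
      ext h
      rw [MonoidAlgebra.coeff_sum, Finsupp.finsetSum_apply]
      have e2 : ∀ g : G, ((algebraMap ℚ (MonoidAlgebra ℚ G) ((p : ℚ)⁻¹)) ^ n *
          ((k g : ℤ) • MonoidAlgebra.of ℚ G g)).coeff h = if g = h then a.coeff g else 0 := by
        intro g
        have e3 : (algebraMap ℚ (MonoidAlgebra ℚ G) ((p : ℚ)⁻¹)) ^ n *
            ((k g : ℤ) • MonoidAlgebra.of ℚ G g) = MonoidAlgebra.single g (a.coeff g) := by
          rw [← map_pow, ← Algebra.smul_def, ← Int.cast_smul_eq_zsmul ℚ, MonoidAlgebra.of_apply,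
            MonoidAlgebra.smul_single, MonoidAlgebra.smul_single]
          congr 1
          rw [smul_eq_mul, smul_eq_mul, mul_one, ← hk g, inv_pow]
          field_simp
        rw [e3, MonoidAlgebra.coeff_single, Finsupp.single_apply]
      rw [Finset.sum_congr rfl fun g _ => e2 g]
      simp
    rw [e]
    exact Subring.sum_mem _ fun g _ => Subring.mul_mem _ (Subring.pow_mem _ hpi n)
      (Subring.zsmul_mem _ (hof g) _)

end Pool.Agent.Helper563_BV
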