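import Mathlib
import Pool.Agent.Helper563_BV.Defs
set_option autoImplicit false
namespace Pool.Agent.Helper563_BV


theorem L2_ring_coeff_mul (G : Type) [Group G] [Fintype G] (a b : MonoidAlgebra ℚ G) (g : G) :
    (a * b).coeff g = ∑ h : G, a.coeff h * b.coeff (h⁻¹ * g) := by
  rw [MonoidAlgebra.coeff_mul_apply_left]
  rw [Finsupp.sum_fintype]
  intro i
  simp

-- TARGET
theorem L2_ring (G : Type) [Group G] [Finite G] :
    L2 (1 : MonoidAlgebra ℚ G) ∧ ∀ a b : MonoidAlgebra ℚ G, L2 a → L2 b →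
      L2 (a + b) ∧ L2 (a * b) ∧ L2 (-a) := by
  classical
  have := Fintype.ofFinite G
  refine ⟨⟨1, odd_one, fun g => ?_⟩, ?_⟩
  · rw [MonoidAlgebra.one_def]
    by_cases h : g = 1
    · refine ⟨1, ?_⟩
      simp [h]
    · refine ⟨0, ?_⟩
      simp [Ne.symm h]
  · rintro a b ⟨m, hm, ha⟩ ⟨n, hn, hb⟩
    refine ⟨⟨m * n, hm.mul hn, fun g => ?_⟩, ⟨m * n, hm.mul hn, fun g => ?_⟩, ⟨m, hm, fun g => ?_⟩⟩
    · obtain ⟨k, hk⟩ := ha g
      obtain ⟨l, hl⟩ := hb g
      refine ⟨n * k + m * l, ?_⟩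
      push_cast
      rw [← hk, ← hl]
      simp
      ring
    · rw [L2_ring_coeff_mul]
      choose f hf using ha
      choose f' hf' using hb
      refine ⟨∑ h : G, f h * f' (h⁻¹ * g), ?_⟩
      push_cast
      rw [Finset.mul_sum]
      refine Finset.sum_congr rfl fun h _ => ?_
      rw [← hf, ← hf']
      ring
    · obtain ⟨k, hk⟩ := ha g
      refine ⟨-k, ?_⟩
      push_cast
      rw [← hk]
      simp

end Pool.Agent.Helper563_BV
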