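import Mathlib
import Pool.Agent.Helper563_BV.Defs
import Pool.Agent.Helper563_BV.C1
import Pool.Agent.Helper563_BV.C2
set_option autoImplicit false
namespace Pool.Agent.Helper563_BV




/-
PROOF OF THE TARGET IN WORDS
Let D > 0 be a natural number with D * f having integer coefficients (common denominator, G finite), D = 2^d D' with D' odd. Then D (1-f)
has integer coefficients as well. Let M = N + 2 d. CLAIM: for every rational r there is r' = D'^2 m / 2^k (m an integer, k in N) with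
r - r' = 2^M s, where s has odd denominator (some odd multiple of s is an integer). Proof: r = a / (2^k b) with b odd (b > 0). Choose the integer m
with m b D'^2 = a modulo 2^(M+k) (b D'^2 is odd, hence invertible modulo 2^(M+k)). Then r - D'^2 m / 2^k = (a - b D'^2 m)/(2^k b) =
2^(M+k) c/(2^k b) = 2^M c / b. Apply the claim to every coefficient of z; this gives w with z - w = 2^M beta, L2 beta, and
w = D'^2 w0 with 2^K w0 having integer coefficients for some K. Then f w (1-f) = (D f) w0 (D (1-f)) * (D'^2/D^2) = (D f) w0 (D (1-f)) / 2^(2d)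
is in ZI 2 G (by ZI_iff: all three factors are, and 2^(-2d) is). And f (z - w) (1-f) = 2^M f beta (1-f) = 2^M (D f) beta (D(1-f)) / D^2 =
2^(M - 2d) (D f) beta (D (1-f)) / D'^2 = 2^N alpha with alpha = D'^(-2) (D f) beta (D (1-f)), L2 alpha by L2_ring (D'^(-2) alpha0 is L2 when
alpha0 is).
-/
theorem dens_base_rat (P M : ℕ) (hP : Odd P) (r : ℚ) : ∃ (m : ℤ) (k b : ℕ) (s : ℚ), Odd b ∧
    r - P * (m / 2 ^ k) = 2 ^ M * s ∧ ∃ c : ℤ, (b : ℚ) * s = c := by
  obtain ⟨k, b, hb, hkb⟩ := Nat.exists_eq_two_pow_mul_odd r.den_nz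
  have hodd : Odd (b * P) := hb.mul hP
  have hcop : IsCoprime ((b * P : ℕ) : ℤ) ((2 ^ (M + k) : ℕ) : ℤ) := by
    rw [Nat.isCoprime_iff_coprime]
    exact (Nat.coprime_two_right.2 hodd).pow_right _
  obtain ⟨u, v, huv⟩ := hcop
  have hb0 : (b : ℚ) ≠ 0 := by
    have : b ≠ 0 := by
      rintro rfl
      exact (by decide : ¬ Odd 0) hb
    exact_mod_cast this
  refine ⟨r.num * u, k, b, r.num * v / b, hb, ?_, r.num * v, ?_⟩
  · have h1 : r = r.num / (2 ^ k * b) := by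
      conv_lhs => rw [← Rat.num_div_den r, hkb]
      push_cast
      rfl
    have h2 : (u : ℚ) * (b * P) + v * 2 ^ (M + k) = 1 := by
      have h3 : (((u * ((b * P : ℕ) : ℤ) + v * ((2 ^ (M + k) : ℕ) : ℤ)) : ℤ) : ℚ) = 1 := by
        rw [huv]; norm_num
      push_cast at h3
      exact h3
    have h3 : (v : ℚ) * 2 ^ (M + k) = 1 - u * (b * P) := by linarith
    have h4 : (2 : ℚ) ^ k ≠ 0 := by positivity
    have h5 : (2 : ℚ) ^ M * (r.num * v / b) = r.num * (v * 2 ^ (M + k)) / (2 ^ k * b) := by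
      rw [pow_add]
      field_simp
    rw [h5, h3]
    have h6 : ∀ q : ℚ, r = q → r - (P : ℚ) * (((r.num * u : ℤ) : ℚ) / 2 ^ k) =
        q - (P : ℚ) * (((r.num * u : ℤ) : ℚ) / 2 ^ k) := fun q hq => by rw [← hq]
    rw [h6 _ h1]
    push_cast
    field_simp
  · push_cast
    field_simp

/-- integer coefficients -/
def dens_base_IC {G : Type} [Group G] (a : MonoidAlgebra ℚ G) : Prop :=
  ∀ g : G, ∃ k : ℤ, a.coeff g = k

theorem dens_base_den {G : Type} [Group G] [Finite G] (f : MonoidAlgebra ℚ G) :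
    ∃ D : ℕ, D ≠ 0 ∧ dens_base_IC ((D : ℚ) • f) := by
  classical
  have := Fintype.ofFinite G
  refine ⟨∏ g, (f.coeff g).den, Finset.prod_ne_zero_iff.2 fun g _ => (f.coeff g).den_nz,
    fun g => ?_⟩
  have h1 : (f.coeff g).den ∣ ∏ g, (f.coeff g).den := Finset.dvd_prod_of_mem _ (Finset.mem_univ g)
  obtain ⟨e, he⟩ := h1
  refine ⟨e * (f.coeff g).num, ?_⟩
  rw [MonoidAlgebra.coeff_smul_apply, smul_eq_mul, he]
  push_cast
  have h2 : ((f.coeff g).den : ℚ) * f.coeff g = (f.coeff g).num := by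
    rw [mul_comm]
    exact Rat.mul_den_eq_num _
  rw [mul_comm ((f.coeff g).den : ℚ) (e : ℚ), mul_assoc, h2]

theorem dens_base_L2_of_IC {G : Type} [Group G] {a : MonoidAlgebra ℚ G} (h : dens_base_IC a) :
    L2 a := by
  refine ⟨1, odd_one, fun g => ?_⟩
  obtain ⟨k, hk⟩ := h g
  exact ⟨k, by rw [hk, Nat.cast_one, one_mul]⟩

theorem dens_base_L2_smul {G : Type} [Group G] {a : MonoidAlgebra ℚ G} (h : L2 a) (n : ℕ) :
    L2 ((n : ℚ) • a) := by
  obtain ⟨m, hm, h⟩ := h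
  refine ⟨m, hm, fun g => ?_⟩
  obtain ⟨k, hk⟩ := h g
  refine ⟨n * k, ?_⟩
  rw [MonoidAlgebra.coeff_smul_apply, smul_eq_mul]
  push_cast
  rw [← hk]
  ring

theorem dens_base_L2_inv {G : Type} [Group G] {a : MonoidAlgebra ℚ G} (h : L2 a) (n : ℕ)
    (hn : Odd n) : L2 ((n : ℚ)⁻¹ • a) := by
  obtain ⟨m, hm, h⟩ := h
  have hn0 : (n : ℚ) ≠ 0 := by
    have : n ≠ 0 := by
      rintro rfl
      exact (by decide : ¬ Odd 0) hn
    exact_mod_cast this
  refine ⟨m * n, hm.mul hn, fun g => ?_⟩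
  obtain ⟨k, hk⟩ := h g
  refine ⟨k, ?_⟩
  rw [MonoidAlgebra.coeff_smul_apply, smul_eq_mul, ← hk]
  push_cast
  field_simp

-- TARGET
theorem dens_base (G : Type) [Group G] [Finite G] (f z : MonoidAlgebra ℚ G) (hf : f * f = f)
    (N : ℕ) :
    ∃ w : MonoidAlgebra ℚ G, f * w * (1 - f) ∈ ZI 2 G ∧
      ∃ α : MonoidAlgebra ℚ G, L2 α ∧ f * (z - w) * (1 - f) = (2 : ℚ) ^ N • α := by
  classical
  have := Fintype.ofFinite G
  obtain ⟨D, hD0, hDf⟩ := dens_base_den f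
  obtain ⟨d, D', hD'odd, hD⟩ := Nat.exists_eq_two_pow_mul_odd hD0
  have hPodd : Odd (D' ^ 2) := hD'odd.pow
  have hex := fun g => dens_base_rat (D' ^ 2) (N + 2 * d) hPodd (z.coeff g)
  choose m k b s hb h1 c hc using hex
  set w0 : MonoidAlgebra ℚ G :=
    MonoidAlgebra.ofCoeff (Finsupp.equivFunOnFinite.symm fun g => (m g : ℚ) / 2 ^ k g) with hw0
  set β : MonoidAlgebra ℚ G :=
    MonoidAlgebra.ofCoeff (Finsupp.equivFunOnFinite.symm fun g => s g) with hβ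
  have hw0c : ∀ g, w0.coeff g = (m g : ℚ) / 2 ^ k g := fun g => rfl
  have hβc : ∀ g, β.coeff g = s g := fun g => rfl
  have hZ : ∀ a : MonoidAlgebra ℚ G, dens_base_IC a → a ∈ ZI 2 G := by
    intro a ha
    rw [ZI_iff 2 (by norm_num)]
    refine ⟨0, fun g => ?_⟩
    obtain ⟨k, hk⟩ := ha g
    exact ⟨k, by rw [pow_zero, one_mul, hk]⟩
  have hw0Z : w0 ∈ ZI 2 G := by
    rw [ZI_iff 2 (by norm_num)]
    refine ⟨∑ g, k g, fun g => ⟨m g * 2 ^ (∑ g, k g - k g), ?_⟩⟩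
    have hle : k g ≤ ∑ g, k g := Finset.single_le_sum (fun _ _ => Nat.zero_le _) (Finset.mem_univ g)
    rw [hw0c]
    push_cast
    have h2 : (2 : ℚ) ^ (∑ g, k g) = 2 ^ (∑ g, k g - k g) * 2 ^ k g := by
      rw [← pow_add, Nat.sub_add_cancel hle]
    rw [h2]
    field_simp
  have hβL : L2 β := by
    refine ⟨∏ g, b g, ?_, fun g => ?_⟩
    · exact Finset.prod_induction _ Odd (fun _ _ h h' => h.mul h') odd_one fun g _ => hb g
    · have h2 : b g ∣ ∏ g, b g := Finset.dvd_prod_of_mem _ (Finset.mem_univ g)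
      obtain ⟨e, he⟩ := h2
      refine ⟨e * c g, ?_⟩
      rw [hβc, he]
      push_cast
      rw [← hc g]
      ring
  have hzw : z - ((D' ^ 2 : ℕ) : ℚ) • w0 = (2 : ℚ) ^ (N + 2 * d) • β := by
    ext g
    rw [sub_eq_add_neg]
    have h2 := h1 g
    rw [MonoidAlgebra.coeff_add, MonoidAlgebra.coeff_neg, Finsupp.add_apply, Finsupp.neg_apply,
      MonoidAlgebra.coeff_smul_apply, MonoidAlgebra.coeff_smul_apply, hw0c, hβc, smul_eq_mul,
      smul_eq_mul, ← h2]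
    ring
  have hDfZ : (D : ℚ) • f ∈ ZI 2 G := hZ _ hDf
  have hDnat : (D : ℚ) • (1 : MonoidAlgebra ℚ G) = (D : MonoidAlgebra ℚ G) := by
    rw [Nat.cast_smul_eq_nsmul, nsmul_one]
  have hD1Z : (D : ℚ) • (1 - f) ∈ ZI 2 G := by
    rw [smul_sub, hDnat]
    exact sub_mem (natCast_mem _ D) hDfZ
  have hDfL : L2 ((D : ℚ) • f) := dens_base_L2_of_IC hDf
  have hD1L : L2 ((D : ℚ) • (1 - f)) := by
    rw [smul_sub, sub_eq_add_neg]
    have h3 := (L2_ring G).2
    exact (h3 _ _ (dens_base_L2_smul (L2_ring G).1 D) (h3 _ _ hDfL hDfL).2.2).1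
  have hDq : (D : ℚ) = 2 ^ d * D' := by
    rw [hD]
    push_cast
    rfl
  have hD'0 : (D' : ℚ) ≠ 0 := by
    have : D' ≠ 0 := by
      rintro rfl
      exact (by decide : ¬ Odd 0) hD'odd
    exact_mod_cast this
  have hDq0 : (D : ℚ) ≠ 0 := by exact_mod_cast hD0
  have hkey : ∀ x : MonoidAlgebra ℚ G, ((D : ℚ) • f) * x * ((D : ℚ) • (1 - f)) =
      ((D : ℚ) ^ 2) • (f * x * (1 - f)) := by
    intro x
    rw [smul_mul_assoc, smul_mul_assoc, mul_smul_comm, smul_smul, sq]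
  refine ⟨((D' ^ 2 : ℕ) : ℚ) • w0, ?_, ((D' ^ 2 : ℕ) : ℚ)⁻¹ • (((D : ℚ) • f) * β * ((D : ℚ) • (1 - f))),
    dens_base_L2_inv ((L2_ring G).2 _ _ ((L2_ring G).2 _ _ hDfL hβL).2.1 hD1L).2.1 _ hPodd, ?_⟩
  · have h3 : ((D : ℚ) • f) * w0 * ((D : ℚ) • (1 - f)) ∈ ZI 2 G :=
      mul_mem (mul_mem hDfZ hw0Z) hD1Z
    have h4 : f * (((D' ^ 2 : ℕ) : ℚ) • w0) * (1 - f) =
        ((2 : ℚ) ^ (2 * d))⁻¹ • (((D : ℚ) • f) * w0 * ((D : ℚ) • (1 - f))) := by
      rw [hkey, smul_smul, mul_smul_comm, smul_mul_assoc]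
      congr 1
      rw [hDq]
      push_cast
      rw [mul_pow, ← pow_mul, mul_comm d 2]
      field_simp
    rw [h4]
    obtain ⟨n, hn⟩ := (ZI_iff 2 (by norm_num) G _).1 h3
    refine (ZI_iff 2 (by norm_num) G _).2 ⟨n + 2 * d, fun g => ?_⟩
    obtain ⟨k', hk'⟩ := hn g
    refine ⟨k', ?_⟩
    rw [← hk', MonoidAlgebra.coeff_smul_apply, smul_eq_mul, pow_add]
    push_cast
    field_simp
  · rw [hzw, hkey, mul_smul_comm, smul_mul_assoc, smul_smul, smul_smul]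
    congr 1
    rw [hDq]
    push_cast
    rw [mul_pow, ← pow_mul, mul_comm d 2, pow_add]
    field_simp

end Pool.Agent.Helper563_BV
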