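import Mathlib
import Pool.Agent.Helper563_BV.Defs
import Pool.Agent.Helper563_BV.C1
import Pool.Agent.Helper563_BV.C2
import Pool.Agent.Helper563_BV.C3
set_option autoImplicit false
namespace Pool.Agent.Helper563_BV






theorem dens_int_L2 {G : Type} [Group G] {a : MonoidAlgebra ℚ G}
    (h : ∀ g : G, ∃ k : ℤ, a.coeff g = k) : L2 a := by
  refine ⟨1, odd_one, fun g => ?_⟩
  obtain ⟨k, hk⟩ := h g
  exact ⟨k, by rw [Nat.cast_one, one_mul, hk]⟩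

theorem dens_smul_L2 {G : Type} [Group G] {a : MonoidAlgebra ℚ G} (h : L2 a) (n : ℕ) :
    L2 ((2 : ℚ) ^ n • a) := by
  obtain ⟨m, hm, h⟩ := h
  refine ⟨m, hm, fun g => ?_⟩
  obtain ⟨k, hk⟩ := h g
  refine ⟨2 ^ n * k, ?_⟩
  rw [MonoidAlgebra.coeff_smul_apply, smul_eq_mul]
  push_cast
  rw [← hk]
  ring

theorem dens_clear {G : Type} [Group G] [Finite G] {a : MonoidAlgebra ℚ G} (h : a ∈ ZI 2 G) :
    ∃ n : ℕ, ∀ K, n ≤ K → L2 ((2 : ℚ) ^ K • a) := by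
  obtain ⟨n, hn⟩ := (ZI_iff 2 (by norm_num) G a).1 h
  have h1 : L2 ((2 : ℚ) ^ n • a) := by
    refine dens_int_L2 fun g => ?_
    obtain ⟨k, hk⟩ := hn g
    refine ⟨k, ?_⟩
    rw [MonoidAlgebra.coeff_smul_apply, smul_eq_mul]
    exact_mod_cast hk
  refine ⟨n, fun K hK => ?_⟩
  obtain ⟨d, rfl⟩ := Nat.exists_eq_add_of_le hK
  have h2 := dens_smul_L2 h1 d
  rwa [smul_smul, ← pow_add, add_comm d n] at h2

theorem dens_unit {A : Type*} [Ring A] {f z : A} (hf : f * f = f) :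
    (1 + f * z * (1 - f)) * (1 - f * z * (1 - f)) = 1 ∧
      (1 - f * z * (1 - f)) * (1 + f * z * (1 - f)) = 1 := by
  have h1 : (1 - f) * f = 0 := by rw [sub_mul, one_mul, hf, sub_self]
  have h2 : f * z * (1 - f) * (f * z * (1 - f)) = 0 := by
    calc f * z * (1 - f) * (f * z * (1 - f)) = f * z * ((1 - f) * f) * (z * (1 - f)) := by
          noncomm_ring
      _ = 0 := by rw [h1, mul_zero, zero_mul]
  constructor
  · calc (1 + f * z * (1 - f)) * (1 - f * z * (1 - f))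
        = 1 - f * z * (1 - f) * (f * z * (1 - f)) := by noncomm_ring
      _ = 1 := by rw [h2, sub_zero]
  · calc (1 - f * z * (1 - f)) * (1 + f * z * (1 - f))
        = 1 - f * z * (1 - f) * (f * z * (1 - f)) := by noncomm_ring
      _ = 1 := by rw [h2, sub_zero]

/-- The property to be proved. -/
def dens_P {G : Type} [Group G] (ε : (MonoidAlgebra ℚ G)ˣ) : Prop := ∀ N : ℕ,
    ∃ γ : (MonoidAlgebra ℚ G)ˣ, (γ : MonoidAlgebra ℚ G) ∈ ZI 2 G ∧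
      ((γ⁻¹ : (MonoidAlgebra ℚ G)ˣ) : MonoidAlgebra ℚ G) ∈ ZI 2 G ∧
      ∃ α : MonoidAlgebra ℚ G, L2 α ∧
        (ε : MonoidAlgebra ℚ G) * ((γ⁻¹ : (MonoidAlgebra ℚ G)ˣ) : MonoidAlgebra ℚ G)
          = 1 + (2 : ℚ) ^ N • α

theorem dens_gen {G : Type} [Group G] [Finite G] (ε : (MonoidAlgebra ℚ G)ˣ)
    (f z : MonoidAlgebra ℚ G) (hf : f * f = f)
    (hε : (ε : MonoidAlgebra ℚ G) = 1 + f * z * (1 - f)) : dens_P ε := by
  intro N
  obtain ⟨w, hw, α, hα, hwα⟩ := dens_base G f z hf N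
  obtain ⟨h1, h2⟩ := dens_unit (z := w) hf
  refine ⟨⟨1 + f * w * (1 - f), 1 - f * w * (1 - f), h1, h2⟩, ?_, ?_, α, hα, ?_⟩
  · exact (ZI 2 G).add_mem (ZI 2 G).one_mem hw
  · exact (ZI 2 G).sub_mem (ZI 2 G).one_mem hw
  · change (ε : MonoidAlgebra ℚ G) * (1 - f * w * (1 - f)) = _
    rw [hε, ← hwα]
    have h3 : (1 - f) * f = 0 := by rw [sub_mul, one_mul, hf, sub_self]
    calc (1 + f * z * (1 - f)) * (1 - f * w * (1 - f))
        = 1 + f * (z - w) * (1 - f) - f * z * ((1 - f) * f) * (w * (1 - f)) := by noncomm_ring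
      _ = 1 + f * (z - w) * (1 - f) := by rw [h3, mul_zero, zero_mul, sub_zero]

theorem dens_one {G : Type} [Group G] [Finite G] : dens_P (1 : (MonoidAlgebra ℚ G)ˣ) := by
  intro N
  refine ⟨1, ?_, ?_, 0, ?_, ?_⟩
  · exact (ZI 2 G).one_mem
  · rw [inv_one]
    exact (ZI 2 G).one_mem
  · exact ⟨1, odd_one, fun g => ⟨0, by simp⟩⟩
  · simp

theorem dens_mul {G : Type} [Group G] [Finite G] {ε ε' : (MonoidAlgebra ℚ G)ˣ}
    (h : dens_P ε) (h' : dens_P ε') : dens_P (ε * ε') := by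
  intro N
  obtain ⟨γ, hγ, hγi, α, hα, he⟩ := h N
  obtain ⟨n₁, h1⟩ := dens_clear hγ
  obtain ⟨n₂, h2⟩ := dens_clear hγi
  have h3 := h1 (n₁ + n₂) (by omega)
  have h4 := h2 (n₁ + n₂) (by omega)
  set K := n₁ + n₂ with hK
  obtain ⟨γ', hγ', hγi', α', hα', he'⟩ := h' (N + 2 * K)
  obtain ⟨-, hr⟩ := L2_ring G
  set a2 : MonoidAlgebra ℚ G := ((2 : ℚ) ^ K • (γ : MonoidAlgebra ℚ G)) * α' *
    ((2 : ℚ) ^ K • ((γ⁻¹ : (MonoidAlgebra ℚ G)ˣ) : MonoidAlgebra ℚ G)) with ha2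
  have h5 : L2 a2 := (hr _ _ (hr _ _ h3 hα').2.1 h4).2.1
  refine ⟨γ * γ', ?_, ?_, α + a2 + (2 : ℚ) ^ N • (α * a2), ?_, ?_⟩
  · rw [Units.val_mul]
    exact (ZI 2 G).mul_mem hγ hγ'
  · rw [mul_inv_rev, Units.val_mul]
    exact (ZI 2 G).mul_mem hγi' hγi
  · exact (hr _ _ (hr _ _ hα h5).1 (dens_smul_L2 (hr _ _ hα h5).2.1 N)).1
  · have h6 : (ε : MonoidAlgebra ℚ G) * (2 : ℚ) ^ (N + 2 * K) • α' *
        ((γ⁻¹ : (MonoidAlgebra ℚ G)ˣ) : MonoidAlgebra ℚ G) =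
        (1 + (2 : ℚ) ^ N • α) * ((2 : ℚ) ^ N • a2) := by
      rw [← he, ha2]
      simp only [mul_smul_comm, smul_mul_assoc, smul_smul]
      rw [← pow_add, ← pow_add, show N + (K + K) = N + 2 * K by ring]
      congr 1
      have h7 : ((γ⁻¹ : (MonoidAlgebra ℚ G)ˣ) : MonoidAlgebra ℚ G) * (γ : MonoidAlgebra ℚ G) = 1 :=
        Units.inv_mul γ
      calc (ε : MonoidAlgebra ℚ G) * α' * ((γ⁻¹ : (MonoidAlgebra ℚ G)ˣ) : MonoidAlgebra ℚ G)
          = (ε : MonoidAlgebra ℚ G) * (((γ⁻¹ : (MonoidAlgebra ℚ G)ˣ) : MonoidAlgebra ℚ G) *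
            (γ : MonoidAlgebra ℚ G)) * α' *
            ((γ⁻¹ : (MonoidAlgebra ℚ G)ˣ) : MonoidAlgebra ℚ G) := by rw [h7, mul_one]
        _ = _ := by simp only [mul_assoc]
    calc ((ε * ε' : (MonoidAlgebra ℚ G)ˣ) : MonoidAlgebra ℚ G) *
          (((γ * γ')⁻¹ : (MonoidAlgebra ℚ G)ˣ) : MonoidAlgebra ℚ G)
        = (ε : MonoidAlgebra ℚ G) * ((ε' : MonoidAlgebra ℚ G) *
          ((γ'⁻¹ : (MonoidAlgebra ℚ G)ˣ) : MonoidAlgebra ℚ G)) *
          ((γ⁻¹ : (MonoidAlgebra ℚ G)ˣ) : MonoidAlgebra ℚ G) := by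
          rw [mul_inv_rev, Units.val_mul, Units.val_mul]
          simp only [mul_assoc]
      _ = (ε : MonoidAlgebra ℚ G) * ((γ⁻¹ : (MonoidAlgebra ℚ G)ˣ) : MonoidAlgebra ℚ G) +
          (ε : MonoidAlgebra ℚ G) * (2 : ℚ) ^ (N + 2 * K) • α' *
          ((γ⁻¹ : (MonoidAlgebra ℚ G)ˣ) : MonoidAlgebra ℚ G) := by
          rw [he', mul_add, mul_one, add_mul]
      _ = (1 + (2 : ℚ) ^ N • α) + (1 + (2 : ℚ) ^ N • α) * ((2 : ℚ) ^ N • a2) := by rw [h6, he]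
      _ = 1 + (2 : ℚ) ^ N • (α + a2 + (2 : ℚ) ^ N • (α * a2)) := by
          rw [add_mul, one_mul, smul_mul_smul_comm, smul_add, smul_add, smul_smul, ← add_assoc,
            ← add_assoc, ← add_assoc]

-- TARGET
theorem dens (G : Type) [Group G] [Finite G] (ε : (MonoidAlgebra ℚ G)ˣ)
    (hε : ε ∈ EG (MonoidAlgebra ℚ G)) (N : ℕ) :
    ∃ γ : (MonoidAlgebra ℚ G)ˣ, (γ : MonoidAlgebra ℚ G) ∈ ZI 2 G ∧
      ((γ⁻¹ : (MonoidAlgebra ℚ G)ˣ) : MonoidAlgebra ℚ G) ∈ ZI 2 G ∧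
      ∃ α : MonoidAlgebra ℚ G, L2 α ∧
        (ε : MonoidAlgebra ℚ G) * ((γ⁻¹ : (MonoidAlgebra ℚ G)ˣ) : MonoidAlgebra ℚ G)
          = 1 + (2 : ℚ) ^ N • α := by
  have h1 : ε ∈ (EG (MonoidAlgebra ℚ G)).toSubmonoid := hε
  clear hε
  have key : dens_P ε := by
    rw [EG, Subgroup.closure_toSubmonoid] at h1
    induction h1 using Submonoid.closure_induction with
    | mem x hx =>
      rcases hx with ⟨f, z, hf, hx⟩ | ⟨f, z, hf, hx⟩
      · exact dens_gen x f z hf hx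
      · refine dens_gen x f (-z) hf ?_
        have h2 := (dens_unit (z := z) hf).2
        have h3 : (x : MonoidAlgebra ℚ G) = 1 - f * z * (1 - f) := by
          calc (x : MonoidAlgebra ℚ G) = (1 - f * z * (1 - f)) * (1 + f * z * (1 - f)) * x := by
                rw [h2, one_mul]
            _ = (1 - f * z * (1 - f)) * (((x⁻¹ : (MonoidAlgebra ℚ G)ˣ) : MonoidAlgebra ℚ G) * x) := by
                rw [hx, mul_assoc]
            _ = 1 - f * z * (1 - f) := by rw [Units.inv_mul, mul_one]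
        rw [h3, mul_neg, neg_mul, sub_eq_add_neg]
    | one => exact dens_one
    | mul x y _ _ hx hy => exact dens_mul hx hy
  exact key N

end Pool.Agent.Helper563_BV
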