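import Mathlib
import Pool.Agent.Helper563_BV.Defs
import Pool.Agent.Helper563_BV.C1
import Pool.Agent.Helper563_BV.C2
import Pool.Agent.Helper563_BV.C4
set_option autoImplicit false
namespace Pool.Agent.Helper563_BV





/-
PROOF OF THE TARGET IN WORDS
Take gamma from dens with N = 1: eps gamma^(-1) = beta := 1 + 2 alpha, L2 alpha. Let v = gamma u1 gamma^(-1), in ZI 2 G. Then
beta v = eps gamma^(-1) gamma u1 gamma^(-1) = eps u1 gamma^(-1) = u2 eps gamma^(-1) = u2 beta. L2 u2 holds: by ZI_iff with p = 3, 3^n is odd.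
So v = u2 beta - 2 alpha v. By ZI_iff (p = 2) 2^n v has integer coefficients for some n, so L2 (2^n v). Descent: if L2 (2^(k+1) v) then
2^k v = 2^k u2 beta - alpha (2^(k+1) v) is L2. Hence L2 v. For every g: m v(g) is an integer with m odd and 2^n v(g) is an integer; as m and
2^n are coprime (Bezout), v(g) is an integer.
-/
theorem patch_smul (G : Type) [Group G] [Finite G] (k : ℕ) (a : MonoidAlgebra ℚ G) (ha : L2 a) :
    L2 ((2 : ℚ) ^ k • a) := by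
  obtain ⟨m, hm, h⟩ := ha
  refine ⟨m, hm, fun g => ?_⟩
  obtain ⟨c, hc⟩ := h g
  refine ⟨2 ^ k * c, ?_⟩
  have : (((2 : ℚ) ^ k • a) : MonoidAlgebra ℚ G).coeff g = (2 : ℚ) ^ k * a.coeff g := by
    simp
  rw [this]
  push_cast
  rw [← hc]; ring

theorem patch_descent (G : Type) [Group G] [Finite G] (v w α : MonoidAlgebra ℚ G)
    (hw : L2 w) (hα : L2 α) (hv : v = w - (2 : ℚ) ^ 1 • (α * v)) (n : ℕ) :
    L2 ((2 : ℚ) ^ n • v) → L2 v := by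
  induction n with
  | zero => intro h; simpa using h
  | succ k ih =>
    intro h
    apply ih
    have hR := (L2_ring G).2
    have e : (2 : ℚ) ^ k • v = (2 : ℚ) ^ k • w + -(α * ((2 : ℚ) ^ (k + 1) • v)) := by
      conv_lhs => rw [hv]
      rw [smul_sub, smul_smul, mul_smul_comm, ← pow_add, sub_eq_add_neg]
    rw [e]
    have h1 := patch_smul G k w hw
    have h2 := (hR α ((2 : ℚ) ^ (k + 1) • v) hα h).2.1
    have h3 := (hR _ _ h2 h2).2.2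
    exact (hR _ _ h1 h3).1

-- TARGET
theorem patch (G : Type) [Group G] [Finite G] (u₁ u₂ : MonoidAlgebra ℚ G)
    (h1 : u₁ ∈ ZI 2 G) (h2 : u₂ ∈ ZI 3 G) (ε : (MonoidAlgebra ℚ G)ˣ)
    (hε : ε ∈ EG (MonoidAlgebra ℚ G)) (hc : (ε : MonoidAlgebra ℚ G) * u₁ = u₂ * ε) :
    ∃ γ : (MonoidAlgebra ℚ G)ˣ, IntC ((γ : MonoidAlgebra ℚ G) * u₁ *
      ((γ⁻¹ : (MonoidAlgebra ℚ G)ˣ) : MonoidAlgebra ℚ G)) := by
  obtain ⟨γ, hγ, hγi, α, hα, hβ⟩ := dens G ε hε 1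
  refine ⟨γ, ?_⟩
  set v : MonoidAlgebra ℚ G := (γ : MonoidAlgebra ℚ G) * u₁ *
      ((γ⁻¹ : (MonoidAlgebra ℚ G)ˣ) : MonoidAlgebra ℚ G) with hvdef
  have hR := (L2_ring G).2
  have h1L := (L2_ring G).1
  have hvZ : v ∈ ZI 2 G := (ZI 2 G).mul_mem ((ZI 2 G).mul_mem hγ h1) hγi
  have hu2 : L2 u₂ := by
    obtain ⟨n, hn⟩ := (ZI_iff 3 (by norm_num) G u₂).mp h2
    refine ⟨3 ^ n, Odd.pow (by decide), fun g => ?_⟩
    obtain ⟨k, hk⟩ := hn g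
    refine ⟨k, ?_⟩
    rw [← hk]; push_cast; rfl
  have key : ((ε : MonoidAlgebra ℚ G) * ((γ⁻¹ : (MonoidAlgebra ℚ G)ˣ) : MonoidAlgebra ℚ G)) * v =
      u₂ * ((ε : MonoidAlgebra ℚ G) * ((γ⁻¹ : (MonoidAlgebra ℚ G)ˣ) : MonoidAlgebra ℚ G)) := by
    rw [hvdef]
    have e1 : ((γ⁻¹ : (MonoidAlgebra ℚ G)ˣ) : MonoidAlgebra ℚ G) * ((γ : MonoidAlgebra ℚ G)) = 1 :=
      Units.inv_mul γ
    calc ((ε : MonoidAlgebra ℚ G) * ((γ⁻¹ : (MonoidAlgebra ℚ G)ˣ) : MonoidAlgebra ℚ G)) *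
          ((γ : MonoidAlgebra ℚ G) * u₁ * ((γ⁻¹ : (MonoidAlgebra ℚ G)ˣ) : MonoidAlgebra ℚ G))
        = (ε : MonoidAlgebra ℚ G) *
          (((γ⁻¹ : (MonoidAlgebra ℚ G)ˣ) : MonoidAlgebra ℚ G) * ((γ : MonoidAlgebra ℚ G))) *
          u₁ * ((γ⁻¹ : (MonoidAlgebra ℚ G)ˣ) : MonoidAlgebra ℚ G) := by simp only [mul_assoc]
      _ = ((ε : MonoidAlgebra ℚ G) * u₁) *
          ((γ⁻¹ : (MonoidAlgebra ℚ G)ˣ) : MonoidAlgebra ℚ G) := by rw [e1, mul_one]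
      _ = _ := by rw [hc, mul_assoc]
  rw [hβ] at key
  have hβL : L2 (1 + (2 : ℚ) ^ 1 • α) := (hR _ _ h1L (patch_smul G 1 α hα)).1
  have hwL : L2 (u₂ * (1 + (2 : ℚ) ^ 1 • α)) := (hR _ _ hu2 hβL).2.1
  have hvEq : v = u₂ * (1 + (2 : ℚ) ^ 1 • α) - (2 : ℚ) ^ 1 • (α * v) := by
    rw [← key, add_mul, one_mul, smul_mul_assoc]; abel
  obtain ⟨n, hn⟩ := (ZI_iff 2 (by norm_num) G v).mp hvZ
  have hnL : L2 ((2 : ℚ) ^ n • v) := by
    refine ⟨1, odd_one, fun g => ?_⟩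
    obtain ⟨k, hk⟩ := hn g
    refine ⟨k, ?_⟩
    have : (((2 : ℚ) ^ n • v) : MonoidAlgebra ℚ G).coeff g = (2 : ℚ) ^ n * v.coeff g := by
      simp
    rw [this, ← hk]; push_cast; ring
  obtain ⟨m, hm, hmv⟩ := patch_descent G v _ α hwL hα hvEq n hnL
  intro g
  obtain ⟨a, ha⟩ := hmv g
  obtain ⟨b, hb⟩ := hn g
  have hcop : IsCoprime (m : ℤ) ((2 : ℤ) ^ n) := by
    have : Nat.Coprime m (2 ^ n) := Nat.Coprime.pow_right n (Nat.coprime_two_right.mpr hm)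
    have h := Nat.isCoprime_iff_coprime.mpr this
    simpa using h
  obtain ⟨x, y, hxy⟩ := hcop
  refine ⟨x * a + y * b, ?_⟩
  have hxyQ : (x : ℚ) * m + y * 2 ^ n = 1 := by exact_mod_cast hxy
  push_cast at hb ⊢
  calc v.coeff g = ((x : ℚ) * m + y * 2 ^ n) * v.coeff g := by rw [hxyQ, one_mul]
    _ = x * (m * v.coeff g) + y * (2 ^ n * v.coeff g) := by ring
    _ = _ := by rw [ha, hb]

end Pool.Agent.Helper563_BV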