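import Mathlib
import Pool.Agent.Helper563_BV.Defs
import Pool.Agent.Helper563_BV.A2
import Pool.Agent.Helper563_BV.A3c
import Pool.Agent.Helper563_BV.B2
import Pool.Agent.Helper563_BV.C5
set_option autoImplicit false
namespace Pool.Agent.Helper563_BV






/-
PROOF OF THE TARGET IN WORDS
A = MonoidAlgebra Q G is a semisimple ring (Maschke; find the Mathlib instance, e.g. via MonoidAlgebra.Submodule.complementedLattice).
g := (1/n) sum_{i<n} u1^i (rational scalar). As u1^n = 1: u1 g = g = g u1 and g g = g. Idl (sum u1^i) = Idl g, at least the inclusion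
Idl (sum) in Idl g, since sum = n g = (n 1) g 1. central_idem gives a central idempotent f in Idl g with f z = z for z in Idl g; in
particular f g = g = g f, and f (u1 - u2) = u1 - u2, i.e. (1-f) u1 = (1-f) u2. conj_of_trace gives a unit a with a u1 = u2 a. Let
a' = a f + (1-f); it is a unit (inverse a^(-1) f + (1-f)), a' = f a' f + (1-f), and a' u1 = a u1 f + (1-f) u1 = u2 a f + (1-f) u2 = u2 a'
(f central). K1lemma: a' = eps h, eps in EG A, h = g h g + (1-g). Then h u1 = u1 h: both equal g h g + (1-g) u1 (u1 g = g = g u1). So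
eps u1 = a' h^(-1) u1 = a' u1 h^(-1) = u2 a' h^(-1) = u2 eps. Apply patch.
-/
theorem mainpatch_core {A : Type*} [Ring A] [Algebra ℚ A] [IsSemisimpleRing A] (u₁ u₂ : A)
    (n : ℕ) (hn : 0 < n) (h1n : u₁ ^ n = 1)
    (hJ : u₁ - u₂ ∈ Idl (∑ i ∈ Finset.range n, u₁ ^ i))
    (a : Aˣ) (ha : (a : A) * u₁ = u₂ * a) :
    ∃ ε ∈ EG A, ((ε : Aˣ) : A) * u₁ = u₂ * ε := by
  have hnQ : (n : ℚ) ≠ 0 := by exact_mod_cast hn.ne'
  obtain ⟨S, hS⟩ : ∃ S : A, S = ∑ i ∈ Finset.range n, u₁ ^ i := ⟨_, rfl⟩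
  rw [← hS] at hJ
  have h5 := Finset.sum_range_succ' (fun i => u₁ ^ i) n
  have h6 := Finset.sum_range_succ (fun i => u₁ ^ i) n
  rw [pow_zero] at h5
  rw [h1n] at h6
  have h7 : ∑ i ∈ Finset.range n, u₁ ^ (i + 1) = S := by
    rw [hS]
    exact add_right_cancel (h5.symm.trans h6)
  have huS : u₁ * S = S := by
    conv_rhs => rw [← h7]
    rw [hS, Finset.mul_sum]
    exact Finset.sum_congr rfl fun i _ => (pow_succ' u₁ i).symm
  have hSu : S * u₁ = S := by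
    conv_rhs => rw [← h7]
    rw [hS, Finset.sum_mul]
    exact Finset.sum_congr rfl fun i _ => (pow_succ u₁ i).symm
  have hpS : ∀ i : ℕ, u₁ ^ i * S = S := by
    intro i
    induction i with
    | zero => rw [pow_zero, one_mul]
    | succ i ih => rw [pow_succ, mul_assoc, huS, ih]
  have hSS : S * S = (n : ℚ) • S := by
    conv_lhs => rw [hS, Finset.sum_mul]
    rw [← hS, Finset.sum_congr rfl fun i _ => hpS i, Finset.sum_const, Finset.card_range,
      Nat.cast_smul_eq_nsmul]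
  obtain ⟨g, hg⟩ : ∃ g : A, g = (n : ℚ)⁻¹ • S := ⟨_, rfl⟩
  have hug : u₁ * g = g := by rw [hg, mul_smul_comm, huS]
  have hgu : g * u₁ = g := by rw [hg, smul_mul_assoc, hSu]
  have hgg : g * g = g := by
    rw [hg, smul_mul_assoc, mul_smul_comm, hSS, smul_smul, smul_smul]
    congr 1
    field_simp
  have hSg : S = (n : ℚ) • g := by
    rw [hg, smul_smul, mul_inv_cancel₀ hnQ, one_smul]
  have hIdl : ∀ z ∈ Idl S, z ∈ Idl g := by
    intro z hz
    unfold Idl at hz ⊢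
    refine AddSubgroup.closure_mono ?_ hz
    rintro z ⟨a, b, rfl⟩
    refine ⟨(n : ℚ) • a, b, ?_⟩
    rw [hSg, mul_smul_comm, smul_mul_assoc, smul_mul_assoc, smul_mul_assoc]
  obtain ⟨f, hff, hfc, hfI, hfz⟩ := central_idem (A := A) g
  have hgI : g ∈ Idl g := by
    refine AddSubgroup.subset_closure ⟨1, 1, ?_⟩
    rw [one_mul, mul_one]
  have hfg : f * g = g := hfz g hgI
  have hgf : g * f = g := by rw [← hfc, hfg]
  have hfd : f * (u₁ - u₂) = u₁ - u₂ := hfz _ (hIdl _ hJ)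
  have hcomp : (1 - f) * u₁ = (1 - f) * u₂ := by
    have h3 : f * u₁ - f * u₂ = u₁ - u₂ := by rw [← mul_sub]; exact hfd
    rw [sub_mul, sub_mul, one_mul, one_mul]
    have h4 : u₁ - f * u₁ - (u₂ - f * u₂) = (u₁ - u₂) - (f * u₁ - f * u₂) := by abel
    have h5 : u₁ - f * u₁ - (u₂ - f * u₂) = 0 := by rw [h4, h3, sub_self]
    exact sub_eq_zero.mp h5
  have hf1 : f * (1 - f) = 0 := by rw [mul_sub, mul_one, hff, sub_self]
  have hf2 : (1 - f) * f = 0 := by rw [sub_mul, one_mul, hff, sub_self]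
  have hf3 : (1 - f) * (1 - f) = 1 - f := by rw [sub_mul, one_mul, hf1, sub_zero]
  have hfc' : ∀ x : A, (1 - f) * x = x * (1 - f) := by
    intro x
    rw [sub_mul, mul_sub, one_mul, mul_one, hfc]
  have key : ∀ x y : A, x * y = 1 → (x * f + (1 - f)) * (y * f + (1 - f)) = 1 := by
    intro x y hxy
    have e1 : x * f * (y * f) = f := by
      rw [← hfc y, ← mul_assoc, mul_assoc x f f, hff, ← hfc x, mul_assoc, hxy, mul_one]
    have e2 : x * f * (1 - f) = 0 := by rw [mul_assoc, hf1, mul_zero]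
    have e3 : (1 - f) * (y * f) = 0 := by
      rw [← mul_assoc, hfc', mul_assoc, hf2, mul_zero]
    rw [add_mul, mul_add, mul_add, e1, e2, e3, hf3]
    abel
  let a' : Aˣ := ⟨(a : A) * f + (1 - f), ((a⁻¹ : Aˣ) : A) * f + (1 - f),
    key _ _ a.mul_inv, key _ _ a.inv_mul⟩
  have ha'v : (a' : A) = (a : A) * f + (1 - f) := rfl
  have ha' : (a' : A) = f * a' * f + (1 - f) := by
    have e1 : f * (a' : A) * f = a * f := by
      rw [ha'v, mul_add, add_mul, hf1, zero_mul, add_zero, ← mul_assoc, hfc, mul_assoc,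
        mul_assoc, hff, hff]
    rw [e1, ha'v]
  have hconj : (a' : A) * u₁ = u₂ * a' := by
    rw [ha'v, add_mul, mul_add, mul_assoc, hfc, ← mul_assoc, ha, mul_assoc, hcomp, hfc' u₂]
  obtain ⟨ε, hε, h, hh, hhv⟩ := K1lemma f g hff hgg hfg hgf hfI a' ha'
  have hhu : (h : A) * u₁ = u₁ * h := by
    have e1 : g * (h : A) * g * u₁ = g * h * g := by rw [mul_assoc, hgu]
    have e2 : u₁ * (g * (h : A) * g) = g * h * g := by
      rw [← mul_assoc, ← mul_assoc, hug]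
    rw [hhv, add_mul, mul_add, e1, e2, sub_mul, mul_sub, one_mul, mul_one, hgu, hug]
  refine ⟨ε, hε, ?_⟩
  have e3 : (ε : A) = a' * ((h⁻¹ : Aˣ) : A) := by
    have : ε = a' * h⁻¹ := by rw [hh, mul_inv_cancel_right]
    rw [this, Units.val_mul]
  have e4 : ((h⁻¹ : Aˣ) : A) * u₁ = u₁ * ((h⁻¹ : Aˣ) : A) := by
    have e5 : ((h⁻¹ : Aˣ) : A) * ((h : A) * u₁) * ((h⁻¹ : Aˣ) : A) =
        ((h⁻¹ : Aˣ) : A) * (u₁ * h) * ((h⁻¹ : Aˣ) : A) := by rw [hhu]
    rw [← mul_assoc, h.inv_mul, one_mul, mul_assoc, mul_assoc u₁, h.mul_inv, mul_one] at e5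
    exact e5.symm
  rw [e3, mul_assoc, e4, ← mul_assoc, hconj, mul_assoc]

-- TARGET
theorem mainpatch (G : Type) [Group G] [Finite G] (u₁ u₂ : MonoidAlgebra ℚ G)
    (h1 : u₁ ∈ ZI 2 G) (h2 : u₂ ∈ ZI 3 G) (n : ℕ) (hn : 0 < n) (h1n : u₁ ^ n = 1)
    (h2n : u₂ ^ n = 1)
    (h : ∀ τ : MonoidAlgebra ℚ G →+ ℚ, IsTr τ → ∀ j : ℕ, τ (u₁ ^ j) = τ (u₂ ^ j))
    (hJ : u₁ - u₂ ∈ Idl (∑ i ∈ Finset.range n, u₁ ^ i)) :
    ∃ γ : (MonoidAlgebra ℚ G)ˣ, IntC ((γ : MonoidAlgebra ℚ G) * u₁ *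
      ((γ⁻¹ : (MonoidAlgebra ℚ G)ˣ) : MonoidAlgebra ℚ G)) := by
  have : NeZero (Nat.card G : ℚ) := ⟨by exact_mod_cast (Nat.card_pos (α := G)).ne'⟩
  obtain ⟨a, ha⟩ := conj_of_trace G u₁ u₂ n hn h1n h2n h
  obtain ⟨ε, hε, hc⟩ := mainpatch_core u₁ u₂ n hn h1n hJ a ha
  exact patch G u₁ u₂ h1 h2 ε hε hc

end Pool.Agent.Helper563_BV
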