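import Mathlib
import Pool.Agent.Helper563_BV.Defs
set_option autoImplicit false
namespace Pool.Agent.Helper563_BV


/-
PROOF OF THE TARGET IN WORDS
xG^3 = 1 and xG is not 1 (VV is nonempty), so orderOf xG = 3 (orderOf_eq_prime). For g in YY: (iG 0 g * xG)^3 = iG 0 g * iG 1 g * iG 2 g, which maps (j, v) to (j, g v) for each j; more generally
((iG 0 g) xG)^3 applied to (j, v) is (j, g v) for each j in ZMod 3 (check the three values of j). For g = sP (not 1, it moves the zero vector: sP 0 = Pi.single 0 1) the cube is not 1, so the order is not 3.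
For g = yP: yP is not 1 and yP^3 is not 1 (kappa nonempty: the function v = Pi.single z0 1 with z0 = Pi.single (0, k, true) 1 in ZZ is moved: yP^3 v = Pi.single (shZ^3 z0) 1 and shZ^3 z0 = Pi.single (3, k, true) 1
differs from z0), so the cube is not 1 and the ninth power (j, v) -> (j, yP^3 v) is not 1.
-/
theorem fin_order_ne {κ : Type} (g : YY κ) (i j : ZMod 3) (v : VV κ) (h : j ≠ i) :
    iG κ i g (j, v) = (j, v) :=
  Equiv.Perm.prodExtendRight_apply_ne _ h _

theorem fin_order_eq {κ : Type} (g : YY κ) (i : ZMod 3) (v : VV κ) :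
    iG κ i g (i, v) = (i, g v) :=
  Equiv.Perm.prodExtendRight_apply_eq _ _ _

theorem fin_order_x {κ : Type} (j : ZMod 3) (v : VV κ) : xG κ (j, v) = (j + 1, v) := rfl

theorem fin_order_cube {κ : Type} (g : YY κ) (j : ZMod 3) (v : VV κ) :
    ((iG κ 0 g * xG κ) ^ 3) (j, v) = (j, g v) := by
  have h3 : ((iG κ 0 g * xG κ) ^ 3) (j, v) = (iG κ 0 g) (xG κ ((iG κ 0 g) (xG κ ((iG κ 0 g)
      (xG κ (j, v)))))) := rfl
  rw [h3]
  have hall : ∀ j : ZMod 3, j = 0 ∨ j = 1 ∨ j = 2 := by decide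
  have e1 : ∀ w : VV κ, xG κ (0, w) = (1, w) := fun w => by
    rw [fin_order_x]; congr 1
  have e2 : ∀ w : VV κ, xG κ (1, w) = (2, w) := fun w => by
    rw [fin_order_x]; congr 1
  have e3 : ∀ w : VV κ, xG κ (2, w) = (0, w) := fun w => by
    rw [fin_order_x]; congr 1
  have n1 : (1 : ZMod 3) ≠ 0 := by decide
  have n2 : (2 : ZMod 3) ≠ 0 := by decide
  rcases hall j with rfl | rfl | rfl
  · rw [e1, fin_order_ne _ _ _ _ n1, e2, fin_order_ne _ _ _ _ n2, e3, fin_order_eq]
  · rw [e2, fin_order_ne _ _ _ _ n2, e3, fin_order_eq, e1, fin_order_ne _ _ _ _ n1]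
  · rw [e3, fin_order_eq, e1, fin_order_ne _ _ _ _ n1, e2, fin_order_ne _ _ _ _ n2]

theorem fin_order_d1 : ∀ j : ZMod 3, j + 1 + 1 + 1 = j := by decide

theorem fin_order_d2 : ¬ (0 : ZMod 3) + 1 = 0 := by decide

theorem fin_order_d3 : ¬ (0 : ZMod 9) + 1 = 0 := by decide

theorem fin_order_d4 : ¬ (0 : ZMod 9) + 1 + 1 + 1 = 0 := by decide

theorem fin_order_y {κ : Type} (v : VV κ) (z : ZZ κ) :
    yP κ v z = v (fun j => z (j.1 + 1, j.2)) := rfl

-- TARGET
theorem fin_order (κ : Type) [Fintype κ] [DecidableEq κ] [Nonempty κ] :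
    orderOf (xG κ) = 3 ∧ orderOf (iG κ 0 (sP κ) * xG κ) ≠ 3 ∧
    orderOf (iG κ 0 (yP κ) * xG κ) ≠ 3 ∧ (iG κ 0 (yP κ) * xG κ) ^ 9 ≠ 1 := by
  obtain ⟨k⟩ := (inferInstance : Nonempty κ)
  refine ⟨?_, ?_, ?_, ?_⟩
  · have : Fact (Nat.Prime 3) := ⟨by norm_num⟩
    refine orderOf_eq_prime ?_ ?_
    · apply Equiv.ext
      rintro ⟨j, v⟩
      have h3 : ((xG κ) ^ 3) (j, v) = (j + 1 + 1 + 1, v) := rfl
      rw [h3]
      rw [fin_order_d1]; rfl
    · intro h
      have h1 : xG κ (0, 0) = (0, 0) := by rw [h]; rfl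
      have h2 : (0 : ZMod 3) + 1 = 0 := congrArg Prod.fst h1
      exact fin_order_d2 h2
  · intro h
    have h1 := pow_orderOf_eq_one (iG κ 0 (sP κ) * xG κ)
    rw [h] at h1
    have h2 := fin_order_cube (sP κ) 0 0
    rw [h1] at h2
    have h3 : (0 : VV κ) = sP κ 0 := congrArg Prod.snd h2
    have h4 : sP κ 0 = 0 + Pi.single (0 : ZZ κ) (1 : ZMod 3) := rfl
    rw [h4, zero_add] at h3
    have h5 := congrFun h3 0
    rw [Pi.single_eq_same] at h5
    have h6 : (0 : ZMod 3) = 1 := h5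
    exact absurd h6 (by decide)
  · intro h
    have h1 := pow_orderOf_eq_one (iG κ 0 (yP κ) * xG κ)
    rw [h] at h1
    have h2 := fin_order_cube (yP κ) 0 (fun z => if z (0, k, true) = 1 then 1 else 0)
    rw [h1] at h2
    have h30 : (fun z : ZZ κ => if z (0, k, true) = 1 then (1 : ZMod 3) else 0) =
      yP κ (fun z => if z (0, k, true) = 1 then 1 else 0) := congrArg Prod.snd h2
    have h3 := congrFun h30 (Pi.single (0, k, true) 1)
    rw [fin_order_y] at h3
    have h4 : ((0 : ZMod 9) + 1, k, true) ≠ (0, k, true) := by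
      intro h
      exact fin_order_d3 (congrArg Prod.fst h)
    have h8 : (Pi.single (0, k, true) (1 : ZMod 2) : ZZ κ) ((0 : ZMod 9) + 1, k, true) = 0 :=
      Pi.single_eq_of_ne h4 _
    simp only [Pi.single_eq_same, h8] at h3
    simp at h3
  · intro h
    have h9 : (iG κ 0 (yP κ) * xG κ) ^ 9 = (iG κ 0 (yP κ) * xG κ) ^ 3 *
        (iG κ 0 (yP κ) * xG κ) ^ 3 * (iG κ 0 (yP κ) * xG κ) ^ 3 := by
      rw [← pow_add, ← pow_add]
    have h2 : ((iG κ 0 (yP κ) * xG κ) ^ 9) (0, (fun z => if z (0, k, true) = 1 then 1 else 0)) =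
        (0, yP κ (yP κ (yP κ (fun z => if z (0, k, true) = 1 then 1 else 0)))) := by
      rw [h9, Equiv.Perm.mul_apply, Equiv.Perm.mul_apply, fin_order_cube, fin_order_cube,
        fin_order_cube]
    rw [h] at h2
    have h30 : (fun z : ZZ κ => if z (0, k, true) = 1 then (1 : ZMod 3) else 0) =
      yP κ (yP κ (yP κ (fun z => if z (0, k, true) = 1 then 1 else 0))) := congrArg Prod.snd h2
    have h3 := congrFun h30 (Pi.single (0, k, true) 1)
    rw [fin_order_y, fin_order_y, fin_order_y] at h3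
    have h4 : ((0 : ZMod 9) + 1 + 1 + 1, k, true) ≠ (0, k, true) := by
      intro h
      exact fin_order_d4 (congrArg Prod.fst h)
    have h8 : (Pi.single (0, k, true) (1 : ZMod 2) : ZZ κ) ((0 : ZMod 9) + 1 + 1 + 1, k, true) = 0 :=
      Pi.single_eq_of_ne h4 _
    simp only [Pi.single_eq_same, h8] at h3
    simp at h3

end Pool.Agent.Helper563_BV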