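import Mathlib
import Pool.Agent.Helper563_BV.Defs
set_option autoImplicit false
namespace Pool.Agent.Helper563_BV


theorem fin_unit_inj (G : Type) [Group G] :
    Function.Injective (MonoidAlgebra.mapRingHom G (Int.castRingHom ℚ)) := by
  intro a b h
  ext g
  have := congrArg (fun x => x.coeff g) h
  simpa using this

theorem fin_unit_sum (G : Type) [Group G] [Fintype G] (w : MonoidAlgebra ℤ G) :
    w = ∑ g : G, (w.coeff g) • MonoidAlgebra.of ℤ G g := by
  classical
  ext h
  simp [Finsupp.single_apply]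

theorem fin_unit_aug (G : Type) [Group G] [Fintype G] (w : MonoidAlgebra ℤ G)
    (hw : w ^ 27 = 1) : ∑ g : G, w.coeff g = 1 := by
  classical
  let e : MonoidAlgebra ℤ G →ₐ[ℤ] ℤ := MonoidAlgebra.lift ℤ ℤ G 1
  have he : e w = ∑ g : G, w.coeff g := by
    conv_lhs => rw [fin_unit_sum G w]
    rw [map_sum]
    refine Finset.sum_congr rfl fun g _ => ?_
    rw [map_zsmul]
    simp [e]
  have h2 : (e w) ^ 27 = 1 := by rw [← map_pow, hw, map_one]
  rw [← he]
  have h3 : Odd 27 := by decide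
  have := h3.strictMono_pow (R := ℤ) |>.injective (a₁ := e w) (a₂ := 1) (by simpa using h2)
  exact this

-- TARGET
theorem fin_unit (G : Type) [Group G] [Fintype G] [DecidableEq G] (v : MonoidAlgebra ℚ G)
    (hv : IntC v) (h27 : v ^ 27 = 1) (h9 : v ^ 9 ≠ 1)
    (hT : ∑ g ∈ Finset.univ.filter (fun g : G => orderOf g = 3), v.coeff g = 3) :
    ∃ (u : (MonoidAlgebra ℤ G)ˣ) (c : G → ℤ),
      (u : MonoidAlgebra ℤ G) = ∑ g : G, c g • MonoidAlgebra.of ℤ G g ∧
      (∑ g : G, c g) = 1 ∧ orderOf u = 3 ^ 3 ∧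
      (∑ g ∈ Finset.univ.filter (fun g : G => orderOf g = 3 ^ 1), c g) = 3 := by
  choose c hc using hv
  let w : MonoidAlgebra ℤ G := MonoidAlgebra.ofCoeff (Finsupp.equivFunOnFinite.symm c)
  have hwc : ∀ g, w.coeff g = c g := fun g => rfl
  let P := MonoidAlgebra.mapRingHom G (Int.castRingHom ℚ)
  have hPw : P w = v := by
    ext g
    rw [hc g, ← hwc g]
    simp [P]
  have hw27 : w ^ 27 = 1 := by
    apply fin_unit_inj G
    rw [map_pow, map_one]
    show (P w) ^ 27 = 1
    rw [hPw, h27]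
  have hw9 : w ^ 9 ≠ 1 := by
    intro h
    apply h9
    rw [← hPw, ← map_pow, h, map_one]
  let u : (MonoidAlgebra ℤ G)ˣ := ⟨w, w ^ 26, by rw [← pow_succ']; exact hw27, by
    rw [← pow_succ]; exact hw27⟩
  refine ⟨u, c, ?_, ?_, ?_, ?_⟩
  · exact fin_unit_sum G w
  · exact fin_unit_aug G w hw27
  · have : Fact (Nat.Prime 3) := ⟨Nat.prime_three⟩
    apply orderOf_eq_prime_pow
    · intro h
      apply hw9
      have := congrArg (fun x : (MonoidAlgebra ℤ G)ˣ => (x : MonoidAlgebra ℤ G)) h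
      simpa [u] using this
    · ext1
      simpa [u] using hw27
  · have h1 : ((∑ g ∈ Finset.univ.filter (fun g : G => orderOf g = 3 ^ 1), c g : ℤ) : ℚ) = 3 := by
      push_cast
      rw [← hT]
      simp [hc]
    exact_mod_cast h1

end Pool.Agent.Helper563_BV
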