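import Mathlib
import Pool.Agent.Helper563_BV.Defs
set_option autoImplicit false
namespace Pool.Agent.Helper563_BV



theorem eps_idem_TT_mul {Ω : Type} (v w : Ω → ZMod 3) : TT v * TT w = TT (v + w) := by
  unfold TT
  rw [← map_mul]
  congr 1
  ext x i
  simp only [Equiv.Perm.coe_mul, Function.comp_apply, Equiv.coe_addRight, Pi.add_apply]
  ring

theorem eps_idem_tt_TT {Ω : Type} (v : Ω → ZMod 3) : tt Ω * TT v = TT (-v) * tt Ω := by
  unfold TT tt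
  rw [← map_mul, ← map_mul]
  congr 1
  ext x i
  simp only [Equiv.Perm.coe_mul, Function.comp_apply, Equiv.coe_addRight, Pi.add_apply,
    Equiv.neg_apply, Pi.neg_apply]
  ring

theorem eps_idem_tt_tt {Ω : Type} : tt Ω * tt Ω = 1 := by
  unfold tt
  rw [← map_mul, ← map_one (MonoidAlgebra.of ℚ (Equiv.Perm (Ω → ZMod 3)))]
  congr 1
  ext x i
  simp

theorem eps_idem_tri (F : ZMod 3 → ℚ) (a : ZMod 3) :
    F a + F (a + 1) + F (a + 1 + 1) = ∑ c, F c := by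
  have h5 : ∑ c : ZMod 3, F c = F 0 + F 1 + F 2 := Fin.sum_univ_three F
  rw [h5]
  have h6 : a = 0 ∨ a = 1 ∨ a = 2 := by
    revert a
    decide
  have e1 : (1 : ZMod 3) + 1 = 2 := by decide
  have e2 : (2 : ZMod 3) + 1 = 0 := by decide
  rcases h6 with rfl | rfl | rfl
  · rw [zero_add, e1]
  · rw [e1, e2]; ring
  · rw [e2, zero_add]; ring

theorem eps_idem_equi {Ω : Type} [Fintype Ω] [DecidableEq Ω] (l : Ω → ZMod 3) (hl : l ≠ 0)
    (F : ZMod 3 → ℚ) :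
    3 * ∑ v : Ω → ZMod 3, F (l ⬝ᵥ v) = (Fintype.card (Ω → ZMod 3) : ℚ) * ∑ c, F c := by
  have : Fact (Nat.Prime 3) := ⟨by norm_num⟩
  obtain ⟨i, hi⟩ : ∃ i, l i ≠ 0 := by
    by_contra h
    push Not at h
    exact hl (funext h)
  set v0 : Ω → ZMod 3 := Pi.single i (l i)⁻¹ with hv0
  have h1 : l ⬝ᵥ v0 = 1 := by
    rw [hv0, dotProduct_single]
    exact mul_inv_cancel₀ hi
  have htr : ∀ (H : ZMod 3 → ℚ), ∑ v : Ω → ZMod 3, H (l ⬝ᵥ v + 1) =
      ∑ v : Ω → ZMod 3, H (l ⬝ᵥ v) := by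
    intro H
    rw [← Equiv.sum_comp (Equiv.addRight v0) (fun v => H (l ⬝ᵥ v))]
    refine Finset.sum_congr rfl fun v _ => ?_
    rw [Equiv.coe_addRight, dotProduct_add, h1]
  have h2 : ∑ v : Ω → ZMod 3, F (l ⬝ᵥ v + 1) = ∑ v : Ω → ZMod 3, F (l ⬝ᵥ v) := htr F
  have h3 : ∑ v : Ω → ZMod 3, F (l ⬝ᵥ v + 1 + 1) = ∑ v : Ω → ZMod 3, F (l ⬝ᵥ v) := by
    rw [htr (fun c => F (c + 1)), h2]
  calc 3 * ∑ v : Ω → ZMod 3, F (l ⬝ᵥ v)
      = ∑ v : Ω → ZMod 3, F (l ⬝ᵥ v) + ∑ v : Ω → ZMod 3, F (l ⬝ᵥ v + 1) +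
        ∑ v : Ω → ZMod 3, F (l ⬝ᵥ v + 1 + 1) := by rw [h2, h3]; ring
    _ = ∑ v : Ω → ZMod 3, (F (l ⬝ᵥ v) + F (l ⬝ᵥ v + 1) + F (l ⬝ᵥ v + 1 + 1)) := by
        rw [Finset.sum_add_distrib, Finset.sum_add_distrib]
    _ = ∑ v : Ω → ZMod 3, ∑ c, F c := Finset.sum_congr rfl fun v _ => eps_idem_tri F _
    _ = (Fintype.card (Ω → ZMod 3) : ℚ) * ∑ c, F c := by
        rw [Finset.sum_const, Finset.card_univ, nsmul_eq_mul]

theorem eps_idem_th (a : ZMod 3) :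
    ∑ c : ZMod 3, th c * (th (a - c) + th (-(a - c))) = 3 * th a := by
  have h5 : ∀ F : ZMod 3 → ℚ, ∑ c : ZMod 3, F c = F 0 + F 1 + F 2 := fun F => Fin.sum_univ_three F
  rw [h5]
  have t0 : th 0 = 1 := by simp [th]
  have t1 : th 1 = -1 := by
    unfold th
    rw [if_neg (by decide), if_pos rfl]
  have t2 : th 2 = 0 := by
    unfold th
    rw [if_neg (by decide), if_neg (by decide)]
  have h6 : a = 0 ∨ a = 1 ∨ a = 2 := by
    revert a
    decide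
  rcases h6 with rfl | rfl | rfl
  · have e0 : (0 : ZMod 3) - 0 = 0 := by decide
    have e1 : (0 : ZMod 3) - 1 = 2 := by decide
    have e2 : (0 : ZMod 3) - 2 = 1 := by decide
    have n0 : -(0 : ZMod 3) = 0 := by decide
    have n1 : -(1 : ZMod 3) = 2 := by decide
    have n2 : -(2 : ZMod 3) = 1 := by decide
    rw [e0, e1, e2, n0, n1, n2, t0, t1, t2]
    norm_num
  · have e0 : (1 : ZMod 3) - 0 = 1 := by decide
    have e1 : (1 : ZMod 3) - 1 = 0 := by decide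
    have e2 : (1 : ZMod 3) - 2 = 2 := by decide
    have n0 : -(0 : ZMod 3) = 0 := by decide
    have n1 : -(1 : ZMod 3) = 2 := by decide
    have n2 : -(2 : ZMod 3) = 1 := by decide
    rw [e0, e1, e2, n0, n1, n2, t0, t1, t2]
    norm_num
  · have e0 : (2 : ZMod 3) - 0 = 2 := by decide
    have e1 : (2 : ZMod 3) - 1 = 1 := by decide
    have e2 : (2 : ZMod 3) - 2 = 0 := by decide
    have n0 : -(0 : ZMod 3) = 0 := by decide
    have n1 : -(1 : ZMod 3) = 2 := by decide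
    have n2 : -(2 : ZMod 3) = 1 := by decide
    rw [e0, e1, e2, n0, n1, n2, t0, t1, t2]
    norm_num

theorem eps_idem_conv {Ω : Type} [Fintype Ω] [DecidableEq Ω] (f g : (Ω → ZMod 3) → ℚ) :
    (∑ v : Ω → ZMod 3, f v • TT v) * (∑ w : Ω → ZMod 3, g w • TT w) =
      ∑ u : Ω → ZMod 3, (∑ v : Ω → ZMod 3, f v * g (u - v)) • TT u := by
  rw [Finset.sum_mul_sum]
  have h1 : ∀ v : Ω → ZMod 3, ∑ w : Ω → ZMod 3, (f v • TT v) * (g w • TT w) =
      ∑ u : Ω → ZMod 3, (f v * g (u - v)) • TT u := by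
    intro v
    rw [← Equiv.sum_comp (Equiv.addLeft v) (fun u => (f v * g (u - v)) • TT u)]
    refine Finset.sum_congr rfl fun w _ => ?_
    rw [Equiv.coe_addLeft, add_sub_cancel_left, smul_mul_smul_comm, eps_idem_TT_mul]
  rw [Finset.sum_congr rfl fun v _ => h1 v, Finset.sum_comm]
  refine Finset.sum_congr rfl fun u _ => ?_
  rw [Finset.sum_smul]

theorem eps_idem_tt_sum {Ω : Type} [Fintype Ω] [DecidableEq Ω] (f : (Ω → ZMod 3) → ℚ) :
    tt Ω * (∑ v : Ω → ZMod 3, f v • TT v) = (∑ v : Ω → ZMod 3, f (-v) • TT v) * tt Ω := by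
  rw [Finset.mul_sum, Finset.sum_mul,
    ← Equiv.sum_comp (Equiv.neg (Ω → ZMod 3)) (fun v => f (-v) • TT v * tt Ω)]
  refine Finset.sum_congr rfl fun v _ => ?_
  rw [Equiv.neg_apply, neg_neg, mul_smul_comm, eps_idem_tt_TT, smul_mul_assoc]

/-
PROOF OF THE TARGET IN WORDS
V = (Omega -> ZMod 3). TT v TT w = TT (v + w), TT 0 = 1, tt tt = 1, tt TT v = TT (-v) tt. Put D_l = |V|^(-1) sum_v th(l.v) TT v, so eps l = D_l (1 + tt), and tt D_l = D_(-l) tt.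

eps l eps l = D_l (1+tt) D_l (1+tt) = D_l D_l (1+tt) + D_l D_(-l) tt (1+tt) = D_l (D_l + D_(-l)) (1+tt). D_l + D_(-l) = |V|^(-1) sum_v g(l.v) TT v with g(c) = th c + th(-c)
= 2 for c = 0 and -1 otherwise = 3 [c=0] - 1. D_l (D_l + D_(-l)) = |V|^(-2) sum_u (sum_v th(l.v) g(l.(u-v))) TT u. For l nonzero the value l.v is equidistributed: the number
of v with l.v = c is |V|/3 for each c (translate by a vector v0 with l.v0 = 1). So the inner sum is (|V|/3) sum_c th(c) g(l.u - c) = (|V|/3) (3 th(l.u) - sum_c th c) =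
|V| th(l.u). Hence D_l (D_l + D_(-l)) = D_l, and eps l eps l = eps l.
-/
-- TARGET
theorem eps_idem {Ω : Type} [Fintype Ω] [DecidableEq Ω] (l : Ω → ZMod 3) (hl : l ≠ 0) :
    eps l * eps l = eps l := by
  have hN : (Fintype.card (Ω → ZMod 3) : ℚ) ≠ 0 := by
    exact_mod_cast Fintype.card_ne_zero
  set N : ℚ := (Fintype.card (Ω → ZMod 3) : ℚ) with hNdef
  set D : MonoidAlgebra ℚ (Equiv.Perm (Ω → ZMod 3)) :=
    ∑ v : Ω → ZMod 3, th (l ⬝ᵥ v) • TT v with hD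
  set D' : MonoidAlgebra ℚ (Equiv.Perm (Ω → ZMod 3)) :=
    ∑ v : Ω → ZMod 3, th (l ⬝ᵥ (-v)) • TT v with hD'
  have h1 : tt Ω * D = D' * tt Ω := eps_idem_tt_sum (fun v => th (l ⬝ᵥ v))
  have h2 : D * (D + D') = N • D := by
    have h3 : D + D' = ∑ w : Ω → ZMod 3, (th (l ⬝ᵥ w) + th (-(l ⬝ᵥ w))) • TT w := by
      rw [hD, hD', ← Finset.sum_add_distrib]
      refine Finset.sum_congr rfl fun w _ => ?_
      rw [add_smul, dotProduct_neg]
    rw [h3, hD, eps_idem_conv (fun v => th (l ⬝ᵥ v)) (fun w => th (l ⬝ᵥ w) + th (-(l ⬝ᵥ w))),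
      Finset.smul_sum]
    refine Finset.sum_congr rfl fun u _ => ?_
    rw [smul_smul]
    congr 1
    have h4 := eps_idem_equi l hl (fun c => th c * (th (l ⬝ᵥ u - c) + th (-(l ⬝ᵥ u - c))))
    rw [eps_idem_th] at h4
    have h5 : ∑ v : Ω → ZMod 3, th (l ⬝ᵥ v) * (th (l ⬝ᵥ (u - v)) + th (-(l ⬝ᵥ (u - v)))) =
        ∑ v : Ω → ZMod 3, th (l ⬝ᵥ v) * (th (l ⬝ᵥ u - l ⬝ᵥ v) + th (-(l ⬝ᵥ u - l ⬝ᵥ v))) := by
      refine Finset.sum_congr rfl fun v _ => ?_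
      rw [dotProduct_sub]
    rw [h5]
    linarith
  have h6 : (D * (1 + tt Ω)) * (D * (1 + tt Ω)) = (D * (D + D')) * (1 + tt Ω) := by
    have h7 : (1 + tt Ω) * D * (1 + tt Ω) = (D + D') * (1 + tt Ω) := by
      rw [add_mul, one_mul, h1]
      have h8 : D' * tt Ω * tt Ω = D' := by rw [mul_assoc, eps_idem_tt_tt, mul_one]
      rw [add_mul, add_mul, mul_add (D' * tt Ω), mul_one, h8, mul_add D', mul_one, add_comm D']
    calc (D * (1 + tt Ω)) * (D * (1 + tt Ω)) = D * ((1 + tt Ω) * D * (1 + tt Ω)) := by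
          simp only [mul_assoc]
      _ = D * ((D + D') * (1 + tt Ω)) := by rw [h7]
      _ = (D * (D + D')) * (1 + tt Ω) := by rw [mul_assoc]
  have h9 : eps l = N⁻¹ • (D * (1 + tt Ω)) := rfl
  rw [h9, smul_mul_smul_comm, h6, h2, smul_mul_assoc, smul_smul, mul_assoc,
    inv_mul_cancel₀ hN, mul_one]

end Pool.Agent.Helper563_BV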