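import Mathlib
import Pool.Agent.Helper563_BV.Defs
set_option autoImplicit false
namespace Pool.Agent.Helper563_BV


theorem eps_orth_TT {Ω : Type} (v w : Ω → ZMod 3) : TT v * TT w = TT (v + w) := by
  unfold TT
  rw [← map_mul]
  congr 1
  ext x
  simp [Equiv.Perm.mul_apply, add_comm, add_left_comm]

theorem eps_orth_tt {Ω : Type} : tt Ω * tt Ω = 1 := by
  unfold tt
  rw [← map_mul]
  have : (Equiv.neg (Ω → ZMod 3)) * (Equiv.neg (Ω → ZMod 3)) = 1 := by
    ext x
    simp [Equiv.Perm.mul_apply]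
  rw [this, map_one]

theorem eps_orth_tT {Ω : Type} (v : Ω → ZMod 3) : tt Ω * TT v = TT (-v) * tt Ω := by
  unfold TT tt
  rw [← map_mul, ← map_mul]
  congr 1
  ext x
  simp [Equiv.Perm.mul_apply, add_comm]

/-- sum part -/
noncomputable def eps_orth_D {Ω : Type} [Fintype Ω] [DecidableEq Ω] (l : Ω → ZMod 3) :
    MonoidAlgebra ℚ (Equiv.Perm (Ω → ZMod 3)) := ∑ v : Ω → ZMod 3, th (l ⬝ᵥ v) • TT v

theorem eps_orth_tD {Ω : Type} [Fintype Ω] [DecidableEq Ω] (l : Ω → ZMod 3) :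
    tt Ω * eps_orth_D l = eps_orth_D (-l) * tt Ω := by
  unfold eps_orth_D
  rw [Finset.mul_sum, Finset.sum_mul]
  rw [← Equiv.sum_comp (Equiv.neg (Ω → ZMod 3))]
  apply Finset.sum_congr rfl
  intro v _
  rw [mul_smul_comm, smul_mul_assoc, eps_orth_tT]
  simp

theorem eps_orth_exists {Ω : Type} [Fintype Ω] [DecidableEq Ω] (l m : Ω → ZMod 3) (hl : l ≠ 0)
    (hm : m ≠ 0) (h1 : m ≠ l) (h2 : m ≠ -l) : ∃ v0 : Ω → ZMod 3, l ⬝ᵥ v0 = 1 ∧ m ⬝ᵥ v0 = 0 := by
  by_cases h : ∀ i j, l i * m j - l j * m i = 0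
  · exfalso
    obtain ⟨i, hi⟩ : ∃ i, l i ≠ 0 := by
      by_contra hc
      push Not at hc
      exact hl (funext hc)
    have hmul : ∀ j, m j = (m i * (l i)⁻¹) * l j := by
      intro j
      have := h i j
      have h3 : l i * m j = l j * m i := sub_eq_zero.mp this
      field_simp
      rw [mul_comm, h3, mul_comm]
    have hcase : ∀ c : ZMod 3, c = 0 ∨ c = 1 ∨ c = -1 := by decide
    rcases hcase (m i * (l i)⁻¹) with hc | hc | hc
    · exact hm (funext fun j => by rw [hmul j, hc, zero_mul]; rfl)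
    · exact h1 (funext fun j => by rw [hmul j, hc, one_mul])
    · exact h2 (funext fun j => by rw [hmul j, hc]; simp)
  · push Not at h
    obtain ⟨i, j, hij⟩ := h
    have hne : i ≠ j := by
      rintro rfl
      exact hij (sub_self _)
    -- v0 = d^{-1} (m_j e_i - m_i e_j)
    set d := l i * m j - l j * m i with hd
    refine ⟨d⁻¹ • (Pi.single i (m j) - Pi.single j (m i)), ?_, ?_⟩
    · rw [dotProduct_smul, dotProduct_sub, dotProduct_single, dotProduct_single, ← hd, smul_eq_mul,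
        inv_mul_cancel₀ hij]
    · rw [dotProduct_smul, dotProduct_sub, dotProduct_single, dotProduct_single, mul_comm (m j) (m i),
        sub_self, smul_zero]

theorem eps_orth_DD {Ω : Type} [Fintype Ω] [DecidableEq Ω] (l m : Ω → ZMod 3) (hl : l ≠ 0)
    (hm : m ≠ 0) (h1 : m ≠ l) (h2 : m ≠ -l) : eps_orth_D l * eps_orth_D m = 0 := by
  obtain ⟨v0, hv1, hv2⟩ := eps_orth_exists l m hl hm h1 h2
  have key : ∀ u : Ω → ZMod 3, ∑ v : Ω → ZMod 3, th (l ⬝ᵥ v) * th (m ⬝ᵥ (u - v)) = 0 := by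
    intro u
    set F : (Ω → ZMod 3) → ℚ := fun v => th (l ⬝ᵥ v) * th (m ⬝ᵥ (u - v)) with hF
    have e1 : ∑ v, F v = ∑ v, F (v + v0) := (Equiv.sum_comp (Equiv.addRight v0) F).symm
    have e2 : ∑ v, F v = ∑ v, F (v + (v0 + v0)) :=
      (Equiv.sum_comp (Equiv.addRight (v0 + v0)) F).symm
    have e3 : ∑ v, F v + ∑ v, F (v + v0) + ∑ v, F (v + (v0 + v0)) = 0 := by
      rw [← Finset.sum_add_distrib, ← Finset.sum_add_distrib]
      apply Finset.sum_eq_zero
      intro v _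
      simp only [hF, dotProduct_add, dotProduct_sub, hv1, hv2, add_zero]
      have hth : ∀ c : ZMod 3, th c + th (c + 1) + th (c + (1 + 1)) = 0 := by
        intro c
        have : c = 0 ∨ c = 1 ∨ c = 2 := by revert c; decide
        rcases this with rfl | rfl | rfl
        · have a1 : (0 : ZMod 3) + (1 + 1) = 2 := by decide
          have a2 : (2 : ZMod 3) ≠ 0 := by decide
          have a3 : (2 : ZMod 3) ≠ 1 := by decide
          simp [th, a1, a2, a3]
        · have a1 : (1 : ZMod 3) + (1 + 1) = 0 := by decide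
          have a0 : (1 : ZMod 3) + 1 = 2 := by decide
          have a2 : (2 : ZMod 3) ≠ 0 := by decide
          have a3 : (2 : ZMod 3) ≠ 1 := by decide
          rw [a1, a0]
          simp [th, a2, a3]
        · have a1 : (2 : ZMod 3) + (1 + 1) = 1 := by decide
          have a0 : (2 : ZMod 3) + 1 = 0 := by decide
          have a2 : (2 : ZMod 3) ≠ 0 := by decide
          have a3 : (2 : ZMod 3) ≠ 1 := by decide
          rw [a1, a0]
          simp [th, a2, a3]
      rw [← add_mul, ← add_mul, hth, zero_mul]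
    rw [← e1, ← e2] at e3
    linarith
  unfold eps_orth_D
  rw [Finset.sum_mul_sum]
  have e4 : ∀ v w : Ω → ZMod 3, (th (l ⬝ᵥ v) • TT v) * (th (m ⬝ᵥ w) • TT w) =
      (th (l ⬝ᵥ v) * th (m ⬝ᵥ w)) • TT (v + w) := by
    intro v w
    rw [smul_mul_smul_comm, eps_orth_TT]
  simp only [e4]
  have e5 : ∀ v : Ω → ZMod 3, ∑ w, (th (l ⬝ᵥ v) * th (m ⬝ᵥ w)) • TT (v + w) =
      ∑ u, (th (l ⬝ᵥ v) * th (m ⬝ᵥ (u - v))) • TT u := by
    intro v
    rw [← Equiv.sum_comp (Equiv.subRight v)]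
    apply Finset.sum_congr rfl
    intro u _
    simp
  simp only [e5]
  rw [Finset.sum_comm]
  apply Finset.sum_eq_zero
  intro u _
  rw [← Finset.sum_smul, key u, zero_smul]

-- TARGET
theorem eps_orth {Ω : Type} [Fintype Ω] [DecidableEq Ω] (l l' : Ω → ZMod 3) (hl : l ≠ 0)
    (hl' : l' ≠ 0) (h1 : l' ≠ l) (h2 : l' ≠ -l) : eps l * eps l' = 0 := by
  have hA := eps_orth_DD l l' hl hl' h1 h2
  have hB := eps_orth_DD l (-l') hl (neg_ne_zero.mpr hl') (fun h => h2 (by rw [← h, neg_neg]))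
    (fun h => h1 (neg_injective h))
  have e1 : eps_orth_D l * (1 + tt Ω) * (eps_orth_D l' * (1 + tt Ω)) = 0 := by
    have : eps_orth_D l * (1 + tt Ω) * (eps_orth_D l' * (1 + tt Ω)) =
        eps_orth_D l * eps_orth_D l' * (1 + tt Ω) +
        eps_orth_D l * (tt Ω * eps_orth_D l') * (1 + tt Ω) := by noncomm_ring
    rw [this, eps_orth_tD, hA, ← mul_assoc (eps_orth_D l), hB]
    simp
  unfold eps
  change ((Fintype.card (Ω → ZMod 3) : ℚ)⁻¹ • (eps_orth_D l * (1 + tt Ω))) *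
    ((Fintype.card (Ω → ZMod 3) : ℚ)⁻¹ • (eps_orth_D l' * (1 + tt Ω))) = 0
  rw [smul_mul_smul_comm, e1, smul_zero]

end Pool.Agent.Helper563_BV
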