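import Mathlib
import Pool.Agent.Helper563_BV.Defs
set_option autoImplicit false
namespace Pool.Agent.Helper563_BV


/-
PROOF OF THE TARGET IN WORDS
V = (Omega -> ZMod 3). TT v TT w = TT (v + w), TT 0 = 1, tt tt = 1, tt TT v = TT (-v) tt. Put D_l = |V|^(-1) sum_v th(l.v) TT v, so eps l = D_l (1 + tt), and tt D_l = D_(-l) tt.

As permutations h o (x -> x + v) = (x -> x + h v) o h and h o neg = neg o h (h linear), so of(h) TT v = TT (h v) of(h), of(h) tt = tt of(h). Then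
of(h) eps l = |V|^(-1) sum_v th(l.v) TT(h v) (1 + tt) of(h) = |V|^(-1) sum_w th(l . h^(-1) w) TT w (1+tt) of(h) = |V|^(-1) sum_w th(l' . w) TT w (1+tt) of(h), since l'.w = l'.h(h^(-1) w) = l . h^(-1) w.
(Reindex the sum by the bijection h: Equiv.sum_comp.) Note MonoidAlgebra.of of a product of permutations: Equiv.Perm multiplication is composition.
-/
theorem eps_conj_aux1 {Ω : Type} (h : (Ω → ZMod 3) ≃ₗ[ZMod 3] (Ω → ZMod 3)) (v : Ω → ZMod 3) :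
    MonoidAlgebra.of ℚ (Equiv.Perm (Ω → ZMod 3)) h.toEquiv * TT v
      = TT (h v) * MonoidAlgebra.of ℚ (Equiv.Perm (Ω → ZMod 3)) h.toEquiv := by
  unfold TT
  rw [← map_mul, ← map_mul]
  congr 1
  ext1 x
  show h (x + v) = h x + h v
  exact map_add h x v

theorem eps_conj_aux2 {Ω : Type} (h : (Ω → ZMod 3) ≃ₗ[ZMod 3] (Ω → ZMod 3)) :
    MonoidAlgebra.of ℚ (Equiv.Perm (Ω → ZMod 3)) h.toEquiv * tt Ω
      = tt Ω * MonoidAlgebra.of ℚ (Equiv.Perm (Ω → ZMod 3)) h.toEquiv := by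
  unfold tt
  rw [← map_mul, ← map_mul]
  congr 1
  ext1 x
  show h (-x) = - h x
  exact map_neg h x

-- TARGET
theorem eps_conj {Ω : Type} [Fintype Ω] [DecidableEq Ω] (l l' : Ω → ZMod 3)
    (h : (Ω → ZMod 3) ≃ₗ[ZMod 3] (Ω → ZMod 3)) (hh : ∀ v, l' ⬝ᵥ h v = l ⬝ᵥ v) :
    MonoidAlgebra.of ℚ (Equiv.Perm (Ω → ZMod 3)) h.toEquiv * eps l
      = eps l' * MonoidAlgebra.of ℚ (Equiv.Perm (Ω → ZMod 3)) h.toEquiv := by
  have h1 : MonoidAlgebra.of ℚ (Equiv.Perm (Ω → ZMod 3)) h.toEquiv *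
      (∑ v : Ω → ZMod 3, th (l ⬝ᵥ v) • TT v) =
      (∑ v : Ω → ZMod 3, th (l' ⬝ᵥ v) • TT v) *
        MonoidAlgebra.of ℚ (Equiv.Perm (Ω → ZMod 3)) h.toEquiv := by
    rw [Finset.mul_sum, Finset.sum_mul, ← Equiv.sum_comp h.toEquiv
      (fun v => th (l' ⬝ᵥ v) • TT v * MonoidAlgebra.of ℚ (Equiv.Perm (Ω → ZMod 3)) h.toEquiv)]
    refine Finset.sum_congr rfl fun v _ => ?_
    rw [mul_smul_comm, smul_mul_assoc, eps_conj_aux1]
    have h2 : l' ⬝ᵥ (h.toEquiv v) = l ⬝ᵥ v := hh v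
    rw [h2]
    rfl
  unfold eps
  rw [mul_smul_comm, smul_mul_assoc, ← mul_assoc, h1, mul_assoc, mul_assoc]
  congr 2
  rw [mul_add, add_mul, mul_one, one_mul, eps_conj_aux2]

end Pool.Agent.Helper563_BV
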