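import Mathlib
import Pool.Agent.Helper563_BV.Defs
set_option autoImplicit false
namespace Pool.Agent.Helper563_BV

/-- the functional given by a vector -/
def lin_trans_fun {Ω : Type} [Fintype Ω] (l : Ω → ZMod 3) : (Ω → ZMod 3) →ₗ[ZMod 3] ZMod 3 where
  toFun v := l ⬝ᵥ v
  map_add' v w := dotProduct_add l v w
  map_smul' c v := by rw [dotProduct_smul]; rfl

theorem lin_trans_exists_one {Ω : Type} [Fintype Ω] [DecidableEq Ω] (l : Ω → ZMod 3)
    (hl : l ≠ 0) : ∃ v, lin_trans_fun l v = 1 := by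
  have : Fact (Nat.Prime 3) := ⟨Nat.prime_three⟩
  obtain ⟨i, hi⟩ := Function.ne_iff.1 hl
  refine ⟨Pi.single i (l i)⁻¹, ?_⟩
  show l ⬝ᵥ (Pi.single i (l i)⁻¹) = 1
  rw [dotProduct_single]
  exact mul_inv_cancel₀ hi

theorem lin_trans_ker {Ω : Type} [Fintype Ω] [DecidableEq Ω] (l : Ω → ZMod 3) (hl : l ≠ 0) :
    have : Fact (Nat.Prime 3) := ⟨Nat.prime_three⟩
    Module.finrank (ZMod 3) (LinearMap.ker (lin_trans_fun l)) + 1
      = Module.finrank (ZMod 3) (Ω → ZMod 3) := by
  have : Fact (Nat.Prime 3) := ⟨Nat.prime_three⟩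
  obtain ⟨v, hv⟩ := lin_trans_exists_one l hl
  have hr : LinearMap.range (lin_trans_fun l) = ⊤ := by
    rw [LinearMap.range_eq_top]
    intro c
    refine ⟨c • v, ?_⟩
    rw [map_smul, hv, smul_eq_mul, mul_one]
  have h := LinearMap.finrank_range_add_finrank_ker (lin_trans_fun l)
  rw [hr, finrank_top, Module.finrank_self] at h
  omega

theorem lin_trans {Ω : Type} [Fintype Ω] [DecidableEq Ω] (l l' : Ω → ZMod 3) (hl : l ≠ 0)
    (hl' : l' ≠ 0) :
    ∃ h : (Ω → ZMod 3) ≃ₗ[ZMod 3] (Ω → ZMod 3), ∀ v, l' ⬝ᵥ h v = l ⬝ᵥ v := by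
  have : Fact (Nat.Prime 3) := ⟨Nat.prime_three⟩
  obtain ⟨v1, hv1⟩ := lin_trans_exists_one l hl
  obtain ⟨v2, hv2⟩ := lin_trans_exists_one l' hl'
  have hk : Module.finrank (ZMod 3) (LinearMap.ker (lin_trans_fun l))
      = Module.finrank (ZMod 3) (LinearMap.ker (lin_trans_fun l')) := by
    have h1 := lin_trans_ker l hl
    have h2 := lin_trans_ker l' hl'
    omega
  let k := LinearEquiv.ofFinrankEq _ _ hk
  -- projection to the kernel
  let π : (Ω → ZMod 3) →ₗ[ZMod 3] (LinearMap.ker (lin_trans_fun l)) :=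
    LinearMap.codRestrict _ (LinearMap.id - (lin_trans_fun l).smulRight v1) (by
      intro v
      rw [LinearMap.mem_ker]
      simp only [LinearMap.sub_apply, LinearMap.id_coe, id_eq, LinearMap.smulRight_apply, map_sub,
        map_smul, hv1, smul_eq_mul, mul_one, sub_self])
  let f : (Ω → ZMod 3) →ₗ[ZMod 3] (Ω → ZMod 3) :=
    (LinearMap.ker (lin_trans_fun l')).subtype ∘ₗ k.toLinearMap ∘ₗ π
      + (lin_trans_fun l).smulRight v2
  have hf : ∀ v, lin_trans_fun l' (f v) = lin_trans_fun l v := by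
    intro v
    have h0 : lin_trans_fun l' ((k (π v) : LinearMap.ker (lin_trans_fun l')) : Ω → ZMod 3) = 0 :=
      LinearMap.mem_ker.1 (k (π v)).2
    show lin_trans_fun l' (((k (π v) : LinearMap.ker (lin_trans_fun l')) : Ω → ZMod 3)
      + lin_trans_fun l v • v2) = _
    rw [map_add, h0, map_smul, hv2, smul_eq_mul, mul_one, zero_add]
  have hinj : Function.Injective f := by
    rw [← LinearMap.ker_eq_bot, LinearMap.ker_eq_bot']
    intro v hv
    have h1 : lin_trans_fun l v = 0 := by rw [← hf, hv, map_zero]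
    have h2 : ((k (π v) : LinearMap.ker (lin_trans_fun l')) : Ω → ZMod 3)
      + lin_trans_fun l v • v2 = 0 := hv
    rw [h1, zero_smul, add_zero] at h2
    have h3 : k (π v) = 0 := Subtype.ext h2
    have h4 : π v = 0 := by
      rw [← k.map_eq_zero_iff]; exact h3
    have h5 : ((π v : LinearMap.ker (lin_trans_fun l)) : Ω → ZMod 3) = v - lin_trans_fun l v • v1 := rfl
    rw [h4, h1, zero_smul, sub_zero] at h5
    exact h5.symm
  refine ⟨LinearEquiv.ofInjectiveEndo f hinj, fun v => ?_⟩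
  exact hf v

end Pool.Agent.Helper563_BV
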