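import Mathlib
import Pool.Agent.Helper563_BV.Defs
set_option autoImplicit false
namespace Pool.Agent.Helper563_BV


/-
PROOF OF THE TARGET IN WORDS
V = (Omega -> ZMod 3). TT v TT w = TT (v + w), TT 0 = 1, tt tt = 1, tt TT v = TT (-v) tt. Put D_l = |V|^(-1) sum_v th(l.v) TT v, so eps l = D_l (1 + tt), and tt D_l = D_(-l) tt.

Let s = TT (Pi.single o 1). Left side = |V|^(-1) sum_v (sum_{l : l o = 1} th(l.v)) TT v (1+tt). CLAIM: S(v) := sum_{l o = 1} th(l.v) equals |V|/3 for v = 0, -|V|/3 for v = Pi.single o 1, and 0 otherwise.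
If v i is nonzero for some i different from o: adding multiples of Pi.single i (v i)^(-1) to l keeps l o = 1 and shifts l.v by 1, so (three times) the sum is sum of th(c)+th(c+1)+th(c+2) = 0.
Otherwise v = Pi.single o c with c = v o and l.v = c for every l with l o = 1; the number of such l is |V|/3 (the values l o are equidistributed), th(0) = 1, th(1) = -1, th(2) = 0.
So the left side is (1/3)(TT 0 - s)(1+tt).
-/
/-- the number of the functions with a given value at `o` -/
theorem eps_sum_card {Ω : Type} [Fintype Ω] [DecidableEq Ω] (o : Ω) :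
    3 * (Finset.univ.filter (fun l : Ω → ZMod 3 => l o = 1)).card =
      Fintype.card (Ω → ZMod 3) := by
  have h1 : (Finset.univ : Finset (Ω → ZMod 3)).card =
      ∑ a : ZMod 3, (Finset.univ.filter (fun l : Ω → ZMod 3 => l o = a)).card :=
    Finset.card_eq_sum_card_fiberwise (f := fun l : Ω → ZMod 3 => l o) (t := Finset.univ)
      (fun _ _ => Finset.mem_coe.2 (Finset.mem_univ _))
  have h2 : ∀ a : ZMod 3, (Finset.univ.filter (fun l : Ω → ZMod 3 => l o = a)).card =
      (Finset.univ.filter (fun l : Ω → ZMod 3 => l o = 1)).card := by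
    intro a
    refine Finset.card_nbij' (fun l => l + Pi.single o (1 - a)) (fun l => l - Pi.single o (1 - a))
      ?_ ?_ ?_ ?_
    · intro l hl
      rw [Finset.mem_coe, Finset.mem_filter] at hl ⊢
      refine ⟨Finset.mem_univ _, ?_⟩
      show l o + (Pi.single o (1 - a) : Ω → ZMod 3) o = 1
      rw [Pi.single_eq_same, hl.2]
      ring
    · intro l hl
      rw [Finset.mem_coe, Finset.mem_filter] at hl ⊢
      refine ⟨Finset.mem_univ _, ?_⟩
      show l o - (Pi.single o (1 - a) : Ω → ZMod 3) o = a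
      rw [Pi.single_eq_same, hl.2]
      ring
    · intro l _
      exact add_sub_cancel_right _ _
    · intro l _
      exact sub_add_cancel _ _
  rw [← Finset.card_univ, h1, Finset.sum_congr rfl fun a _ => h2 a, Finset.sum_const,
    Finset.card_univ, ZMod.card, smul_eq_mul]

theorem eps_sum_th (c : ZMod 3) : th c + th (c + 1) + th (c + 1 + 1) = 0 := by
  have h : ∀ c : ZMod 3, c = 0 ∨ c = 1 ∨ c = 2 := by decide
  have e1 : (1 : ZMod 3) ≠ 0 := by decide
  have e2 : (2 : ZMod 3) ≠ 0 := by decide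
  have e3 : (2 : ZMod 3) ≠ 1 := by decide
  have e4 : (0 : ZMod 3) + 1 = 1 := by decide
  have e5 : (1 : ZMod 3) + 1 = 2 := by decide
  have e6 : (2 : ZMod 3) + 1 = 0 := by decide
  rcases h c with rfl | rfl | rfl
  · rw [e4, e5]; unfold th; rw [if_pos rfl, if_neg e1, if_pos rfl, if_neg e2, if_neg e3]; norm_num
  · rw [e5, e6]; unfold th; rw [if_pos rfl, if_neg e1, if_pos rfl, if_neg e2, if_neg e3]; norm_num
  · rw [e6, e4]; unfold th; rw [if_pos rfl, if_neg e1, if_pos rfl, if_neg e2, if_neg e3]; norm_num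

theorem eps_sum_zero {Ω : Type} [Fintype Ω] [DecidableEq Ω] (o i : Ω) (hio : i ≠ o)
    (v : Ω → ZMod 3) (hv : v i ≠ 0) :
    ∑ l ∈ Finset.univ.filter (fun l : Ω → ZMod 3 => l o = 1), th (l ⬝ᵥ v) = 0 := by
  have hinv : ∀ c : ZMod 3, c ≠ 0 → c * c = 1 := by decide
  have hshift : ∀ f : ZMod 3 → ℚ,
      ∑ l ∈ Finset.univ.filter (fun l : Ω → ZMod 3 => l o = 1), f (l ⬝ᵥ v) =
      ∑ l ∈ Finset.univ.filter (fun l : Ω → ZMod 3 => l o = 1), f (l ⬝ᵥ v + 1) := by
    intro f
    symm
    refine Finset.sum_nbij' (fun l => l + Pi.single i (v i)) (fun l => l - Pi.single i (v i))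
      ?_ ?_ ?_ ?_ ?_
    · intro l hl
      rw [Finset.mem_filter] at hl ⊢
      refine ⟨Finset.mem_univ _, ?_⟩
      rw [Pi.add_apply, Pi.single_eq_of_ne hio.symm, hl.2, add_zero]
    · intro l hl
      rw [Finset.mem_filter] at hl ⊢
      refine ⟨Finset.mem_univ _, ?_⟩
      rw [Pi.sub_apply, Pi.single_eq_of_ne hio.symm, hl.2, sub_zero]
    · intro l _
      exact add_sub_cancel_right _ _
    · intro l _
      exact sub_add_cancel _ _
    · intro l _
      rw [add_dotProduct, single_dotProduct, hinv _ hv]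
  have h1 := hshift th
  have h2 := hshift fun c => th (c + 1)
  have h3 : ∑ l ∈ Finset.univ.filter (fun l : Ω → ZMod 3 => l o = 1),
      (th (l ⬝ᵥ v) + th (l ⬝ᵥ v + 1) + th (l ⬝ᵥ v + 1 + 1)) = 0 :=
    Finset.sum_eq_zero fun l _ => eps_sum_th _
  rw [Finset.sum_add_distrib, Finset.sum_add_distrib] at h3
  linarith

theorem eps_sum_S {Ω : Type} [Fintype Ω] [DecidableEq Ω] (o : Ω) (v : Ω → ZMod 3) :
    (Fintype.card (Ω → ZMod 3) : ℚ)⁻¹ *
      ∑ l ∈ Finset.univ.filter (fun l : Ω → ZMod 3 => l o = 1), th (l ⬝ᵥ v) =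
    (if v = 0 then (1 / 3 : ℚ) else 0) - if v = Pi.single o 1 then (1 / 3 : ℚ) else 0 := by
  have hne : (Pi.single o 1 : Ω → ZMod 3) ≠ 0 := by
    intro h
    have := congrFun h o
    rw [Pi.single_eq_same] at this
    exact one_ne_zero this
  by_cases h : ∃ i, i ≠ o ∧ v i ≠ 0
  · obtain ⟨i, hi, hv⟩ := h
    rw [eps_sum_zero o i hi v hv, mul_zero, if_neg, if_neg, sub_zero]
    · intro h0
      rw [h0, Pi.single_eq_of_ne hi] at hv
      exact hv rfl
    · intro h0
      rw [h0] at hv
      exact hv rfl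
  · push Not at h
    have hv : v = Pi.single o (v o) := by
      funext i
      by_cases hi : i = o
      · subst hi; rw [Pi.single_eq_same]
      · rw [Pi.single_eq_of_ne hi, h i hi]
    obtain ⟨c, hc⟩ : ∃ c, v = Pi.single o c := ⟨v o, hv⟩
    have h1 : ∑ l ∈ Finset.univ.filter (fun l : Ω → ZMod 3 => l o = 1), th (l ⬝ᵥ v) =
        (Finset.univ.filter (fun l : Ω → ZMod 3 => l o = 1)).card * th c := by
      rw [← nsmul_eq_mul, ← Finset.sum_const]
      refine Finset.sum_congr rfl fun l hl => ?_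
      rw [Finset.mem_filter] at hl
      rw [hc, dotProduct_single, hl.2, one_mul]
    have h2 : (3 : ℚ) * ((Finset.univ.filter (fun l : Ω → ZMod 3 => l o = 1)).card : ℚ) =
        (Fintype.card (Ω → ZMod 3) : ℚ) := by
      exact_mod_cast eps_sum_card o
    have h3 : (Fintype.card (Ω → ZMod 3) : ℚ) ≠ 0 := by
      have : 0 < Fintype.card (Ω → ZMod 3) := Fintype.card_pos
      exact_mod_cast this.ne'
    have h4 : (Fintype.card (Ω → ZMod 3) : ℚ)⁻¹ *
        ((Finset.univ.filter (fun l : Ω → ZMod 3 => l o = 1)).card * th c) = 1 / 3 * th c := by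
      have h5 : ((Finset.univ.filter (fun l : Ω → ZMod 3 => l o = 1)).card : ℚ) =
          (Fintype.card (Ω → ZMod 3) : ℚ) * (1 / 3) := by
        rw [← h2]; ring
      rw [h5, ← mul_assoc, ← mul_assoc, inv_mul_cancel₀ h3, one_mul]
    rw [h1, h4, hc]
    have hcs : ∀ c : ZMod 3, c = 0 ∨ c = 1 ∨ c = 2 := by decide
    have e1 : (1 : ZMod 3) ≠ 0 := by decide
    have e2 : (2 : ZMod 3) ≠ 0 := by decide
    have e3 : (2 : ZMod 3) ≠ 1 := by decide
    rcases hcs c with rfl | rfl | rfl
    · rw [Pi.single_zero, if_pos rfl, if_neg (fun h => hne h.symm)]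
      unfold th
      rw [if_pos rfl]
      norm_num
    · rw [if_neg hne, if_pos rfl]
      unfold th
      rw [if_neg e1, if_pos rfl]
      norm_num
    · rw [if_neg, if_neg]
      · unfold th
        rw [if_neg e2, if_neg e3]
        norm_num
      · intro h0
        have := congrFun h0 o
        rw [Pi.single_eq_same, Pi.single_eq_same] at this
        exact e3 this
      · intro h0
        have := congrFun h0 o
        rw [Pi.single_eq_same] at this
        exact e2 this

-- TARGET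
theorem eps_sum {Ω : Type} [Fintype Ω] [DecidableEq Ω] (o : Ω) :
    ∑ l ∈ Finset.univ.filter (fun l : Ω → ZMod 3 => l o = 1), eps l
      = (1 / 3 : ℚ) • ((1 - TT (Pi.single o 1)) * (1 + tt Ω)) := by
  unfold eps
  rw [← Finset.smul_sum, ← Finset.sum_mul, Finset.sum_comm, ← smul_mul_assoc, ← smul_mul_assoc]
  congr 1
  have h1 : ∀ v : Ω → ZMod 3,
      ∑ l ∈ Finset.univ.filter (fun l : Ω → ZMod 3 => l o = 1), th (l ⬝ᵥ v) • TT v =
      (∑ l ∈ Finset.univ.filter (fun l : Ω → ZMod 3 => l o = 1), th (l ⬝ᵥ v)) • TT v :=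
    fun v => (Finset.sum_smul).symm
  simp_rw [h1]
  rw [Finset.smul_sum]
  simp_rw [smul_smul, eps_sum_S, sub_smul, ite_smul, zero_smul]
  rw [Finset.sum_sub_distrib, Finset.sum_ite_eq' Finset.univ (0 : Ω → ZMod 3),
    if_pos (Finset.mem_univ _), Finset.sum_ite_eq' Finset.univ (Pi.single o 1 : Ω → ZMod 3),
    if_pos (Finset.mem_univ _), smul_sub]
  congr 2
  unfold TT
  have h2 : (Equiv.addRight (0 : Ω → ZMod 3)) = 1 := by
    ext x
    simp
  rw [h2, map_one]

end Pool.Agent.Helper563_BV
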