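import Mathlib
import Pool.Agent.Helper563_BV.Defs
set_option autoImplicit false
namespace Pool.Agent.Helper563_BV


/-
PROOF OF THE TARGET IN WORDS
V = (Omega -> ZMod 3). TT v TT w = TT (v + w), TT 0 = 1, tt tt = 1, tt TT v = TT (-v) tt. Put D_l = |V|^(-1) sum_v th(l.v) TT v, so eps l = D_l (1 + tt), and tt D_l = D_(-l) tt.

Choose v0 with l.v0 = 1, s = TT v0 (s^3 = 1, tt s = s^2 tt), f = (3/|V|) sum_{v : l.v = 0} TT v. Then D_l = (1/3) f (1 - s), because sum_{l.v=0} TT v (1 - s) = sum_{l.v = 0} TT v - sum_{l.v=1} TT v. So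
eps l = f * (1/3)(1-s)(1+tt). In the group algebra of the symmetric group of order 6: (1/9)(1-s)(1+tt) s (1-tt) s^2 (1+tt) = (1/3)(1-s)(1+tt) (checked by computer; verify by
expanding with s^3 = 1, tt tt = 1, tt s = s^2 tt, e.g. (1+tt) s (1-tt) s^2 (1+tt): s s^2 = 1, ...). So eps l = [f (1/9)(1-s)(1+tt) s] (1-tt) [s^2 (1+tt)] is of the form a (1-tt) b.
-/
theorem eps_ideal_s3 {A : Type*} [Ring A] (s t : A) (hs : s * (s * s) = 1) (ht : t * t = 1)
    (hts : t * s = s * (s * t)) :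
    (1 - s) * (1 + t) * s * (1 - t) * (s * s * (1 + t)) = (1 - s) * (1 + t) + (1 - s) * (1 + t) + (1 - s) * (1 + t) := by
  have hs' : ∀ x, s * (s * (s * x)) = x := fun x => by
    rw [← mul_assoc s s x, ← mul_assoc s (s * s) x, hs, one_mul]
  have hts' : ∀ x, t * (s * x) = s * (s * (t * x)) := fun x => by
    rw [← mul_assoc t s x, hts, mul_assoc, mul_assoc]
  simp only [mul_add, add_mul, mul_sub, sub_mul, mul_assoc, one_mul, mul_one, hs, hs', ht, hts, hts']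
  abel

theorem eps_ideal_TT {Ω : Type} (v w : Ω → ZMod 3) : TT v * TT w = TT (v + w) := by
  unfold TT
  rw [← map_mul]
  congr 1
  ext x i
  simp only [Equiv.Perm.mul_apply, Equiv.coe_addRight]
  rw [add_assoc, add_comm w v]

theorem eps_ideal_tt {Ω : Type} : tt Ω * tt Ω = 1 := by
  unfold tt
  rw [← map_mul, ← map_one (MonoidAlgebra.of ℚ (Equiv.Perm (Ω → ZMod 3)))]
  congr 1
  ext x i
  simp

theorem eps_ideal_tT {Ω : Type} (v : Ω → ZMod 3) : tt Ω * TT v = TT (-v) * tt Ω := by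
  unfold tt TT
  rw [← map_mul, ← map_mul]
  congr 1
  ext x i
  simp [add_comm]

theorem eps_ideal_T0 {Ω : Type} : TT (0 : Ω → ZMod 3) = 1 := by
  unfold TT
  rw [← map_one (MonoidAlgebra.of ℚ (Equiv.Perm (Ω → ZMod 3)))]
  congr 1
  ext x i
  simp

theorem eps_ideal_th (c : ZMod 3) : th c = (if c = 0 then 1 else 0) - (if c - 1 = 0 then 1 else 0) := by
  have h : c = 0 ∨ c = 1 ∨ c = 2 := by revert c; decide
  unfold th
  rcases h with rfl | rfl | rfl
  · have h1 : (0 : ZMod 3) - 1 ≠ 0 := by decide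
    rw [if_pos rfl, if_pos rfl, if_neg h1]
    norm_num
  · have h1 : (1 : ZMod 3) ≠ 0 := by decide
    rw [if_neg h1, if_pos rfl, if_neg h1, if_pos (sub_self _)]
    norm_num
  · have h1 : (2 : ZMod 3) ≠ 0 := by decide
    have h2 : (2 : ZMod 3) ≠ 1 := by decide
    have h3 : (2 : ZMod 3) - 1 ≠ 0 := by decide
    rw [if_neg h1, if_neg h2, if_neg h1, if_neg h3]
    norm_num

theorem eps_ideal_c3 (c : ZMod 3) : c + (c + c) = 0 := by revert c; decide

theorem eps_ideal_alg {A : Type*} [Ring A] [Algebra ℚ A] (P s t : A) (c : ℚ) (hs : s * (s * s) = 1)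
    (ht : t * t = 1) (hts : t * s = s * (s * t)) :
    c • (P * (1 - s) * (1 + t)) =
      ((c * 3⁻¹) • (P * ((1 - s) * (1 + t) * s))) * (1 - t) * (s * s * (1 + t)) := by
  rw [smul_mul_assoc, smul_mul_assoc, mul_smul]
  have e2 : P * ((1 - s) * (1 + t) * s) * (1 - t) * (s * s * (1 + t)) =
      P * ((1 - s) * (1 + t) * s * (1 - t) * (s * s * (1 + t))) := by
    simp only [mul_assoc]
  have e3 : (3⁻¹ : ℚ) • (P * ((1 - s) * (1 + t)) + P * ((1 - s) * (1 + t)) + P * ((1 - s) * (1 + t))) =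
      P * ((1 - s) * (1 + t)) := by
    generalize P * ((1 - s) * (1 + t)) = x
    module
  have e4 : P * ((1 - s) * (1 + t) + (1 - s) * (1 + t) + (1 - s) * (1 + t)) =
      P * ((1 - s) * (1 + t)) + P * ((1 - s) * (1 + t)) + P * ((1 - s) * (1 + t)) := by
    rw [mul_add P, mul_add P]
  rw [e2, eps_ideal_s3 s t hs ht hts, e4, e3, mul_assoc]

theorem eps_ideal_v0 {Ω : Type} [Fintype Ω] [DecidableEq Ω] (l : Ω → ZMod 3) (hl : l ≠ 0) :
    ∃ v0 : Ω → ZMod 3, l ⬝ᵥ v0 = 1 := by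
  have hp : Fact (Nat.Prime 3) := ⟨by norm_num⟩
  obtain ⟨i, hi⟩ : ∃ i, l i ≠ 0 := by
    by_contra hcon
    push Not at hcon
    exact hl (funext hcon)
  exact ⟨Pi.single i (l i)⁻¹, by rw [dotProduct_single, mul_inv_cancel₀ hi]⟩

theorem eps_ideal_sum {Ω : Type} [Fintype Ω] [DecidableEq Ω] (l v0 : Ω → ZMod 3) (h : l ⬝ᵥ v0 = 1) :
    (∑ v : Ω → ZMod 3, th (l ⬝ᵥ v) • TT v) =
      (∑ v : Ω → ZMod 3, (if l ⬝ᵥ v = 0 then (1 : ℚ) else 0) • TT v) * (1 - TT v0) := by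
  rw [mul_sub, mul_one, Finset.sum_mul]
  have h1 : ∑ v : Ω → ZMod 3, (if l ⬝ᵥ v = 0 then (1 : ℚ) else 0) • TT v * TT v0 =
      ∑ v : Ω → ZMod 3, (if l ⬝ᵥ v - 1 = 0 then (1 : ℚ) else 0) • TT v := by
    rw [← Equiv.sum_comp (Equiv.addRight v0)
      (fun v : Ω → ZMod 3 => (if l ⬝ᵥ v - 1 = 0 then (1 : ℚ) else 0) • TT v)]
    refine Finset.sum_congr rfl fun v _ => ?_
    rw [smul_mul_assoc, eps_ideal_TT, Equiv.coe_addRight, dotProduct_add, h, add_sub_cancel_right]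
  rw [h1, ← Finset.sum_sub_distrib]
  refine Finset.sum_congr rfl fun v _ => ?_
  rw [← sub_smul, eps_ideal_th]

-- TARGET
theorem eps_ideal {Ω : Type} [Fintype Ω] [DecidableEq Ω] (l : Ω → ZMod 3) (hl : l ≠ 0) :
    eps l ∈ Idl (1 - tt Ω) := by
  obtain ⟨v0, h0⟩ := eps_ideal_v0 l hl
  have e3 : v0 + (v0 + v0) = 0 := funext fun j => eps_ideal_c3 (v0 j)
  have hs : TT v0 * (TT v0 * TT v0) = 1 := by
    rw [eps_ideal_TT, eps_ideal_TT, e3, eps_ideal_T0]
  have hts : tt Ω * TT v0 = TT v0 * (TT v0 * tt Ω) := by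
    rw [eps_ideal_tT, ← mul_assoc, eps_ideal_TT, neg_eq_of_add_eq_zero_right e3]
  unfold eps
  rw [eps_ideal_sum l v0 h0]
  exact AddSubgroup.subset_closure ⟨_, _, eps_ideal_alg _ _ _ _ hs eps_ideal_tt hts⟩

end Pool.Agent.Helper563_BV
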