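import Mathlib
import Pool.Agent.Helper563_BV.Defs
set_option autoImplicit false
namespace Pool.Agent.Helper563_BV


/-
PROOF OF THE TARGET IN WORDS
|V| = 3^(card Omega), so |V|^(-1) = (1/3)^(card Omega) and algebraMap (1/3) is in ZI 3; th takes the values 1, -1, 0; TT v, tt are group elements; ZI 3 is a subring. The scalar multiplication
q • a = algebraMap q * a (Algebra.smul_def).
-/
-- TARGET
theorem eps_ZI {Ω : Type} [Fintype Ω] [DecidableEq Ω] (l : Ω → ZMod 3) :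
    eps l ∈ ZI 3 (Equiv.Perm (Ω → ZMod 3)) := by
  have hof : ∀ x : Equiv.Perm (Ω → ZMod 3),
      MonoidAlgebra.of ℚ (Equiv.Perm (Ω → ZMod 3)) x ∈ ZI 3 (Equiv.Perm (Ω → ZMod 3)) :=
    fun x => Subring.subset_closure (Or.inl ⟨x, rfl⟩)
  have h3 : algebraMap ℚ (MonoidAlgebra ℚ (Equiv.Perm (Ω → ZMod 3))) ((3 : ℚ)⁻¹) ∈
      ZI 3 (Equiv.Perm (Ω → ZMod 3)) := by
    have h : algebraMap ℚ (MonoidAlgebra ℚ (Equiv.Perm (Ω → ZMod 3))) (((3 : ℕ) : ℚ)⁻¹) ∈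
      ZI 3 (Equiv.Perm (Ω → ZMod 3)) := Subring.subset_closure (Or.inr rfl)
    have h' : ((3 : ℕ) : ℚ) = 3 := by norm_num
    rw [h'] at h
    exact h
  have hcard : ((Fintype.card (Ω → ZMod 3) : ℚ)⁻¹) = ((3 : ℚ)⁻¹) ^ Fintype.card Ω := by
    rw [Fintype.card_fun, ZMod.card, Nat.cast_pow, inv_pow]
    norm_num
  have hth : ∀ (c : ZMod 3) (a : MonoidAlgebra ℚ (Equiv.Perm (Ω → ZMod 3))),
      a ∈ ZI 3 (Equiv.Perm (Ω → ZMod 3)) → th c • a ∈ ZI 3 (Equiv.Perm (Ω → ZMod 3)) := by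
    intro c a ha
    unfold th
    split_ifs
    · rw [one_smul]; exact ha
    · rw [neg_smul, one_smul]; exact neg_mem ha
    · rw [zero_smul]; exact zero_mem _
  unfold eps
  rw [Algebra.smul_def, hcard, map_pow]
  refine mul_mem (pow_mem h3 _) (mul_mem (sum_mem fun v _ => hth _ _ (hof _)) ?_)
  exact add_mem (one_mem _) (hof _)

end Pool.Agent.Helper563_BV
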