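import Mathlib
import Pool.Agent.Helper563_BV.Defs
set_option autoImplicit false
namespace Pool.Agent.Helper563_BV


/-- The sign character of `ZMod 2`. -/
def matunits_chi (c : ZMod 2) : ℚ := if c = 0 then 1 else -1

theorem matunits_cases (c : ZMod 2) : c = 0 ∨ c = 1 := by
  revert c; decide

theorem matunits_chi_add (c d : ZMod 2) :
    matunits_chi (c + d) = matunits_chi c * matunits_chi d := by
  have h11 : (1 : ZMod 2) + 1 = 0 := by decide
  have h10 : (1 : ZMod 2) ≠ 0 := by decide
  rcases matunits_cases c with rfl | rfl <;> rcases matunits_cases d with rfl | rfl <;>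
    simp [matunits_chi, h11]

theorem matunits_pair_add_left {J : Type} [Fintype J] (β γ z : J → ZMod 2) :
    pair (β + γ) z = pair β z + pair γ z := by
  simp [pair, add_mul, Finset.sum_add_distrib]

theorem matunits_pair_comm {J : Type} [Fintype J] (β z : J → ZMod 2) :
    pair β z = pair z β := by
  simp [pair, mul_comm]

theorem matunits_pair_add_right {J : Type} [Fintype J] (β z z' : J → ZMod 2) :
    pair β (z + z') = pair β z + pair β z' := by
  simp [pair, mul_add, Finset.sum_add_distrib]

theorem matunits_self {J : Type} (z : J → ZMod 2) : z + z = 0 := by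
  funext j
  have : ∀ c : ZMod 2, c + c = 0 := by decide
  exact this (z j)

theorem matunits_add_eq_zero {J : Type} (z w : J → ZMod 2) : z + w = 0 ↔ z = w := by
  constructor
  · intro h
    have h2 : z + w + w = 0 + w := by rw [h]
    rw [add_assoc, matunits_self, add_zero, zero_add] at h2
    exact h2
  · rintro rfl
    exact matunits_self z

theorem matunits_card {J : Type} [Fintype J] [DecidableEq J] :
    Fintype.card (J → ZMod 2) = 2 ^ Fintype.card J := by
  rw [Fintype.card_fun, ZMod.card]

theorem matunits_shift {J : Type} [Fintype J] [DecidableEq J] (e : J → ZMod 2)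
    (f : (J → ZMod 2) → ℚ) : ∑ β : J → ZMod 2, f (β + e) = ∑ β : J → ZMod 2, f β :=
  Fintype.sum_equiv (Equiv.addRight e) _ _ (fun _ => rfl)

theorem matunits_orth {J : Type} [Fintype J] [DecidableEq J] (w : J → ZMod 2) :
    ∑ β : J → ZMod 2, matunits_chi (pair β w) = if w = 0 then (2 : ℚ) ^ Fintype.card J else 0 := by
  split_ifs with h
  · subst h
    have h0 : ∀ β : J → ZMod 2, matunits_chi (pair β 0) = 1 := by
      intro β
      simp [pair, matunits_chi]
    rw [Finset.sum_congr rfl (fun β _ => h0 β)]
    rw [Finset.sum_const, Finset.card_univ, matunits_card]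
    simp
  · obtain ⟨j, hj⟩ : ∃ j, w j ≠ 0 := by
      by_contra hcon
      push Not at hcon
      exact h (funext hcon)
    have hj1 : w j = 1 := by
      rcases matunits_cases (w j) with h1 | h1
      · exact absurd h1 hj
      · exact h1
    have hs : ∀ β : J → ZMod 2, matunits_chi (pair (β + Pi.single j 1) w)
        = - matunits_chi (pair β w) := by
      intro β
      have hp : pair (Pi.single j (1 : ZMod 2)) w = 1 := by
        unfold pair
        rw [Finset.sum_eq_single j]
        · simp [hj1]
        · intro b _ hb
          rw [Pi.single_eq_of_ne hb, zero_mul]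
        · intro hcon
          exact absurd (Finset.mem_univ j) hcon
      rw [matunits_pair_add_left, matunits_chi_add, hp]
      have : matunits_chi 1 = -1 := by
        have h10 : (1 : ZMod 2) ≠ 0 := by decide
        simp [matunits_chi]
      rw [this]; ring
    have he : ∑ β : J → ZMod 2, matunits_chi (pair (β + Pi.single j 1) w)
        = ∑ β : J → ZMod 2, matunits_chi (pair β w) :=
      matunits_shift (Pi.single j (1 : ZMod 2)) (fun β => matunits_chi (pair β w))
    rw [Finset.sum_congr rfl (fun β _ => hs β), Finset.sum_neg_distrib] at he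
    linarith

/-- The idempotents. -/
noncomputable def matunits_P {B : Type*} [Ring B] [Algebra ℚ B] {J : Type} [Fintype J]
    [DecidableEq J] (b : (J → ZMod 2) → B) (z : J → ZMod 2) : B :=
  ((1 / 2 : ℚ) ^ Fintype.card J) • ∑ β : J → ZMod 2, matunits_chi (pair β z) • b β

theorem matunits_chi_sq (c : ZMod 2) : matunits_chi c * matunits_chi c = 1 := by
  rcases matunits_cases c with rfl | rfl <;> simp [matunits_chi]

theorem matunits_bP {B : Type*} [Ring B] [Algebra ℚ B] {J : Type} [Fintype J] [DecidableEq J]
    (b : (J → ZMod 2) → B) (hb : ∀ β β', b (β + β') = b β * b β') (δ z : J → ZMod 2) :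
    b δ * matunits_P b z = matunits_chi (pair δ z) • matunits_P b z := by
  have hre : ∑ β : J → ZMod 2, matunits_chi (pair δ z) • (matunits_chi (pair (δ + β) z) • b (δ + β))
      = ∑ β : J → ZMod 2, matunits_chi (pair δ z) • (matunits_chi (pair β z) • b β) :=
    Fintype.sum_equiv (Equiv.addLeft δ) _ _ (fun β => rfl)
  unfold matunits_P
  rw [mul_smul_comm, smul_comm]
  congr 1
  rw [Finset.mul_sum, Finset.smul_sum, ← hre]
  refine Finset.sum_congr rfl (fun β _ => ?_)
  rw [hb, mul_smul_comm, smul_smul, matunits_pair_add_left, matunits_chi_add, ← mul_assoc,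
    matunits_chi_sq, one_mul]

theorem matunits_PP {B : Type*} [Ring B] [Algebra ℚ B] {J : Type} [Fintype J] [DecidableEq J]
    (b : (J → ZMod 2) → B) (hb : ∀ β β', b (β + β') = b β * b β') (z z' : J → ZMod 2) :
    matunits_P b z * matunits_P b z' = if z = z' then matunits_P b z else 0 := by
  have h1 : matunits_P b z * matunits_P b z' =
      ((1 / 2 : ℚ) ^ Fintype.card J) •
        ((∑ β : J → ZMod 2, matunits_chi (pair β (z + z'))) • matunits_P b z') := by
    conv_lhs => rw [matunits_P]
    rw [smul_mul_assoc, Finset.sum_mul, Finset.sum_smul]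
    congr 1
    refine Finset.sum_congr rfl (fun β _ => ?_)
    rw [smul_mul_assoc, matunits_bP b hb, smul_smul, matunits_pair_add_right, matunits_chi_add]
  rw [h1, matunits_orth, smul_smul]
  by_cases h : z = z'
  · subst h
    rw [if_pos (matunits_self z), if_pos rfl, ← mul_pow]
    norm_num
  · rw [if_neg (fun hc => h ((matunits_add_eq_zero z z').1 hc)), if_neg h, mul_zero, zero_smul]

theorem matunits_sumP {B : Type*} [Ring B] [Algebra ℚ B] {J : Type} [Fintype J] [DecidableEq J]
    (b : (J → ZMod 2) → B) (hb0 : b 0 = 1) : ∑ z, matunits_P b z = 1 := by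
  unfold matunits_P
  rw [← Finset.smul_sum, Finset.sum_comm]
  have h1 : ∀ β : J → ZMod 2, ∑ z : J → ZMod 2, matunits_chi (pair β z) • b β =
      if β = 0 then ((2 : ℚ) ^ Fintype.card J) • b β else 0 := by
    intro β
    rw [← Finset.sum_smul]
    have h2 : ∑ z : J → ZMod 2, matunits_chi (pair β z) =
        ∑ z : J → ZMod 2, matunits_chi (pair z β) :=
      Finset.sum_congr rfl (fun z _ => by rw [matunits_pair_comm])
    rw [h2, matunits_orth]
    split_ifs <;> simp
  rw [Finset.sum_congr rfl (fun β _ => h1 β), Finset.sum_ite_eq' Finset.univ (0 : J → ZMod 2),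
    if_pos (Finset.mem_univ _), hb0, smul_smul, ← mul_pow]
  norm_num

-- TARGET
theorem matunits {B : Type*} [Ring B] [Algebra ℚ B] {J : Type} [Fintype J] [DecidableEq J]
    (t S : B) (b a : (J → ZMod 2) → B) (ht : t * t = 1) (hb0 : b 0 = 1)
    (hb : ∀ β β', b (β + β') = b β * b β') (ha0 : a 0 = 1)
    (ha : ∀ w w', a (w + w') = a w * a w') (htb : ∀ β, t * b β = b β * t)
    (hta : ∀ w, t * a w = a w * t)
    (hab : ∀ w β, a w * b β = (if pair β w = 0 then b β else b β * t) * a w)
    (hSb : ∀ β, b β * S = S * b β) (hSt : t * S = S * t) :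
    ∃ E : (J → ZMod 2) → (J → ZMod 2) → B,
      (∀ z z' w w', E z z' * E w w' = if z' = w then E z w' else 0) ∧
      (∑ z, E z z = (1 / 2 : ℚ) • (1 - t)) ∧
      (∀ z, E z z * S = S * E z z) ∧
      (∀ (y0 : B) (sh : (J → ZMod 2) ≃ (J → ZMod 2)), (∀ β, y0 * b β = b (sh β) * y0) →
        (∀ w, y0 * a w = a (sh w) * y0) → y0 * t = t * y0 →
        (∀ β z, pair (sh β) (sh z) = pair β z) → (∀ z z', sh (z + z') = sh z + sh z') →
        ∀ z z', y0 * E z z' = E (sh z) (sh z') * y0) ∧
      (∀ S' : Subring B, algebraMap ℚ B (1 / 2) ∈ S' → t ∈ S' → (∀ β, b β ∈ S') →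
        (∀ w, a w ∈ S') → ∀ z z', E z z' ∈ S') := by
  set h : B := (1 / 2 : ℚ) • (1 - t) with hh
  have hth : t * h = -h := by
    rw [hh, mul_smul_comm, mul_sub, mul_one, ht, ← smul_neg, neg_sub]
  have hhh : h * h = h := by
    have h1 : h * h = (1 / 2 : ℚ) • ((1 - t) * h) := by
      conv_lhs => rw [hh]
      rw [smul_mul_assoc, hh]
    rw [h1, sub_mul, one_mul, hth, sub_neg_eq_add, ← two_smul ℚ h, smul_smul]
    norm_num
  have hcomm : ∀ x : B, t * x = x * t → h * x = x * h := by
    intro x hx
    rw [hh, smul_mul_assoc, mul_smul_comm, sub_mul, mul_sub, one_mul, mul_one, hx]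
  have hPcomm : ∀ x : B, (∀ β, x * b β = b β * x) → ∀ z, x * matunits_P b z = matunits_P b z * x := by
    intro x hx z
    unfold matunits_P
    rw [mul_smul_comm, smul_mul_assoc, Finset.mul_sum, Finset.sum_mul]
    congr 1
    refine Finset.sum_congr rfl (fun β _ => ?_)
    rw [mul_smul_comm, smul_mul_assoc, hx]
  have htP : ∀ z, t * matunits_P b z = matunits_P b z * t := hPcomm t htb
  have hhP : ∀ z, h * matunits_P b z = matunits_P b z * h := fun z => hcomm _ (htP z)
  have hha : ∀ w, h * a w = a w * h := fun w => hcomm _ (hta w)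
  -- a w * b β * h
  have habh : ∀ w β, a w * b β * h = matunits_chi (pair β w) • (b β * (a w * h)) := by
    intro w β
    rw [hab]
    by_cases hp : pair β w = 0
    · rw [if_pos hp, hp]
      simp [matunits_chi, mul_assoc]
    · rw [if_neg hp]
      have hchi : matunits_chi (pair β w) = -1 := by simp [matunits_chi, hp]
      rw [hchi, mul_assoc (b β) t, hta w, mul_assoc (b β), mul_assoc (a w), hth]
      simp
  have haP : ∀ w z, a w * (matunits_P b z * h) = matunits_P b (z + w) * (a w * h) := by
    intro w z
    unfold matunits_P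
    rw [smul_mul_assoc, smul_mul_assoc, mul_smul_comm, Finset.sum_mul, Finset.sum_mul,
      Finset.mul_sum]
    congr 1
    refine Finset.sum_congr rfl (fun β _ => ?_)
    rw [smul_mul_assoc, mul_smul_comm, smul_mul_assoc, ← mul_assoc, habh, smul_smul,
      matunits_pair_add_right, matunits_chi_add]
  refine ⟨fun z z' => h * matunits_P b z * a (z + z'), ?_, ?_, ?_, ?_, ?_⟩
  · intro z z' w w'
    -- (h P z a u) * (h P w a v) = P z * (a u * (P w * h)) * a v
    have e1 : h * matunits_P b z * a (z + z') * (h * matunits_P b w * a (w + w')) =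
        matunits_P b z * (a (z + z') * (matunits_P b w * h)) * a (w + w') := by
      calc h * matunits_P b z * a (z + z') * (h * matunits_P b w * a (w + w'))
          = matunits_P b z * (h * a (z + z')) * h * matunits_P b w * a (w + w') := by
            rw [hhP]; simp only [mul_assoc]
        _ = matunits_P b z * a (z + z') * (h * h) * matunits_P b w * a (w + w') := by
            rw [hha]; simp only [mul_assoc]
        _ = matunits_P b z * a (z + z') * (h * matunits_P b w) * a (w + w') := by
            rw [hhh]; simp only [mul_assoc]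
        _ = _ := by rw [hhP]; simp only [mul_assoc]
    have e2 : h * matunits_P b z * a (z + z') * (h * matunits_P b w * a (w + w')) =
        (matunits_P b z * matunits_P b (w + (z + z'))) * (h * a ((z + z') + (w + w'))) := by
      rw [e1, haP, ha (z + z') (w + w'), ← hha]
      simp only [mul_assoc]
    show h * matunits_P b z * a (z + z') * (h * matunits_P b w * a (w + w')) = _
    rw [e2, matunits_PP b hb]
    have hiff : z = w + (z + z') ↔ z' = w := by
      constructor
      · intro hz
        have h3 : z + z = w + (z + z') + z := by rw [← hz]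
        have h4 : w + (z + z') + z = w + z' + (z + z) := by abel
        rw [h4, matunits_self, add_zero] at h3
        exact ((matunits_add_eq_zero w z').1 h3.symm).symm
      · rintro rfl
        have h4 : z' + (z + z') = z + (z' + z') := by abel
        rw [h4, matunits_self, add_zero]
    by_cases hzw : z' = w
    · rw [if_pos (hiff.2 hzw), if_pos hzw]
      subst hzw
      have h5 : z + z' + (z' + w') = z + w' + (z' + z') := by abel
      show _ = h * matunits_P b z * a (z + w')
      rw [h5, matunits_self, add_zero, hhP]
      simp only [mul_assoc]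
    · rw [if_neg (fun hc => hzw (hiff.1 hc)), if_neg hzw, zero_mul]
  · show ∑ z, h * matunits_P b z * a (z + z) = h
    have h1 : ∀ z : J → ZMod 2, h * matunits_P b z * a (z + z) = h * matunits_P b z := by
      intro z
      rw [matunits_self, ha0, mul_one]
    rw [Finset.sum_congr rfl (fun z _ => h1 z), ← Finset.mul_sum, matunits_sumP b hb0, mul_one]
  · intro z
    show h * matunits_P b z * a (z + z) * S = S * (h * matunits_P b z * a (z + z))
    rw [matunits_self, ha0, mul_one]
    have h1 : S * matunits_P b z = matunits_P b z * S := hPcomm S (fun β => (hSb β).symm) z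
    have h2 : h * S = S * h := hcomm S hSt
    rw [mul_assoc, ← h1, ← mul_assoc, h2, mul_assoc]
  · intro y0 sh hyb hya hyt hpair hadd z z'
    show y0 * (h * matunits_P b z * a (z + z')) = h * matunits_P b (sh z) * a (sh z + sh z') * y0
    have hyh : y0 * h = h * y0 := (hcomm y0 hyt.symm).symm
    have hyP : y0 * matunits_P b z = matunits_P b (sh z) * y0 := by
      unfold matunits_P
      rw [mul_smul_comm, smul_mul_assoc, Finset.mul_sum, Finset.sum_mul]
      congr 1
      refine Fintype.sum_equiv sh _ _ (fun β => ?_)
      rw [mul_smul_comm, smul_mul_assoc, hyb, hpair]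
    calc y0 * (h * matunits_P b z * a (z + z'))
        = (y0 * h) * matunits_P b z * a (z + z') := by simp only [mul_assoc]
      _ = h * (y0 * matunits_P b z) * a (z + z') := by rw [hyh]; simp only [mul_assoc]
      _ = h * matunits_P b (sh z) * (y0 * a (z + z')) := by rw [hyP]; simp only [mul_assoc]
      _ = _ := by rw [hya, hadd]; simp only [mul_assoc]
  · intro S' hhalf htS hbS haS z z'
    show h * matunits_P b z * a (z + z') ∈ S'
    have hsm : ∀ x ∈ S', (1 / 2 : ℚ) • x ∈ S' := by
      intro x hx
      rw [Algebra.smul_def]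
      exact S'.mul_mem hhalf hx
    have hh' : h ∈ S' := hsm _ (S'.sub_mem S'.one_mem htS)
    have hpow : ∀ (n : ℕ) (x : B), x ∈ S' → ((1 / 2 : ℚ) ^ n) • x ∈ S' := by
      intro n
      induction n with
      | zero => intro x hx; simpa using hx
      | succ n ih =>
        intro x hx
        rw [pow_succ, mul_smul]
        exact ih _ (hsm x hx)
    have hP : matunits_P b z ∈ S' := by
      unfold matunits_P
      refine hpow _ _ (S'.sum_mem (fun β _ => ?_))
      rcases matunits_cases (pair β z) with hc | hc
      · have : matunits_chi (pair β z) = 1 := by simp [matunits_chi, hc]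
        rw [this, one_smul]
        exact hbS β
      · have : matunits_chi (pair β z) = -1 := by simp [matunits_chi, hc]
        rw [this, neg_smul, one_smul]
        exact S'.neg_mem (hbS β)
    exact S'.mul_mem (S'.mul_mem hh' hP) (haS _)

end Pool.Agent.Helper563_BV
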