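import Mathlib
import Pool.Agent.Helper563_BV.Defs
set_option autoImplicit false
namespace Pool.Agent.Helper563_BV


/-
PROOF OF THE TARGET IN WORDS
On the group: iG i g acts on pairs (j, v) by (i, g v) if j = i and (j, v) otherwise, so iG i g and iG j h commute for i, j distinct, xG (j, v) = (j+1, v), xG^3 = 1 (3 = 0 in ZMod 3), and
xG * iG i g = iG (i+1) g * xG. Extend to the group algebras linearly: both sides of io i a * io j b = io j b * io i a are biadditive; use MonoidAlgebra.induction_on / induction_linear and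
MonoidAlgebra.mapDomain of a single. Same for X * io i a = io (i+1) a * X.
-/
theorem wreath_rel_iG_comm (κ : Type) (i j : ZMod 3) (hij : i ≠ j) (g h : YY κ) :
    iG κ i g * iG κ j h = iG κ j h * iG κ i g := by
  apply Equiv.ext
  intro p
  obtain ⟨k, v⟩ := p
  simp only [iG, MonoidHom.coe_mk, OneHom.coe_mk, Equiv.Perm.mul_apply]
  by_cases hk : k = j
  · subst hk
    rw [Equiv.Perm.prodExtendRight_apply_eq, Equiv.Perm.prodExtendRight_apply_ne _ (Ne.symm hij),
      Equiv.Perm.prodExtendRight_apply_ne _ (Ne.symm hij), Equiv.Perm.prodExtendRight_apply_eq]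
  · rw [Equiv.Perm.prodExtendRight_apply_ne _ hk]
    by_cases hk' : k = i
    · subst hk'
      rw [Equiv.Perm.prodExtendRight_apply_eq, Equiv.Perm.prodExtendRight_apply_ne _ hk]
    · rw [Equiv.Perm.prodExtendRight_apply_ne _ hk', Equiv.Perm.prodExtendRight_apply_ne _ hk]

theorem wreath_rel_xG_cube (κ : Type) : xG κ ^ 3 = 1 := by
  apply Equiv.ext
  intro p
  obtain ⟨k, v⟩ := p
  have h3 : ∀ k : ZMod 3, k + 1 + 1 + 1 = k := by decide
  rw [pow_succ, pow_succ, pow_one, Equiv.Perm.mul_apply, Equiv.Perm.mul_apply]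
  simp only [xG, Equiv.prodCongr_apply, Prod.map, Equiv.coe_addRight, Equiv.refl_apply,
    Equiv.Perm.one_apply, h3]

theorem wreath_rel_xG_iG (κ : Type) (i : ZMod 3) (g : YY κ) :
    xG κ * iG κ i g = iG κ (i + 1) g * xG κ := by
  apply Equiv.ext
  intro p
  obtain ⟨k, v⟩ := p
  simp only [Equiv.Perm.mul_apply, iG, MonoidHom.coe_mk, OneHom.coe_mk]
  by_cases hk : k = i
  · subst hk
    rw [Equiv.Perm.prodExtendRight_apply_eq]
    show (k + 1, g v) = Equiv.Perm.prodExtendRight (k + 1) g (k + 1, v)
    rw [Equiv.Perm.prodExtendRight_apply_eq]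
  · rw [Equiv.Perm.prodExtendRight_apply_ne _ hk]
    show (k + 1, v) = Equiv.Perm.prodExtendRight (i + 1) g (k + 1, v)
    have hk' : k + 1 ≠ i + 1 := fun h => hk (add_right_cancel h)
    rw [Equiv.Perm.prodExtendRight_apply_ne _ hk']

theorem wreath_rel_io_single (κ : Type) (i : ZMod 3) (g : YY κ) (r : ℚ) :
    io κ i (MonoidAlgebra.single g r) = MonoidAlgebra.single (iG κ i g) r := by
  simp [io]

-- TARGET
theorem wreath_rel (κ : Type) : (∀ i j, i ≠ j → ∀ a b, io κ i a * io κ j b = io κ j b * io κ i a) ∧
    X κ ^ 3 = 1 ∧ (∀ i a, X κ * io κ i a = io κ (i + 1) a * X κ) := by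
  refine ⟨?_, ?_, ?_⟩
  · intro i j hij a b
    induction a using MonoidAlgebra.induction_linear with
    | zero => simp
    | add a a' ha ha' => rw [map_add, add_mul, mul_add, ha, ha']
    | single g r =>
      induction b using MonoidAlgebra.induction_linear with
      | zero => simp
      | add b b' hb hb' => rw [map_add, add_mul, mul_add, hb, hb']
      | single h s =>
        rw [wreath_rel_io_single, wreath_rel_io_single, MonoidAlgebra.single_mul_single,
          MonoidAlgebra.single_mul_single, wreath_rel_iG_comm κ i j hij, mul_comm r s]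
  · rw [X, ← map_pow, wreath_rel_xG_cube, map_one]
  · intro i a
    induction a using MonoidAlgebra.induction_linear with
    | zero => simp
    | add a a' ha ha' => rw [map_add, map_add, add_mul, mul_add, ha, ha']
    | single g r =>
      rw [wreath_rel_io_single, wreath_rel_io_single, X, MonoidAlgebra.of_apply,
        MonoidAlgebra.single_mul_single, MonoidAlgebra.single_mul_single, wreath_rel_xG_iG,
        mul_comm (1 : ℚ) r]

end Pool.Agent.Helper563_BV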