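import Mathlib
import Pool.Agent.Helper563_BV.Defs
import Pool.Agent.Helper563_BV.H1
set_option autoImplicit false
namespace Pool.Agent.Helper563_BV



/-
PROOF OF THE TARGET IN WORDS
shJ^9 = 1 (9 = 0 in ZMod 9), so shZ^9 = 1, yP^9 = 1 (powers of Equiv.arrowCongr: (arrowCongr e refl)^n = arrowCongr (e^n) refl by induction), y0^9 = of(yP^9) = 1.
yy^3 = io 0 y0 * io 1 y0 * io 2 y0: yy = io 0 y0 * X; (io 0 y0 X)^3 = io 0 y0 (X io 0 y0) (X io 0 y0) X = io 0 y0 io 1 y0 X X io 0 y0 X ... = io 0 y0 * io 1 y0 * io 2 y0 * X^3. The three commute, so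
yy^27 = (yy^3)^9 = io 0 (y0^9) * io 1 (y0^9) * io 2 (y0^9) = 1.
-/
-- TARGET
theorem y_rel_arrow {α β : Type} (e : Equiv.Perm α) (n : ℕ) :
    (Equiv.arrowCongr e (Equiv.refl β) : Equiv.Perm (α → β)) ^ n =
      Equiv.arrowCongr (e ^ n) (Equiv.refl β) := by
  induction n with
  | zero =>
    ext f x
    rw [pow_zero, pow_zero]
    rfl
  | succ n ih =>
    rw [pow_succ, ih, pow_succ]
    ext f x
    simp [Equiv.arrowCongr, Equiv.Perm.mul_def]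

theorem y_rel_shJ (κ : Type) (n : ℕ) (p : JJ κ) : ((shJ κ) ^ n) p = (p.1 + (n : ZMod 9), p.2) := by
  induction n with
  | zero => simp
  | succ n ih =>
    rw [pow_succ', Equiv.Perm.mul_apply, ih]
    simp [shJ, add_assoc]

theorem y_rel_shJ9 (κ : Type) : (shJ κ) ^ 9 = 1 := by
  ext1 p
  rw [y_rel_shJ]
  have h9 : ((9 : ℕ) : ZMod 9) = 0 := by decide
  rw [h9, add_zero]
  rfl

theorem y_rel_yP9 (κ : Type) : (yP κ) ^ 9 = 1 := by
  have h1 : (shZ κ) ^ 9 = 1 := by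
    unfold shZ
    rw [y_rel_arrow, y_rel_shJ9]
    rfl
  unfold yP
  rw [y_rel_arrow, h1]
  rfl

theorem y_rel (κ : Type) : y0 κ ^ 9 = 1 ∧ yy κ ^ 27 = 1 := by
  have h0 : y0 κ ^ 9 = 1 := by
    unfold y0
    rw [← map_pow, y_rel_yP9, map_one]
  refine ⟨h0, ?_⟩
  obtain ⟨hc, hX, hr⟩ := wreath_rel κ
  have h01 : (0 : ZMod 3) + 1 = 1 := by decide
  have h12 : (1 : ZMod 3) + 1 = 2 := by decide
  have e0 : X κ * io κ 0 (y0 κ) = io κ 1 (y0 κ) * X κ := by rw [hr, h01]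
  have e1 : X κ * io κ 1 (y0 κ) = io κ 2 (y0 κ) * X κ := by rw [hr, h12]
  have h3 : yy κ ^ 3 = io κ 0 (y0 κ) * (io κ 1 (y0 κ) * io κ 2 (y0 κ)) := by
    have : yy κ ^ 3 = io κ 0 (y0 κ) * ((X κ * io κ 0 (y0 κ)) * (X κ * io κ 0 (y0 κ)) * X κ) := by
      unfold yy; noncomm_ring
    rw [this, e0]
    have : io κ 1 (y0 κ) * X κ * (io κ 1 (y0 κ) * X κ) * X κ =
        io κ 1 (y0 κ) * (X κ * io κ 1 (y0 κ)) * X κ * X κ := by noncomm_ring
    rw [this, e1]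
    have : io κ 1 (y0 κ) * (io κ 2 (y0 κ) * X κ) * X κ * X κ =
        io κ 1 (y0 κ) * io κ 2 (y0 κ) * X κ ^ 3 := by noncomm_ring
    rw [this, hX, mul_one]
  have c12 : Commute (io κ 1 (y0 κ)) (io κ 2 (y0 κ)) := hc 1 2 (by decide) _ _
  have c01 : Commute (io κ 0 (y0 κ)) (io κ 1 (y0 κ)) := hc 0 1 (by decide) _ _
  have c02 : Commute (io κ 0 (y0 κ)) (io κ 2 (y0 κ)) := hc 0 2 (by decide) _ _
  rw [show (27 : ℕ) = 3 * 9 by norm_num, pow_mul, h3, (c01.mul_right c02).mul_pow, c12.mul_pow,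
    ← map_pow, ← map_pow, ← map_pow, h0, map_one, map_one, map_one]
  simp

end Pool.Agent.Helper563_BV
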