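import Mathlib
import Pool.Agent.Helper563_BV.Defs
set_option autoImplicit false
namespace Pool.Agent.Helper563_BV


/-
PROOF OF THE TARGET IN WORDS
Each statement is an identity of permutations of VV = (ZZ -> ZMod 3): apply both sides to v and to z and compute (Equiv.ext, funext, Equiv.Perm.mul_apply). Useful: pair is additive in each argument;
in ZMod 2 an element is 0 or 1; pair beta (z + w) = pair beta z + pair beta w; -(-v) = v. sP is translation by Pi.single 0 1, and bP beta fixes the vector Pi.single 0 1 since pair beta 0 = 0 (bP beta is additive);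
tP sP = sP^(-1) tP; sP^3 = translation by 3 * = 0. yP v z = v (shZ.symm z); shZ is additive with shZ 0 = 0, (shZ z) j = z (shJ.symm j); pair (shZ beta)(shZ z) = sum_j beta(shJ.symm j) z(shJ.symm j) = pair beta z
(Equiv.sum_comp). yP sP = sP yP because Pi.single 0 1 composed with shZ.symm is Pi.single (shZ 0) 1 = Pi.single 0 1.
-/
theorem grp_rel_ext {κ : Type} {f g : YY κ} (h : ∀ v z, f v z = g v z) : f = g := by
  apply Equiv.ext
  intro v
  funext z
  exact h v z

theorem grp_rel_bP {κ : Type} [Fintype κ] (β : ZZ κ) (v : VV κ) (z : ZZ κ) :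
    bP β v z = if pair β z = 0 then v z else - v z := rfl

theorem grp_rel_aP {κ : Type} (w : ZZ κ) (v : VV κ) (z : ZZ κ) :
    aP w v z = v (z + w) := rfl

theorem grp_rel_tP {κ : Type} (v : VV κ) (z : ZZ κ) : tP κ v z = - v z := rfl

theorem grp_rel_sP {κ : Type} [Fintype κ] [DecidableEq κ] (v : VV κ) (z : ZZ κ) :
    sP κ v z = v z + (Pi.single (0 : ZZ κ) (1 : ZMod 3) : VV κ) z := rfl

theorem grp_rel_yP {κ : Type} (v : VV κ) (z : ZZ κ) : yP κ v z = v ((shZ κ).symm z) := rfl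

theorem grp_rel_shZ {κ : Type} (z : ZZ κ) (j : JJ κ) : shZ κ z j = z ((shJ κ).symm j) := rfl

theorem grp_rel_shZs {κ : Type} (z : ZZ κ) (j : JJ κ) : (shZ κ).symm z j = z (shJ κ j) := rfl

theorem grp_rel_pair0 {κ : Type} [Fintype κ] (z : ZZ κ) : pair (0 : ZZ κ) z = 0 := by
  simp [pair]

theorem grp_rel_pair0' {κ : Type} [Fintype κ] (z : ZZ κ) : pair z (0 : ZZ κ) = 0 := by
  simp [pair]

theorem grp_rel_padd {κ : Type} [Fintype κ] (a b z : ZZ κ) :
    pair (a + b) z = pair a z + pair b z := by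
  simp [pair, add_mul, Finset.sum_add_distrib]

theorem grp_rel_padd' {κ : Type} [Fintype κ] (a z w : ZZ κ) :
    pair a (z + w) = pair a z + pair a w := by
  simp [pair, mul_add, Finset.sum_add_distrib]

theorem grp_rel_pair_sh {κ : Type} [Fintype κ] (β z : ZZ κ) :
    pair (shZ κ β) (shZ κ z) = pair β z := by
  unfold pair
  simp only [grp_rel_shZ]
  exact Equiv.sum_comp (shJ κ).symm (fun j => β j * z j)

theorem grp_rel_sh_add {κ : Type} (z z' : ZZ κ) : shZ κ (z + z') = shZ κ z + shZ κ z' := rfl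

theorem grp_rel_z2 : ∀ c : ZMod 2, c = 0 ∨ c = 1 := by decide

-- TARGET
theorem grp_rel (κ : Type) [Fintype κ] [DecidableEq κ] :
    tP κ * tP κ = 1 ∧ sP κ ^ 3 = 1 ∧ tP κ * sP κ = (sP κ)⁻¹ * tP κ ∧ bP (0 : ZZ κ) = 1 ∧
    (∀ β β' : ZZ κ, bP (β + β') = bP β * bP β') ∧
    aP (0 : ZZ κ) = 1 ∧ (∀ w w' : ZZ κ, aP (w + w') = aP w * aP w') ∧
    (∀ β : ZZ κ, tP κ * bP β = bP β * tP κ) ∧
    (∀ w : ZZ κ, tP κ * aP w = aP w * tP κ) ∧
    (∀ w β : ZZ κ, aP w * bP β = (if pair β w = 0 then bP β else bP β * tP κ) * aP w) ∧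
    (∀ β : ZZ κ, bP β * sP κ = sP κ * bP β) ∧
    (∀ β : ZZ κ, yP κ * bP β = bP (shZ κ β) * yP κ) ∧
    (∀ w : ZZ κ, yP κ * aP w = aP (shZ κ w) * yP κ) ∧
    yP κ * tP κ = tP κ * yP κ ∧ yP κ * sP κ = sP κ * yP κ ∧
    (∀ β z : ZZ κ, pair (shZ κ β) (shZ κ z) = pair β z) ∧
    (∀ z z' : ZZ κ, shZ κ (z + z') = shZ κ z + shZ κ z') := by
  have h10 : (1 : ZMod 2) ≠ 0 := by decide
  have h11 : (1 : ZMod 2) + 1 = 0 := by decide
  refine ⟨?_, ?_, ?_, ?_, ?_, ?_, ?_, ?_, ?_, ?_, ?_, ?_, ?_, ?_, ?_, grp_rel_pair_sh,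
    grp_rel_sh_add⟩
  · apply grp_rel_ext
    intro v z
    rw [Equiv.Perm.mul_apply, grp_rel_tP, grp_rel_tP, neg_neg, Equiv.Perm.one_apply]
  · apply grp_rel_ext
    intro v z
    rw [pow_succ, pow_succ, pow_one, Equiv.Perm.mul_apply, Equiv.Perm.mul_apply, grp_rel_sP,
      grp_rel_sP, grp_rel_sP, Equiv.Perm.one_apply]
    have : ∀ a c : ZMod 3, a + c + c + c = a := by decide
    exact this _ _
  · rw [eq_inv_mul_iff_mul_eq]
    apply grp_rel_ext
    intro v z
    rw [Equiv.Perm.mul_apply, Equiv.Perm.mul_apply, grp_rel_sP, grp_rel_tP, grp_rel_sP,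
      grp_rel_tP]
    ring
  · apply grp_rel_ext
    intro v z
    rw [grp_rel_bP, grp_rel_pair0, if_pos rfl, Equiv.Perm.one_apply]
  · intro β β'
    apply grp_rel_ext
    intro v z
    rw [Equiv.Perm.mul_apply, grp_rel_bP, grp_rel_bP, grp_rel_bP, grp_rel_padd]
    rcases grp_rel_z2 (pair β z) with h | h <;> rcases grp_rel_z2 (pair β' z) with h' | h' <;>
      rw [h, h'] <;> simp [h11]
  · apply grp_rel_ext
    intro v z
    rw [grp_rel_aP, add_zero, Equiv.Perm.one_apply]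
  · intro w w'
    apply grp_rel_ext
    intro v z
    rw [Equiv.Perm.mul_apply, grp_rel_aP, grp_rel_aP, grp_rel_aP, add_assoc]
  · intro β
    apply grp_rel_ext
    intro v z
    rw [Equiv.Perm.mul_apply, Equiv.Perm.mul_apply, grp_rel_tP, grp_rel_bP, grp_rel_bP,
      grp_rel_tP]
    split_ifs <;> rfl
  · intro w
    apply grp_rel_ext
    intro v z
    rw [Equiv.Perm.mul_apply, Equiv.Perm.mul_apply, grp_rel_tP, grp_rel_aP, grp_rel_aP,
      grp_rel_tP]
  · intro w β
    apply grp_rel_ext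
    intro v z
    rcases grp_rel_z2 (pair β w) with h | h
    · rw [if_pos h, Equiv.Perm.mul_apply, Equiv.Perm.mul_apply, grp_rel_aP, grp_rel_bP,
        grp_rel_bP, grp_rel_aP, grp_rel_padd', h, add_zero]
    · have hn : ¬ pair β w = 0 := by rw [h]; exact h10
      rw [if_neg hn, Equiv.Perm.mul_apply, Equiv.Perm.mul_apply, Equiv.Perm.mul_apply,
        grp_rel_aP, grp_rel_bP, grp_rel_bP, grp_rel_tP, grp_rel_aP, grp_rel_padd', h]
      rcases grp_rel_z2 (pair β z) with h' | h' <;> rw [h'] <;> simp [h11]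
  · intro β
    apply grp_rel_ext
    intro v z
    rw [Equiv.Perm.mul_apply, Equiv.Perm.mul_apply, grp_rel_sP, grp_rel_bP, grp_rel_bP,
      grp_rel_sP]
    by_cases hz : z = 0
    · subst hz
      rw [grp_rel_pair0', if_pos rfl, if_pos rfl]
    · rw [Pi.single_eq_of_ne hz, add_zero, add_zero]
  · intro β
    apply grp_rel_ext
    intro v z
    have h := grp_rel_pair_sh β ((shZ κ).symm z)
    rw [Equiv.apply_symm_apply] at h
    rw [Equiv.Perm.mul_apply, Equiv.Perm.mul_apply, grp_rel_yP, grp_rel_bP, grp_rel_bP,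
      grp_rel_yP, h]
  · intro w
    apply grp_rel_ext
    intro v z
    rw [Equiv.Perm.mul_apply, Equiv.Perm.mul_apply, grp_rel_yP, grp_rel_aP, grp_rel_aP,
      grp_rel_yP]
    congr 1
    rw [Equiv.eq_symm_apply, grp_rel_sh_add, Equiv.apply_symm_apply]
  · apply grp_rel_ext
    intro v z
    rw [Equiv.Perm.mul_apply, Equiv.Perm.mul_apply, grp_rel_tP, grp_rel_yP, grp_rel_yP,
      grp_rel_tP]
  · apply grp_rel_ext
    intro v z
    rw [Equiv.Perm.mul_apply, Equiv.Perm.mul_apply, grp_rel_sP, grp_rel_yP, grp_rel_yP,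
      grp_rel_sP]
    congr 1
    by_cases hz : z = 0
    · subst hz
      rfl
    · have hz' : (shZ κ).symm z ≠ 0 := by
        intro h
        apply hz
        rw [Equiv.symm_apply_eq] at h
        rw [h]
        rfl
      rw [Pi.single_eq_of_ne hz, Pi.single_eq_of_ne hz']

end Pool.Agent.Helper563_BV
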