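import Mathlib
import Pool.Agent.Helper563_BV.Defs
set_option autoImplicit false
namespace Pool.Agent.Helper563_BV


/-
PROOF OF THE TARGET IN WORDS
(shZ^i) z at j = z ((shJ^i).symm j) (induction), and shJ^i (c, p) = (c + i, p). So (shZ^i)(Pi.single (0,k,b) 1) = Pi.single (i, k, b) 1 with i cast to ZMod 9. Two such singles are equal iff the indices are equal
(1 is nonzero in ZMod 2): (i : ZMod 9) = 0 iff 9 | i (ZMod.natCast_eq_zero_iff), k = k', b = b'.
-/

theorem lab_rel_shJ (κ : Type) (i : ℕ) (c : ZMod 9) (p : κ × Bool) :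
    (shJ κ ^ i) (c, p) = (c + (i : ZMod 9), p) := by
  induction i with
  | zero => simp
  | succ n ih =>
    rw [pow_succ', Equiv.Perm.mul_apply, ih]
    simp only [shJ, Equiv.prodCongr_apply, Prod.map_apply, Equiv.coe_addRight, Equiv.refl_apply]
    push_cast
    rw [add_assoc]

theorem lab_rel_shZ (κ : Type) (i : ℕ) (z : ZZ κ) (j : JJ κ) :
    (shZ κ ^ i) z ((shJ κ ^ i) j) = z j := by
  induction i with
  | zero => simp
  | succ n ih =>
    rw [pow_succ', pow_succ', Equiv.Perm.mul_apply, Equiv.Perm.mul_apply]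
    have h : ∀ (w : ZZ κ) (q : JJ κ), shZ κ w (shJ κ q) = w q := by
      intro w q
      simp [shZ]
    rw [h, ih]

theorem lab_rel_single (κ : Type) [DecidableEq κ] (i : ℕ) (k : κ) (b : Bool) (q : JJ κ) :
    (shZ κ ^ i) (lab k b) q = if q = ((i : ZMod 9), k, b) then 1 else 0 := by
  obtain ⟨j, rfl⟩ := (shJ κ ^ i).surjective q
  rw [lab_rel_shZ]
  obtain ⟨c, p⟩ := j
  rw [lab_rel_shJ, lab]
  by_cases h : (c, p) = ((0 : ZMod 9), k, b)
  · rw [h]
    have hc : c = 0 := congrArg Prod.fst h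
    have hp : p = (k, b) := congrArg Prod.snd h
    subst hc; subst hp
    simp
  · rw [Pi.single_eq_of_ne h, if_neg]
    intro h'
    apply h
    have hc : c + (i : ZMod 9) = (i : ZMod 9) := congrArg Prod.fst h'
    have hp : p = (k, b) := congrArg Prod.snd h'
    have hc0 : c = 0 := by simpa using hc
    rw [hc0, hp]

-- TARGET
theorem lab_rel (κ : Type) [DecidableEq κ] (i : ℕ) (k k' : κ) (b b' : Bool) :
    (shZ κ ^ i) (lab k b) = lab k' b' ↔ (9 ∣ i ∧ k = k' ∧ b = b') := by
  constructor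
  · intro h
    have h1 := congrFun h ((i : ZMod 9), k, b)
    rw [lab_rel_single, if_pos rfl] at h1
    have h2 : ((i : ZMod 9), k, b) = ((0 : ZMod 9), k', b') := by
      by_contra hne
      rw [lab, Pi.single_eq_of_ne hne] at h1
      exact one_ne_zero h1
    have hi : (i : ZMod 9) = 0 := congrArg Prod.fst h2
    have hkb : (k, b) = (k', b') := congrArg Prod.snd h2
    refine ⟨(ZMod.natCast_eq_zero_iff i 9).mp hi, congrArg Prod.fst hkb, congrArg Prod.snd hkb⟩
  · rintro ⟨hi, rfl, rfl⟩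
    have hi0 : (i : ZMod 9) = 0 := (ZMod.natCast_eq_zero_iff i 9).mpr hi
    funext q
    rw [lab_rel_single, hi0, lab]
    by_cases hq : q = ((0 : ZMod 9), k, b)
    · rw [if_pos hq, hq, Pi.single_eq_same]
    · rw [if_neg hq, Pi.single_eq_of_ne hq]

end Pool.Agent.Helper563_BV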