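import Mathlib
import Pool.Agent.Helper563_BV.Defs
set_option autoImplicit false

namespace Pool.Agent.Helper563_BV

/-- companion matrix of 1 + t + ... + t^8 -/
def mat2C : Matrix (Fin 8) (Fin 8) ℤ :=
  !![0, 0, 0, 0, 0, 0, 0, -1; 1, 0, 0, 0, 0, 0, 0, -1; 0, 1, 0, 0, 0, 0, 0, -1; 0, 0, 1, 0, 0, 0, 0, -1; 0, 0, 0, 1, 0, 0, 0, -1; 0, 0, 0, 0, 1, 0, 0, -1; 0, 0, 0, 0, 0, 1, 0, -1; 0, 0, 0, 0, 0, 0, 1, -1]

def mat2P2 : Matrix (Fin 8) (Fin 8) ℤ :=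
  !![0, 0, 0, 0, 0, 0, -1, 1; 0, 0, 0, 0, 0, 0, -1, 0; 1, 0, 0, 0, 0, 0, -1, 0; 0, 1, 0, 0, 0, 0, -1, 0; 0, 0, 1, 0, 0, 0, -1, 0; 0, 0, 0, 1, 0, 0, -1, 0; 0, 0, 0, 0, 1, 0, -1, 0; 0, 0, 0, 0, 0, 1, -1, 0]

def mat2P3 : Matrix (Fin 8) (Fin 8) ℤ :=
  !![0, 0, 0, 0, 0, -1, 1, 0; 0, 0, 0, 0, 0, -1, 0, 1; 0, 0, 0, 0, 0, -1, 0, 0; 1, 0, 0, 0, 0, -1, 0, 0; 0, 1, 0, 0, 0, -1, 0, 0; 0, 0, 1, 0, 0, -1, 0, 0; 0, 0, 0, 1, 0, -1, 0, 0; 0, 0, 0, 0, 1, -1, 0, 0]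

def mat2P4 : Matrix (Fin 8) (Fin 8) ℤ :=
  !![0, 0, 0, 0, -1, 1, 0, 0; 0, 0, 0, 0, -1, 0, 1, 0; 0, 0, 0, 0, -1, 0, 0, 1; 0, 0, 0, 0, -1, 0, 0, 0; 1, 0, 0, 0, -1, 0, 0, 0; 0, 1, 0, 0, -1, 0, 0, 0; 0, 0, 1, 0, -1, 0, 0, 0; 0, 0, 0, 1, -1, 0, 0, 0]

def mat2P5 : Matrix (Fin 8) (Fin 8) ℤ :=
  !![0, 0, 0, -1, 1, 0, 0, 0; 0, 0, 0, -1, 0, 1, 0, 0; 0, 0, 0, -1, 0, 0, 1, 0; 0, 0, 0, -1, 0, 0, 0, 1; 0, 0, 0, -1, 0, 0, 0, 0; 1, 0, 0, -1, 0, 0, 0, 0; 0, 1, 0, -1, 0, 0, 0, 0; 0, 0, 1, -1, 0, 0, 0, 0]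

def mat2P6 : Matrix (Fin 8) (Fin 8) ℤ :=
  !![0, 0, -1, 1, 0, 0, 0, 0; 0, 0, -1, 0, 1, 0, 0, 0; 0, 0, -1, 0, 0, 1, 0, 0; 0, 0, -1, 0, 0, 0, 1, 0; 0, 0, -1, 0, 0, 0, 0, 1; 0, 0, -1, 0, 0, 0, 0, 0; 1, 0, -1, 0, 0, 0, 0, 0; 0, 1, -1, 0, 0, 0, 0, 0]

def mat2P7 : Matrix (Fin 8) (Fin 8) ℤ :=
  !![0, -1, 1, 0, 0, 0, 0, 0; 0, -1, 0, 1, 0, 0, 0, 0; 0, -1, 0, 0, 1, 0, 0, 0; 0, -1, 0, 0, 0, 1, 0, 0; 0, -1, 0, 0, 0, 0, 1, 0; 0, -1, 0, 0, 0, 0, 0, 1; 0, -1, 0, 0, 0, 0, 0, 0; 1, -1, 0, 0, 0, 0, 0, 0]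

def mat2P8 : Matrix (Fin 8) (Fin 8) ℤ :=
  !![-1, 1, 0, 0, 0, 0, 0, 0; -1, 0, 1, 0, 0, 0, 0, 0; -1, 0, 0, 1, 0, 0, 0, 0; -1, 0, 0, 0, 1, 0, 0, 0; -1, 0, 0, 0, 0, 1, 0, 0; -1, 0, 0, 0, 0, 0, 1, 0; -1, 0, 0, 0, 0, 0, 0, 1; -1, 0, 0, 0, 0, 0, 0, 0]

theorem mat2_h2 : mat2C ^ 2 = mat2P2 := by rw [pow_two]; decide +kernel
theorem mat2_h3 : mat2C ^ 3 = mat2P3 := by rw [pow_succ, mat2_h2]; decide +kernel
theorem mat2_h4 : mat2C ^ 4 = mat2P4 := by rw [pow_succ, mat2_h3]; decide +kernel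
theorem mat2_h5 : mat2C ^ 5 = mat2P5 := by rw [pow_succ, mat2_h4]; decide +kernel
theorem mat2_h6 : mat2C ^ 6 = mat2P6 := by rw [pow_succ, mat2_h5]; decide +kernel
theorem mat2_h7 : mat2C ^ 7 = mat2P7 := by rw [pow_succ, mat2_h6]; decide +kernel
theorem mat2_h8 : mat2C ^ 8 = mat2P8 := by rw [pow_succ, mat2_h7]; decide +kernel
theorem mat2_h9 : mat2C ^ 9 = 1 := by rw [pow_succ, mat2_h8]; decide +kernel

theorem mat2_tr (i : ℕ) (hi : ¬ 9 ∣ i) : Matrix.trace (mat2C ^ i) = -1 := by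
  have h : mat2C ^ i = mat2C ^ (i % 9) := by
    conv_lhs => rw [← Nat.div_add_mod i 9, pow_add, pow_mul, mat2_h9, one_pow, one_mul]
  rw [h]
  have h1 : i % 9 < 9 := Nat.mod_lt _ (by norm_num)
  have h2 : i % 9 ≠ 0 := fun h => hi (Nat.dvd_of_mod_eq_zero h)
  generalize i % 9 = r at h1 h2
  interval_cases r
  · exact absurd rfl h2
  · rw [pow_one]; decide +kernel
  · rw [mat2_h2]; decide +kernel
  · rw [mat2_h3]; decide +kernel
  · rw [mat2_h4]; decide +kernel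
  · rw [mat2_h5]; decide +kernel
  · rw [mat2_h6]; decide +kernel
  · rw [mat2_h7]; decide +kernel
  · rw [mat2_h8]; decide +kernel

/-- the cyclic 3 x 3 block matrix -/
def mat2D {R : Type*} [Ring R] (M : R) : Matrix (Fin 3) (Fin 3) R :=
  !![0, 0, M; 1, 0, 0; 0, 1, 0]

theorem mat2D_sq {R : Type*} [Ring R] (M : R) :
    mat2D M ^ 2 = !![0, M, 0; 0, 0, M; 1, 0, 0] := by
  rw [pow_two]
  ext i j
  fin_cases i <;> fin_cases j <;> simp [mat2D, Matrix.mul_apply, Fin.sum_univ_three]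

theorem mat2D_cube {R : Type*} [Ring R] (M : R) :
    mat2D M ^ 3 = Matrix.diagonal (fun _ => M) := by
  rw [pow_succ, mat2D_sq]
  ext i j
  fin_cases i <;> fin_cases j <;> simp [mat2D, Matrix.mul_apply, Fin.sum_univ_three]

theorem mat2D_pow {R : Type*} [Ring R] (M : R) (i : ℕ) :
    mat2D M ^ (3 * i) = Matrix.diagonal (fun _ => M ^ i) := by
  rw [pow_mul, mat2D_cube, Matrix.diagonal_pow]
  rfl

theorem mat2D_diag0 {R : Type*} [Ring R] (M : R) (i : ℕ) (k : Fin 3) :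
    (mat2D M ^ (3 * i)) k k = M ^ i := by
  rw [mat2D_pow, Matrix.diagonal_apply_eq]

theorem mat2D_diag1 {R : Type*} [Ring R] (M : R) (i : ℕ) (k : Fin 3) :
    (mat2D M ^ (3 * i + 1)) k k = 0 := by
  rw [pow_succ, mat2D_pow, Matrix.diagonal_mul]
  fin_cases k <;> simp [mat2D]

theorem mat2D_diag2 {R : Type*} [Ring R] (M : R) (i : ℕ) (k : Fin 3) :
    (mat2D M ^ (3 * i + 2)) k k = 0 := by
  rw [pow_add, mat2D_pow, Matrix.diagonal_mul, mat2D_sq]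
  fin_cases k <;> simp

theorem mat2_trace_comp {R : Type*} [Ring R] {I J : Type*} [Fintype I] [Fintype J]
    [DecidableEq I] [DecidableEq J] (M : Matrix I I (Matrix J J R)) :
    Matrix.trace (Matrix.compRingEquiv I J R M) = ∑ i, Matrix.trace (M i i) := by
  simp only [Matrix.trace, Fintype.sum_prod_type]
  rfl

-- TARGET
theorem mat2 {A : Type*} [Ring A] (x : A) (hx3 : x ^ 3 = 1) :
    ∃ (N : Type) (_ : Fintype N) (_ : DecidableEq N) (c : Matrix N N A),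
      Fintype.card N = 27 * 3 ∧ c ^ 27 = 1 ∧
      (∀ n n', c n n' ∈ Subring.closure {x}) ∧
      (∀ j : ℕ, ¬ 3 ∣ j → Matrix.trace (c ^ j) = 9 * x ^ j) ∧
      (∀ j : ℕ, 3 ∣ j → ¬ 27 ∣ j → Matrix.trace (c ^ j) = 0) := by
  classical
  set C : Matrix (Fin 8) (Fin 8) A := (Int.castRingHom A).mapMatrix mat2C with hC
  have hC9 : C ^ 9 = 1 := by rw [hC, ← map_pow, mat2_h9, map_one]
  have hCt : ∀ i : ℕ, ¬ 9 ∣ i → Matrix.trace (C ^ i) = -1 := by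
    intro i hi
    rw [hC, ← map_pow]
    have h := AddMonoidHom.map_trace (Int.castRingHom A).toAddMonoidHom (mat2C ^ i)
    rw [mat2_tr i hi] at h
    have h2 : (Int.castRingHom A).toAddMonoidHom (-1 : ℤ) = (-1 : A) := by simp
    rw [h2] at h
    rw [h]
    rfl
  set E : Matrix (Fin 3 × Fin 8) (Fin 3 × Fin 8) A := Matrix.compRingEquiv (Fin 3) (Fin 8) A (mat2D C) with hE
  have hEt : ∀ i : ℕ, Matrix.trace (E ^ (3 * i)) = 3 * Matrix.trace (C ^ i) := by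
    intro i
    rw [hE, ← map_pow, mat2_trace_comp]
    simp only [mat2D_diag0]
    simp [Finset.sum_const]
  have hEt1 : ∀ i : ℕ, Matrix.trace (E ^ (3 * i + 1)) = 0 := by
    intro i
    rw [hE, ← map_pow, mat2_trace_comp]
    simp only [mat2D_diag1]
    simp
  have hEt2 : ∀ i : ℕ, Matrix.trace (E ^ (3 * i + 2)) = 0 := by
    intro i
    rw [hE, ← map_pow, mat2_trace_comp]
    simp only [mat2D_diag2]
    simp
  have hE27 : E ^ 27 = 1 := by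
    rw [hE, ← map_pow]
    have h := mat2D_pow C 9
    norm_num at h
    rw [h, hC9]
    have h1 : (Matrix.diagonal fun _ : Fin 3 => (1 : Matrix (Fin 8) (Fin 8) A)) = 1 := Matrix.diagonal_one
    rw [h1, map_one]
  set c0 : Matrix (Fin 3 ⊕ Fin 3 × Fin 8) (Fin 3 ⊕ Fin 3 × Fin 8) A :=
    Matrix.fromBlocks (Matrix.diagonal (fun _ => x)) 0 0 E with hc0
  have hpow : ∀ j : ℕ, c0 ^ j = Matrix.fromBlocks (Matrix.diagonal (fun _ => x ^ j)) 0 0 (E ^ j) := by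
    intro j
    rw [hc0, Matrix.fromBlocks_diagonal_pow, Matrix.diagonal_pow]
    rfl
  have htr : ∀ j : ℕ, Matrix.trace (c0 ^ j) = 3 * x ^ j + Matrix.trace (E ^ j) := by
    intro j
    rw [hpow]
    simp only [Matrix.trace, Fintype.sum_sum_type, Matrix.diag_apply, Matrix.fromBlocks_apply₁₁,
      Matrix.fromBlocks_apply₂₂, Matrix.diagonal_apply_eq]
    simp
  have hx : ∀ i : ℕ, x ^ (3 * i) = 1 := fun i => by rw [pow_mul, hx3, one_pow]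
  refine ⟨(Fin 3 ⊕ Fin 3 × Fin 8) × Fin 3, inferInstance, inferInstance,
    Matrix.blockDiagonal (fun _ : Fin 3 => c0), ?_, ?_, ?_, ?_, ?_⟩
  · simp
  · rw [← Matrix.blockDiagonal_pow]
    have h27 : c0 ^ 27 = 1 := by
      rw [hpow, hE27]
      have := hx 9
      norm_num at this
      rw [this]
      have h1 : (Matrix.diagonal fun _ : Fin 3 => (1 : A)) = 1 := Matrix.diagonal_one
      rw [h1, Matrix.fromBlocks_one]
    have h28 : ((fun _ : Fin 3 => c0) ^ 27) = 1 := by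
      funext k
      simp [h27]
    rw [h28, Matrix.blockDiagonal_one]
  · have hc0m : ∀ a b, c0 a b ∈ Subring.closure {x} := by
      intro a b
      rcases a with a | ⟨a1, a2⟩ <;> rcases b with b | ⟨b1, b2⟩
      · rw [hc0, Matrix.fromBlocks_apply₁₁, Matrix.diagonal_apply]
        split_ifs
        · exact Subring.subset_closure rfl
        · exact zero_mem _
      · rw [hc0, Matrix.fromBlocks_apply₁₂]
        exact zero_mem _
      · rw [hc0, Matrix.fromBlocks_apply₂₁]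
        exact zero_mem _
      · rw [hc0, Matrix.fromBlocks_apply₂₂]
        have h1 : E (a1, a2) (b1, b2) = (mat2D C a1 b1) a2 b2 := rfl
        rw [h1]
        have hCm : C a2 b2 ∈ Subring.closure {x} := by
          have : C a2 b2 = ((mat2C a2 b2 : ℤ) : A) := rfl
          rw [this]
          exact intCast_mem _ _
        have hone : (1 : Matrix (Fin 8) (Fin 8) A) a2 b2 ∈ Subring.closure {x} := by
          rw [Matrix.one_apply]
          split_ifs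
          · exact one_mem _
          · exact zero_mem _
        have hzero : (0 : Matrix (Fin 8) (Fin 8) A) a2 b2 ∈ Subring.closure {x} := zero_mem _
        fin_cases a1 <;> fin_cases b1 <;> first | exact hzero | exact hone | exact hCm
    intro n n'
    rw [Matrix.blockDiagonal_apply]
    split_ifs
    · exact hc0m _ _
    · exact zero_mem _
  · intro j hj
    rw [← Matrix.blockDiagonal_pow, Matrix.trace_blockDiagonal]
    have h0 : Matrix.trace (E ^ j) = 0 := by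
      have h1 : j % 3 = 1 ∨ j % 3 = 2 := by omega
      rcases h1 with h1 | h1
      · have h2 : j = 3 * (j / 3) + 1 := by omega
        rw [h2]; exact hEt1 _
      · have h2 : j = 3 * (j / 3) + 2 := by omega
        rw [h2]; exact hEt2 _
    have h3 : ∀ k : Fin 3, Matrix.trace (((fun _ : Fin 3 => c0) ^ j) k) = 3 * x ^ j := by
      intro k
      rw [Pi.pow_apply, htr, h0, add_zero]
    rw [Finset.sum_congr rfl (fun k _ => h3 k)]
    simp only [Finset.sum_const, Finset.card_univ, Fintype.card_fin, nsmul_eq_mul]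
    rw [← mul_assoc]
    norm_num
  · intro j hj hj27
    obtain ⟨i, rfl⟩ := hj
    rw [← Matrix.blockDiagonal_pow, Matrix.trace_blockDiagonal]
    have hi : ¬ 9 ∣ i := by
      intro h
      obtain ⟨k, rfl⟩ := h
      exact hj27 ⟨k, by ring⟩
    have h3 : ∀ k : Fin 3, Matrix.trace (((fun _ : Fin 3 => c0) ^ (3 * i)) k) = 0 := by
      intro k
      rw [Pi.pow_apply, htr, hEt, hCt i hi, hx]
      norm_num
    rw [Finset.sum_congr rfl (fun k _ => h3 k)]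
    simp

end Pool.Agent.Helper563_BV
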