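import Mathlib
import Pool.Agent.Helper563_BV.Defs
set_option autoImplicit false
namespace Pool.Agent.Helper563_BV

def intmat8_B1 : Matrix (Fin 8) (Fin 8) ℤ :=
  !![1, 0, 0, 0, 0, 0, 0, -3; 0, 0, 0, 0, 0, 0, 0, 1; 6, 1, 0, 0, 0, 0, 0, -16; -15, 0, 1, 0, 0, 0, 0, 30; 21, 0, 0, 1, 0, 0, 0, -32; -15, 0, 0, 0, 1, 0, 0, 14; 6, 0, 0, 0, 0, 1, 0, -3; 0, 0, 0, 0, 0, 0, 1, -2]

def intmat8_B2 : Matrix (Fin 8) (Fin 8) ℤ :=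
  !![1, 0, 0, 0, 0, 0, -3, 3; 0, 0, 0, 0, 0, 0, 1, -2; 6, 0, 0, 0, 0, 0, -16, 15; -9, 1, 0, 0, 0, 0, 30, -31; 6, 0, 1, 0, 0, 0, -32, 31; 6, 0, 0, 1, 0, 0, 14, -15; -9, 0, 0, 0, 1, 0, -3, 2; 6, 0, 0, 0, 0, 1, -2, 1]

def intmat8_B3 : Matrix (Fin 8) (Fin 8) ℤ :=
  !![-17, 0, 0, 0, 0, -3, 3, 0; 6, 0, 0, 0, 0, 1, -2, 1; -90, 0, 0, 0, 0, -16, 15, 0; 171, 0, 0, 0, 0, 30, -31, 0; -180, 1, 0, 0, 0, -32, 31, 0; 75, 0, 1, 0, 0, 14, -15, 0; -6, 0, 0, 1, 0, -3, 2, 0; -21, 0, 0, 0, 1, -2, 1, 0]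

def intmat8_B4 : Matrix (Fin 8) (Fin 8) ℤ :=
  !![46, 0, 0, 0, -3, 3, 0, 0; -21, 0, 0, 0, 1, -2, 1, 0; 240, 0, 0, 0, -16, 15, 0, 1; -465, 0, 0, 0, 30, -31, 0, 0; 486, 0, 0, 0, -32, 31, 0, 0; -219, 1, 0, 0, 14, -15, 0, 0; 36, 0, 1, 0, -3, 2, 0, 0; 36, 0, 0, 1, -2, 1, 0, 0]

def intmat8_B5 : Matrix (Fin 8) (Fin 8) ℤ :=
  !![-62, 0, 0, -3, 3, 0, 0, 0; 36, 0, 0, 1, -2, 1, 0, 0; -321, 0, 0, -16, 15, 0, 1, 0; 630, 0, 0, 30, -31, 0, 0, 1; -651, 0, 0, -32, 31, 0, 0, 0; 300, 0, 0, 14, -15, 0, 0, 0; -51, 1, 0, -3, 2, 0, 0, 0; -36, 0, 1, -2, 1, 0, 0, 0]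

def intmat8_B6 : Matrix (Fin 8) (Fin 8) ℤ :=
  !![46, 0, -3, 3, 0, 0, 0, 0; -36, 0, 1, -2, 1, 0, 0, 0; 240, 0, -16, 15, 0, 1, 0, 0; -471, 0, 30, -31, 0, 0, 1, 0; 480, 0, -32, 31, 0, 0, 0, 1; -225, 0, 14, -15, 0, 0, 0, 0; 36, 0, -3, 2, 0, 0, 0, 0; 21, 1, -2, 1, 0, 0, 0, 0]

def intmat8_B7 : Matrix (Fin 8) (Fin 8) ℤ :=
  !![-17, -3, 3, 0, 0, 0, 0, 0; 21, 1, -2, 1, 0, 0, 0, 0; -96, -16, 15, 0, 1, 0, 0, 0; 180, 30, -31, 0, 0, 1, 0, 0; -177, -32, 31, 0, 0, 0, 1, 0; 84, 14, -15, 0, 0, 0, 0, 1; -12, -3, 2, 0, 0, 0, 0, 0; -6, -2, 1, 0, 0, 0, 0, 0]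

def intmat8_B8 : Matrix (Fin 8) (Fin 8) ℤ :=
  !![1, 3, 0, 0, 0, 0, 0, 0; -6, -2, 1, 0, 0, 0, 0, 0; 15, 15, 0, 1, 0, 0, 0, 0; -21, -31, 0, 0, 1, 0, 0, 0; 15, 31, 0, 0, 0, 1, 0, 0; -6, -15, 0, 0, 0, 0, 1, 0; 0, 2, 0, 0, 0, 0, 0, 1; 0, 1, 0, 0, 0, 0, 0, 0]

theorem intmat8_Bm1 : intmat8_B1 * intmat8_B1 = intmat8_B2 := by decide +kernel

theorem intmat8_Bm2 : intmat8_B2 * intmat8_B1 = intmat8_B3 := by decide +kernel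

theorem intmat8_Bm3 : intmat8_B3 * intmat8_B1 = intmat8_B4 := by decide +kernel

theorem intmat8_Bm4 : intmat8_B4 * intmat8_B1 = intmat8_B5 := by decide +kernel

theorem intmat8_Bm5 : intmat8_B5 * intmat8_B1 = intmat8_B6 := by decide +kernel

theorem intmat8_Bm6 : intmat8_B6 * intmat8_B1 = intmat8_B7 := by decide +kernel

theorem intmat8_Bm7 : intmat8_B7 * intmat8_B1 = intmat8_B8 := by decide +kernel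

theorem intmat8_Bm8 : intmat8_B8 * intmat8_B1 = 1 := by decide +kernel

theorem intmat8_Bt1 : Matrix.trace intmat8_B1 = -1 := by decide +kernel

theorem intmat8_Bt2 : Matrix.trace intmat8_B2 = -1 := by decide +kernel

theorem intmat8_Bt3 : Matrix.trace intmat8_B3 = -1 := by decide +kernel

theorem intmat8_Bt4 : Matrix.trace intmat8_B4 = -1 := by decide +kernel

theorem intmat8_Bt5 : Matrix.trace intmat8_B5 = -1 := by decide +kernel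

theorem intmat8_Bt6 : Matrix.trace intmat8_B6 = -1 := by decide +kernel

theorem intmat8_Bt7 : Matrix.trace intmat8_B7 = -1 := by decide +kernel

theorem intmat8_Bt8 : Matrix.trace intmat8_B8 = -1 := by decide +kernel

theorem intmat8_Bp1 : intmat8_B1 ^ 1 = intmat8_B1 := pow_one _

theorem intmat8_Bp2 : intmat8_B1 ^ 2 = intmat8_B2 := by
  rw [pow_succ, intmat8_Bp1, intmat8_Bm1]

theorem intmat8_Bp3 : intmat8_B1 ^ 3 = intmat8_B3 := by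
  rw [pow_succ, intmat8_Bp2, intmat8_Bm2]

theorem intmat8_Bp4 : intmat8_B1 ^ 4 = intmat8_B4 := by
  rw [pow_succ, intmat8_Bp3, intmat8_Bm3]

theorem intmat8_Bp5 : intmat8_B1 ^ 5 = intmat8_B5 := by
  rw [pow_succ, intmat8_Bp4, intmat8_Bm4]

theorem intmat8_Bp6 : intmat8_B1 ^ 6 = intmat8_B6 := by
  rw [pow_succ, intmat8_Bp5, intmat8_Bm5]

theorem intmat8_Bp7 : intmat8_B1 ^ 7 = intmat8_B7 := by
  rw [pow_succ, intmat8_Bp6, intmat8_Bm6]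

theorem intmat8_Bp8 : intmat8_B1 ^ 8 = intmat8_B8 := by
  rw [pow_succ, intmat8_Bp7, intmat8_Bm7]

theorem intmat8_Bp9 : intmat8_B1 ^ 9 = 1 := by
  rw [pow_succ, intmat8_Bp8, intmat8_Bm8]

def intmat8_C1 : Matrix (Fin 8) (Fin 8) ℤ :=
  !![1, 0, 0, 0, 0, 0, 0, 0; 0, 0, 0, 0, 0, 0, 0, 1; 0, 1, 0, 0, 0, 0, 0, -1; 0, 0, 1, 0, 0, 0, 0, 0; 0, 0, 0, 1, 0, 0, 0, 1; 0, 0, 0, 0, 1, 0, 0, -1; 0, 0, 0, 0, 0, 1, 0, 0; 0, 0, 0, 0, 0, 0, 1, 1]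

def intmat8_C2 : Matrix (Fin 8) (Fin 8) ℤ :=
  !![1, 0, 0, 0, 0, 0, 0, 0; 0, 0, 0, 0, 0, 0, 1, 1; 0, 0, 0, 0, 0, 0, -1, 0; 0, 1, 0, 0, 0, 0, 0, -1; 0, 0, 1, 0, 0, 0, 1, 1; 0, 0, 0, 1, 0, 0, -1, 0; 0, 0, 0, 0, 1, 0, 0, -1; 0, 0, 0, 0, 0, 1, 1, 1]

def intmat8_C3 : Matrix (Fin 8) (Fin 8) ℤ :=
  !![1, 0, 0, 0, 0, 0, 0, 0; 0, 0, 0, 0, 0, 1, 1, 1; 0, 0, 0, 0, 0, -1, 0, 0; 0, 0, 0, 0, 0, 0, -1, 0; 0, 1, 0, 0, 0, 1, 1, 0; 0, 0, 1, 0, 0, -1, 0, 0; 0, 0, 0, 1, 0, 0, -1, 0; 0, 0, 0, 0, 1, 1, 1, 0]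

def intmat8_C4 : Matrix (Fin 8) (Fin 8) ℤ :=
  !![1, 0, 0, 0, 0, 0, 0, 0; 0, 0, 0, 0, 1, 1, 1, 0; 0, 0, 0, 0, -1, 0, 0, 1; 0, 0, 0, 0, 0, -1, 0, 0; 0, 0, 0, 0, 1, 1, 0, 0; 0, 1, 0, 0, -1, 0, 0, 0; 0, 0, 1, 0, 0, -1, 0, 0; 0, 0, 0, 1, 1, 1, 0, 0]

def intmat8_C5 : Matrix (Fin 8) (Fin 8) ℤ :=
  !![1, 0, 0, 0, 0, 0, 0, 0; 0, 0, 0, 1, 1, 1, 0, 0; 0, 0, 0, -1, 0, 0, 1, 0; 0, 0, 0, 0, -1, 0, 0, 1; 0, 0, 0, 1, 1, 0, 0, 0; 0, 0, 0, -1, 0, 0, 0, 0; 0, 1, 0, 0, -1, 0, 0, 0; 0, 0, 1, 1, 1, 0, 0, 0]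

def intmat8_C6 : Matrix (Fin 8) (Fin 8) ℤ :=
  !![1, 0, 0, 0, 0, 0, 0, 0; 0, 0, 1, 1, 1, 0, 0, 0; 0, 0, -1, 0, 0, 1, 0, 0; 0, 0, 0, -1, 0, 0, 1, 0; 0, 0, 1, 1, 0, 0, 0, 1; 0, 0, -1, 0, 0, 0, 0, 0; 0, 0, 0, -1, 0, 0, 0, 0; 0, 1, 1, 1, 0, 0, 0, 0]

def intmat8_C7 : Matrix (Fin 8) (Fin 8) ℤ :=
  !![1, 0, 0, 0, 0, 0, 0, 0; 0, 1, 1, 1, 0, 0, 0, 0; 0, -1, 0, 0, 1, 0, 0, 0; 0, 0, -1, 0, 0, 1, 0, 0; 0, 1, 1, 0, 0, 0, 1, 0; 0, -1, 0, 0, 0, 0, 0, 1; 0, 0, -1, 0, 0, 0, 0, 0; 0, 1, 1, 0, 0, 0, 0, 0]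

def intmat8_C8 : Matrix (Fin 8) (Fin 8) ℤ :=
  !![1, 0, 0, 0, 0, 0, 0, 0; 0, 1, 1, 0, 0, 0, 0, 0; 0, 0, 0, 1, 0, 0, 0, 0; 0, -1, 0, 0, 1, 0, 0, 0; 0, 1, 0, 0, 0, 1, 0, 0; 0, 0, 0, 0, 0, 0, 1, 0; 0, -1, 0, 0, 0, 0, 0, 1; 0, 1, 0, 0, 0, 0, 0, 0]

theorem intmat8_Cm1 : intmat8_C1 * intmat8_C1 = intmat8_C2 := by decide +kernel

theorem intmat8_Cm2 : intmat8_C2 * intmat8_C1 = intmat8_C3 := by decide +kernel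

theorem intmat8_Cm3 : intmat8_C3 * intmat8_C1 = intmat8_C4 := by decide +kernel

theorem intmat8_Cm4 : intmat8_C4 * intmat8_C1 = intmat8_C5 := by decide +kernel

theorem intmat8_Cm5 : intmat8_C5 * intmat8_C1 = intmat8_C6 := by decide +kernel

theorem intmat8_Cm6 : intmat8_C6 * intmat8_C1 = intmat8_C7 := by decide +kernel

theorem intmat8_Cm7 : intmat8_C7 * intmat8_C1 = intmat8_C8 := by decide +kernel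

theorem intmat8_Cm8 : intmat8_C8 * intmat8_C1 = 1 := by decide +kernel

theorem intmat8_Ct1 : Matrix.trace intmat8_C1 = 2 := by decide +kernel

theorem intmat8_Ct2 : Matrix.trace intmat8_C2 = 2 := by decide +kernel

theorem intmat8_Ct3 : Matrix.trace intmat8_C3 = -1 := by decide +kernel

theorem intmat8_Ct4 : Matrix.trace intmat8_C4 = 2 := by decide +kernel

theorem intmat8_Ct5 : Matrix.trace intmat8_C5 = 2 := by decide +kernel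

theorem intmat8_Ct6 : Matrix.trace intmat8_C6 = -1 := by decide +kernel

theorem intmat8_Ct7 : Matrix.trace intmat8_C7 = 2 := by decide +kernel

theorem intmat8_Ct8 : Matrix.trace intmat8_C8 = 2 := by decide +kernel

theorem intmat8_Cp1 : intmat8_C1 ^ 1 = intmat8_C1 := pow_one _

theorem intmat8_Cp2 : intmat8_C1 ^ 2 = intmat8_C2 := by
  rw [pow_succ, intmat8_Cp1, intmat8_Cm1]

theorem intmat8_Cp3 : intmat8_C1 ^ 3 = intmat8_C3 := by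
  rw [pow_succ, intmat8_Cp2, intmat8_Cm2]

theorem intmat8_Cp4 : intmat8_C1 ^ 4 = intmat8_C4 := by
  rw [pow_succ, intmat8_Cp3, intmat8_Cm3]

theorem intmat8_Cp5 : intmat8_C1 ^ 5 = intmat8_C5 := by
  rw [pow_succ, intmat8_Cp4, intmat8_Cm4]

theorem intmat8_Cp6 : intmat8_C1 ^ 6 = intmat8_C6 := by
  rw [pow_succ, intmat8_Cp5, intmat8_Cm5]

theorem intmat8_Cp7 : intmat8_C1 ^ 7 = intmat8_C7 := by
  rw [pow_succ, intmat8_Cp6, intmat8_Cm6]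

theorem intmat8_Cp8 : intmat8_C1 ^ 8 = intmat8_C8 := by
  rw [pow_succ, intmat8_Cp7, intmat8_Cm7]

theorem intmat8_Cp9 : intmat8_C1 ^ 9 = 1 := by
  rw [pow_succ, intmat8_Cp8, intmat8_Cm8]

def intmat8_D : Matrix (Fin 8) (Fin 8) ℤ :=
  !![0, 0, 0, 0, 0, 0, 0, 1; 0, 0, 0, 0, 0, 0, 0, 0; -2, 0, 0, 0, 0, 0, 0, 5; 5, 0, 0, 0, 0, 0, 0, -10; -7, 0, 0, 0, 0, 0, 0, 11; 5, 0, 0, 0, 0, 0, 0, -5; -2, 0, 0, 0, 0, 0, 0, 1; 0, 0, 0, 0, 0, 0, 0, 1]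

theorem intmat8_BC : intmat8_B1 + 3 • intmat8_D = intmat8_C1 := by decide +kernel

/-
PROOF OF THE TARGET IN WORDS
Explicit matrices (checked by computer):
B = !![1, 0, 0, 0, 0, 0, 0, -3; 0, 0, 0, 0, 0, 0, 0, 1; 6, 1, 0, 0, 0, 0, 0, -16; -15, 0, 1, 0, 0, 0, 0, 30; 21, 0, 0, 1, 0, 0, 0, -32;
 -15, 0, 0, 0, 1, 0, 0, 14; 6, 0, 0, 0, 0, 1, 0, -3; 0, 0, 0, 0, 0, 0, 1, -2]
D = !![0, 0, 0, 0, 0, 0, 0, 1; 0, 0, 0, 0, 0, 0, 0, 0; -2, 0, 0, 0, 0, 0, 0, 5; 5, 0, 0, 0, 0, 0, 0, -10; -7, 0, 0, 0, 0, 0, 0, 11;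
 5, 0, 0, 0, 0, 0, 0, -5; -2, 0, 0, 0, 0, 0, 0, 1; 0, 0, 0, 0, 0, 0, 0, 1]
B + 3 D = !![1, 0, 0, 0, 0, 0, 0, 0; 0, 0, 0, 0, 0, 0, 0, 1; 0, 1, 0, 0, 0, 0, 0, -1; 0, 0, 1, 0, 0, 0, 0, 0; 0, 0, 0, 1, 0, 0, 0, 1;
 0, 0, 0, 0, 1, 0, 0, -1; 0, 0, 0, 0, 0, 1, 0, 0; 0, 0, 0, 0, 0, 0, 1, 1]
Both have order 9. Traces of the powers 1..8 of B are all -1; of B + 3D: 2, 2, -1, 2, 2, -1, 2, 2. Write the powers as explicit literals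
(compute them with a small script), prove M^(k+1) = M^k * M by decide / norm_num step by step (do NOT evaluate M^9 by decide directly: the
evaluation of matrix products as functions blows up), and reduce a general exponent j to j % 9 (pow_mod style: M^j = M^(j % 9)).
-/
-- TARGET
theorem intmat8 : ∃ B D : Matrix (Fin 8) (Fin 8) ℤ, B ^ 9 = 1 ∧ (B + 3 • D) ^ 9 = 1 ∧
    (∀ j : ℕ, ¬ 9 ∣ j → Matrix.trace (B ^ j) = -1) ∧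
    (∀ j : ℕ, ¬ 3 ∣ j → Matrix.trace ((B + 3 • D) ^ j) = 2) ∧
    (∀ j : ℕ, 3 ∣ j → ¬ 9 ∣ j → Matrix.trace ((B + 3 • D) ^ j) = -1) := by
  refine ⟨intmat8_B1, intmat8_D, intmat8_Bp9, ?_, ?_, ?_, ?_⟩
  · rw [intmat8_BC]; exact intmat8_Cp9
  · intro j hj
    rw [pow_eq_pow_mod j intmat8_Bp9]
    have h1 : j % 9 < 9 := Nat.mod_lt _ (by norm_num)
    have h2 : j % 9 ≠ 0 := fun h => hj (Nat.dvd_of_mod_eq_zero h)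
    generalize j % 9 = r at h1 h2
    interval_cases r
    · exact absurd rfl h2
    · rw [intmat8_Bp1, intmat8_Bt1]
    · rw [intmat8_Bp2, intmat8_Bt2]
    · rw [intmat8_Bp3, intmat8_Bt3]
    · rw [intmat8_Bp4, intmat8_Bt4]
    · rw [intmat8_Bp5, intmat8_Bt5]
    · rw [intmat8_Bp6, intmat8_Bt6]
    · rw [intmat8_Bp7, intmat8_Bt7]
    · rw [intmat8_Bp8, intmat8_Bt8]
  · intro j hj
    rw [intmat8_BC, pow_eq_pow_mod j intmat8_Cp9]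
    have h1 : j % 9 < 9 := Nat.mod_lt _ (by norm_num)
    have h2 : ¬ 3 ∣ j % 9 := by omega
    generalize j % 9 = r at h1 h2
    interval_cases r
    · exact absurd (by norm_num) h2
    · rw [intmat8_Cp1, intmat8_Ct1]
    · rw [intmat8_Cp2, intmat8_Ct2]
    · exact absurd (by norm_num) h2
    · rw [intmat8_Cp4, intmat8_Ct4]
    · rw [intmat8_Cp5, intmat8_Ct5]
    · exact absurd (by norm_num) h2
    · rw [intmat8_Cp7, intmat8_Ct7]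
    · rw [intmat8_Cp8, intmat8_Ct8]
  · intro j hj hj9
    rw [intmat8_BC, pow_eq_pow_mod j intmat8_Cp9]
    have h1 : j % 9 < 9 := Nat.mod_lt _ (by norm_num)
    have h2 : 3 ∣ j % 9 := by omega
    have h3 : j % 9 ≠ 0 := fun h => hj9 (Nat.dvd_of_mod_eq_zero h)
    generalize j % 9 = r at h1 h2 h3
    interval_cases r
    · exact absurd rfl h3
    · exact absurd h2 (by norm_num)
    · exact absurd h2 (by norm_num)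
    · rw [intmat8_Cp3, intmat8_Ct3]
    · exact absurd h2 (by norm_num)
    · exact absurd h2 (by norm_num)
    · rw [intmat8_Cp6, intmat8_Ct6]
    · exact absurd h2 (by norm_num)
    · exact absurd h2 (by norm_num)

end Pool.Agent.Helper563_BV
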