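import Mathlib
import Pool.Agent.Helper563_BV.Defs
import Pool.Agent.Helper563_BV.M3a
set_option autoImplicit false
namespace Pool.Agent.Helper563_BV


/-- block diagonal sums -/
def intmatW_R {m n p : Type} [Fintype m] [Fintype n] [Fintype p] [DecidableEq m] [DecidableEq n]
    [DecidableEq p] (e : m ⊕ n ≃ p) (A : Matrix m m ℤ) (B : Matrix n n ℤ) : Matrix p p ℤ :=
  Matrix.reindexAlgEquiv ℤ ℤ e (Matrix.fromBlocks A 0 0 B)

theorem intmatW_R_mul {m n p : Type} [Fintype m] [Fintype n] [Fintype p] [DecidableEq m]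
    [DecidableEq n] [DecidableEq p] (e : m ⊕ n ≃ p) (A A' : Matrix m m ℤ) (B B' : Matrix n n ℤ) :
    intmatW_R e A B * intmatW_R e A' B' = intmatW_R e (A * A') (B * B') := by
  rw [intmatW_R, intmatW_R, ← map_mul, Matrix.fromBlocks_multiply]
  simp [intmatW_R]

theorem intmatW_R_one {m n p : Type} [Fintype m] [Fintype n] [Fintype p] [DecidableEq m]
    [DecidableEq n] [DecidableEq p] (e : m ⊕ n ≃ p) :
    intmatW_R e (1 : Matrix m m ℤ) (1 : Matrix n n ℤ) = 1 := by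
  rw [intmatW_R, Matrix.fromBlocks_one, map_one]

theorem intmatW_R_pow {m n p : Type} [Fintype m] [Fintype n] [Fintype p] [DecidableEq m]
    [DecidableEq n] [DecidableEq p] (e : m ⊕ n ≃ p) (A : Matrix m m ℤ) (B : Matrix n n ℤ) (j : ℕ) :
    intmatW_R e A B ^ j = intmatW_R e (A ^ j) (B ^ j) := by
  induction j with
  | zero => rw [pow_zero, pow_zero, pow_zero, intmatW_R_one]
  | succ j ih => rw [pow_succ, ih, intmatW_R_mul, ← pow_succ, ← pow_succ]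

theorem intmatW_R_trace {m n p : Type} [Fintype m] [Fintype n] [Fintype p] [DecidableEq m]
    [DecidableEq n] [DecidableEq p] (e : m ⊕ n ≃ p) (A : Matrix m m ℤ) (B : Matrix n n ℤ) :
    Matrix.trace (intmatW_R e A B) = Matrix.trace A + Matrix.trace B := by
  have h1 : Matrix.trace (Matrix.fromBlocks A 0 0 B) = Matrix.trace A + Matrix.trace B := by
    simp [Matrix.trace, Fintype.sum_sum_type]
  rw [← h1]
  simp only [Matrix.trace, Matrix.diag_apply]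
  exact (Equiv.sum_comp e.symm (fun i => Matrix.fromBlocks A 0 0 B i i))

theorem intmatW_R_add {m n p : Type} [Fintype m] [Fintype n] [Fintype p] [DecidableEq m]
    [DecidableEq n] [DecidableEq p] (e : m ⊕ n ≃ p) (A A' : Matrix m m ℤ) (B B' : Matrix n n ℤ) :
    intmatW_R e A B + 3 • intmatW_R e A' B' = intmatW_R e (A + 3 • A') (B + 3 • B') := by
  rw [intmatW_R, intmatW_R, ← map_nsmul, ← map_add, intmatW_R, Matrix.fromBlocks_smul,
    Matrix.fromBlocks_add]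
  simp

-- TARGET
theorem intmatW : ∃ W D : Matrix (Fin 9) (Fin 9) ℤ, W ^ 9 = 1 ∧ (W + 3 • D) ^ 9 = 1 ∧
    (∀ j : ℕ, ¬ 9 ∣ j → Matrix.trace (W ^ j) = 0) ∧
    (∀ j : ℕ, ¬ 3 ∣ j → Matrix.trace ((W + 3 • D) ^ j) = 3) ∧
    (∀ j : ℕ, 3 ∣ j → ¬ 9 ∣ j → Matrix.trace ((W + 3 • D) ^ j) = 0) := by
  obtain ⟨B, D, h1, h2, h3, h4, h5⟩ := intmat8
  have e : Fin 8 ⊕ Fin 1 ≃ Fin 9 := finSumFinEquiv
  have ht : ∀ j : ℕ, Matrix.trace ((1 : Matrix (Fin 1) (Fin 1) ℤ) ^ j) = 1 := by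
    intro j
    rw [one_pow, Matrix.trace_one]
    simp
  refine ⟨intmatW_R e B 1, intmatW_R e D 0, ?_, ?_, ?_, ?_, ?_⟩
  · rw [intmatW_R_pow, h1, one_pow, intmatW_R_one]
  · rw [intmatW_R_add, smul_zero, add_zero, intmatW_R_pow, h2, one_pow, intmatW_R_one]
  · intro j hj
    rw [intmatW_R_pow, intmatW_R_trace, h3 j hj, ht]
    norm_num
  · intro j hj
    rw [intmatW_R_add, smul_zero, add_zero, intmatW_R_pow, intmatW_R_trace, h4 j hj, ht]
    norm_num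
  · intro j hj hj'
    rw [intmatW_R_add, smul_zero, add_zero, intmatW_R_pow, intmatW_R_trace, h5 j hj hj', ht]
    norm_num

theorem intmatW_c3 : (!![0, -1; 1, -1] : Matrix (Fin 2) (Fin 2) ℤ) ^ 3 = 1 := by
  decide +kernel

theorem intmatW_c3pow (j : ℕ) : (3 ∣ j → (!![0, -1; 1, -1] : Matrix (Fin 2) (Fin 2) ℤ) ^ j = 1) ∧
    (¬ 3 ∣ j → Matrix.trace ((!![0, -1; 1, -1] : Matrix (Fin 2) (Fin 2) ℤ) ^ j) = -1) := by
  constructor
  · rintro ⟨k, rfl⟩
    rw [pow_mul, intmatW_c3, one_pow]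
  · intro h
    have e : j = 3 * (j / 3) + j % 3 := by omega
    have h2 : j % 3 = 1 ∨ j % 3 = 2 := by omega
    rw [e, pow_add, pow_mul, intmatW_c3, one_pow, one_mul]
    rcases h2 with h2 | h2
    · rw [h2]
      decide +kernel
    · rw [h2]
      decide +kernel

-- TARGET
theorem intmatW' : ∃ W D : Matrix (Fin 18) (Fin 18) ℤ, W ^ 9 = 1 ∧ (W + 3 • D) ^ 9 = 1 ∧
    (∀ j : ℕ, ¬ 9 ∣ j → Matrix.trace (W ^ j) = 0) ∧
    (∀ j : ℕ, ¬ 3 ∣ j → Matrix.trace ((W + 3 • D) ^ j) = -3) ∧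
    (∀ j : ℕ, 3 ∣ j → ¬ 9 ∣ j → Matrix.trace ((W + 3 • D) ^ j) = 0) := by
  obtain ⟨B, D, h1, h2, h3, h4, h5⟩ := intmat8
  have e : Fin 8 ⊕ Fin 8 ≃ Fin 16 := finSumFinEquiv
  have e' : Fin 16 ⊕ Fin 2 ≃ Fin 18 := finSumFinEquiv
  set C3 : Matrix (Fin 2) (Fin 2) ℤ := !![0, -1; 1, -1] with hC3
  have c1 : ∀ j : ℕ, 3 ∣ j → C3 ^ j = 1 := fun j => (intmatW_c3pow j).1
  have c2 : ∀ j : ℕ, ¬ 3 ∣ j → Matrix.trace (C3 ^ j) = -1 := fun j => (intmatW_c3pow j).2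
  have c3 : Matrix.trace (1 : Matrix (Fin 2) (Fin 2) ℤ) = 2 := by
    rw [Matrix.trace_one]
    simp
  have hs : intmatW_R e' (intmatW_R e (B + 3 • D) B) C3 + 3 • intmatW_R e' (intmatW_R e (-D) 0) 0 =
      intmatW_R e' (intmatW_R e B B) C3 := by
    rw [intmatW_R_add, intmatW_R_add, smul_zero, smul_zero, add_zero, add_zero, smul_neg,
      add_neg_cancel_right]
  refine ⟨intmatW_R e' (intmatW_R e (B + 3 • D) B) C3, intmatW_R e' (intmatW_R e (-D) 0) 0,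
    ?_, ?_, ?_, ?_, ?_⟩
  · rw [intmatW_R_pow, intmatW_R_pow, h1, h2, c1 9 (by norm_num), intmatW_R_one, intmatW_R_one]
  · rw [hs, intmatW_R_pow, intmatW_R_pow, h1, c1 9 (by norm_num), intmatW_R_one, intmatW_R_one]
  · intro j hj
    rw [intmatW_R_pow, intmatW_R_pow, intmatW_R_trace, intmatW_R_trace, h3 j hj]
    by_cases h : 3 ∣ j
    · rw [h5 j h hj, c1 j h, c3]
      norm_num
    · rw [h4 j h, c2 j h]
      norm_num
  · intro j hj
    have hj' : ¬ 9 ∣ j := fun h => hj (Dvd.dvd.trans (by norm_num) h)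
    rw [hs, intmatW_R_pow, intmatW_R_pow, intmatW_R_trace, intmatW_R_trace, h3 j hj', c2 j hj]
    norm_num
  · intro j hj hj'
    rw [hs, intmatW_R_pow, intmatW_R_pow, intmatW_R_trace, intmatW_R_trace, h3 j hj', c1 j hj, c3]
    norm_num

end Pool.Agent.Helper563_BV
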