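import Mathlib
import Pool.Agent.Helper563_BV.Defs
set_option autoImplicit false
namespace Pool.Agent.Helper563_BV

theorem interp_step {A : Type*} [Ring A] {n : Type*} [Fintype n] [DecidableEq n]
    (W D : Matrix n n ℤ) (d : A) (hd : d * d = 3 * d) (j : ℕ) :
    ∃ E : Matrix n n ℤ, (W + 3 • D) ^ j = W ^ j + 3 • E ∧
      (Matrix.of fun i k => ((W i k : ℤ) : A) + ((D i k : ℤ) : A) * d) ^ j
        = Matrix.of fun i k => (((W ^ j) i k : ℤ) : A) + ((E i k : ℤ) : A) * d := by
  induction j with
  | zero =>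
      refine ⟨0, by simp, ?_⟩
      ext i k
      simp only [pow_zero, Matrix.of_apply, Matrix.zero_apply, Int.cast_zero, zero_mul, add_zero]
      by_cases h : i = k
      · subst h; simp
      · simp [Matrix.one_apply_ne h]
  | succ j ih =>
      obtain ⟨E, hE, hM⟩ := ih
      refine ⟨W ^ j * D + E * W + 3 • (E * D), ?_, ?_⟩
      · rw [pow_succ, hE, pow_succ]
        simp only [mul_add, add_mul, smul_mul_assoc, mul_smul_comm, smul_add, smul_smul]
        abel
      · rw [pow_succ, hM, pow_succ]
        ext i k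
        simp only [Matrix.mul_apply, Matrix.of_apply, Matrix.add_apply, Matrix.smul_apply]
        push_cast
        rw [← sub_eq_zero]
        have key : ∀ l : n, ((((W ^ j) i l : ℤ) : A) + ((E i l : ℤ) : A) * d) *
            (((W l k : ℤ) : A) + ((D l k : ℤ) : A) * d) =
            (((W ^ j) i l : ℤ) : A) * ((W l k : ℤ) : A) +
            ((((W ^ j) i l : ℤ) : A) * ((D l k : ℤ) : A) + ((E i l : ℤ) : A) * ((W l k : ℤ) : A)
              + 3 * (((E i l : ℤ) : A) * ((D l k : ℤ) : A))) * d := by
          intro l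
          have c1 : d * ((W l k : ℤ) : A) = ((W l k : ℤ) : A) * d :=
            (Int.cast_commute (W l k) d).eq.symm
          have c2 : d * (((D l k : ℤ) : A) * d) = ((D l k : ℤ) : A) * (3 * d) := by
            rw [← mul_assoc, ← (Int.cast_commute (D l k) d).eq, mul_assoc, hd]
          have c3 : ((D l k : ℤ) : A) * (3 : A) = 3 * ((D l k : ℤ) : A) := by
            have := (Int.cast_commute (D l k) (3 : A)).eq
            exact this
          have c4 : ((E i l : ℤ) : A) * (3 : A) = 3 * ((E i l : ℤ) : A) := by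
            have := (Int.cast_commute (E i l) (3 : A)).eq
            exact this
          calc _ = (((W ^ j) i l : ℤ) : A) * ((W l k : ℤ) : A) +
                (((W ^ j) i l : ℤ) : A) * (((D l k : ℤ) : A) * d) +
                ((E i l : ℤ) : A) * (d * ((W l k : ℤ) : A)) +
                ((E i l : ℤ) : A) * (d * (((D l k : ℤ) : A) * d)) := by noncomm_ring
            _ = _ := by
                rw [c1, c2]
                have : ((E i l : ℤ) : A) * (((D l k : ℤ) : A) * (3 * d)) =
                    3 * (((E i l : ℤ) : A) * ((D l k : ℤ) : A)) * d := by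
                  rw [← mul_assoc ((D l k : ℤ) : A), c3, mul_assoc 3, ← mul_assoc ((E i l : ℤ) : A),
                    c4]
                  simp only [mul_assoc]
                rw [this]
                noncomm_ring
        rw [Finset.sum_congr rfl (fun l _ => key l)]
        rw [Finset.sum_add_distrib, ← Finset.sum_mul, Finset.sum_add_distrib,
          Finset.sum_add_distrib, ← Finset.mul_sum]
        simp only [nsmul_eq_mul]
        push_cast
        simp

-- TARGET
theorem interp {A : Type*} [Ring A] {n : Type*} [Fintype n] [DecidableEq n]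
    (W D : Matrix n n ℤ) (d : A) (hd : d * d = 3 * d) (s : ℤ)
    (h0 : W ^ 9 = 1) (h1 : (W + 3 • D) ^ 9 = 1)
    (ht0 : ∀ j : ℕ, ¬ 9 ∣ j → Matrix.trace (W ^ j) = 0)
    (ht1 : ∀ j : ℕ, ¬ 3 ∣ j → Matrix.trace ((W + 3 • D) ^ j) = 3 * s)
    (ht2 : ∀ j : ℕ, 3 ∣ j → ¬ 9 ∣ j → Matrix.trace ((W + 3 • D) ^ j) = 0) :
    (Matrix.of fun i j => ((W i j : ℤ) : A) + ((D i j : ℤ) : A) * d) ^ 9 = 1 ∧
    (∀ j : ℕ, ¬ 3 ∣ j →
      Matrix.trace ((Matrix.of fun i j => ((W i j : ℤ) : A) + ((D i j : ℤ) : A) * d) ^ j)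
        = (s : A) * d) ∧
    (∀ j : ℕ, 3 ∣ j → ¬ 9 ∣ j →
      Matrix.trace ((Matrix.of fun i j => ((W i j : ℤ) : A) + ((D i j : ℤ) : A) * d) ^ j)
        = 0) := by
  have tr : ∀ (j : ℕ) (E : Matrix n n ℤ),
      Matrix.trace (Matrix.of fun i k => (((W ^ j) i k : ℤ) : A) + ((E i k : ℤ) : A) * d)
        = ((Matrix.trace (W ^ j) : ℤ) : A) + ((Matrix.trace E : ℤ) : A) * d := by
    intro j E
    simp only [Matrix.trace, Matrix.diag_apply, Matrix.of_apply, Finset.sum_add_distrib,
      Int.cast_sum, Finset.sum_mul]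
  have trE : ∀ (j : ℕ) (E : Matrix n n ℤ), (W + 3 • D) ^ j = W ^ j + 3 • E →
      Matrix.trace ((W + 3 • D) ^ j) = Matrix.trace (W ^ j) + 3 * Matrix.trace E := by
    intro j E hE
    rw [hE, Matrix.trace_add, Matrix.trace_smul]
    simp
  refine ⟨?_, ?_, ?_⟩
  · obtain ⟨E, hE, hM⟩ := interp_step W D d hd 9
    rw [hM]
    have hE0 : ∀ i k, E i k = 0 := by
      intro i k
      have h := congrFun (congrFun hE i) k
      rw [h1, h0] at h
      rw [Matrix.add_apply, Matrix.smul_apply] at h
      simp only [nsmul_eq_mul] at h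
      push_cast at h
      omega
    ext i k
    rw [h0]
    simp only [Matrix.of_apply, hE0, Int.cast_zero, zero_mul, add_zero]
    by_cases h : i = k
    · subst h; simp
    · simp [Matrix.one_apply_ne h]
  · intro j hj
    obtain ⟨E, hE, hM⟩ := interp_step W D d hd j
    rw [hM, tr]
    have h9 : ¬ 9 ∣ j := fun h => hj (dvd_trans (by norm_num) h)
    have h3 := trE j E hE
    rw [ht1 j hj, ht0 j h9] at h3
    have hs : Matrix.trace E = s := by omega
    rw [ht0 j h9, hs]
    simp
  · intro j hj h9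
    obtain ⟨E, hE, hM⟩ := interp_step W D d hd j
    rw [hM, tr]
    have h3 := trE j E hE
    rw [ht2 j hj h9, ht0 j h9] at h3
    have hs : Matrix.trace E = 0 := by omega
    rw [ht0 j h9, hs]
    simp

end Pool.Agent.Helper563_BV
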