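import Mathlib
import Pool.Agent.Helper563_BV.Defs
set_option autoImplicit false

namespace Pool.Agent.Helper563_BV


section twist_aux
variable {A : Type*} [Ring A] {n : Type} [Fintype n] [DecidableEq n]

lemma twist_elt_comm (M : Matrix n n A) (u : A) (h : ∀ a b, u * M a b = M a b * u) (p : ℕ) :
    ∀ a b, u * (M ^ p) a b = (M ^ p) a b * u := by
  induction p with
  | zero =>
    intro a b
    rw [pow_zero, Matrix.one_apply]
    split_ifs <;> simp
  | succ p ih =>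
    intro a b
    rw [pow_succ, Matrix.mul_apply, Finset.sum_mul, Finset.mul_sum]
    refine Finset.sum_congr rfl fun c _ => ?_
    rw [← mul_assoc, ih, mul_assoc, h, mul_assoc]

lemma twist_comm2 (M N : Matrix n n A)
    (h : ∀ a b a' b', M a b * N a' b' = N a' b' * M a b) (p q : ℕ) :
    ∀ a b a' b', (M ^ p) a b * (N ^ q) a' b' = (N ^ q) a' b' * (M ^ p) a b := by
  intro a b a' b'
  refine twist_elt_comm N _ (fun a' b' => ?_) q a' b'
  exact (twist_elt_comm M _ (fun a b => (h a b a' b').symm) p a b).symm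

lemma twist_conj (X : A) (M N : Matrix n n A) (h : ∀ a b, X * M a b = N a b * X) (p : ℕ) :
    ∀ a b, X * (M ^ p) a b = (N ^ p) a b * X := by
  induction p with
  | zero =>
    intro a b
    rw [pow_zero, pow_zero, Matrix.one_apply]
    split_ifs <;> simp
  | succ p ih =>
    intro a b
    rw [pow_succ, pow_succ, Matrix.mul_apply, Matrix.mul_apply, Finset.sum_mul, Finset.mul_sum]
    refine Finset.sum_congr rfl fun c _ => ?_
    rw [← mul_assoc, ih, mul_assoc, h, mul_assoc]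

/-- the twisted cyclic matrix -/
def twist_c (x : A) (W : ZMod 3 → Matrix n n A) : Matrix (n × n × n) (n × n × n) A :=
  fun α β => if α.2.1 = β.1 ∧ α.2.2 = β.2.1 then W 0 α.1 β.2.2 * x else 0

omit [Fintype n] in
lemma twist_c_apply (x : A) (W : ZMod 3 → Matrix n n A) (a b c a' b' c' : n) :
    twist_c x W (a, b, c) (a', b', c') = if b = a' ∧ c = b' then W 0 a c' * x else 0 := rfl

lemma twist_sq (x : A) (W : ZMod 3 → Matrix n n A)
    (hxW : ∀ i a b, x * W i a b = W (i + 1) a b * x) (a b c a' b' c' : n) :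
    (twist_c x W ^ 2) (a, b, c) (a', b', c')
      = if c = a' then W 0 a b' * W 1 b c' * x ^ 2 else 0 := by
  rw [pow_two, Matrix.mul_apply, Fintype.sum_prod_type]
  simp only [Fintype.sum_prod_type]
  rw [Finset.sum_eq_single b (fun d _ hd => by
      refine Finset.sum_eq_zero fun e _ => Finset.sum_eq_zero fun f _ => ?_
      rw [twist_c_apply, if_neg (fun h => hd h.1.symm), zero_mul])
    (fun h => absurd (Finset.mem_univ _) h)]
  rw [Finset.sum_eq_single c (fun d _ hd => by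
      refine Finset.sum_eq_zero fun f _ => ?_
      rw [twist_c_apply, if_neg (fun h => hd h.2.symm), zero_mul])
    (fun h => absurd (Finset.mem_univ _) h)]
  rw [Finset.sum_eq_single b' (fun d _ hd => by
      rw [twist_c_apply x W b c d, if_neg (fun h => hd h.2), mul_zero])
    (fun h => absurd (Finset.mem_univ _) h)]
  rw [twist_c_apply, twist_c_apply, if_pos ⟨rfl, rfl⟩]
  by_cases h : c = a'
  · rw [if_pos ⟨h, rfl⟩, if_pos h]
    have := hxW 0 b c'
    rw [zero_add] at this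
    rw [pow_two, mul_assoc, ← mul_assoc x, this]
    simp only [mul_assoc]
  · rw [if_neg (fun h' => h h'.1), if_neg h, mul_zero]

lemma twist_cube (x : A) (hx3 : x ^ 3 = 1) (W : ZMod 3 → Matrix n n A)
    (hxW : ∀ i a b, x * W i a b = W (i + 1) a b * x) (a b c a' b' c' : n) :
    (twist_c x W ^ 3) (a, b, c) (a', b', c')
      = W 0 a a' * W 1 b b' * W 2 c c' := by
  rw [pow_succ, Matrix.mul_apply, Fintype.sum_prod_type]
  simp only [Fintype.sum_prod_type]
  rw [Finset.sum_eq_single c (fun d _ hd => by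
      refine Finset.sum_eq_zero fun e _ => Finset.sum_eq_zero fun f _ => ?_
      rw [twist_sq x W hxW, if_neg (fun h => hd h.symm), zero_mul])
    (fun h => absurd (Finset.mem_univ _) h)]
  rw [Finset.sum_eq_single a' (fun d _ hd => by
      refine Finset.sum_eq_zero fun f _ => ?_
      rw [twist_c_apply, if_neg (fun h => hd h.1), mul_zero])
    (fun h => absurd (Finset.mem_univ _) h)]
  rw [Finset.sum_eq_single b' (fun d _ hd => by
      rw [twist_c_apply, if_neg (fun h => hd h.2), mul_zero])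
    (fun h => absurd (Finset.mem_univ _) h)]
  rw [twist_c_apply, twist_sq x W hxW, if_pos rfl, if_pos ⟨rfl, rfl⟩]
  have h1 := hxW 0 c c'
  rw [zero_add] at h1
  have h2 := hxW 1 c c'
  have h3 : (1 + 1 : ZMod 3) = 2 := by decide
  rw [h3] at h2
  calc W 0 a a' * W 1 b b' * x ^ 2 * (W 0 c c' * x)
      = W 0 a a' * W 1 b b' * (x * (x * W 0 c c')) * x := by
        simp only [pow_two, mul_assoc]
    _ = W 0 a a' * W 1 b b' * ((x * W 1 c c') * x) * x := by rw [h1]; simp only [mul_assoc]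
    _ = W 0 a a' * W 1 b b' * W 2 c c' * x ^ 3 := by
        rw [h2, pow_succ, pow_two]; simp only [mul_assoc]
    _ = _ := by rw [hx3, mul_one]

lemma twist_cube_pow (x : A) (hx3 : x ^ 3 = 1) (W : ZMod 3 → Matrix n n A)
    (hcomm : ∀ i j a b a' b', W i a b * W j a' b' = W j a' b' * W i a b)
    (hxW : ∀ i a b, x * W i a b = W (i + 1) a b * x) (q : ℕ) :
    ∀ a b c a' b' c' : n,
    ((twist_c x W ^ 3) ^ q) (a, b, c) (a', b', c')
      = (W 0 ^ q) a a' * (W 1 ^ q) b b' * (W 2 ^ q) c c' := by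
  induction q with
  | zero =>
    intro a b c a' b' c'
    simp only [pow_zero, Matrix.one_apply, Prod.mk.injEq]
    by_cases h1 : a = a' <;> by_cases h2 : b = b' <;> by_cases h3 : c = c' <;> simp [h1, h2, h3]
  | succ q ih =>
    intro a b c a' b' c'
    rw [pow_succ, Matrix.mul_apply, Fintype.sum_prod_type]
    simp only [Fintype.sum_prod_type]
    rw [pow_succ (W 0) q, pow_succ (W 1) q, pow_succ (W 2) q, Matrix.mul_apply,
      Matrix.mul_apply, Matrix.mul_apply]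
    rw [Finset.sum_mul_sum, Finset.sum_mul]
    refine Finset.sum_congr rfl fun d _ => ?_
    rw [Finset.sum_mul]
    refine Finset.sum_congr rfl fun e _ => ?_
    rw [Finset.mul_sum]
    refine Finset.sum_congr rfl fun f _ => ?_
    rw [ih, twist_cube x hx3 W hxW]
    have e1 : (W 2 ^ q) c f * W 0 d a' = W 0 d a' * (W 2 ^ q) c f := by
      have := twist_comm2 (W 2) (W 0) (hcomm 2 0) q 1 c f d a'
      rwa [pow_one] at this
    have e2 : (W 1 ^ q) b e * W 0 d a' = W 0 d a' * (W 1 ^ q) b e := by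
      have := twist_comm2 (W 1) (W 0) (hcomm 1 0) q 1 b e d a'
      rwa [pow_one] at this
    have e3 : (W 2 ^ q) c f * W 1 e b' = W 1 e b' * (W 2 ^ q) c f := by
      have := twist_comm2 (W 2) (W 1) (hcomm 2 1) q 1 c f e b'
      rwa [pow_one] at this
    calc (W 0 ^ q) a d * (W 1 ^ q) b e * (W 2 ^ q) c f * (W 0 d a' * W 1 e b' * W 2 f c')
        = (W 0 ^ q) a d * ((W 1 ^ q) b e * (((W 2 ^ q) c f * W 0 d a') * (W 1 e b' * W 2 f c'))) := by
          simp only [mul_assoc]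
      _ = (W 0 ^ q) a d * (((W 1 ^ q) b e * W 0 d a') * (((W 2 ^ q) c f * W 1 e b') * W 2 f c')) := by
          rw [e1]; simp only [mul_assoc]
      _ = _ := by rw [e2, e3]; simp only [mul_assoc]

lemma twist_move (τ : A →+ ℚ) (hτ : IsTr τ) (F X m m' r : A) (hX : X * m = m' * X)
    (hF : F * m = m * F) (hr' : r * m' = m' * r) (_hr : r * m = m * r) :
    τ (F * (m' * r * X)) = τ (F * (m * r * X)) := by
  calc τ (F * (m' * r * X)) = τ (F * r * X * m) := by
        rw [← hr', mul_assoc r, ← hX]; simp only [mul_assoc]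
    _ = τ (m * (F * r * X)) := hτ _ _
    _ = τ (F * (m * r * X)) := by
        rw [← mul_assoc, ← mul_assoc, ← hF]; simp only [mul_assoc]

theorem twist_one (x : A)
    (hx3 : x ^ 3 = 1) (W : ZMod 3 → Matrix n n A)
    (hcomm : ∀ i j a b a' b', W i a b * W j a' b' = W j a' b' * W i a b)
    (hxW : ∀ i a b, x * W i a b = W (i + 1) a b * x)
    (τ : A →+ ℚ) (hτ : IsTr τ) (F : A) (hF : ∀ i a b, F * W i a b = W i a b * F) (q : ℕ) :
    τ (F * Matrix.trace (twist_c x W ^ (3 * q + 1)))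
      = τ (F * (Matrix.trace (W 0 ^ (3 * q + 1)) * x)) := by
  have hC := fun (i j : ZMod 3) (p q : ℕ) (a b a' b' : n) =>
    twist_comm2 (W i) (W j) (hcomm i j) p q a b a' b'
  have hFp := fun (i : ZMod 3) (p : ℕ) (a b : n) => twist_elt_comm (W i) F (hF i) p a b
  have hX := fun (i : ZMod 3) (p : ℕ) (a b : n) => twist_conj x (W i) (W (i + 1)) (hxW i) p a b
  have L : Matrix.trace (twist_c x W ^ (3 * q + 1))
      = ∑ a, ∑ b, ∑ c, (W 0 ^ (q + 1)) a c * (W 2 ^ q) c b * (W 1 ^ q) b a * x := by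
    rw [pow_succ, pow_mul, Matrix.trace, Fintype.sum_prod_type]
    refine Finset.sum_congr rfl fun a _ => ?_
    rw [Fintype.sum_prod_type]
    refine Finset.sum_congr rfl fun b _ => ?_
    refine Finset.sum_congr rfl fun c _ => ?_
    rw [Matrix.diag_apply, Matrix.mul_apply, Fintype.sum_prod_type]
    rw [pow_succ (W 0) q, Matrix.mul_apply, Finset.sum_mul, Finset.sum_mul, Finset.sum_mul]
    refine Finset.sum_congr rfl fun a1 _ => ?_
    rw [Fintype.sum_prod_type]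
    rw [Finset.sum_eq_single a (fun d _ hd => by
        refine Finset.sum_eq_zero fun f _ => ?_
        rw [twist_c_apply, if_neg (fun h => hd h.1), mul_zero])
      (fun h => absurd (Finset.mem_univ _) h)]
    rw [Finset.sum_eq_single b (fun d _ hd => by
        rw [twist_c_apply, if_neg (fun h => hd h.2), mul_zero])
      (fun h => absurd (Finset.mem_univ _) h)]
    rw [twist_c_apply, if_pos ⟨rfl, rfl⟩, twist_cube_pow x hx3 W hcomm hxW]
    have e1 := hC 2 0 q 1 c b a1 c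
    have e2 := hC 1 0 q 1 b a a1 c
    have e3 := hC 1 2 q q b a c b
    rw [pow_one] at e1 e2
    calc (W 0 ^ q) a a1 * (W 1 ^ q) b a * (W 2 ^ q) c b * (W 0 a1 c * x)
        = (W 0 ^ q) a a1 * ((W 1 ^ q) b a * (((W 2 ^ q) c b * W 0 a1 c) * x)) := by
          simp only [mul_assoc]
      _ = (W 0 ^ q) a a1 * (((W 1 ^ q) b a * W 0 a1 c) * ((W 2 ^ q) c b * x)) := by
          rw [e1]; simp only [mul_assoc]
      _ = (W 0 ^ q) a a1 * (W 0 a1 c * (((W 1 ^ q) b a * (W 2 ^ q) c b) * x)) := by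
          rw [e2]; simp only [mul_assoc]
      _ = _ := by rw [e3]; simp only [mul_assoc]
  have R : Matrix.trace (W 0 ^ (3 * q + 1)) * x
      = ∑ a, ∑ b, ∑ c, (W 0 ^ (q + 1)) a c * (W 0 ^ q) c b * (W 0 ^ q) b a * x := by
    have : 3 * q + 1 = (q + 1) + q + q := by ring
    rw [this, pow_add, pow_add, Matrix.trace, Finset.sum_mul]
    refine Finset.sum_congr rfl fun a _ => ?_
    rw [Matrix.diag_apply, Matrix.mul_apply, Finset.sum_mul]
    refine Finset.sum_congr rfl fun b _ => ?_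
    rw [Matrix.mul_apply, Finset.sum_mul, Finset.sum_mul]
  rw [L, R]
  simp only [Finset.mul_sum, map_sum]
  refine Finset.sum_congr rfl fun a _ => ?_
  refine Finset.sum_congr rfl fun b _ => ?_
  refine Finset.sum_congr rfl fun c _ => ?_
  -- move
  have h12 : (1 + 1 : ZMod 3) = 2 := by decide
  have h01 : (0 + 1 : ZMod 3) = 1 := by decide
  have hx1 := hX 0 q
  have hx2 := hX 1 q
  rw [h12] at hx2
  rw [h01] at hx1
  -- general commutation of products
  have s1 : τ (F * ((W 0 ^ (q + 1)) a c * (W 2 ^ q) c b * (W 1 ^ q) b a * x))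
      = τ (F * ((W 0 ^ (q + 1)) a c * (W 1 ^ q) c b * (W 1 ^ q) b a * x)) := by
    have := twist_move τ hτ F x ((W 1 ^ q) c b) ((W 2 ^ q) c b)
      ((W 0 ^ (q + 1)) a c * (W 1 ^ q) b a) (hx2 c b) (hFp 1 q c b)
      (by rw [mul_assoc, hC 1 2 q q b a c b, ← mul_assoc, hC 0 2 (q + 1) q a c c b, mul_assoc])
      (by rw [mul_assoc, hC 1 1 q q b a c b, ← mul_assoc, hC 0 1 (q + 1) q a c c b, mul_assoc])
    rw [hC 0 2 (q + 1) q a c c b, hC 0 1 (q + 1) q a c c b]
    simpa only [mul_assoc] using this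
  have s2 : τ (F * ((W 0 ^ (q + 1)) a c * (W 1 ^ q) c b * (W 1 ^ q) b a * x))
      = τ (F * ((W 0 ^ (q + 1)) a c * (W 0 ^ q) c b * (W 1 ^ q) b a * x)) := by
    have := twist_move τ hτ F x ((W 0 ^ q) c b) ((W 1 ^ q) c b)
      ((W 0 ^ (q + 1)) a c * (W 1 ^ q) b a) (hx1 c b) (hFp 0 q c b)
      (by rw [mul_assoc, hC 1 1 q q b a c b, ← mul_assoc, hC 0 1 (q + 1) q a c c b, mul_assoc])
      (by rw [mul_assoc, hC 1 0 q q b a c b, ← mul_assoc, hC 0 0 (q + 1) q a c c b, mul_assoc])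
    rw [hC 0 1 (q + 1) q a c c b, hC 0 0 (q + 1) q a c c b]
    simpa only [mul_assoc] using this
  have s3 : τ (F * ((W 0 ^ (q + 1)) a c * (W 0 ^ q) c b * (W 1 ^ q) b a * x))
      = τ (F * ((W 0 ^ (q + 1)) a c * (W 0 ^ q) c b * (W 0 ^ q) b a * x)) := by
    have := twist_move τ hτ F x ((W 0 ^ q) b a) ((W 1 ^ q) b a)
      ((W 0 ^ (q + 1)) a c * (W 0 ^ q) c b) (hx1 b a) (hFp 0 q b a)
      (by rw [mul_assoc, hC 0 1 q q c b b a, ← mul_assoc, hC 0 1 (q + 1) q a c b a, mul_assoc])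
      (by rw [mul_assoc, hC 0 0 q q c b b a, ← mul_assoc, hC 0 0 (q + 1) q a c b a, mul_assoc])
    have t1 : (W 0 ^ (q + 1)) a c * (W 0 ^ q) c b * (W 1 ^ q) b a
        = (W 1 ^ q) b a * ((W 0 ^ (q + 1)) a c * (W 0 ^ q) c b) := by
      rw [mul_assoc, hC 0 1 q q c b b a, ← mul_assoc, hC 0 1 (q + 1) q a c b a, mul_assoc]
    have t2 : (W 0 ^ (q + 1)) a c * (W 0 ^ q) c b * (W 0 ^ q) b a
        = (W 0 ^ q) b a * ((W 0 ^ (q + 1)) a c * (W 0 ^ q) c b) := by
      rw [mul_assoc, hC 0 0 q q c b b a, ← mul_assoc, hC 0 0 (q + 1) q a c b a, mul_assoc]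
    rw [t1, t2]
    exact this
  rw [s1, s2, s3]

theorem twist_two (x : A)
    (hx3 : x ^ 3 = 1) (W : ZMod 3 → Matrix n n A)
    (hcomm : ∀ i j a b a' b', W i a b * W j a' b' = W j a' b' * W i a b)
    (hxW : ∀ i a b, x * W i a b = W (i + 1) a b * x)
    (τ : A →+ ℚ) (hτ : IsTr τ) (F : A) (hF : ∀ i a b, F * W i a b = W i a b * F) (q : ℕ) :
    τ (F * Matrix.trace (twist_c x W ^ (3 * q + 2)))
      = τ (F * (Matrix.trace (W 0 ^ (3 * q + 2)) * x ^ 2)) := by
  have hC := fun (i j : ZMod 3) (p q : ℕ) (a b a' b' : n) =>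
    twist_comm2 (W i) (W j) (hcomm i j) p q a b a' b'
  have hFp := fun (i : ZMod 3) (p : ℕ) (a b : n) => twist_elt_comm (W i) F (hF i) p a b
  have hX0 : ∀ (i : ZMod 3) (a b : n), x ^ 2 * W i a b = W (i + 2) a b * x ^ 2 := by
    intro i a b
    have h12 : (i + 1 + 1 : ZMod 3) = i + 2 := by ring
    rw [pow_two, mul_assoc, hxW, ← mul_assoc, hxW, h12, mul_assoc]
  have hX := fun (i : ZMod 3) (p : ℕ) (a b : n) => twist_conj (x ^ 2) (W i) (W (i + 2)) (hX0 i) p a b
  have L : Matrix.trace (twist_c x W ^ (3 * q + 2))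
      = ∑ a, ∑ b, ∑ c, (W 0 ^ (q + 1)) a b * (W 1 ^ (q + 1)) b c * (W 2 ^ q) c a * x ^ 2 := by
    rw [pow_add, pow_mul, Matrix.trace, Fintype.sum_prod_type]
    refine Finset.sum_congr rfl fun a _ => ?_
    rw [Fintype.sum_prod_type]
    refine Finset.sum_congr rfl fun b _ => ?_
    refine Finset.sum_congr rfl fun c _ => ?_
    rw [Matrix.diag_apply, Matrix.mul_apply, Fintype.sum_prod_type]
    rw [pow_succ (W 0) q, pow_succ (W 1) q, Matrix.mul_apply, Matrix.mul_apply,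
      Finset.sum_mul_sum, Finset.sum_mul, Finset.sum_mul]
    refine Finset.sum_congr rfl fun a1 _ => ?_
    rw [Fintype.sum_prod_type, Finset.sum_mul, Finset.sum_mul]
    refine Finset.sum_congr rfl fun b1 _ => ?_
    rw [Finset.sum_eq_single a (fun d _ hd => by
        rw [twist_sq x W hxW, if_neg (fun h => hd h), mul_zero])
      (fun h => absurd (Finset.mem_univ _) h)]
    rw [twist_sq x W hxW, if_pos rfl, twist_cube_pow x hx3 W hcomm hxW]
    have e1 := hC 2 0 q 1 c a a1 b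
    have e2 := hC 1 0 q 1 b b1 a1 b
    have e3 := hC 2 1 q 1 c a b1 c
    rw [pow_one] at e1 e2 e3
    calc (W 0 ^ q) a a1 * (W 1 ^ q) b b1 * (W 2 ^ q) c a * (W 0 a1 b * W 1 b1 c * x ^ 2)
        = (W 0 ^ q) a a1 * ((W 1 ^ q) b b1 * (((W 2 ^ q) c a * W 0 a1 b) * (W 1 b1 c * x ^ 2))) := by
          simp only [mul_assoc]
      _ = (W 0 ^ q) a a1 * (((W 1 ^ q) b b1 * W 0 a1 b) * (((W 2 ^ q) c a * W 1 b1 c) * x ^ 2)) := by
          rw [e1]; simp only [mul_assoc]
      _ = _ := by rw [e2, e3]; simp only [mul_assoc]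
  have R : Matrix.trace (W 0 ^ (3 * q + 2)) * x ^ 2
      = ∑ a, ∑ b, ∑ c, (W 0 ^ (q + 1)) a b * (W 0 ^ (q + 1)) b c * (W 0 ^ q) c a * x ^ 2 := by
    have : 3 * q + 2 = (q + 1) + ((q + 1) + q) := by ring
    rw [this, pow_add (W 0) (q + 1) (q + 1 + q), pow_add (W 0) (q + 1) q, Matrix.trace,
      Finset.sum_mul]
    refine Finset.sum_congr rfl fun a _ => ?_
    rw [Matrix.diag_apply, Matrix.mul_apply, Finset.sum_mul]
    refine Finset.sum_congr rfl fun b _ => ?_
    rw [Matrix.mul_apply, Finset.mul_sum, Finset.sum_mul]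
    refine Finset.sum_congr rfl fun c _ => ?_
    simp only [mul_assoc]
  rw [L, R]
  simp only [Finset.mul_sum, map_sum]
  refine Finset.sum_congr rfl fun a _ => ?_
  refine Finset.sum_congr rfl fun b _ => ?_
  refine Finset.sum_congr rfl fun c _ => ?_
  -- move
  have h02 : (0 + 2 : ZMod 3) = 2 := by decide
  have h21 : (2 + 2 : ZMod 3) = 1 := by decide
  have hx0 := fun p => hX 0 p
  have hx2 := fun p => hX 2 p
  rw [h02] at hx0
  rw [h21] at hx2
  -- W2^q -> W0^q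
  have s1 : τ (F * ((W 0 ^ (q + 1)) a b * (W 1 ^ (q + 1)) b c * (W 2 ^ q) c a * x ^ 2))
      = τ (F * ((W 0 ^ (q + 1)) a b * (W 1 ^ (q + 1)) b c * (W 0 ^ q) c a * x ^ 2)) := by
    have t : ∀ i : ZMod 3, (W 0 ^ (q + 1)) a b * (W 1 ^ (q + 1)) b c * (W i ^ q) c a
        = (W i ^ q) c a * ((W 0 ^ (q + 1)) a b * (W 1 ^ (q + 1)) b c) := by
      intro i
      rw [mul_assoc, hC 1 i (q + 1) q b c c a, ← mul_assoc, hC 0 i (q + 1) q a b c a, mul_assoc]
    have := twist_move τ hτ F (x ^ 2) ((W 0 ^ q) c a) ((W 2 ^ q) c a)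
      ((W 0 ^ (q + 1)) a b * (W 1 ^ (q + 1)) b c) (hx0 q c a) (hFp 0 q c a) (t 2) (t 0)
    rw [t 2, t 0]
    exact this
  have s2 : τ (F * ((W 0 ^ (q + 1)) a b * (W 1 ^ (q + 1)) b c * (W 0 ^ q) c a * x ^ 2))
      = τ (F * ((W 0 ^ (q + 1)) a b * (W 2 ^ (q + 1)) b c * (W 0 ^ q) c a * x ^ 2)) := by
    have t : ∀ i : ZMod 3, (W 0 ^ (q + 1)) a b * (W i ^ (q + 1)) b c * (W 0 ^ q) c a
        = (W i ^ (q + 1)) b c * ((W 0 ^ (q + 1)) a b * (W 0 ^ q) c a) := by
      intro i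
      rw [hC 0 i (q + 1) (q + 1) a b b c, mul_assoc]
    have t' : ∀ i : ZMod 3, (W 0 ^ (q + 1)) a b * (W 0 ^ q) c a * (W i ^ (q + 1)) b c
        = (W i ^ (q + 1)) b c * ((W 0 ^ (q + 1)) a b * (W 0 ^ q) c a) := by
      intro i
      rw [mul_assoc, hC 0 i q (q + 1) c a b c, ← mul_assoc, hC 0 i (q + 1) (q + 1) a b b c,
        mul_assoc]
    have := twist_move τ hτ F (x ^ 2) ((W 2 ^ (q + 1)) b c) ((W 1 ^ (q + 1)) b c)
      ((W 0 ^ (q + 1)) a b * (W 0 ^ q) c a) (hx2 (q + 1) b c) (hFp 2 (q + 1) b c) (t' 1) (t' 2)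
    rw [t 1, t 2]
    exact this
  have s3 : τ (F * ((W 0 ^ (q + 1)) a b * (W 2 ^ (q + 1)) b c * (W 0 ^ q) c a * x ^ 2))
      = τ (F * ((W 0 ^ (q + 1)) a b * (W 0 ^ (q + 1)) b c * (W 0 ^ q) c a * x ^ 2)) := by
    have t : ∀ i : ZMod 3, (W 0 ^ (q + 1)) a b * (W i ^ (q + 1)) b c * (W 0 ^ q) c a
        = (W i ^ (q + 1)) b c * ((W 0 ^ (q + 1)) a b * (W 0 ^ q) c a) := by
      intro i
      rw [hC 0 i (q + 1) (q + 1) a b b c, mul_assoc]
    have t' : ∀ i : ZMod 3, (W 0 ^ (q + 1)) a b * (W 0 ^ q) c a * (W i ^ (q + 1)) b c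
        = (W i ^ (q + 1)) b c * ((W 0 ^ (q + 1)) a b * (W 0 ^ q) c a) := by
      intro i
      rw [mul_assoc, hC 0 i q (q + 1) c a b c, ← mul_assoc, hC 0 i (q + 1) (q + 1) a b b c,
        mul_assoc]
    have := twist_move τ hτ F (x ^ 2) ((W 0 ^ (q + 1)) b c) ((W 2 ^ (q + 1)) b c)
      ((W 0 ^ (q + 1)) a b * (W 0 ^ q) c a) (hx0 (q + 1) b c) (hFp 0 (q + 1) b c) (t' 2) (t' 0)
    rw [t 2, t 0]
    exact this
  rw [s1, s2, s3]

end twist_aux

-- TARGET
theorem twist {A : Type*} [Ring A] {n : Type} [Fintype n] [DecidableEq n] (x : A)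
    (hx3 : x ^ 3 = 1) (W : ZMod 3 → Matrix n n A)
    (hcomm : ∀ i j a b a' b', W i a b * W j a' b' = W j a' b' * W i a b)
    (hxW : ∀ i a b, x * W i a b = W (i + 1) a b * x) (h9 : ∀ i, W i ^ 9 = 1) :
    ∃ c : Matrix (n × n × n) (n × n × n) A, c ^ 27 = 1 ∧
      (∀ S : Subring A, x ∈ S → (∀ i a b, W i a b ∈ S) → ∀ α β, c α β ∈ S) ∧
      (∀ j : ℕ, Matrix.trace (c ^ (3 * j))
        = Matrix.trace (W 0 ^ j) * Matrix.trace (W 1 ^ j) * Matrix.trace (W 2 ^ j)) ∧
      (∀ τ : A →+ ℚ, IsTr τ → ∀ F : A, (∀ i a b, F * W i a b = W i a b * F) → F * x = x * F →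
        ∀ j : ℕ, ¬ 3 ∣ j → τ (F * Matrix.trace (c ^ j)) = τ (F * Matrix.trace (W 0 ^ j) * x ^ j))
      := by
  refine ⟨twist_c x W, ?_, ?_, ?_, ?_⟩
  · ext ⟨a, b, c⟩ ⟨a', b', c'⟩
    have h : (27 : ℕ) = 3 * 9 := rfl
    rw [h, pow_mul, twist_cube_pow x hx3 W hcomm hxW, h9, h9, h9]
    simp only [Matrix.one_apply, Prod.mk.injEq]
    by_cases h1 : a = a' <;> by_cases h2 : b = b' <;> by_cases h3 : c = c' <;> simp [h1, h2, h3]
  · intro S hx hW α β
    unfold twist_c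
    split_ifs
    · exact S.mul_mem (hW _ _ _) hx
    · exact S.zero_mem
  · intro j
    rw [pow_mul, Matrix.trace, Fintype.sum_prod_type]
    simp only [Fintype.sum_prod_type, Matrix.diag_apply]
    simp only [twist_cube_pow x hx3 W hcomm hxW]
    rw [Matrix.trace, Matrix.trace, Matrix.trace]
    rw [Finset.sum_mul_sum, Finset.sum_mul]
    refine Finset.sum_congr rfl fun d _ => ?_
    rw [Finset.sum_mul]
    refine Finset.sum_congr rfl fun e _ => ?_
    rw [Finset.mul_sum]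
    rfl
  · intro τ hτ F hF _ j hj
    obtain ⟨q, hq | hq⟩ : ∃ q, j = 3 * q + 1 ∨ j = 3 * q + 2 := ⟨j / 3, by omega⟩
    · subst hq
      have hxx : x ^ (3 * q + 1) = x := by rw [pow_succ, pow_mul, hx3, one_pow, one_mul]
      rw [hxx, mul_assoc]
      exact twist_one x hx3 W hcomm hxW τ hτ F hF q
    · subst hq
      have hxx : x ^ (3 * q + 2) = x ^ 2 := by rw [pow_add, pow_mul, hx3, one_pow, one_mul]
      rw [hxx, mul_assoc]
      exact twist_two x hx3 W hcomm hxW τ hτ F hF q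

end Pool.Agent.Helper563_BV
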