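import Mathlib
import Pool.Agent.Helper563_BV.Defs
set_option autoImplicit false
namespace Pool.Agent.Helper563_BV

/-
PROOF OF THE TARGET IN WORDS
Let b (a,b0,c0)(a',b0',c0') = W 0 a a' * W 1 b0 b0' * W 2 c0 c0' on n x n x n. All entries commute, so (b^j) = the same formula with W i^j (induction),
b^9 = 1, trace(b^j) = trace(W 0^j) trace(W 1^j) trace(W 2^j). Let c on Fin 3 x (n x n x n) be the block matrix [[0,0,b],[1,0,0],[0,1,0]]:
c (0,.) (2,.) = b, c (1,.)(0,.) = 1, c (2,.)(1,.) = 1, all other blocks 0. c^3 = diag(b,b,b) (block diagonal), c^27 = diag(b^9, ..) = 1,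
trace(c^(3j)) = 3 trace(b^j); c^(3j+1) and c^(3j+2) have zero diagonal blocks, so trace 0.
-/
open Matrix in
theorem kron3_block {M : Type*} [Ring M] (b : M) :
    (!![0, 0, b; 1, 0, 0; 0, 1, 0] : Matrix (Fin 3) (Fin 3) M) ^ 3 = Matrix.diagonal fun _ => b := by
  ext i j
  fin_cases i <;> fin_cases j <;>
    simp [pow_succ, Matrix.mul_apply, Fin.sum_univ_three, Matrix.diagonal]

open Matrix in
theorem kron3_block_pow {M : Type*} [Ring M] (b : M) (j : ℕ) :
    (!![0, 0, b; 1, 0, 0; 0, 1, 0] : Matrix (Fin 3) (Fin 3) M) ^ (3 * j) =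
      Matrix.diagonal fun _ => b ^ j := by
  rw [pow_mul, kron3_block, Matrix.diagonal_pow]
  rfl

open Matrix in
theorem kron3_block_diag {M : Type*} [Ring M] (b : M) (j : ℕ) (hj : ¬ 3 ∣ j) (i : Fin 3) :
    ((!![0, 0, b; 1, 0, 0; 0, 1, 0] : Matrix (Fin 3) (Fin 3) M) ^ j) i i = 0 := by
  obtain ⟨q, hq⟩ : ∃ q, j = 3 * q + 1 ∨ j = 3 * q + 2 := ⟨j / 3, by omega⟩
  rcases hq with hq | hq
  · rw [hq, pow_add, kron3_block_pow, pow_one, Matrix.diagonal_mul]
    fin_cases i <;> simp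
  · rw [hq, pow_add, kron3_block_pow, Matrix.diagonal_mul]
    fin_cases i <;> simp [pow_succ, Matrix.mul_apply, Fin.sum_univ_three]

open Matrix in
theorem kron3_pow {R : Type*} [CommRing R] {m k : Type*} [Fintype m] [DecidableEq m]
    [Fintype k] [DecidableEq k] (X : Matrix m m R) (Y : Matrix k k R) (j : ℕ) :
    (Matrix.kroneckerMap (· * ·) X Y) ^ j = Matrix.kroneckerMap (· * ·) (X ^ j) (Y ^ j) := by
  induction j with
  | zero =>
    rw [pow_zero, pow_zero, pow_zero]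
    exact (Matrix.one_kronecker_one).symm
  | succ j ih =>
    rw [pow_succ, ih, pow_succ, pow_succ]
    exact (Matrix.mul_kronecker_mul _ _ _ _).symm

open Matrix in
theorem kron3_comm {R : Type*} [CommRing R] {n : Type} [Fintype n] [DecidableEq n]
    (W : ZMod 3 → Matrix n n R) (h9 : ∀ i, W i ^ 9 = 1) :
    ∃ c : Matrix (Fin 3 × n × n × n) (Fin 3 × n × n × n) R, c ^ 27 = 1 ∧
      (∀ S : Subring R, (∀ i a b, W i a b ∈ S) → ∀ α β, c α β ∈ S) ∧
      (∀ j : ℕ, Matrix.trace (c ^ (3 * j))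
        = 3 * (Matrix.trace (W 0 ^ j) * Matrix.trace (W 1 ^ j) * Matrix.trace (W 2 ^ j))) ∧
      (∀ j : ℕ, ¬ 3 ∣ j → Matrix.trace (c ^ j) = 0) := by
  obtain ⟨b, hb⟩ : ∃ b : Matrix (n × n × n) (n × n × n) R, b = Matrix.kroneckerMap (· * ·) (W 0)
      (Matrix.kroneckerMap (· * ·) (W 1) (W 2)) := ⟨_, rfl⟩
  have bpow : ∀ j, b ^ j = Matrix.kroneckerMap (· * ·) (W 0 ^ j)
      (Matrix.kroneckerMap (· * ·) (W 1 ^ j) (W 2 ^ j)) := by
    intro j
    rw [hb, kron3_pow, kron3_pow]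
  have btr : ∀ j, Matrix.trace (b ^ j) =
      Matrix.trace (W 0 ^ j) * Matrix.trace (W 1 ^ j) * Matrix.trace (W 2 ^ j) := by
    intro j
    rw [bpow]
    have h1 := Matrix.trace_kronecker (W 0 ^ j) (Matrix.kroneckerMap (· * ·) (W 1 ^ j) (W 2 ^ j))
    have h2 := Matrix.trace_kronecker (W 1 ^ j) (W 2 ^ j)
    rw [h1, h2, mul_assoc]
  have b9 : b ^ 9 = 1 := by
    rw [bpow, h9, h9, h9]
    have h1 : Matrix.kroneckerMap (· * ·) (1 : Matrix n n R) (1 : Matrix n n R) = 1 :=
      Matrix.one_kronecker_one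
    rw [h1]
    exact Matrix.one_kronecker_one
  obtain ⟨C, hC⟩ : ∃ C : Matrix (Fin 3) (Fin 3) (Matrix (n × n × n) (n × n × n) R),
      C = !![0, 0, b; 1, 0, 0; 0, 1, 0] := ⟨_, rfl⟩
  have htr : ∀ D : Matrix (Fin 3) (Fin 3) (Matrix (n × n × n) (n × n × n) R),
      Matrix.trace (Matrix.compRingEquiv (Fin 3) (n × n × n) R D) = ∑ i, Matrix.trace (D i i) := by
    intro D
    rw [Matrix.trace, Fintype.sum_prod_type]
    rfl
  refine ⟨Matrix.compRingEquiv (Fin 3) (n × n × n) R C, ?_, ?_, ?_, ?_⟩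
  · rw [← map_pow, hC]
    have h := kron3_block_pow b 9
    rw [show 3 * 9 = 27 from rfl, b9] at h
    rw [h, Matrix.diagonal_one, map_one]
  · intro S hS
    rintro ⟨i, x⟩ ⟨j, y⟩
    have h1 : Matrix.compRingEquiv (Fin 3) (n × n × n) R C (i, x) (j, y) = C i j x y := rfl
    rw [h1]
    have hbS : b x y ∈ S := by
      rw [hb]
      exact S.mul_mem (hS _ _ _) (S.mul_mem (hS _ _ _) (hS _ _ _))
    have h1S : (1 : Matrix (n × n × n) (n × n × n) R) x y ∈ S := by
      rw [Matrix.one_apply]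
      split_ifs
      · exact S.one_mem
      · exact S.zero_mem
    have h0S : (0 : Matrix (n × n × n) (n × n × n) R) x y ∈ S := S.zero_mem
    rw [hC]
    fin_cases i <;> fin_cases j
    · exact h0S
    · exact h0S
    · exact hbS
    · exact h1S
    · exact h0S
    · exact h0S
    · exact h0S
    · exact h1S
    · exact h0S
  · intro j
    rw [← map_pow, htr, hC, kron3_block_pow]
    simp only [Matrix.diagonal_apply_eq, Finset.sum_const, Finset.card_univ, Fintype.card_fin,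
      btr, nsmul_eq_mul]
    norm_num
  · intro j hj
    rw [← map_pow, htr, hC]
    simp only [kron3_block_diag b j hj, Matrix.trace_zero, Finset.sum_const_zero]

-- TARGET
theorem kron3 {A : Type*} [Ring A] {n : Type} [Fintype n] [DecidableEq n]
    (W : ZMod 3 → Matrix n n A)
    (hcomm : ∀ i j a b a' b', W i a b * W j a' b' = W j a' b' * W i a b)
    (h9 : ∀ i, W i ^ 9 = 1) :
    ∃ c : Matrix (Fin 3 × n × n × n) (Fin 3 × n × n × n) A, c ^ 27 = 1 ∧
      (∀ S : Subring A, (∀ i a b, W i a b ∈ S) → ∀ α β, c α β ∈ S) ∧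
      (∀ j : ℕ, Matrix.trace (c ^ (3 * j))
        = 3 * (Matrix.trace (W 0 ^ j) * Matrix.trace (W 1 ^ j) * Matrix.trace (W 2 ^ j))) ∧
      (∀ j : ℕ, ¬ 3 ∣ j → Matrix.trace (c ^ j) = 0) := by
  classical
  -- the commutative subring generated by the entries
  obtain ⟨T, hT⟩ : ∃ T : Set A, T = {z | ∃ i a b, W i a b = z} := ⟨_, rfl⟩
  have hTc : ∀ x ∈ T, ∀ y ∈ T, x * y = y * x := by
    intro x hx y hy
    rw [hT] at hx hy
    obtain ⟨i, a, b, rfl⟩ := hx
    obtain ⟨j, a', b', rfl⟩ := hy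
    exact hcomm i j a b a' b'
  letI : CommRing (Subring.closure T) := Subring.closureCommRingOfComm hTc
  have hmem : ∀ i a b, W i a b ∈ Subring.closure T := by
    intro i a b
    apply Subring.subset_closure
    rw [hT]
    exact ⟨i, a, b, rfl⟩
  obtain ⟨f, hf⟩ : ∃ f : Subring.closure T →+* A, f = (Subring.closure T).subtype := ⟨_, rfl⟩
  obtain ⟨W', hW'⟩ : ∃ W' : ZMod 3 → Matrix n n (Subring.closure T),
      ∀ i, f.mapMatrix (W' i) = W i := by
    refine ⟨fun i a b => ⟨W i a b, hmem i a b⟩, ?_⟩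
    intro i
    ext a b
    rw [hf]
    rfl
  have hfinj : Function.Injective f := by
    rw [hf]; exact Subtype.val_injective
  have hW9 : ∀ i, W' i ^ 9 = 1 := by
    intro i
    have h1 : f.mapMatrix (W' i ^ 9) = f.mapMatrix 1 := by
      rw [map_pow, hW', h9, map_one]
    ext a b
    have h2 := congrFun (congrFun h1 a) b
    exact congrArg Subtype.val (hfinj h2)
  obtain ⟨c, c1, c2, c3, c4⟩ := kron3_comm W' hW9
  have htr : ∀ {m : Type} [Fintype m] [DecidableEq m] (D : Matrix m m (Subring.closure T)),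
      f (Matrix.trace D) = Matrix.trace (f.mapMatrix D) := by
    intro m _ _ D
    rw [Matrix.trace, Matrix.trace, map_sum]
    rfl
  refine ⟨f.mapMatrix c, ?_, ?_, ?_, ?_⟩
  · rw [← map_pow, c1, map_one]
  · intro S hS α β
    have h1 := c2 (S.comap f) (fun i a b => by
      rw [Subring.mem_comap]
      have h2 : f (W' i a b) = W i a b := by rw [← hW' i]; rfl
      rw [h2]
      exact hS i a b) α β
    exact h1
  · intro j
    rw [← map_pow, ← htr, c3, map_mul, map_mul, map_mul, htr, htr, htr, map_pow, map_pow,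
      map_pow, hW', hW', hW']
    congr 1
    exact map_ofNat f 3
  · intro j hj
    rw [← map_pow, ← htr, c4 j hj, map_zero]

end Pool.Agent.Helper563_BV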