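import Mathlib
import Pool.Agent.Helper563_BV.Defs
import Pool.Agent.Helper563_BV.M3b
import Pool.Agent.Helper563_BV.M3c
import Pool.Agent.Helper563_BV.M3d
import Pool.Agent.Helper563_BV.M3e
set_option autoImplicit false
namespace Pool.Agent.Helper563_BV








theorem mat3_comm {A : Type*} [Ring A] {a b : A} (hab : Commute a b) (p q p' q' : ℤ) :
    Commute ((p : A) + (q : A) * a) ((p' : A) + (q' : A) * b) := by
  have h1 : Commute a ((p' : A) + (q' : A) * b) :=
    (Int.commute_cast a p').add_right ((Int.commute_cast a q').mul_right hab)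
  exact (Int.cast_commute p _).add_left ((Int.cast_commute q _).mul_left h1)

theorem mat3_tr {A : Type*} [Ring A] {M I : Type} [Fintype M] [DecidableEq M] [Fintype I]
    [DecidableEq I] (a : Matrix M M A) (b : Matrix I I A) (j : ℕ) :
    Matrix.trace ((Matrix.fromBlocks (Matrix.blockDiagonal fun _ : Fin 3 => a) 0 0 b) ^ j) =
      3 * Matrix.trace (a ^ j) + Matrix.trace (b ^ j) := by
  have h : ∀ (P : Matrix (M × Fin 3) (M × Fin 3) A) (Q : Matrix I I A),
      Matrix.trace (Matrix.fromBlocks P 0 0 Q) = Matrix.trace P + Matrix.trace Q := by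
    intro P Q
    simp [Matrix.trace]
  rw [Matrix.fromBlocks_diagonal_pow, h, ← Matrix.blockDiagonal_pow, Matrix.trace_blockDiagonal]
  congr 1
  simp only [Pi.pow_apply, Fin.sum_univ_three]
  have h3 : (3 : A) = 1 + 1 + 1 := by norm_num
  rw [h3, add_mul, add_mul, one_mul]

theorem mat3 {A : Type*} [Ring A] (z : ZMod 3 → A) (x : A)
    (hz : ∀ i, (z i - 2) * (z i + 1) = 0) (hzc : ∀ i j, z i * z j = z j * z i)
    (hx3 : x ^ 3 = 1) (hxz : ∀ i, x * z i = z (i + 1) * x) :
    ∃ (N : Type) (_ : Fintype N) (_ : DecidableEq N) (c : Matrix N N A),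
      Fintype.card N = 27 * 729 ∧ c ^ 27 = 1 ∧
      (∀ n n', c n n' ∈ Subring.closure (Set.range z ∪ {x})) ∧
      (∀ τ : A →+ ℚ, IsTr τ → ∀ F : A, (∀ i, F * z i = z i * F) → F * x = x * F →
        ∀ j : ℕ, ¬ 3 ∣ j → τ (F * Matrix.trace (c ^ j)) = 3 * τ (F * (2 - z 0) * x ^ j)) ∧
      (∀ j : ℕ, 3 ∣ j → ¬ 27 ∣ j → Matrix.trace (c ^ j) = 0) := by
  have hzz : ∀ i, z i * z i = z i + 2 := by
    intro i
    have h := hz i
    have h2 : (z i - 2) * (z i + 1) = z i * z i - (z i + 2) := by noncomm_ring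
    rw [h2] at h
    exact sub_eq_zero.1 h
  have hd : ∀ i, (2 - z i) * (2 - z i) = 3 * (2 - z i) := by
    intro i
    have h1 : z i * (2 - z i) = -(2 - z i) := by
      rw [mul_sub, hzz, mul_two]
      abel
    have h3 : (3 : A) = 2 + 1 := by norm_num
    rw [h3, add_mul, one_mul, sub_mul, h1, sub_neg_eq_add]
  have hdc : ∀ i j, Commute (2 - z i) (2 - z j) := by
    intro i j
    have h : Commute (z i) (z j) := hzc i j
    have h2 : ∀ y : A, Commute (2 : A) y := fun y => Nat.cast_commute 2 y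
    exact ((h2 _).sub_left ((h2 (z i)).symm.sub_right h))
  have hxd : ∀ i, x * (2 - z i) = (2 - z (i + 1)) * x := by
    intro i
    rw [mul_sub, sub_mul, hxz]
    congr 1
    exact (Nat.cast_commute 2 x).symm.eq
  obtain ⟨W, D, hW1, hW2, hW3, hW4, hW5⟩ := intmatW
  obtain ⟨W', D', hW1', hW2', hW3', hW4', hW5'⟩ := intmatW'
  let w : ZMod 3 → Matrix (Fin 9) (Fin 9) A := fun i =>
    Matrix.of fun a b => ((W a b : ℤ) : A) + ((D a b : ℤ) : A) * (2 - z i)
  let w' : ZMod 3 → Matrix (Fin 18) (Fin 18) A := fun i =>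
    Matrix.of fun a b => ((W' a b : ℤ) : A) + ((D' a b : ℤ) : A) * (2 - z i)
  have I1 := fun i => interp W D (2 - z i) (hd i) 1 hW1 hW2 hW3
    (fun j hj => by rw [hW4 j hj]; norm_num) hW5
  have I2 := fun i => interp W' D' (2 - z i) (hd i) (-1) hW1' hW2' hW3'
    (fun j hj => by rw [hW4' j hj]; norm_num) hW5'
  have hc1 : ∀ i j a b a' b', w i a b * w j a' b' = w j a' b' * w i a b := fun i j a b a' b' =>
    mat3_comm (hdc i j) _ _ _ _
  have hc2 : ∀ i j a b a' b', w' i a b * w' j a' b' = w' j a' b' * w' i a b :=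
    fun i j a b a' b' => mat3_comm (hdc i j) _ _ _ _
  have hx1 : ∀ i a b, x * w i a b = w (i + 1) a b * x := by
    intro i a b
    change x * (((W a b : ℤ) : A) + ((D a b : ℤ) : A) * (2 - z i)) =
      (((W a b : ℤ) : A) + ((D a b : ℤ) : A) * (2 - z (i + 1))) * x
    rw [mul_add, add_mul, mul_assoc, ← hxd i, ← mul_assoc x, ← mul_assoc,
      (Int.cast_commute (W a b) x).eq, (Int.cast_commute (D a b) x).eq]
  obtain ⟨cN, hN1, hN2, hN3, hN4⟩ := twist x hx3 w hc1 hx1 (fun i => (I1 i).1)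
  obtain ⟨cI, hI1, hI2, hI3, hI4⟩ := kron3 w' hc2 (fun i => (I2 i).1)
  have hcl : ∀ i, z i ∈ Subring.closure (Set.range z ∪ {x}) := fun i =>
    Subring.subset_closure (Or.inl ⟨i, rfl⟩)
  have hclx : x ∈ Subring.closure (Set.range z ∪ {x}) := Subring.subset_closure (Or.inr rfl)
  have hcl2 : ∀ (p q : ℤ) i, ((p : A) + (q : A) * (2 - z i)) ∈
      Subring.closure (Set.range z ∪ {x}) := by
    intro p q i
    refine Subring.add_mem _ (intCast_mem _ _) (Subring.mul_mem _ (intCast_mem _ _) ?_)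
    exact Subring.sub_mem _ (ofNat_mem _ 2) (hcl i)
  refine ⟨((Fin 9 × Fin 9 × Fin 9) × Fin 3) ⊕ (Fin 3 × Fin 18 × Fin 18 × Fin 18), inferInstance,
    inferInstance, Matrix.fromBlocks (Matrix.blockDiagonal fun _ : Fin 3 => cN) 0 0 cI,
    ?_, ?_, ?_, ?_, ?_⟩
  · simp
  · rw [Matrix.fromBlocks_diagonal_pow, ← Matrix.blockDiagonal_pow, hI1]
    have h : ((fun _ : Fin 3 => cN) ^ 27) = (1 : Fin 3 → Matrix _ _ A) := by
      funext k
      exact hN1
    rw [h, Matrix.blockDiagonal_one, Matrix.fromBlocks_one]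
  · have m1 := hN2 _ hclx (fun i a b => hcl2 (W a b) (D a b) i)
    have m2 := hI2 _ (fun i a b => hcl2 (W' a b) (D' a b) i)
    rintro (⟨a, k⟩ | b) (⟨a', k'⟩ | b')
    · rw [Matrix.fromBlocks_apply₁₁, Matrix.blockDiagonal_apply]
      split_ifs
      · exact m1 _ _
      · exact Subring.zero_mem _
    · rw [Matrix.fromBlocks_apply₁₂]
      exact Subring.zero_mem _
    · rw [Matrix.fromBlocks_apply₂₁]
      exact Subring.zero_mem _
    · rw [Matrix.fromBlocks_apply₂₂]
      exact m2 _ _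
  · intro τ hτ F hF hFx j hj
    have hFw : ∀ i a b, F * w i a b = w i a b * F := by
      intro i a b
      have h1 : Commute F (z i) := hF i
      have h2 : Commute F (2 - z i) := (Nat.commute_cast F 2).sub_right h1
      exact ((Int.commute_cast F _).add_right ((Int.commute_cast F _).mul_right h2)).eq
    have h := hN4 τ hτ F hFw hFx j hj
    have h3 : Matrix.trace (w 0 ^ j) = 2 - z 0 := by
      have := (I1 0).2.1 j hj
      rw [Int.cast_one, one_mul] at this
      exact this
    rw [h3] at h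
    rw [mat3_tr, hI4 j hj, add_zero, ← h]
    have e : F * (3 * Matrix.trace (cN ^ j)) = F * Matrix.trace (cN ^ j) +
        F * Matrix.trace (cN ^ j) + F * Matrix.trace (cN ^ j) := by noncomm_ring
    rw [e, map_add, map_add]
    ring
  · intro j hj hj27
    obtain ⟨i, rfl⟩ := hj
    have hi : ¬ 9 ∣ i := by omega
    rw [mat3_tr, hN3, hI3]
    by_cases h3 : 3 ∣ i
    · have e0 : Matrix.trace (w 0 ^ i) = 0 := (I1 0).2.2 i h3 hi
      have e1 : Matrix.trace (w' 0 ^ i) = 0 := (I2 0).2.2 i h3 hi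
      rw [e0, e1]
      simp
    · have e : ∀ k, Matrix.trace (w k ^ i) = 2 - z k := by
        intro k
        have := (I1 k).2.1 i h3
        rw [Int.cast_one, one_mul] at this
        exact this
      have e' : ∀ k, Matrix.trace (w' k ^ i) = -(2 - z k) := by
        intro k
        have := (I2 k).2.1 i h3
        rw [Int.cast_neg, Int.cast_one, neg_one_mul] at this
        exact this
      rw [e, e, e, e', e', e']
      noncomm_ring

end Pool.Agent.Helper563_BV
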