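import Mathlib
import Pool.Agent.Helper563_BV.Defs
set_option autoImplicit false
namespace Pool.Agent.Helper563_BV

/-
PROOF OF THE TARGET IN WORDS
Let e = sum_b sum_n Q b n * P b n and C(c) = sum_b sum_n sum_n' Q b n * c n n' * P b n'. Facts:
(1) e Q b n = Q b n * F b = Q b n, and P b n e = F b * P b n = P b n (from hPQ, all other terms vanish). So (1-e) C(c) = 0 = C(c) (1-e).
(2) for matrices c, c' with entries commuting with every F b: C(c) C(c') = sum Q b n c n m (P b m Q b' m') c' m' n' P b' n' =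
sum_b Q b n c n m F b c' m n' P b n' = sum Q b n F b c n m c' m n' P b n' = C(c c').
(3) C(1) = e. e e = e. y commutes with e (hye).
The entries of c^j commute with F b (induction). Now induct on j: j = 0: 1 = (1-e) + C(1). Step:
(y^j (1-e) + C(c^j)) (y (1-e) + C(c)) = y^j (1-e) y (1-e) + y^j (1-e) C(c) + C(c^j) y (1-e) + C(c^j c), where (1-e) C(c) = 0 and
C(c^j) y (1-e) = C(c^j) (1-e) y = 0 and (1-e) y (1-e) = y (1-e).
-/
/-- the operator attached to a matrix -/
def repl_pow_C {A : Type*} [Ring A] {Bl N : Type*} [Fintype Bl] [Fintype N]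
    (P Q : Bl → N → A) (c : Matrix N N A) : A :=
  ∑ b, ∑ n, ∑ n', Q b n * c n n' * P b n'

theorem repl_pow_Pe {A : Type*} [Ring A] {Bl N : Type*} [Fintype Bl] [DecidableEq Bl] [Fintype N]
    [DecidableEq N] (P Q : Bl → N → A) (F : Bl → A)
    (hPQ : ∀ b n b' n', P b n * Q b' n' = if b = b' ∧ n = n' then F b else 0)
    (hFP : ∀ b n, F b * P b n = P b n) (b : Bl) (n : N) :
    P b n * (∑ b, ∑ n, Q b n * P b n) = P b n := by
  rw [Finset.mul_sum]
  have h : ∀ b' : Bl, P b n * ∑ n', Q b' n' * P b' n' = if b = b' then P b n else 0 := by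
    intro b'
    rw [Finset.mul_sum]
    have h1 : ∀ n' : N, P b n * (Q b' n' * P b' n') =
        if n = n' then (if b = b' then P b n else 0) else 0 := by
      intro n'
      rw [← mul_assoc, hPQ]
      by_cases hb : b = b'
      · subst hb
        by_cases hn : n = n'
        · subst hn; simp [hFP]
        · simp [hn]
      · simp [hb]
    simp only [h1, Finset.sum_ite_eq, Finset.mem_univ, if_true]
  simp only [h, Finset.sum_ite_eq, Finset.mem_univ, if_true]

theorem repl_pow_eQ {A : Type*} [Ring A] {Bl N : Type*} [Fintype Bl] [DecidableEq Bl] [Fintype N]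
    [DecidableEq N] (P Q : Bl → N → A) (F : Bl → A)
    (hPQ : ∀ b n b' n', P b n * Q b' n' = if b = b' ∧ n = n' then F b else 0)
    (hQF : ∀ b n, Q b n * F b = Q b n) (b : Bl) (n : N) :
    (∑ b, ∑ n, Q b n * P b n) * Q b n = Q b n := by
  rw [Finset.sum_mul]
  have h : ∀ b' : Bl, (∑ n', Q b' n' * P b' n') * Q b n = if b = b' then Q b n else 0 := by
    intro b'
    rw [Finset.sum_mul]
    have h1 : ∀ n' : N, (Q b' n' * P b' n') * Q b n =
        if n = n' then (if b = b' then Q b n else 0) else 0 := by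
      intro n'
      rw [mul_assoc, hPQ]
      by_cases hb : b = b'
      · subst hb
        by_cases hn : n = n'
        · subst hn; simp [hQF]
        · have hn' : ¬ n' = n := fun h => hn h.symm
          simp [hn, hn']
      · have hb' : ¬ b' = b := fun h => hb h.symm
        simp [hb, hb']
    simp only [h1, Finset.sum_ite_eq, Finset.mem_univ, if_true]
  simp only [h, Finset.sum_ite_eq, Finset.mem_univ, if_true]

theorem repl_pow_Ce {A : Type*} [Ring A] {Bl N : Type*} [Fintype Bl] [DecidableEq Bl] [Fintype N]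
    [DecidableEq N] (P Q : Bl → N → A) (F : Bl → A)
    (hPQ : ∀ b n b' n', P b n * Q b' n' = if b = b' ∧ n = n' then F b else 0)
    (hFP : ∀ b n, F b * P b n = P b n) (c : Matrix N N A) :
    repl_pow_C P Q c * (∑ b, ∑ n, Q b n * P b n) = repl_pow_C P Q c := by
  unfold repl_pow_C
  simp only [Finset.sum_mul]
  refine Finset.sum_congr rfl fun b _ => Finset.sum_congr rfl fun n _ =>
    Finset.sum_congr rfl fun n' _ => ?_
  rw [mul_assoc, repl_pow_Pe P Q F hPQ hFP]

theorem repl_pow_eC {A : Type*} [Ring A] {Bl N : Type*} [Fintype Bl] [DecidableEq Bl] [Fintype N]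
    [DecidableEq N] (P Q : Bl → N → A) (F : Bl → A)
    (hPQ : ∀ b n b' n', P b n * Q b' n' = if b = b' ∧ n = n' then F b else 0)
    (hQF : ∀ b n, Q b n * F b = Q b n) (c : Matrix N N A) :
    (∑ b, ∑ n, Q b n * P b n) * repl_pow_C P Q c = repl_pow_C P Q c := by
  unfold repl_pow_C
  rw [Finset.mul_sum]
  refine Finset.sum_congr rfl fun b _ => ?_
  rw [Finset.mul_sum]
  refine Finset.sum_congr rfl fun n _ => ?_
  rw [Finset.mul_sum]
  refine Finset.sum_congr rfl fun n' _ => ?_
  rw [← mul_assoc, ← mul_assoc, repl_pow_eQ P Q F hPQ hQF]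

theorem repl_pow_one {A : Type*} [Ring A] {Bl N : Type*} [Fintype Bl] [Fintype N]
    [DecidableEq N] (P Q : Bl → N → A) :
    repl_pow_C P Q (1 : Matrix N N A) = ∑ b, ∑ n, Q b n * P b n := by
  unfold repl_pow_C
  refine Finset.sum_congr rfl fun b _ => Finset.sum_congr rfl fun n _ => ?_
  simp [Matrix.one_apply, mul_ite, ite_mul]

theorem repl_pow_CC {A : Type*} [Ring A] {Bl N : Type*} [Fintype Bl] [DecidableEq Bl] [Fintype N]
    [DecidableEq N] (P Q : Bl → N → A) (F : Bl → A)
    (hPQ : ∀ b n b' n', P b n * Q b' n' = if b = b' ∧ n = n' then F b else 0)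
    (hQF : ∀ b n, Q b n * F b = Q b n) (c d : Matrix N N A)
    (hFc : ∀ b n n', F b * c n n' = c n n' * F b) :
    repl_pow_C P Q c * repl_pow_C P Q d = repl_pow_C P Q (c * d) := by
  unfold repl_pow_C
  rw [Finset.sum_mul]
  refine Finset.sum_congr rfl fun b _ => ?_
  rw [Finset.sum_mul]
  refine Finset.sum_congr rfl fun n _ => ?_
  rw [Finset.sum_mul]
  -- the product with the second operator
  have h1 : ∀ m : N, Q b n * c n m * P b m * (∑ b', ∑ m', ∑ n', Q b' m' * d m' n' * P b' n') =
      ∑ n', Q b n * (c n m * d m n') * P b n' := by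
    intro m
    rw [Finset.mul_sum, Finset.sum_eq_single b]
    · rw [Finset.mul_sum, Finset.sum_eq_single m]
      · rw [Finset.mul_sum]
        refine Finset.sum_congr rfl fun n' _ => ?_
        have e1 : P b m * Q b m = F b := by rw [hPQ]; simp
        calc Q b n * c n m * P b m * (Q b m * d m n' * P b n')
            = Q b n * c n m * (P b m * Q b m) * d m n' * P b n' := by simp only [mul_assoc]
          _ = Q b n * (c n m * F b) * d m n' * P b n' := by rw [e1]; simp only [mul_assoc]
          _ = Q b n * F b * (c n m * d m n') * P b n' := by rw [← hFc]; simp only [mul_assoc]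
          _ = Q b n * (c n m * d m n') * P b n' := by rw [hQF]
      · intro m' _ hm
        rw [Finset.mul_sum]
        refine Finset.sum_eq_zero fun n' _ => ?_
        have e1 : P b m * Q b m' = 0 := by
          rw [hPQ, if_neg]
          rintro ⟨-, h⟩
          exact hm h.symm
        calc Q b n * c n m * P b m * (Q b m' * d m' n' * P b n')
            = Q b n * c n m * (P b m * Q b m') * d m' n' * P b n' := by simp only [mul_assoc]
          _ = 0 := by rw [e1]; simp
      · intro h; exact absurd (Finset.mem_univ _) h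
    · intro b' _ hb
      rw [Finset.mul_sum]
      refine Finset.sum_eq_zero fun m' _ => ?_
      rw [Finset.mul_sum]
      refine Finset.sum_eq_zero fun n' _ => ?_
      have e1 : P b m * Q b' m' = 0 := by
        rw [hPQ, if_neg]
        rintro ⟨h, -⟩
        exact hb h.symm
      calc Q b n * c n m * P b m * (Q b' m' * d m' n' * P b' n')
          = Q b n * c n m * (P b m * Q b' m') * d m' n' * P b' n' := by simp only [mul_assoc]
        _ = 0 := by rw [e1]; simp
    · intro h; exact absurd (Finset.mem_univ _) h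
  simp only [h1]
  rw [Finset.sum_comm]
  refine Finset.sum_congr rfl fun n' _ => ?_
  rw [Matrix.mul_apply, Finset.mul_sum, Finset.sum_mul]

theorem repl_pow_comm {A : Type*} [Ring A] {Bl N : Type*} [Fintype N]
    [DecidableEq N] (F : Bl → A) (c : Matrix N N A)
    (hFc : ∀ b n n', F b * c n n' = c n n' * F b) (j : ℕ) :
    ∀ b n n', F b * (c ^ j) n n' = (c ^ j) n n' * F b := by
  induction j with
  | zero =>
    intro b n n'
    rw [pow_zero, Matrix.one_apply]
    split_ifs <;> simp
  | succ j ih =>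
    intro b n n'
    rw [pow_succ, Matrix.mul_apply, Finset.mul_sum, Finset.sum_mul]
    refine Finset.sum_congr rfl fun m _ => ?_
    rw [← mul_assoc, ih, mul_assoc, hFc, mul_assoc]

-- TARGET
theorem repl_pow {A : Type*} [Ring A] {Bl N : Type*} [Fintype Bl] [DecidableEq Bl] [Fintype N]
    [DecidableEq N] (y : A) (P Q : Bl → N → A) (F : Bl → A) (c : Matrix N N A)
    (hPQ : ∀ b n b' n', P b n * Q b' n' = if b = b' ∧ n = n' then F b else 0)
    (hFP : ∀ b n, F b * P b n = P b n) (hQF : ∀ b n, Q b n * F b = Q b n)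
    (hFc : ∀ b n n', F b * c n n' = c n n' * F b)
    (hye : y * (∑ b, ∑ n, Q b n * P b n) = (∑ b, ∑ n, Q b n * P b n) * y) (j : ℕ) :
    (y * (1 - ∑ b, ∑ n, Q b n * P b n) + ∑ b, ∑ n, ∑ n', Q b n * c n n' * P b n') ^ j
      = y ^ j * (1 - ∑ b, ∑ n, Q b n * P b n)
        + ∑ b, ∑ n, ∑ n', Q b n * (c ^ j) n n' * P b n' := by
  change _ = y ^ j * (1 - ∑ b, ∑ n, Q b n * P b n) + repl_pow_C P Q (c ^ j)
  change (y * (1 - ∑ b, ∑ n, Q b n * P b n) + repl_pow_C P Q c) ^ j = _
  have hCe := repl_pow_Ce P Q F hPQ hFP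
  have heC := repl_pow_eC P Q F hPQ hQF
  have hC1 := repl_pow_one P Q
  have hee : (∑ b, ∑ n, Q b n * P b n) * (∑ b, ∑ n, Q b n * P b n) = ∑ b, ∑ n, Q b n * P b n := by
    have := hCe 1
    rwa [hC1] at this
  set e := ∑ b, ∑ n, Q b n * P b n with he
  induction j with
  | zero => rw [pow_zero, pow_zero, pow_zero, hC1]; simp
  | succ j ih =>
    have h1 : y ^ j * (1 - e) * (y * (1 - e)) = y ^ (j + 1) * (1 - e) := by
      have h2 : (1 - e) * (y * (1 - e)) = y * (1 - e) := by
        have h3 : (1 - e) * y = y * (1 - e) := by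
          rw [sub_mul, mul_sub, one_mul, mul_one, hye]
        rw [← mul_assoc, h3, mul_assoc]
        congr 1
        rw [sub_mul, one_mul, mul_sub, mul_one, hee, sub_self, sub_zero]
      rw [mul_assoc, h2, ← mul_assoc, ← pow_succ]
    have h4 : y ^ j * (1 - e) * repl_pow_C P Q c = 0 := by
      rw [mul_assoc, sub_mul, one_mul, heC, sub_self, mul_zero]
    have h5 : repl_pow_C P Q (c ^ j) * (y * (1 - e)) = 0 := by
      have h3 : y * (1 - e) = (1 - e) * y := by
        rw [sub_mul, mul_sub, one_mul, mul_one, hye]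
      rw [h3, ← mul_assoc, mul_sub, mul_one, hCe, sub_self, zero_mul]
    have h6 : repl_pow_C P Q (c ^ j) * repl_pow_C P Q c = repl_pow_C P Q (c ^ (j + 1)) := by
      rw [repl_pow_CC P Q F hPQ hQF (c ^ j) c (repl_pow_comm F c hFc j), pow_succ]
    rw [pow_succ, ih, add_mul, mul_add, mul_add, h1, h4, h5, h6, add_zero, zero_add]

end Pool.Agent.Helper563_BV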