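import Mathlib
import Pool.Agent.Helper563_BV.Defs
import Pool.Agent.Helper563_BV.R1
set_option autoImplicit false
namespace Pool.Agent.Helper563_BV



theorem side_dvd {i i' : ℕ} (hi : i < 27) (hi' : i' < 27) : 27 ∣ 27 - i + i' ↔ i = i' := by
  constructor
  · rintro ⟨t, ht⟩
    have h1 : t = 1 := by omega
    omega
  · rintro rfl
    exact ⟨1, by omega⟩

/-- cyclic shift -/
theorem side_shift {A : Type*} [Ring A] (y : A) (hy : y ^ 27 = 1) (z : A) :
    ∑ i : Fin 27, y * (y ^ (i : ℕ) * z * y ^ (27 - (i : ℕ))) =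
      ∑ i : Fin 27, (y ^ (i : ℕ) * z * y ^ (27 - (i : ℕ))) * y := by
  rw [← Equiv.sum_comp (finRotate 27) fun i : Fin 27 => (y ^ (i : ℕ) * z * y ^ (27 - (i : ℕ))) * y]
  refine Finset.sum_congr rfl fun i _ => ?_
  rcases Nat.lt_or_ge (i : ℕ) 26 with h | h
  · have h1 : ((finRotate 27 i : Fin 27) : ℕ) = i + 1 := by
      have h2 : i ≠ Fin.last 26 := by
        intro h2
        rw [h2] at h
        simp at h
      exact coe_finRotate_of_ne_last h2
    rw [h1]
    have h3 : 27 - (i : ℕ) = (27 - ((i : ℕ) + 1)) + 1 := by omega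
    rw [h3, pow_succ y (27 - ((i : ℕ) + 1)), pow_succ' y (i : ℕ)]
    simp only [mul_assoc]
  · have h2 : i = Fin.last 26 := by
      ext
      simp only [Fin.val_last]
      have := i.2
      omega
    rw [h2, finRotate_last]
    simp only [Fin.val_last, Fin.val_zero, pow_zero, one_mul, Nat.sub_zero, hy, mul_one,
      Nat.reduceSub, pow_one]
    rw [← mul_assoc, ← mul_assoc, ← pow_succ', hy, one_mul]

-- TARGET
theorem side {A : Type*} [Ring A] {Bl K N : Type*} [Fintype Bl] [DecidableEq Bl] [Fintype K]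
    [DecidableEq K] [Fintype N] [DecidableEq N] (y : A) (hy : y ^ 27 = 1) (F : Bl → A)
    (p q : Bl → K → A)
    (hp : ∀ b k, F b * p b k = p b k) (hq : ∀ b k, q b k * F b = q b k)
    (hpq : ∀ (i : ℕ) b k b' k', p b k * y ^ i * q b' k'
      = if 27 ∣ i ∧ b = b' ∧ k = k' then F b else 0)
    (c : Matrix N N A) (hN : Fintype.card N = 27 * Fintype.card K) (hc : c ^ 27 = 1)
    (hFc : ∀ b n n', F b * c n n' = c n n' * F b) :
    ∃ u : A, u ^ 27 = 1 ∧
      (∀ τ : A →+ ℚ, IsTr τ → ∀ j : ℕ, ¬ 27 ∣ j →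
        τ (u ^ j) = τ (y ^ j) + ∑ b, τ (F b * Matrix.trace (c ^ j))) ∧
      (∀ S : Subring A, y ∈ S → (∀ b k, p b k ∈ S ∧ q b k ∈ S) → (∀ n n', c n n' ∈ S) →
        u ∈ S) ∧
      (∀ S : AddSubgroup A, (∀ a z : A, z ∈ S → a * z ∈ S ∧ z * a ∈ S) → (∀ b, F b ∈ S) →
        u - y ∈ S) ∧
      (∀ E : A, (∀ (i : ℕ) b k, E * y ^ i * q b k = 0) →
        (∀ (i : ℕ) b k, p b k * y ^ i * E = 0) →
        ∀ i : ℕ, E * u ^ i * E = E * y ^ i * E) := by
  have hcard : Fintype.card N = Fintype.card (Fin 27 × K) := by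
    rw [hN, Fintype.card_prod, Fintype.card_fin]
  let σ : N ≃ Fin 27 × K := Fintype.equivOfCardEq hcard
  let P : Bl → N → A := fun b n => p b (σ n).2 * y ^ (27 - ((σ n).1 : ℕ))
  let Q : Bl → N → A := fun b n => y ^ ((σ n).1 : ℕ) * q b (σ n).2
  have hPQ : ∀ b n b' n', P b n * Q b' n' = if b = b' ∧ n = n' then F b else 0 := by
    intro b n b' n'
    have h1 : P b n * Q b' n' =
        p b (σ n).2 * y ^ (27 - ((σ n).1 : ℕ) + ((σ n').1 : ℕ)) * q b' (σ n').2 := by
      simp only [P, Q, pow_add, mul_assoc]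
    rw [h1, hpq]
    have h2 : (27 ∣ 27 - ((σ n).1 : ℕ) + ((σ n').1 : ℕ) ∧ b = b' ∧ (σ n).2 = (σ n').2) ↔
        (b = b' ∧ n = n') := by
      rw [side_dvd (σ n).1.2 (σ n').1.2]
      constructor
      · rintro ⟨h3, h4, h5⟩
        exact ⟨h4, σ.injective (Prod.ext (Fin.ext h3) h5)⟩
      · rintro ⟨rfl, rfl⟩
        exact ⟨rfl, rfl, rfl⟩
    simp only [h2]
  have hFP : ∀ b n, F b * P b n = P b n := by
    intro b n
    simp only [P]
    rw [← mul_assoc, hp]
  have hQF : ∀ b n, Q b n * F b = Q b n := by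
    intro b n
    simp only [Q]
    rw [mul_assoc, hq]
  set e : A := ∑ b, ∑ n, Q b n * P b n with he
  have he' : ∀ b, ∑ n, Q b n * P b n = ∑ k : K, ∑ i : Fin 27,
      y ^ (i : ℕ) * (q b k * p b k) * y ^ (27 - (i : ℕ)) := by
    intro b
    rw [← Equiv.sum_comp σ.symm, Fintype.sum_prod_type_right]
    refine Finset.sum_congr rfl fun k _ => Finset.sum_congr rfl fun i _ => ?_
    simp only [P, Q, Equiv.apply_symm_apply, mul_assoc]
  have hye : y * e = e * y := by
    rw [he, Finset.mul_sum, Finset.sum_mul]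
    refine Finset.sum_congr rfl fun b _ => ?_
    rw [he', Finset.mul_sum, Finset.sum_mul]
    refine Finset.sum_congr rfl fun k _ => ?_
    rw [Finset.mul_sum, Finset.sum_mul]
    exact side_shift y hy (q b k * p b k)
  set u : A := y * (1 - e) + ∑ b, ∑ n, ∑ n', Q b n * c n n' * P b n' with hu
  have hpow : ∀ j : ℕ, u ^ j = y ^ j * (1 - e) + ∑ b, ∑ n, ∑ n', Q b n * (c ^ j) n n' * P b n' :=
    fun j => repl_pow y P Q F c hPQ hFP hQF hFc hye j
  have hone : ∑ b, ∑ n, ∑ n', Q b n * (1 : Matrix N N A) n n' * P b n' = e := by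
    rw [he]
    refine Finset.sum_congr rfl fun b _ => Finset.sum_congr rfl fun n _ => ?_
    rw [Finset.sum_eq_single n]
    · rw [Matrix.one_apply_eq, mul_one]
    · intro n' _ hn
      rw [Matrix.one_apply_ne hn.symm, mul_zero, zero_mul]
    · intro h
      exact absurd (Finset.mem_univ n) h
  refine ⟨u, ?_, ?_, ?_, ?_, ?_⟩
  · rw [hpow, hy, hc, hone]
    simp
  · intro τ hτ j hj
    rw [hpow, map_add, mul_sub, map_sub, mul_one]
    have h1 : τ (y ^ j * e) = 0 := by
      rw [he, Finset.mul_sum, map_sum]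
      refine Finset.sum_eq_zero fun b _ => ?_
      rw [Finset.mul_sum, map_sum]
      refine Finset.sum_eq_zero fun n _ => ?_
      have h2 : y ^ j * (Q b n * P b n) = (y ^ j * Q b n) * P b n := (mul_assoc _ _ _).symm
      rw [h2, hτ]
      have h3 : P b n * (y ^ j * Q b n) = p b (σ n).2 * y ^ (27 + j) * q b (σ n).2 := by
        have h4 : 27 + j = (27 - ((σ n).1 : ℕ)) + j + ((σ n).1 : ℕ) := by
          have := (σ n).1.2
          omega
        rw [h4]
        simp only [P, Q, pow_add, mul_assoc]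
      rw [h3, hpq, if_neg, map_zero]
      rintro ⟨h5, -⟩
      apply hj
      omega
    have h2 : τ (∑ b, ∑ n, ∑ n', Q b n * (c ^ j) n n' * P b n') =
        ∑ b, τ (F b * Matrix.trace (c ^ j)) := by
      rw [map_sum]
      refine Finset.sum_congr rfl fun b _ => ?_
      rw [hτ (F b) (Matrix.trace (c ^ j)), Matrix.trace, Finset.sum_mul, map_sum, map_sum]
      refine Finset.sum_congr rfl fun n _ => ?_
      rw [map_sum, Finset.sum_eq_single n]
      · rw [mul_assoc, hτ, mul_assoc, hPQ, if_pos ⟨rfl, rfl⟩]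
        rfl
      · intro n' _ hn
        rw [mul_assoc, hτ, mul_assoc, hPQ, if_neg (fun h => hn h.2), mul_zero, map_zero]
      · intro h
        exact absurd (Finset.mem_univ n) h
    rw [h1, h2, sub_zero]
  · intro S hyS hpqS hcS
    have hP : ∀ b n, P b n ∈ S := fun b n => S.mul_mem (hpqS _ _).1 (S.pow_mem hyS _)
    have hQ : ∀ b n, Q b n ∈ S := fun b n => S.mul_mem (S.pow_mem hyS _) (hpqS _ _).2
    have heS : e ∈ S := S.sum_mem fun b _ => S.sum_mem fun n _ => S.mul_mem (hQ b n) (hP b n)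
    exact S.add_mem (S.mul_mem hyS (S.sub_mem S.one_mem heS)) (S.sum_mem fun b _ =>
      S.sum_mem fun n _ => S.sum_mem fun n' _ => S.mul_mem (S.mul_mem (hQ b n) (hcS n n')) (hP b n'))
  · intro S hS hF
    have hQ : ∀ b n, Q b n ∈ S := fun b n => by
      rw [← hQF b n]
      exact (hS _ _ (hF b)).1
    have heS : e ∈ S := S.sum_mem fun b _ => S.sum_mem fun n _ => (hS _ _ (hQ b n)).2
    have h1 : u - y = -(y * e) + ∑ b, ∑ n, ∑ n', Q b n * c n n' * P b n' := by
      rw [hu, mul_sub, mul_one]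
      abel
    rw [h1]
    exact S.add_mem (S.neg_mem (hS _ _ heS).1) (S.sum_mem fun b _ =>
      S.sum_mem fun n _ => S.sum_mem fun n' _ => (hS _ _ (hS _ _ (hQ b n)).2).2)
  · intro E hEq hpE i
    have hEQ : ∀ b n, E * Q b n = 0 := fun b n => by
      simp only [Q]
      rw [← mul_assoc]
      exact hEq _ _ _
    have hPE : ∀ b n, P b n * E = 0 := fun b n => hpE _ _ _
    have h1 : e * E = 0 := by
      rw [he, Finset.sum_mul]
      refine Finset.sum_eq_zero fun b _ => ?_
      rw [Finset.sum_mul]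
      refine Finset.sum_eq_zero fun n _ => ?_
      rw [mul_assoc, hPE, mul_zero]
    have h2 : E * (∑ b, ∑ n, ∑ n', Q b n * (c ^ i) n n' * P b n') = 0 := by
      rw [Finset.mul_sum]
      refine Finset.sum_eq_zero fun b _ => ?_
      rw [Finset.mul_sum]
      refine Finset.sum_eq_zero fun n _ => ?_
      rw [Finset.mul_sum]
      refine Finset.sum_eq_zero fun n' _ => ?_
      rw [mul_assoc, ← mul_assoc, hEQ, zero_mul]
    rw [hpow, mul_add, h2, add_zero, mul_sub, mul_one, mul_sub, sub_mul, ← mul_assoc E, mul_assoc _ e E,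
      h1, mul_zero, sub_zero]

end Pool.Agent.Helper563_BV
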