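import Mathlib
import Pool.Agent.Helper563_BV.Defs
set_option autoImplicit false
namespace Pool.Agent.Helper563_BV

theorem orbit_mul {B A : Type*} [Ring B] [Ring A] (ι : ZMod 3 → B →+* A)
    (hι : ∀ i j, i ≠ j → ∀ a b, ι i a * ι j b = ι j b * ι i a) (a b c a' b' c' : B) :
    (ι 0 a * ι 1 b * ι 2 c) * (ι 0 a' * ι 1 b' * ι 2 c')
      = ι 0 (a * a') * ι 1 (b * b') * ι 2 (c * c') := by
  have h20 := hι 2 0 (by decide) c a'
  have h10 := hι 1 0 (by decide) b a'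
  have h21 := hι 2 1 (by decide) c b'
  calc (ι 0 a * ι 1 b * ι 2 c) * (ι 0 a' * ι 1 b' * ι 2 c')
      = ι 0 a * ι 1 b * (ι 2 c * ι 0 a') * ι 1 b' * ι 2 c' := by simp only [mul_assoc]
    _ = ι 0 a * (ι 1 b * ι 0 a') * ι 2 c * ι 1 b' * ι 2 c' := by rw [h20]; simp only [mul_assoc]
    _ = ι 0 a * ι 0 a' * ι 1 b * (ι 2 c * ι 1 b') * ι 2 c' := by rw [h10]; simp only [mul_assoc]
    _ = ι 0 a * ι 0 a' * (ι 1 b * ι 1 b') * (ι 2 c * ι 2 c') := by rw [h21]; simp only [mul_assoc]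
    _ = _ := by rw [map_mul, map_mul, map_mul]

theorem orbit_x {B A : Type*} [Ring B] [Ring A] (ι : ZMod 3 → B →+* A) (x : A)
    (hι : ∀ i j, i ≠ j → ∀ a b, ι i a * ι j b = ι j b * ι i a)
    (hx : ∀ i a, x * ι i a = ι (i + 1) a * x) (a b c : B) :
    x * (ι 0 a * ι 1 b * ι 2 c) = (ι 0 c * ι 1 a * ι 2 b) * x := by
  have h0 : x * ι 0 a = ι 1 a * x := hx 0 a
  have h1 : x * ι 1 b = ι 2 b * x := hx 1 b
  have h2 : x * ι 2 c = ι 0 c * x := hx 2 c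
  have h20 := hι 2 0 (by decide) b c
  have h10 := hι 1 0 (by decide) a c
  calc x * (ι 0 a * ι 1 b * ι 2 c) = (x * ι 0 a) * ι 1 b * ι 2 c := by simp only [mul_assoc]
    _ = ι 1 a * (x * ι 1 b) * ι 2 c := by rw [h0]; simp only [mul_assoc]
    _ = ι 1 a * ι 2 b * (x * ι 2 c) := by rw [h1]; simp only [mul_assoc]
    _ = ι 1 a * (ι 2 b * ι 0 c) * x := by rw [h2]; simp only [mul_assoc]
    _ = (ι 1 a * ι 0 c) * ι 2 b * x := by rw [h20]; simp only [mul_assoc]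
    _ = _ := by rw [h10]

theorem orbit_pow {B A : Type*} [Ring B] [Ring A] (ι : ZMod 3 → B →+* A) (x : A)
    (hι : ∀ i j, i ≠ j → ∀ a b, ι i a * ι j b = ι j b * ι i a) (hx3 : x ^ 3 = 1)
    (hx : ∀ i a, x * ι i a = ι (i + 1) a * x) (y0 : B) (q : ℕ) :
    (ι 0 y0 * x) ^ (3 * q) = ι 0 (y0 ^ q) * ι 1 (y0 ^ q) * ι 2 (y0 ^ q) := by
  have h0 : x * ι 0 y0 = ι 1 y0 * x := hx 0 y0
  have h1 : x * ι 1 y0 = ι 2 y0 * x := hx 1 y0
  have h3 : (ι 0 y0 * x) ^ 3 = ι 0 y0 * ι 1 y0 * ι 2 y0 := by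
    calc (ι 0 y0 * x) ^ 3 = ι 0 y0 * (x * ι 0 y0) * (x * ι 0 y0) * x := by
          rw [pow_succ, pow_two]; simp only [mul_assoc]
      _ = ι 0 y0 * ι 1 y0 * (x * ι 1 y0) * x * x := by rw [h0]; simp only [mul_assoc]
      _ = ι 0 y0 * ι 1 y0 * ι 2 y0 * (x ^ 3) := by
          rw [h1, pow_succ, pow_two]; simp only [mul_assoc]
      _ = _ := by rw [hx3, mul_one]
  rw [pow_mul, h3]
  induction q with
  | zero => simp
  | succ q ih =>
    rw [pow_succ, ih, orbit_mul ι hι, ← pow_succ]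

-- TARGET
theorem orbit {B A : Type*} [Ring B] [Ring A] (ι : ZMod 3 → B →+* A) (x : A)
    (hι : ∀ i j, i ≠ j → ∀ a b, ι i a * ι j b = ι j b * ι i a) (hx3 : x ^ 3 = 1)
    (hx : ∀ i a, x * ι i a = ι (i + 1) a * x) (y0 : B) (hy0 : y0 ^ 9 = 1)
    {Bl K : Type*} [DecidableEq Bl] [DecidableEq K]
    (a : Bl → B) (m n : K → B) (r r' o o' : Bl → K → B)
    (ha : ∀ b b', a b * a b' = if b = b' then a b else 0)
    (hm : ∀ (i : ℕ) k k', m k * y0 ^ i * m k' = if 9 ∣ i ∧ k = k' then m k else 0)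
    (hn : ∀ (i : ℕ) k k', n k * y0 ^ i * n k' = if 9 ∣ i ∧ k = k' then n k else 0)
    (hmn : ∀ (i : ℕ) k k', m k * y0 ^ i * n k' = 0)
    (hnm : ∀ (i : ℕ) k k', n k * y0 ^ i * m k' = 0)
    (hr : ∀ b k, r b k * m k = r b k ∧ m k * r' b k = r' b k ∧ r b k * r' b k = a b)
    (ho : ∀ b k, o b k * n k = o b k ∧ n k * o' b k = o' b k ∧ o b k * o' b k = a b)
    (i : ℕ) (b : Bl) (k : K) (b' : Bl) (k' : K) :
    (ι 0 (a b) * ι 1 (r b k) * ι 2 (o b k)) * (ι 0 y0 * x) ^ i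
        * (ι 0 (a b') * ι 1 (r' b' k') * ι 2 (o' b' k'))
      = if 27 ∣ i ∧ b = b' ∧ k = k' then ι 0 (a b) * ι 1 (a b) * ι 2 (a b) else 0 := by
  have hpow := orbit_pow ι x hι hx3 hx y0
  obtain ⟨q, hq⟩ : ∃ q, i = 3 * q ∨ i = 3 * q + 1 ∨ i = 3 * q + 2 := ⟨i / 3, by omega⟩
  have hT := orbit_mul ι hι
  have hX := orbit_x ι x hι hx
  rcases hq with rfl | rfl | rfl
  · rw [hpow q, hT, hT]
    have hmid : r b k * y0 ^ q * r' b' k' = r b k * (m k * y0 ^ q * m k') * r' b' k' := by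
      conv_lhs => rw [← (hr b k).1, ← (hr b' k').2.1]
      simp only [mul_assoc]
    by_cases h9 : 9 ∣ q ∧ k = k'
    · obtain ⟨h9, rfl⟩ := h9
      obtain ⟨s, rfl⟩ := h9
      have hy : y0 ^ (9 * s) = 1 := by rw [pow_mul, hy0, one_pow]
      rw [hy, mul_one, mul_one, mul_one, ha]
      by_cases hb : b = b'
      · subst hb
        rw [if_pos rfl, (hr b k).2.2, (ho b k).2.2, if_pos ⟨⟨s, by ring⟩, rfl, rfl⟩]
      · rw [if_neg hb, map_zero, zero_mul, zero_mul, if_neg (fun h => hb h.2.1)]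
    · rw [hmid, hm, if_neg h9, mul_zero, zero_mul, map_zero, mul_zero, zero_mul, if_neg]
      rintro ⟨h27, _, hk⟩
      exact h9 ⟨by omega, hk⟩
  · rw [if_neg (by rintro ⟨h, _⟩; omega), pow_succ, hpow q]
    have e1 : ι 0 (a b) * ι 1 (r b k) * ι 2 (o b k) *
        (ι 0 (y0 ^ q) * ι 1 (y0 ^ q) * ι 2 (y0 ^ q) * (ι 0 y0 * x)) *
        (ι 0 (a b') * ι 1 (r' b' k') * ι 2 (o' b' k')) =
        ((ι 0 (a b) * ι 1 (r b k) * ι 2 (o b k)) *
        (ι 0 (y0 ^ q) * ι 1 (y0 ^ q) * ι 2 (y0 ^ q))) * (ι 0 y0 * ι 1 1 * ι 2 1) * (x *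
        (ι 0 (a b') * ι 1 (r' b' k') * ι 2 (o' b' k'))) := by
      simp only [map_one, mul_one, mul_assoc]
    rw [e1, hX, ← mul_assoc, hT, hT, hT]
    have hz : o b k * y0 ^ q * 1 * r' b' k' = 0 := by
      have : o b k * y0 ^ q * 1 * r' b' k' = o b k * (n k * y0 ^ q * m k') * r' b' k' := by
        conv_lhs => rw [← (ho b k).1, ← (hr b' k').2.1]
        simp only [mul_assoc, mul_one, one_mul]
      rw [this, hnm, mul_zero, zero_mul]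
    rw [hz, map_zero, mul_zero, zero_mul]
  · rw [if_neg (by rintro ⟨h, _⟩; omega), pow_add, hpow q]
    have h0 : x * ι 0 y0 = ι 1 y0 * x := hx 0 y0
    have e0 : (ι 0 y0 * x) ^ 2 = ι 0 y0 * ι 1 y0 * ι 2 1 * (x * x) := by
      rw [pow_two, map_one, mul_one]
      calc ι 0 y0 * x * (ι 0 y0 * x) = ι 0 y0 * (x * ι 0 y0) * x := by simp only [mul_assoc]
        _ = _ := by rw [h0]; simp only [mul_assoc]
    have e1 : ι 0 (a b) * ι 1 (r b k) * ι 2 (o b k) *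
        (ι 0 (y0 ^ q) * ι 1 (y0 ^ q) * ι 2 (y0 ^ q) * (ι 0 y0 * x) ^ 2) *
        (ι 0 (a b') * ι 1 (r' b' k') * ι 2 (o' b' k')) =
        ((ι 0 (a b) * ι 1 (r b k) * ι 2 (o b k)) *
        (ι 0 (y0 ^ q) * ι 1 (y0 ^ q) * ι 2 (y0 ^ q))) * (ι 0 y0 * ι 1 y0 * ι 2 1) * (x * (x *
        (ι 0 (a b') * ι 1 (r' b' k') * ι 2 (o' b' k')))) := by
      rw [e0]
      simp only [mul_assoc]
    rw [e1, hX, ← mul_assoc x, hX, ← mul_assoc, ← mul_assoc, hT, hT, hT]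
    have hz : r b k * y0 ^ q * y0 * o' b' k' = 0 := by
      have : r b k * y0 ^ q * y0 * o' b' k' = r b k * (m k * y0 ^ (q + 1) * n k') * o' b' k' := by
        conv_lhs => rw [← (hr b k).1, ← (ho b' k').2.1]
        rw [pow_succ]
        simp only [mul_assoc]
      rw [this, hmn, mul_zero, zero_mul]
    rw [hz, map_zero, mul_zero, zero_mul, zero_mul, zero_mul]

end Pool.Agent.Helper563_BV
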