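import Mathlib
import Pool.Agent.Helper563_BV.Defs
set_option autoImplicit false
namespace Pool.Agent.Helper563_BV


/-
PROOF OF THE TARGET IN WORDS
Closure induction (AddSubgroup.closure) gives: every a in Idl e is a finite sum sum_i a_i e b_i (a list or Finset sum, or: use induction in each of the three slots separately: the statement
P(a,b,c) : T(a,b,c) in J, J = Idl (T(e,e,e)), T(a,b,c) = i_0(a) i_1(b) i_2(c), is additive in each of a, b, c and holds when a = a1 e a2, b = b1 e b2, c = c1 e c2, because then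
T(a,b,c) = T(a1,b1,c1) T(e,e,e) T(a2,b2,c2), by commuting the homs with different index. So fix b, c of the product form and do closure induction in a, then with a in Idl e arbitrary in b, then in c.)
-/

/-- The multiplicativity identity behind the base case. -/
theorem idl_T_mul {B A : Type*} [Ring B] [Ring A] (ι : ZMod 3 → B →+* A)
    (hι : ∀ i j, i ≠ j → ∀ a b, ι i a * ι j b = ι j b * ι i a) (a b c a' b' c' : B) :
    ι 0 (a * a') * ι 1 (b * b') * ι 2 (c * c') =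
      (ι 0 a * ι 1 b * ι 2 c) * (ι 0 a' * ι 1 b' * ι 2 c') := by
  have h10 : ι 1 b * ι 0 a' = ι 0 a' * ι 1 b := hι 1 0 (by decide) b a'
  have h20 : ι 2 c * ι 0 a' = ι 0 a' * ι 2 c := hι 2 0 (by decide) c a'
  have h21 : ι 2 c * ι 1 b' = ι 1 b' * ι 2 c := hι 2 1 (by decide) c b'
  simp only [map_mul]
  calc ι 0 a * ι 0 a' * (ι 1 b * ι 1 b') * (ι 2 c * ι 2 c')
      = ι 0 a * (ι 0 a' * ι 1 b) * (ι 1 b' * ι 2 c) * ι 2 c' := by
        simp only [mul_assoc]
    _ = ι 0 a * (ι 1 b * ι 0 a') * (ι 2 c * ι 1 b') * ι 2 c' := by rw [h10, h21]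
    _ = ι 0 a * ι 1 b * (ι 0 a' * ι 2 c) * ι 1 b' * ι 2 c' := by
        simp only [mul_assoc]
    _ = ι 0 a * ι 1 b * (ι 2 c * ι 0 a') * ι 1 b' * ι 2 c' := by rw [h20]
    _ = (ι 0 a * ι 1 b * ι 2 c) * (ι 0 a' * ι 1 b' * ι 2 c') := by
        simp only [mul_assoc]

-- TARGET
theorem idl_T {B A : Type*} [Ring B] [Ring A] (ι : ZMod 3 → B →+* A)
    (hι : ∀ i j, i ≠ j → ∀ a b, ι i a * ι j b = ι j b * ι i a) (e a : B) (h : a ∈ Idl e) :
    ι 0 a * ι 1 a * ι 2 a ∈ Idl (ι 0 e * ι 1 e * ι 2 e) := by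
  have key : ∀ x ∈ Idl e, ∀ y ∈ Idl e, ∀ z ∈ Idl e,
      ι 0 x * ι 1 y * ι 2 z ∈ Idl (ι 0 e * ι 1 e * ι 2 e) := by
    intro x hx
    refine AddSubgroup.closure_induction
      (p := fun x _ => ∀ y ∈ Idl e, ∀ z ∈ Idl e,
        ι 0 x * ι 1 y * ι 2 z ∈ Idl (ι 0 e * ι 1 e * ι 2 e)) ?_ ?_ ?_ ?_ hx
    · rintro x ⟨a1, a2, rfl⟩ y hy
      refine AddSubgroup.closure_induction
        (p := fun y _ => ∀ z ∈ Idl e,
          ι 0 (a1 * e * a2) * ι 1 y * ι 2 z ∈ Idl (ι 0 e * ι 1 e * ι 2 e)) ?_ ?_ ?_ ?_ hy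
      · rintro y ⟨b1, b2, rfl⟩ z hz
        refine AddSubgroup.closure_induction
          (p := fun z _ => ι 0 (a1 * e * a2) * ι 1 (b1 * e * b2) * ι 2 z ∈
            Idl (ι 0 e * ι 1 e * ι 2 e)) ?_ ?_ ?_ ?_ hz
        · rintro z ⟨c1, c2, rfl⟩
          refine AddSubgroup.subset_closure
            ⟨ι 0 a1 * ι 1 b1 * ι 2 c1, ι 0 a2 * ι 1 b2 * ι 2 c2, ?_⟩
          rw [idl_T_mul ι hι (a1 * e) (b1 * e) (c1 * e) a2 b2 c2,
            idl_T_mul ι hι a1 b1 c1 e e e]
        · simp [(Idl (ι 0 e * ι 1 e * ι 2 e)).zero_mem]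
        · intro z z' _ _ hz hz'
          rw [map_add, mul_add]
          exact (Idl _).add_mem hz hz'
        · intro z _ hz
          rw [map_neg, mul_neg]
          exact (Idl _).neg_mem hz
      · intro z _
        simp [(Idl (ι 0 e * ι 1 e * ι 2 e)).zero_mem]
      · intro y y' _ _ hy hy' z hz
        rw [map_add, mul_add, add_mul]
        exact (Idl _).add_mem (hy z hz) (hy' z hz)
      · intro y _ hy z hz
        rw [map_neg, mul_neg, neg_mul]
        exact (Idl _).neg_mem (hy z hz)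
    · intro y _ z _
      simp [(Idl (ι 0 e * ι 1 e * ι 2 e)).zero_mem]
    · intro x x' _ _ hx hx' y hy z hz
      rw [map_add, add_mul, add_mul]
      exact (Idl _).add_mem (hx y hy z hz) (hx' y hy z hz)
    · intro x _ hx y hy z hz
      rw [map_neg, neg_mul, neg_mul]
      exact (Idl _).neg_mem (hx y hy z hz)
  exact key a h a h a h

end Pool.Agent.Helper563_BV
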