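import Mathlib
import Pool.Agent.Helper563_BV.Defs
set_option autoImplicit false
namespace Pool.Agent.Helper563_BV


/-
PROOF OF THE TARGET IN WORDS
Subring.closure_induction (or Subring.closure_le with Subring.comap): io i (of g) = of (iG i g) is in ZI p, io i (algebraMap q) = algebraMap q (a ring hom out of MonoidAlgebra given by mapDomain sends single 1 q to
single 1 q; io is a ring hom so preserves sums, products, negatives, 0, 1).
-/
-- TARGET
theorem io_ZI (κ : Type) (i : ZMod 3) (p : ℕ) (a : MonoidAlgebra ℚ (YY κ)) (h : a ∈ ZI p (YY κ)) :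
    io κ i a ∈ ZI p (GG κ) := by
  have key : ZI p (YY κ) ≤ (ZI p (GG κ)).comap (io κ i) := by
    unfold ZI
    rw [Subring.closure_le]
    rintro x (⟨g, rfl⟩ | hx)
    · show io κ i (MonoidAlgebra.of ℚ (YY κ) g) ∈ ZI p (GG κ)
      have e : io κ i (MonoidAlgebra.of ℚ (YY κ) g) = MonoidAlgebra.of ℚ (GG κ) (iG κ i g) := by
        simp [io, MonoidAlgebra.of_apply, MonoidAlgebra.mapDomainRingHom]
      rw [e]
      exact Subring.subset_closure (Or.inl ⟨_, rfl⟩)
    · rw [Set.mem_singleton_iff] at hx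
      subst hx
      show io κ i (algebraMap ℚ (MonoidAlgebra ℚ (YY κ)) ((p : ℚ)⁻¹)) ∈ ZI p (GG κ)
      have e : io κ i (algebraMap ℚ (MonoidAlgebra ℚ (YY κ)) ((p : ℚ)⁻¹)) =
          algebraMap ℚ (MonoidAlgebra ℚ (GG κ)) ((p : ℚ)⁻¹) := by
        rw [MonoidAlgebra.coe_algebraMap, MonoidAlgebra.coe_algebraMap]
        simp [io, MonoidAlgebra.mapDomainRingHom]
      rw [e]
      exact Subring.subset_closure (Or.inr rfl)
  exact key h

end Pool.Agent.Helper563_BV
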