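import Mathlib
import Pool.Agent.Helper563_BV.Defs
set_option autoImplicit false
namespace Pool.Agent.Helper563_BV


/-
PROOF OF THE TARGET IN WORDS
Notation: i_0, i_1, i_2 the ring homs (they commute for different indices), x i_k(a) = i_(k+1)(a) x, indices modulo 3, so x^2 i_k(a) = i_(k+2)(a) x^2.
(1) tau(i_0(a) i_1(b) i_2(c) x) = tau(i_1(b) (i_0(a) i_2(c) x)) = tau(i_0(a) i_2(c) x i_1(b)) = tau(i_0(a) i_2(c) i_2(b) x) = tau(i_2(cb) i_0(a) x)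
= tau(i_0(a) x i_2(cb)) = tau(i_0(a) i_0(cb) x) = tau(i_0(a c b) x).
(2) tau(i_2(c) i_0(a) i_1(b) x^2) = tau(i_0(a) i_1(b) x^2 i_2(c)) = tau(i_0(a) i_1(b) i_1(c) x^2) = tau(i_1(bc) i_0(a) x^2) =
tau(i_0(a) x^2 i_1(bc)) = tau(i_0(a) i_0(bc) x^2).
(3) x^j = x or x^2 according to j modulo 3. For X = x^j, X i_k(a) = i_(k+j)(a) X: tau(i_0(a) i_0(b) X) = tau(i_0(b) X i_0(a)) = tau(i_0(b) i_j(a) X) =
tau(i_j(a) i_0(b) X) = tau(i_0(b) X i_j(a)) = tau(i_0(b) i_(2j)(a) X) = tau(i_(2j)(a) i_0(b) X) = tau(i_0(b) X i_(2j)(a)) = tau(i_0(b) i_(3j)(a) X)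
= tau(i_0(b) i_0(a) X).
-/
theorem trW_pow {B A : Type*} [Ring B] [Ring A] (ι : ZMod 3 → B →+* A) (x : A)
    (hx : ∀ i a, x * ι i a = ι (i + 1) a * x) (j : ℕ) (k : ZMod 3) (a : B) :
    x ^ j * ι k a = ι (k + (j : ZMod 3)) a * x ^ j := by
  induction j with
  | zero => simp
  | succ j ih =>
    rw [pow_succ', mul_assoc, ih, ← mul_assoc, hx, mul_assoc]
    congr 3
    push_cast
    ring

theorem trW_cyc {B A : Type*} [Ring B] [Ring A] (ι : ZMod 3 → B →+* A)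
    (hι : ∀ i j, i ≠ j → ∀ a b, ι i a * ι j b = ι j b * ι i a) (τ : A →+ ℚ) (hτ : IsTr τ) (X : A)
    (m : ZMod 3) (hX : ∀ k a, X * ι k a = ι (k + m) a * X) (k : ZMod 3) (hk : k ≠ 0) (a b : B) :
    τ (ι 0 b * ι k a * X) = τ (ι 0 b * ι (k + m) a * X) := by
  rw [hι 0 k hk.symm, mul_assoc, hτ, mul_assoc, mul_assoc, hX]

-- TARGET
theorem trW {B A : Type*} [Ring B] [Ring A] (ι : ZMod 3 → B →+* A) (x : A)
    (hι : ∀ i j, i ≠ j → ∀ a b, ι i a * ι j b = ι j b * ι i a) (hx3 : x ^ 3 = 1)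
    (hx : ∀ i a, x * ι i a = ι (i + 1) a * x) (τ : A →+ ℚ) (hτ : IsTr τ) :
    (∀ a b c : B, τ (ι 0 a * ι 1 b * ι 2 c * x) = τ (ι 0 (a * c * b) * x)) ∧
    (∀ a b c : B, τ (ι 0 a * ι 1 b * ι 2 c * x ^ 2) = τ (ι 0 (a * b * c) * x ^ 2)) ∧
    (∀ j : ℕ, ¬ 3 ∣ j → ∀ a b : B, τ (ι 0 (a * b) * x ^ j) = τ (ι 0 (b * a) * x ^ j)) := by
  have h21 : (2 : ZMod 3) + 1 = 0 := by decide
  have h22 : (2 : ZMod 3) + 2 = 1 := by decide
  have h12 : (1 : ZMod 3) + 2 = 0 := by decide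
  have hx2 : ∀ k a, x ^ 2 * ι k a = ι (k + 2) a * x ^ 2 := fun k a => by
    have := trW_pow ι x hx 2 k a
    rw [this]
    norm_num
  refine ⟨fun a b c => ?_, fun a b c => ?_, fun j hj a b => ?_⟩
  · calc τ (ι 0 a * ι 1 b * ι 2 c * x) = τ (ι 1 b * (ι 0 a * ι 2 c * x)) := by
          rw [hι 0 1 (by decide)]
          simp only [mul_assoc]
      _ = τ ((ι 0 a * ι 2 c * x) * ι 1 b) := hτ _ _
      _ = τ (ι 0 a * ι 2 c * (x * ι 1 b)) := by simp only [mul_assoc]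
      _ = τ (ι 0 a * ι 2 c * (ι 2 b * x)) := by rw [hx]; rfl
      _ = τ (ι 0 a * ι 2 (c * b) * x) := by rw [RingHom.map_mul]; simp only [mul_assoc]
      _ = τ (ι 2 (c * b) * (ι 0 a * x)) := by rw [hι 0 2 (by decide), mul_assoc]
      _ = τ ((ι 0 a * x) * ι 2 (c * b)) := hτ _ _
      _ = τ (ι 0 a * (ι 0 (c * b) * x)) := by rw [mul_assoc, hx, h21]
      _ = τ (ι 0 (a * c * b) * x) := by
          rw [mul_assoc a c b, RingHom.map_mul (ι 0) a (c * b), mul_assoc]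
  · calc τ (ι 0 a * ι 1 b * ι 2 c * x ^ 2) = τ (ι 2 c * (ι 0 a * ι 1 b * x ^ 2)) := by
          rw [mul_assoc (ι 0 a), hι 1 2 (by decide), ← mul_assoc (ι 0 a), hι 0 2 (by decide)]
          simp only [mul_assoc]
      _ = τ ((ι 0 a * ι 1 b * x ^ 2) * ι 2 c) := hτ _ _
      _ = τ (ι 0 a * ι 1 b * (ι 1 c * x ^ 2)) := by rw [mul_assoc, hx2, h22]
      _ = τ (ι 0 a * ι 1 (b * c) * x ^ 2) := by rw [RingHom.map_mul]; simp only [mul_assoc]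
      _ = τ (ι 1 (b * c) * (ι 0 a * x ^ 2)) := by rw [hι 0 1 (by decide), mul_assoc]
      _ = τ ((ι 0 a * x ^ 2) * ι 1 (b * c)) := hτ _ _
      _ = τ (ι 0 a * (ι 0 (b * c) * x ^ 2)) := by rw [mul_assoc, hx2, h12]
      _ = τ (ι 0 (a * b * c) * x ^ 2) := by
          rw [mul_assoc a b c, RingHom.map_mul (ι 0) a (b * c), mul_assoc]
  · have hm : ((j : ℕ) : ZMod 3) ≠ 0 := by
      rw [Ne, ZMod.natCast_eq_zero_iff]
      exact hj
    have hm2 : ((j : ℕ) : ZMod 3) + (j : ℕ) ≠ 0 := by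
      generalize ((j : ℕ) : ZMod 3) = m at hm
      revert hm
      revert m
      decide
    have hm3 : ((j : ℕ) : ZMod 3) + (j : ℕ) + (j : ℕ) = 0 := by
      generalize ((j : ℕ) : ZMod 3) = m
      revert m
      decide
    have hX := trW_pow ι x hx j
    calc τ (ι 0 (a * b) * x ^ j) = τ (ι 0 a * (ι 0 b * x ^ j)) := by rw [RingHom.map_mul, mul_assoc]
      _ = τ ((ι 0 b * x ^ j) * ι 0 a) := hτ _ _
      _ = τ (ι 0 b * ι ((j : ℕ) : ZMod 3) a * x ^ j) := by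
          rw [mul_assoc, hX, zero_add, mul_assoc]
      _ = τ (ι 0 b * ι (((j : ℕ) : ZMod 3) + (j : ℕ)) a * x ^ j) :=
          trW_cyc ι hι τ hτ _ _ hX _ hm a b
      _ = τ (ι 0 b * ι (((j : ℕ) : ZMod 3) + (j : ℕ) + (j : ℕ)) a * x ^ j) :=
          trW_cyc ι hι τ hτ _ _ hX _ hm2 a b
      _ = τ (ι 0 (b * a) * x ^ j) := by rw [hm3, RingHom.map_mul]

end Pool.Agent.Helper563_BV
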