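import Mathlib
import Pool.Agent.Helper563_BV.Defs
import Pool.Agent.Helper563_BV.H1
import Pool.Agent.Helper563_BV.W1
import Pool.Agent.Helper563_BV.H3
set_option autoImplicit false
namespace Pool.Agent.Helper563_BV





/-
PROOF OF THE TARGET IN WORDS
Let tau'(b) = tau(io 0 b * X^j). By trW (3) tau'(a b) = tau'(b a). X^j = X or X^2. trW (1), (2): tau((io 0 e io 1 e io 2 e) X^j) = tau'(e e e) = tau'(e). Sum over b: 9 tau'((1/3)(1-s)(1+t)) =
3 (tau'(1) - tau'(s) + tau'(t) - tau'(s t)) with s = sB, t = tB, and s t is conjugate to t: with t s = s^2 t, s^3 = 1: s^2 t s^(-2) = s^2 t s = s^2 s^2 t = s t; so tau'(s t) = tau'(t). Additive maps into Q are Q-linear.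
-/
theorem tr2_alg {G : Type*} [Group G] (t s : G) (g2 : s ^ 3 = 1) (g3 : t * s = s⁻¹ * t) :
    MonoidAlgebra.of ℚ G t * MonoidAlgebra.of ℚ G s
      = MonoidAlgebra.of ℚ G s * MonoidAlgebra.of ℚ G s * MonoidAlgebra.of ℚ G t ∧
    MonoidAlgebra.of ℚ G s * MonoidAlgebra.of ℚ G s * MonoidAlgebra.of ℚ G s = 1 := by
  have h3 : s * s * s = 1 := by
    rw [← g2, pow_succ, pow_two]
  have hi : s⁻¹ = s * s := inv_eq_of_mul_eq_one_left h3
  constructor
  · rw [← map_mul, ← map_mul, ← map_mul, g3, hi]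
  · rw [← map_mul, ← map_mul, h3, map_one]

-- TARGET
theorem tr2 (κ : Type) [Fintype κ] [DecidableEq κ] {Bl : Type} [Fintype Bl]
    (e : Bl → MonoidAlgebra ℚ (YY κ)) (he : ∀ b, e b * e b = e b)
    (hsum : ∑ b, e b = (1 / 3 : ℚ) • ((1 - sB κ) * (1 + tB κ)))
    (τ : MonoidAlgebra ℚ (GG κ) →+ ℚ) (hτ : IsTr τ) (j : ℕ) (hj : ¬ 3 ∣ j) :
    ∑ b, τ ((io κ 0 (e b) * io κ 1 (e b) * io κ 2 (e b)) * (9 * X κ ^ j))
      = 3 * τ (X κ ^ j) - 3 * τ (io κ 0 (sB κ) * X κ ^ j) := by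
  obtain ⟨w1, w2, w3⟩ := wreath_rel κ
  obtain ⟨t1, t2, t3⟩ := trW (io κ) (X κ) w1 w2 w3 τ hτ
  have t3' := t3 j hj
  -- reduction of the exponent
  have hmod : j % 3 = 1 ∨ j % 3 = 2 := by omega
  have hXj : X κ ^ j = X κ ^ (j % 3) := by
    conv_lhs => rw [← Nat.div_add_mod j 3, pow_add, pow_mul, w2, one_pow, one_mul]
  have hred : ∀ b, τ (io κ 0 (e b) * io κ 1 (e b) * io κ 2 (e b) * X κ ^ j)
      = τ (io κ 0 (e b) * X κ ^ j) := by
    intro b
    rw [hXj]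
    rcases hmod with h | h
    · rw [h, pow_one, t1, he, he]
    · rw [h, t2, he, he]
  have h9 : ∀ b, τ ((io κ 0 (e b) * io κ 1 (e b) * io κ 2 (e b)) * (9 * X κ ^ j))
      = 9 * τ (io κ 0 (e b) * X κ ^ j) := by
    intro b
    rw [← hred b]
    have h1 : (io κ 0 (e b) * io κ 1 (e b) * io κ 2 (e b)) * (9 * X κ ^ j)
        = (9 : ℕ) • ((io κ 0 (e b) * io κ 1 (e b) * io κ 2 (e b)) * X κ ^ j) := by
      rw [nsmul_eq_mul, ← mul_assoc, ← mul_assoc]
      congr 1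
      push_cast
      exact ((Nat.cast_commute 9 _).eq).symm
    rw [h1, map_nsmul, nsmul_eq_mul]
    norm_num
  -- the additive map b ↦ τ (io 0 b * X^j)
  let T : MonoidAlgebra ℚ (YY κ) →+ ℚ :=
    (τ.comp (AddMonoidHom.mulRight (X κ ^ j))).comp (io κ 0).toAddMonoidHom
  have hT : ∀ b, T b = τ (io κ 0 b * X κ ^ j) := fun b => rfl
  have hTtr : ∀ a b, T (a * b) = T (b * a) := fun a b => t3' a b
  have hs : ∑ b, τ ((io κ 0 (e b) * io κ 1 (e b) * io κ 2 (e b)) * (9 * X κ ^ j))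
      = 9 * T (∑ b, e b) := by
    rw [map_sum, Finset.mul_sum]
    exact Finset.sum_congr rfl fun b _ => by rw [h9 b, hT]
  obtain ⟨g1, g2, g3, -⟩ := grp_rel κ
  obtain ⟨ts, s3⟩ := tr2_alg (tP κ) (sP κ) g2 g3
  change tB κ * sB κ = sB κ * sB κ * tB κ at ts
  change sB κ * sB κ * sB κ = 1 at s3
  have hst : T (sB κ * tB κ) = T (tB κ) := by
    have e1 : sB κ * tB κ = (sB κ * sB κ) * (tB κ * sB κ) := by
      rw [ts]
      calc sB κ * tB κ = (sB κ * sB κ * sB κ) * sB κ * tB κ := by rw [s3, one_mul]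
        _ = sB κ * sB κ * (sB κ * sB κ * tB κ) := by simp only [mul_assoc]
    rw [e1, hTtr]
    have e2 : tB κ * sB κ * (sB κ * sB κ) = tB κ * (sB κ * sB κ * sB κ) := by
      simp only [mul_assoc]
    rw [e2, s3, mul_one]
  rw [hs, hsum, map_rat_smul T]
  have e3 : (1 - sB κ) * (1 + tB κ) = 1 + tB κ - sB κ - sB κ * tB κ := by
    rw [sub_mul, one_mul, mul_add, mul_one]
    abel
  rw [e3, map_sub, map_sub, map_add, hst, hT 1, map_one, one_mul, hT (sB κ)]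
  simp only [smul_eq_mul]
  ring

end Pool.Agent.Helper563_BV
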