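import Mathlib
import Pool.Agent.Helper563_BV.Defs
set_option autoImplicit false
namespace Pool.Agent.Helper563_BV

theorem idl_mul_left {A : Type*} [Ring A] (f : A) (a z : A) (hz : z ∈ Idl f) : a * z ∈ Idl f := by
  induction hz using AddSubgroup.closure_induction with
  | mem x hx =>
    obtain ⟨c, d, rfl⟩ := hx
    exact AddSubgroup.subset_closure ⟨a * c, d, by simp only [mul_assoc]⟩
  | zero => rw [mul_zero]; exact zero_mem _
  | add x y _ _ hx hy => rw [mul_add]; exact add_mem hx hy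
  | neg x _ hx => rw [mul_neg]; exact neg_mem hx

theorem idl_mul_right {A : Type*} [Ring A] (f : A) (a z : A) (hz : z ∈ Idl f) : z * a ∈ Idl f := by
  induction hz using AddSubgroup.closure_induction with
  | mem x hx =>
    obtain ⟨c, d, rfl⟩ := hx
    exact AddSubgroup.subset_closure ⟨c, d * a, by simp only [mul_assoc]⟩
  | zero => rw [zero_mul]; exact zero_mem _
  | add x y _ _ hx hy => rw [add_mul]; exact add_mem hx hy
  | neg x _ hx => rw [neg_mul]; exact neg_mem hx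

/-- product rule for triple tensors -/
theorem T_mul {B A : Type*} [Ring B] [Ring A] (ι : ZMod 3 → B →+* A)
    (hι : ∀ i j, i ≠ j → ∀ a b, ι i a * ι j b = ι j b * ι i a) (a b c a' b' c' : B) :
    (ι 0 a * ι 1 b * ι 2 c) * (ι 0 a' * ι 1 b' * ι 2 c')
      = ι 0 (a * a') * ι 1 (b * b') * ι 2 (c * c') := by
  have h01 : ι 1 b * ι 0 a' = ι 0 a' * ι 1 b := hι 1 0 (by decide) b a'
  have h02 : ι 2 c * ι 0 a' = ι 0 a' * ι 2 c := hι 2 0 (by decide) c a'
  have h12 : ι 2 c * ι 1 b' = ι 1 b' * ι 2 c := hι 2 1 (by decide) c b'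
  calc (ι 0 a * ι 1 b * ι 2 c) * (ι 0 a' * ι 1 b' * ι 2 c')
      = ι 0 a * ι 1 b * (ι 2 c * ι 0 a') * ι 1 b' * ι 2 c' := by simp only [mul_assoc]
    _ = ι 0 a * (ι 1 b * ι 0 a') * (ι 2 c * ι 1 b') * ι 2 c' := by
        rw [h02]; simp only [mul_assoc]
    _ = ι 0 (a * a') * ι 1 (b * b') * ι 2 (c * c') := by
        rw [h01, h12]; simp only [mul_assoc, map_mul]

/-- the cyclic element moves triple tensors -/
theorem T_X {B A : Type*} [Ring B] [Ring A] (ι : ZMod 3 → B →+* A) (x : A)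
    (hι : ∀ i j, i ≠ j → ∀ a b, ι i a * ι j b = ι j b * ι i a)
    (hx : ∀ i a, x * ι i a = ι (i + 1) a * x) (a b c : B) :
    x * (ι 0 a * ι 1 b * ι 2 c) = (ι 0 c * ι 1 a * ι 2 b) * x := by
  have h0 : x * ι 0 a = ι 1 a * x := by simpa using hx 0 a
  have h1 : x * ι 1 b = ι 2 b * x := by
    have := hx 1 b
    rwa [show (1 : ZMod 3) + 1 = 2 from by decide] at this
  have h2 : x * ι 2 c = ι 0 c * x := by
    have := hx 2 c
    rwa [show (2 : ZMod 3) + 1 = 0 from by decide] at this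
  have e1 : ι 2 b * ι 0 c = ι 0 c * ι 2 b := hι 2 0 (by decide) b c
  have e2 : ι 1 a * ι 0 c = ι 0 c * ι 1 a := hι 1 0 (by decide) a c
  calc x * (ι 0 a * ι 1 b * ι 2 c) = (x * ι 0 a) * ι 1 b * ι 2 c := by simp only [mul_assoc]
    _ = ι 1 a * (x * ι 1 b) * ι 2 c := by rw [h0]; simp only [mul_assoc]
    _ = ι 1 a * ι 2 b * (x * ι 2 c) := by rw [h1]; simp only [mul_assoc]
    _ = ι 1 a * (ι 2 b * ι 0 c) * x := by rw [h2]; simp only [mul_assoc]
    _ = (ι 1 a * ι 0 c) * ι 2 b * x := by rw [e1]; simp only [mul_assoc]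
    _ = (ι 0 c * ι 1 a * ι 2 b) * x := by rw [e2]


end Pool.Agent.Helper563_BV
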