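import Mathlib
import Pool.Agent.Helper563_BV.Defs
import Pool.Agent.Helper563_BV.Tens
import Pool.Agent.Helper563_BV.R2
import Pool.Agent.Helper563_BV.R3
import Pool.Agent.Helper563_BV.M2
import Pool.Agent.Helper563_BV.H1
import Pool.Agent.Helper563_BV.H2
import Pool.Agent.Helper563_BV.H3
import Pool.Agent.Helper563_BV.H4
import Pool.Agent.Helper563_BV.S1
import Pool.Agent.Helper563_BV.S3
import Pool.Agent.Helper563_BV.S0
import Pool.Agent.Helper563_BV.G2a
import Pool.Agent.Helper563_BV.G2b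
import Pool.Agent.Helper563_BV.G2c
import Pool.Agent.Helper563_BV.G2d
import Pool.Agent.Helper563_BV.G2e
import Pool.Agent.Helper563_BV.G2f
import Pool.Agent.Helper563_BV.G2g
set_option autoImplicit false
namespace Pool.Agent.Helper563_BV

theorem Idl_mono' {A : Type*} [Ring A] (e f : A) (h : e ∈ Idl f) : Idl e ≤ Idl f := by
  refine (AddSubgroup.closure_le _).2 ?_
  rintro z ⟨a, b, rfl⟩
  exact idl_mul_right _ _ _ (idl_mul_left _ _ _ h)

/-- the functional evaluation at z -/
noncomputable def Mz {κ : Type} [Fintype κ] [DecidableEq κ] (z : ZZ κ) : MonoidAlgebra ℚ (YY κ) :=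
  eps (Pi.single z (1 : ZMod 3) : VV κ)

theorem single_ne_zero' {κ : Type} [Fintype κ] [DecidableEq κ] (z : ZZ κ) :
    (Pi.single z (1 : ZMod 3) : VV κ) ≠ 0 := by
  intro h
  have := congrFun h z
  rw [Pi.single_eq_same, Pi.zero_apply] at this
  exact absurd this (by decide)

theorem Mz_mul {κ : Type} [Fintype κ] [DecidableEq κ] (z z' : ZZ κ) :
    Mz z * Mz z' = if z = z' then Mz z else 0 := by
  by_cases h : z = z'
  · subst h
    rw [if_pos rfl]
    exact eps_idem _ (single_ne_zero' z)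
  · rw [if_neg h]
    refine eps_orth _ _ (single_ne_zero' z) (single_ne_zero' z') ?_ ?_
    · intro h'
      have := congrFun h' z'
      rw [Pi.single_eq_same, Pi.single_eq_of_ne (Ne.symm h)] at this
      exact absurd this (by decide)
    · intro h'
      have := congrFun h' z'
      rw [Pi.single_eq_same, Pi.neg_apply, Pi.single_eq_of_ne (Ne.symm h)] at this
      exact absurd this (by decide)

theorem y0_Mz {κ : Type} [Fintype κ] [DecidableEq κ] (z : ZZ κ) :
    y0 κ * Mz z = Mz (shZ κ z) * y0 κ := by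
  have h := eps_conj (Pi.single z (1 : ZMod 3) : VV κ) (Pi.single (shZ κ z) (1 : ZMod 3) : VV κ)
    (LinearEquiv.funCongrLeft (ZMod 3) (ZMod 3) (shZ κ).symm) (by
      intro v
      rw [single_dotProduct, single_dotProduct]
      simp [LinearEquiv.funCongrLeft_apply])
  exact h

theorem y0_pow_Mz {κ : Type} [Fintype κ] [DecidableEq κ] (i : ℕ) (z : ZZ κ) :
    y0 κ ^ i * Mz z = Mz ((shZ κ ^ i) z) * y0 κ ^ i := by
  induction i with
  | zero => simp
  | succ n ih =>
    rw [pow_succ', mul_assoc, ih, ← mul_assoc, y0_Mz, pow_succ' (shZ κ), mul_assoc, ← pow_succ']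
    rfl

theorem side2 (κ : Type) [Fintype κ] [DecidableEq κ] (hκ : 3 ≤ Fintype.card κ)
    (E0 : MonoidAlgebra ℚ (YY κ)) (hE0 : (1 - tB κ) ∈ Idl E0) :
    ∃ u : MonoidAlgebra ℚ (GG κ), u ∈ ZI 3 (GG κ) ∧ u ^ 27 = 1 ∧
    (∀ τ : MonoidAlgebra ℚ (GG κ) →+ ℚ, IsTr τ → ∀ j : ℕ,
      (¬ 3 ∣ j → τ (u ^ j) = τ (yy κ ^ j) + 3 * τ (X κ ^ j) - 3 * τ (io κ 0 (sB κ) * X κ ^ j)) ∧
      (3 ∣ j → τ (u ^ j) = τ (yy κ ^ j))) ∧
    u - yy κ ∈ Idl (io κ 0 E0 * io κ 1 E0 * io κ 2 E0) := by
  classical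
  obtain ⟨hι, hX3, hXι⟩ := wreath_rel κ
  obtain ⟨hy9, hy27⟩ := y_rel κ
  obtain ⟨f⟩ := Function.Embedding.nonempty_of_card_le (α := Fin 3) (β := κ) (by simpa using hκ)
  -- orthogonality relations
  have horth : ∀ (b b' : Bool) (i : ℕ) (k k' : Fin 3),
      Mz (lab (f k) b) * y0 κ ^ i * Mz (lab (f k') b')
        = if 9 ∣ i ∧ k = k' ∧ b = b' then Mz (lab (f k) b) else 0 := by
    intro b b' i k k'
    rw [mul_assoc, y0_pow_Mz, ← mul_assoc, Mz_mul]
    by_cases h : 9 ∣ i ∧ k = k' ∧ b = b'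
    · have h' := (lab_rel κ i (f k') (f k) b' b).2 ⟨h.1, congrArg f h.2.1.symm, h.2.2.symm⟩
      rw [if_pos h'.symm, if_pos h]
      obtain ⟨c, rfl⟩ := h.1
      rw [pow_mul, hy9, one_pow, mul_one]
    · rw [if_neg h, if_neg, zero_mul]
      intro h'
      have := (lab_rel κ i (f k') (f k) b' b).1 h'.symm
      exact h ⟨this.1, f.injective this.2.1.symm, this.2.2.symm⟩
  -- the base idempotents
  set e : {l : VV κ // l 0 = 1} → MonoidAlgebra ℚ (YY κ) := fun l => eps l.1 with he
  have hl0 : ∀ l : {l : VV κ // l 0 = 1}, l.1 ≠ 0 := by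
    intro l h
    have := l.2
    rw [h, Pi.zero_apply] at this
    exact absurd this (by decide)
  have hee : ∀ l, e l * e l = e l := fun l => eps_idem _ (hl0 l)
  have hel : ∀ l l', e l * e l' = if l = l' then e l else 0 := by
    intro l l'
    by_cases h : l = l'
    · subst h; rw [if_pos rfl, hee]
    · rw [if_neg h]
      refine eps_orth _ _ (hl0 l) (hl0 l') (fun h' => h (Subtype.ext h'.symm)) ?_
      intro h'
      have h0 := congrFun h' 0
      rw [Pi.neg_apply, l.2, l'.2] at h0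
      exact absurd h0 (by decide)
  -- the intertwining group elements
  have hU : ∀ (l : {l : VV κ // l 0 = 1}) (z : ZZ κ), ∃ U U' : MonoidAlgebra ℚ (YY κ),
      U * U' = 1 ∧ U' * U = 1 ∧ U * Mz z = e l * U ∧ U ∈ ZI 3 (YY κ) ∧ U' ∈ ZI 3 (YY κ) := by
    intro l z
    obtain ⟨h, hh⟩ := lin_trans (Pi.single z (1 : ZMod 3) : VV κ) l.1 (single_ne_zero' z) (hl0 l)
    refine ⟨MonoidAlgebra.of ℚ (YY κ) h.toEquiv,
      MonoidAlgebra.of ℚ (YY κ) ((h.toEquiv : YY κ)⁻¹), ?_, ?_, ?_, ?_, ?_⟩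
    · rw [← map_mul, mul_inv_cancel, map_one]
    · rw [← map_mul, inv_mul_cancel, map_one]
    · exact eps_conj _ _ h hh
    · exact Subring.subset_closure (Or.inl ⟨_, rfl⟩)
    · exact Subring.subset_closure (Or.inl ⟨_, rfl⟩)
  choose U U' hUU hUU' hUM hUZ hUZ' using hU
  have hr : ∀ l z, (e l * U l z) * Mz z = e l * U l z ∧
      Mz z * (U' l z * e l) = U' l z * e l ∧ (e l * U l z) * (U' l z * e l) = e l := by
    intro l z
    refine ⟨?_, ?_, ?_⟩
    · rw [mul_assoc, hUM, ← mul_assoc, hee]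
    · have h1 : Mz z * U' l z = U' l z * e l := by
        calc Mz z * U' l z = (U' l z * U l z) * Mz z * U' l z := by rw [hUU', one_mul]
          _ = U' l z * (U l z * Mz z) * U' l z := by simp only [mul_assoc]
          _ = U' l z * e l * (U l z * U' l z) := by rw [hUM]; simp only [mul_assoc]
          _ = U' l z * e l := by rw [hUU, mul_one]
      rw [← mul_assoc, h1, mul_assoc, hee]
    · calc (e l * U l z) * (U' l z * e l) = e l * (U l z * U' l z) * e l := by
            simp only [mul_assoc]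
        _ = e l := by rw [hUU, mul_one, hee]
  have hpq := orbit (io κ) (X κ) hι hX3 hXι (y0 κ) hy9 (Bl := {l : VV κ // l 0 = 1}) (K := Fin 3)
    e (fun k => Mz (lab (f k) true)) (fun k => Mz (lab (f k) false))
    (fun l k => e l * U l (lab (f k) true)) (fun l k => U' l (lab (f k) true) * e l)
    (fun l k => e l * U l (lab (f k) false)) (fun l k => U' l (lab (f k) false) * e l)
    hel
    (by
      intro i k k'
      rw [horth]
      simp)
    (by
      intro i k k'
      rw [horth]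
      simp)
    (by
      intro i k k'
      rw [horth]
      simp)
    (by
      intro i k k'
      rw [horth]
      simp)
    (fun l k => hr l _) (fun l k => hr l _)
  set F : {l : VV κ // l 0 = 1} → MonoidAlgebra ℚ (GG κ) :=
    fun l => io κ 0 (e l) * io κ 1 (e l) * io κ 2 (e l) with hF
  have hFX : ∀ b, F b * X κ = X κ * F b := by
    intro b
    simp only [hF]
    rw [T_X (io κ) (X κ) hι hXι]
  obtain ⟨N, iN, dN, c, hN, hc, hcS, hctr, hctr0⟩ := mat2 (X κ) hX3
  have hFc : ∀ b n n', F b * c n n' = c n n' * F b := by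
    intro b n n'
    have : c n n' ∈ (Subring.centralizer {F b} : Subring (MonoidAlgebra ℚ (GG κ))) := by
      refine (Subring.closure_le.2 ?_) (hcS n n')
      intro a ha
      rw [Set.mem_singleton_iff] at ha
      subst ha
      rw [SetLike.mem_coe, Subring.mem_centralizer_iff]
      intro g hg
      rw [Set.mem_singleton_iff] at hg
      subst hg
      exact hFX b
    rw [Subring.mem_centralizer_iff] at this
    exact this (F b) (Set.mem_singleton _)
  obtain ⟨u, hu27, hutr, huS, huJ, -⟩ := side (yy κ) hy27 F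
    (fun l (k : Fin 3) => io κ 0 (e l) * io κ 1 (e l * U l (lab (f k) true))
      * io κ 2 (e l * U l (lab (f k) false)))
    (fun l k => io κ 0 (e l) * io κ 1 (U' l (lab (f k) true) * e l)
      * io κ 2 (U' l (lab (f k) false) * e l))
    (by
      intro l k
      have h1 : ∀ z, e l * (e l * U l z) = e l * U l z := fun z => by rw [← mul_assoc, hee]
      simp only [hF]
      rw [T_mul (io κ) hι, hee, h1, h1])
    (by
      intro l k
      have h1 : ∀ z, U' l z * e l * e l = U' l z * e l := fun z => by rw [mul_assoc, hee]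
      simp only [hF]
      rw [T_mul (io κ) hι, hee, h1, h1])
    hpq c (by rw [hN, Fintype.card_fin]) hc hFc
  refine ⟨u, ?_, hu27, ?_, ?_⟩
  · have hXZ : X κ ∈ ZI 3 (GG κ) := Subring.subset_closure (Or.inl ⟨_, rfl⟩)
    have heZ : ∀ l, e l ∈ ZI 3 (YY κ) := fun l => eps_ZI _
    refine huS (ZI 3 (GG κ)) ?_ ?_ ?_
    · exact mul_mem (io_ZI κ 0 3 _ (Subring.subset_closure (Or.inl ⟨_, rfl⟩))) hXZ
    · intro l k
      exact ⟨mul_mem (mul_mem (io_ZI κ _ 3 _ (heZ l)) (io_ZI κ _ 3 _ (mul_mem (heZ l) (hUZ _ _))))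
        (io_ZI κ _ 3 _ (mul_mem (heZ l) (hUZ _ _))), mul_mem (mul_mem (io_ZI κ _ 3 _ (heZ l))
        (io_ZI κ _ 3 _ (mul_mem (hUZ' _ _) (heZ l)))) (io_ZI κ _ 3 _ (mul_mem (hUZ' _ _) (heZ l)))⟩
    · intro n n'
      refine (Subring.closure_le.2 ?_) (hcS n n')
      intro a ha
      rw [Set.mem_singleton_iff] at ha
      subst ha
      exact hXZ
  · intro τ hτ j
    constructor
    · intro hj
      have h27 : ¬ 27 ∣ j := fun h => hj (dvd_trans (by norm_num) h)
      rw [hutr τ hτ j h27, hctr j hj]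
      have hsum : ∑ l, e l = (1 / 3 : ℚ) • ((1 - sB κ) * (1 + tB κ)) := by
        have h1 := eps_sum (Ω := ZZ κ) (0 : ZZ κ)
        have h2 : (1 / 3 : ℚ) • ((1 - sB κ) * (1 + tB κ))
            = ∑ l ∈ Finset.univ.filter (fun l : VV κ => l 0 = 1), eps l := h1.symm
        rw [h2, he]
        exact (Finset.sum_subtype (Finset.univ.filter (fun l : VV κ => l 0 = 1))
          (p := fun l : VV κ => l 0 = 1) (by intro x; simp) (fun l => eps l)).symm
      rw [tr2 κ e hee hsum τ hτ j hj]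
      ring
    · intro hj
      by_cases h27 : 27 ∣ j
      · obtain ⟨d, rfl⟩ := h27
        rw [pow_mul, hu27, one_pow, pow_mul, hy27, one_pow]
      · rw [hutr τ hτ j h27, hctr0 j hj h27]
        simp
  · refine huJ _ (fun a z hz => ⟨idl_mul_left _ a z hz, idl_mul_right _ a z hz⟩) ?_
    intro l
    refine idl_T (io κ) hι E0 (e l) ?_
    have h1 : e l ∈ Idl (1 - tB κ) := eps_ideal l.1 (hl0 l)
    exact Idl_mono' _ _ hE0 h1

end Pool.Agent.Helper563_BV
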