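import Mathlib
import Pool.Agent.Helper563_BV.Defs
import Pool.Agent.Helper563_BV.H1
import Pool.Agent.Helper563_BV.W1
import Pool.Agent.Helper563_BV.H3
set_option autoImplicit false
namespace Pool.Agent.Helper563_BV





/-
PROOF OF THE TARGET IN WORDS
Let S = sB + sB^2, tau'(b) = tau(io 0 b * X^j). By trW (3) tau'(a b) = tau'(b a). X^j = X or X^2 (j mod 3, X^3 = 1). With P = P z, P P = P, P S = S P:
(io 0 P * io 1 P * io 2 P) * (2 - io 0 S) * X^j = io 0 (P (2 - S)) * io 1 P * io 2 P * X^j, and trW (1), (2) give tau = tau'(P (2-S) P P) = tau'(P (2 - S)). Sum over z: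
3 tau'((1/2)(1 - tB)(2 - S)) = (3/2) tau'(2 - s - s^2 - 2t + t s + t s^2) with s = sB, t = tB. From t t = 1, t s = s^(-1) t = s^2 t, s^3 = 1 (grp_rel): tau'(s^2) = tau'(t s t) = tau'(s);
t s = s^2 t = s (s t) and tau'(t s): s^(-1) (t s ...) precisely s t s^(-1) = s s t = s^2 t = t s so tau'(t s) = tau'(t); t s^2 = s t (since t s^2 = s^2 t s = s^2 s^2 t = s t) = s^2 t s^(-2) so tau'(t s^2) = tau'(t).
Total (3/2)(2 tau'(1) - 2 tau'(s)) = 3 tau'(1) - 3 tau'(s). Additive maps into Q are Q-linear (map_rat_smul).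
-/
theorem tr3_expand {B : Type*} [Ring B] (f : B →+ ℚ) (htr : ∀ a b : B, f (a * b) = f (b * a))
    (s t : B) (htt : t * t = 1) (hs3 : s ^ 3 = 1) (hts : t * s = s ^ 2 * t) :
    f ((1 - t) * (2 - (s + s ^ 2))) = 2 * f 1 - 2 * f s := by
  have h0 : (1 - t) * (2 - (s + s ^ 2)) = 1 + 1 - s - s ^ 2 - t - t + t * s + t * s ^ 2 := by
    have h2 : (2 : B) = 1 + 1 := one_add_one_eq_two.symm
    rw [h2]
    noncomm_ring
  have h1 : f (s ^ 2) = f s := by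
    have : s ^ 2 = (t * s) * t := by
      rw [hts, mul_assoc, htt, mul_one]
    rw [this, htr, ← mul_assoc, htt, one_mul]
  have h2 : f (t * s) = f t := by
    have h3 : t * s = s * (s * t) := by
      rw [hts, pow_two, mul_assoc]
    have h4 : (s * t) * s = t := by
      rw [mul_assoc, hts, ← mul_assoc, ← pow_succ', hs3, one_mul]
    rw [h3, htr, h4]
  have h3 : f (t * s ^ 2) = f t := by
    have h4 : t * s ^ 2 = s * t := by
      have h5 : s ^ 2 * s ^ 2 = s := by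
        rw [← pow_add, show 2 + 2 = 3 + 1 from rfl, pow_succ, hs3, one_mul]
      rw [pow_two, ← mul_assoc, hts, mul_assoc, hts, ← mul_assoc, h5]
    rw [h4, htr, h2]
  rw [h0]
  simp only [map_add, map_sub]
  rw [h1, h2, h3]
  ring

/-- The twisted trace. -/
noncomputable def tr3_tau (κ : Type) (τ : MonoidAlgebra ℚ (GG κ) →+ ℚ) (j : ℕ) :
    MonoidAlgebra ℚ (YY κ) →+ ℚ :=
  τ.comp ((AddMonoidHom.mulRight (X κ ^ j)).comp (io κ 0).toAddMonoidHom)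

theorem tr3_key (κ : Type) (P S : MonoidAlgebra ℚ (YY κ)) (hP : P * P = P) (hS : P * S = S * P)
    (τ : MonoidAlgebra ℚ (GG κ) →+ ℚ) (hτ : IsTr τ) (j : ℕ) (hj : ¬ 3 ∣ j) :
    τ ((io κ 0 P * io κ 1 P * io κ 2 P) * (2 - io κ 0 S) * X κ ^ j)
      = τ (io κ 0 (P * (2 - S)) * X κ ^ j) := by
  obtain ⟨hcomm, hX3, hXi⟩ := wreath_rel κ
  obtain ⟨ht1, ht2, ht3⟩ := trW (io κ) (X κ) hcomm hX3 hXi τ hτ
  have hc : P * (2 - S) * P * P = P * (2 - S) := by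
    have h1 : (2 - S) * P = P * (2 - S) := by
      rw [sub_mul, mul_sub, hS, two_mul, mul_two]
    rw [mul_assoc P, h1, ← mul_assoc P, hP, mul_assoc, h1, ← mul_assoc, hP]
  have h2 : (2 : MonoidAlgebra ℚ (GG κ)) - io κ 0 S = io κ 0 (2 - S) := by
    rw [map_sub, map_ofNat]
  have h3 : (io κ 0 P * io κ 1 P * io κ 2 P) * (2 - io κ 0 S)
      = io κ 0 (P * (2 - S)) * io κ 1 P * io κ 2 P := by
    rw [h2]
    have c1 := hcomm 1 0 (by decide) P (2 - S)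
    have c2 := hcomm 2 0 (by decide) P (2 - S)
    rw [mul_assoc (io κ 0 P * io κ 1 P), c2, ← mul_assoc, mul_assoc (io κ 0 P) (io κ 1 P), c1,
      ← mul_assoc, ← map_mul]
  rw [h3]
  have hmod : X κ ^ j = X κ ^ (j % 3) := by
    conv_lhs => rw [← Nat.div_add_mod j 3]
    rw [pow_add, pow_mul, hX3, one_pow, one_mul]
  have hj' : j % 3 = 1 ∨ j % 3 = 2 := by omega
  rcases hj' with h | h
  · rw [hmod, h, pow_one, ht1, hc]
  · rw [hmod, h, ht2, hc]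

-- TARGET
theorem tr3 (κ : Type) [Fintype κ] [DecidableEq κ] (P : ZZ κ → MonoidAlgebra ℚ (YY κ))
    (hP : ∀ z, P z * P z = P z)
    (hS : ∀ z, P z * (sB κ + sB κ ^ 2) = (sB κ + sB κ ^ 2) * P z)
    (hsum : ∑ z, P z = (1 / 2 : ℚ) • (1 - tB κ))
    (τ : MonoidAlgebra ℚ (GG κ) →+ ℚ) (hτ : IsTr τ) (j : ℕ) (hj : ¬ 3 ∣ j) :
    ∑ z, 3 * τ ((io κ 0 (P z) * io κ 1 (P z) * io κ 2 (P z)) * (2 - io κ 0 (sB κ + sB κ ^ 2))
        * X κ ^ j)
      = 3 * τ (X κ ^ j) - 3 * τ (io κ 0 (sB κ) * X κ ^ j) := by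
  obtain ⟨hcomm, hX3, hXi⟩ := wreath_rel κ
  obtain ⟨ht1, ht2, ht3⟩ := trW (io κ) (X κ) hcomm hX3 hXi τ hτ
  obtain ⟨gtt, gs3, gts, -⟩ := grp_rel κ
  have att : tB κ * tB κ = 1 := by
    rw [tB, ← map_mul, gtt, map_one]
  have as3 : sB κ ^ 3 = 1 := by
    rw [sB, ← map_pow, gs3, map_one]
  have ats : tB κ * sB κ = sB κ ^ 2 * tB κ := by
    have hs : (sP κ)⁻¹ = sP κ ^ 2 := by
      rw [inv_eq_iff_mul_eq_one, ← pow_succ', gs3]
    rw [tB, sB, ← map_mul, gts, hs, map_mul, map_pow]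
  have key : ∀ z, τ ((io κ 0 (P z) * io κ 1 (P z) * io κ 2 (P z)) * (2 - io κ 0 (sB κ + sB κ ^ 2))
        * X κ ^ j) = τ (io κ 0 (P z * (2 - (sB κ + sB κ ^ 2))) * X κ ^ j) :=
    fun z => tr3_key κ (P z) (sB κ + sB κ ^ 2) (hP z) (hS z) τ hτ j hj
  have htr : ∀ a b, tr3_tau κ τ j (a * b) = tr3_tau κ τ j (b * a) := fun a b => ht3 j hj a b
  have e1 : ∑ z, 3 * τ ((io κ 0 (P z) * io κ 1 (P z) * io κ 2 (P z)) * (2 - io κ 0 (sB κ + sB κ ^ 2))
        * X κ ^ j) = 3 * tr3_tau κ τ j ((∑ z, P z) * (2 - (sB κ + sB κ ^ 2))) := by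
    rw [Finset.sum_mul, map_sum, Finset.mul_sum]
    refine Finset.sum_congr rfl (fun z _ => ?_)
    rw [key z]
    rfl
  rw [e1, hsum, smul_mul_assoc, map_rat_smul]
  have e2 := tr3_expand (tr3_tau κ τ j) htr (sB κ) (tB κ) att as3 ats
  rw [e2]
  have e3 : tr3_tau κ τ j 1 = τ (X κ ^ j) := by
    show τ (io κ 0 1 * X κ ^ j) = _
    rw [map_one, one_mul]
  have e4 : tr3_tau κ τ j (sB κ) = τ (io κ 0 (sB κ) * X κ ^ j) := rfl
  rw [e3, e4, smul_eq_mul]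
  ring

end Pool.Agent.Helper563_BV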