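import Mathlib
import Pool.Agent.Helper563_BV.Defs
import Pool.Agent.Helper563_BV.G3
import Pool.Agent.Helper563_BV.H3
set_option autoImplicit false
namespace Pool.Agent.Helper563_BV




/-
PROOF OF THE TARGET IN WORDS
Apply matunits with B = MonoidAlgebra Q (YY kappa), J = JJ kappa, t = tB, S = sB + sB^2, b beta = of (bP beta), a w = of (aP w); the hypotheses are the images of the relations in grp_rel under MonoidAlgebra.of
(a monoid hom); t S = S t: t s = s^(-1) t = s^2 t, t s^2 = s t. Then y0 = of yP, sh = shZ. Membership: S' = ZI 2 (algebraMap (2^(-1)) is a generator; 1/2 = 2^(-1)).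
-/
-- TARGET
theorem base3 (κ : Type) [Fintype κ] [DecidableEq κ] :
    ∃ E : ZZ κ → ZZ κ → MonoidAlgebra ℚ (YY κ),
      (∀ z z' w w', E z z' * E w w' = if z' = w then E z w' else 0) ∧
      (∑ z, E z z = (1 / 2 : ℚ) • (1 - tB κ)) ∧
      (∀ z, E z z * (sB κ + sB κ ^ 2) = (sB κ + sB κ ^ 2) * E z z) ∧
      (∀ z z', y0 κ * E z z' = E (shZ κ z) (shZ κ z') * y0 κ) ∧
      (∀ z z', E z z' ∈ ZI 2 (YY κ)) := by
  obtain ⟨h1, h2, h3, h4, h5, h6, h7, h8, h9, h10, h11, h12, h13, h14, h15, h16, h17⟩ :=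
    grp_rel κ
  have hm : ∀ g h : YY κ, MonoidAlgebra.of ℚ (YY κ) (g * h) =
      MonoidAlgebra.of ℚ (YY κ) g * MonoidAlgebra.of ℚ (YY κ) h := fun g h => map_mul _ g h
  have hsinv : (sP κ)⁻¹ = sP κ ^ 2 := by
    rw [inv_eq_iff_mul_eq_one, ← pow_succ', h2]
  have hts : tB κ * sB κ = sB κ ^ 2 * tB κ := by
    unfold tB sB
    rw [← map_pow, ← hm, ← hm, h3, hsinv]
  have hts2 : tB κ * sB κ ^ 2 = sB κ * tB κ := by
    have hg : tP κ * sP κ ^ 2 = sP κ * tP κ := by
      rw [pow_two, ← mul_assoc, h3, mul_assoc, h3, ← mul_assoc, hsinv, ← pow_add]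
      have : sP κ ^ (2 + 2) = sP κ := by
        rw [show (2 + 2 : ℕ) = 3 + 1 from rfl, pow_add, h2, one_mul, pow_one]
      rw [this]
    unfold tB sB
    rw [← map_pow, ← hm, ← hm, hg]
  obtain ⟨E, e1, e2, e3, e4, e5⟩ := matunits (tB κ) (sB κ + sB κ ^ 2)
    (fun β => MonoidAlgebra.of ℚ (YY κ) (bP β)) (fun w => MonoidAlgebra.of ℚ (YY κ) (aP w))
    (by unfold tB; rw [← hm, h1, map_one]) (by simp only [h4, map_one])
    (fun β β' => by simp only [h5, hm]) (by simp only [h6, map_one])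
    (fun w w' => by simp only [h7, hm])
    (fun β => by unfold tB; simp only [← hm, h8]) (fun w => by unfold tB; simp only [← hm, h9])
    (fun w β => by
      show MonoidAlgebra.of ℚ (YY κ) (aP w) * MonoidAlgebra.of ℚ (YY κ) (bP β) =
        (if pair β w = 0 then MonoidAlgebra.of ℚ (YY κ) (bP β) else
          MonoidAlgebra.of ℚ (YY κ) (bP β) * tB κ) * MonoidAlgebra.of ℚ (YY κ) (aP w)
      rw [← hm, h10]
      unfold tB
      split_ifs
      · rw [hm]
      · rw [hm, hm])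
    (fun β => by
      have hc : MonoidAlgebra.of ℚ (YY κ) (bP β) * sB κ =
          sB κ * MonoidAlgebra.of ℚ (YY κ) (bP β) := by
        unfold sB
        rw [← hm, ← hm, h11]
      have hC : Commute (MonoidAlgebra.of ℚ (YY κ) (bP β)) (sB κ) := hc
      exact (hC.add_right (hC.pow_right 2)).eq)
    (by
      rw [mul_add, add_mul, hts, hts2, add_comm])
  refine ⟨E, e1, e2, e3, ?_, ?_⟩
  · refine e4 (y0 κ) (shZ κ) (fun β => ?_) (fun w => ?_) ?_ h16 h17
    · unfold y0
      simp only [← hm, h12]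
    · unfold y0
      simp only [← hm, h13]
    · unfold y0 tB
      rw [← hm, ← hm, h14]
  · refine e5 (ZI 2 (YY κ)) ?_ ?_ (fun β => ?_) (fun w => ?_)
    · refine Subring.subset_closure (Or.inr ?_)
      show algebraMap ℚ (MonoidAlgebra ℚ (YY κ)) (1 / 2) =
        algebraMap ℚ (MonoidAlgebra ℚ (YY κ)) (((2 : ℕ) : ℚ)⁻¹)
      norm_num
    · exact Subring.subset_closure (Or.inl ⟨tP κ, rfl⟩)
    · exact Subring.subset_closure (Or.inl ⟨bP β, rfl⟩)
    · exact Subring.subset_closure (Or.inl ⟨aP w, rfl⟩)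

end Pool.Agent.Helper563_BV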