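import Mathlib
import Pool.Agent.Helper563_BV.Defs
import Pool.Agent.Helper563_BV.Tens
import Pool.Agent.Helper563_BV.R2
import Pool.Agent.Helper563_BV.R3
import Pool.Agent.Helper563_BV.M3
import Pool.Agent.Helper563_BV.S4
import Pool.Agent.Helper563_BV.H1
import Pool.Agent.Helper563_BV.H2
import Pool.Agent.Helper563_BV.H3
import Pool.Agent.Helper563_BV.H4
import Pool.Agent.Helper563_BV.S1
import Pool.Agent.Helper563_BV.S2
set_option autoImplicit false
namespace Pool.Agent.Helper563_BV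
theorem y0_pow_E (κ : Type) [Fintype κ] [DecidableEq κ]
    (E : ZZ κ → ZZ κ → MonoidAlgebra ℚ (YY κ))
    (hEy : ∀ z z', y0 κ * E z z' = E (shZ κ z) (shZ κ z') * y0 κ) (i : ℕ) (z z' : ZZ κ) :
    y0 κ ^ i * E z z' = E ((shZ κ ^ i) z) ((shZ κ ^ i) z') * y0 κ ^ i := by
  induction i with
  | zero => simp
  | succ n ih =>
    rw [pow_succ', mul_assoc, ih, ← mul_assoc, hEy, pow_succ' (shZ κ), mul_assoc, ← pow_succ']
    rfl

theorem side3 (κ : Type) [Fintype κ] [DecidableEq κ] (hκ : Fintype.card κ = 730) :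
    ∃ (E0 : MonoidAlgebra ℚ (YY κ)) (u : MonoidAlgebra ℚ (GG κ)),
    (1 - tB κ) ∈ Idl E0 ∧ u ∈ ZI 2 (GG κ) ∧ u ^ 27 = 1 ∧
    (∀ τ : MonoidAlgebra ℚ (GG κ) →+ ℚ, IsTr τ → ∀ j : ℕ,
      (¬ 3 ∣ j → τ (u ^ j) = τ (yy κ ^ j) + 3 * τ (X κ ^ j) - 3 * τ (io κ 0 (sB κ) * X κ ^ j)) ∧
      (3 ∣ j → τ (u ^ j) = τ (yy κ ^ j))) ∧
    u - yy κ ∈ Idl (io κ 0 E0 * io κ 1 E0 * io κ 2 E0) ∧
    io κ 0 E0 * io κ 1 E0 * io κ 2 E0 ∈ Idl (∑ i ∈ Finset.range 27, u ^ i) := by
  classical
  obtain ⟨E, hE, hEsum, hES, hEy, hEZ⟩ := base3 κ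
  obtain ⟨hι, hX3, hXι⟩ := wreath_rel κ
  obtain ⟨hy9, hy27⟩ := y_rel κ
  have hne : Nonempty κ := by rw [← Fintype.card_pos_iff]; omega
  obtain ⟨k0⟩ := hne
  have hidE : ∀ z z', E z z * E z z' = E z z' := fun z z' => by rw [hE, if_pos rfl]
  -- orthogonality relations
  have horth : ∀ (b b' : Bool) (i : ℕ) (k k' : κ),
      E (lab k b) (lab k b) * y0 κ ^ i * E (lab k' b') (lab k' b')
        = if 9 ∣ i ∧ k = k' ∧ b = b' then E (lab k b) (lab k b) else 0 := by
    intro b b' i k k'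
    rw [mul_assoc, y0_pow_E κ E hEy, ← mul_assoc, hE]
    by_cases h : 9 ∣ i ∧ k = k' ∧ b = b'
    · have h' := (lab_rel κ i k' k b' b).2 ⟨h.1, h.2.1.symm, h.2.2.symm⟩
      rw [if_pos h'.symm, if_pos h, h']
      obtain ⟨c, rfl⟩ := h.1
      rw [pow_mul, hy9, one_pow, mul_one]
    · rw [if_neg h, if_neg, zero_mul]
      intro h'
      have := (lab_rel κ i k' k b' b).1 h'.symm
      exact h ⟨this.1, this.2.1.symm, this.2.2.symm⟩
  have hpq := orbit (io κ) (X κ) hι hX3 hXι (y0 κ) hy9 (Bl := ZZ κ) (K := κ)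
    (fun z => E z z) (fun k => E (lab k true) (lab k true)) (fun k => E (lab k false) (lab k false))
    (fun z k => E z (lab k true)) (fun z k => E (lab k true) z)
    (fun z k => E z (lab k false)) (fun z k => E (lab k false) z)
    (by
      intro b b'
      by_cases h : b = b'
      · subst h; rw [if_pos rfl, hE, if_pos rfl]
      · rw [if_neg h, hE, if_neg h])
    (by
      intro i k k'
      rw [horth]
      simp)
    (by
      intro i k k'
      rw [horth]
      simp)
    (by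
      intro i k k'
      rw [horth]
      simp)
    (by
      intro i k k'
      rw [horth]
      simp)
    (by
      intro b k
      exact ⟨by rw [hE, if_pos rfl], by rw [hE, if_pos rfl], by rw [hE, if_pos rfl]⟩)
    (by
      intro b k
      exact ⟨by rw [hE, if_pos rfl], by rw [hE, if_pos rfl], by rw [hE, if_pos rfl]⟩)
  -- abbreviations
  set F : ZZ κ → MonoidAlgebra ℚ (GG κ) :=
    fun z => io κ 0 (E z z) * io κ 1 (E z z) * io κ 2 (E z z) with hF
  set p : ZZ κ → κ → MonoidAlgebra ℚ (GG κ) :=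
    fun z k => io κ 0 (E z z) * io κ 1 (E z (lab k true)) * io κ 2 (E z (lab k false)) with hp
  set q : ZZ κ → κ → MonoidAlgebra ℚ (GG κ) :=
    fun z k => io κ 0 (E z z) * io κ 1 (E (lab k true) z) * io κ 2 (E (lab k false) z) with hq
  have hpq' : ∀ (i : ℕ) (b : ZZ κ) (k : κ) (b' : ZZ κ) (k' : κ),
      p b k * yy κ ^ i * q b' k' = if 27 ∣ i ∧ b = b' ∧ k = k' then F b else 0 := hpq
  have hFp : ∀ b k, F b * p b k = p b k := by
    intro b k
    simp only [hF, hp]
    rw [T_mul (io κ) hι, hE, hE, hE, if_pos rfl, if_pos rfl, if_pos rfl]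
  have hqF : ∀ b k, q b k * F b = q b k := by
    intro b k
    simp only [hF, hq]
    rw [T_mul (io κ) hι, hE, hE, hE, if_pos rfl, if_pos rfl, if_pos rfl]
  -- the matrix
  set S : MonoidAlgebra ℚ (YY κ) := sB κ + sB κ ^ 2 with hS
  have hs3 : sB κ ^ 3 = 1 := by
    rw [sB, ← map_pow, (grp_rel κ).2.1, map_one]
  have hSS : (S - 2) * (S + 1) = 0 := by
    have h4 : sB κ ^ 4 = sB κ := by
      rw [show 4 = 3 + 1 from rfl, pow_add, hs3, one_mul, pow_one]
    have hexp : (S - 2) * (S + 1) = sB κ ^ 4 + 2 * sB κ ^ 3 - sB κ - 2 := by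
      rw [hS]; noncomm_ring
    rw [hexp, h4, hs3, mul_one, add_sub_cancel_left, sub_self]
  obtain ⟨N, iN, dN, c, hN, hc, hcS, hctr, hctr0⟩ := mat3 (fun i => io κ i S) (X κ)
    (by
      intro i
      have := congrArg (io κ i) hSS
      rw [map_mul, map_sub (io κ i) S 2, map_add (io κ i) S 1, map_one, map_zero, map_ofNat] at this
      exact this)
    (by
      intro i j
      by_cases h : i = j
      · subst h; rfl
      · exact hι i j h S S)
    hX3 (fun i => hXι i S)
  have hFS : ∀ b i, F b * io κ i S = io κ i S * F b := by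
    intro b i
    have hbS : E b b * S = S * E b b := hES b
    have h3 : ∀ i : ZMod 3, i = 0 ∨ i = 1 ∨ i = 2 := by decide
    rcases h3 i with rfl | rfl | rfl
    · have : io κ 0 S = io κ 0 S * io κ 1 1 * io κ 2 1 := by simp
      rw [this, hF]
      simp only
      rw [T_mul (io κ) hι, T_mul (io κ) hι, hbS]
      simp
    · have : io κ 1 S = io κ 0 1 * io κ 1 S * io κ 2 1 := by simp
      rw [this, hF]
      simp only
      rw [T_mul (io κ) hι, T_mul (io κ) hι, hbS]
      simp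
    · have : io κ 2 S = io κ 0 1 * io κ 1 1 * io κ 2 S := by simp
      rw [this, hF]
      simp only
      rw [T_mul (io κ) hι, T_mul (io κ) hι, hbS]
      simp
  have hFX : ∀ b, F b * X κ = X κ * F b := by
    intro b
    simp only [hF]
    rw [T_X (io κ) (X κ) hι hXι]
  have hFc : ∀ b n n', F b * c n n' = c n n' * F b := by
    intro b n n'
    have : c n n' ∈ (Subring.centralizer {F b} : Subring (MonoidAlgebra ℚ (GG κ))) := by
      refine (Subring.closure_le.2 ?_) (hcS n n')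
      rintro a (⟨i, rfl⟩ | ha)
      · rw [SetLike.mem_coe, Subring.mem_centralizer_iff]
        intro g hg
        rw [Set.mem_singleton_iff] at hg
        subst hg
        exact hFS b i
      · rw [Set.mem_singleton_iff] at ha
        subst ha
        rw [SetLike.mem_coe, Subring.mem_centralizer_iff]
        intro g hg
        rw [Set.mem_singleton_iff] at hg
        subst hg
        exact hFX b
    rw [Subring.mem_centralizer_iff] at this
    exact this (F b) (Set.mem_singleton _)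
  -- the index type
  have hcard : Fintype.card {k : κ // k ≠ k0} = 729 := by
    rw [Fintype.card_subtype_compl, hκ]; simp
  obtain ⟨u, hu27, hutr, huS, huJ, huE⟩ := side (yy κ) hy27 F
    (fun b (k : {k : κ // k ≠ k0}) => p b k.1) (fun b k => q b k.1)
    (fun b k => hFp b k.1) (fun b k => hqF b k.1)
    (by
      intro i b k b' k'
      rw [hpq']
      simp only [Subtype.ext_iff])
    c (by rw [hN, hcard]) hc hFc
  refine ⟨E 0 0, u, ?_, ?_, hu27, ?_, ?_, ?_⟩
  · -- 1 - t in the ideal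
    have h2 : (1 - tB κ) = ∑ z, (2 : MonoidAlgebra ℚ (YY κ)) * E z 0 * E 0 0 * E 0 z := by
      have : ∀ z, (2 : MonoidAlgebra ℚ (YY κ)) * E z 0 * E 0 0 * E 0 z = (2 : ℚ) • E z z := by
        intro z
        calc (2 : MonoidAlgebra ℚ (YY κ)) * E z 0 * E 0 0 * E 0 z
            = 2 * (E z 0 * E 0 0 * E 0 z) := by simp only [mul_assoc]
          _ = 2 * E z z := by rw [hE, if_pos rfl, hE, if_pos rfl]
          _ = (2 : ℚ) • E z z := by rw [Algebra.smul_def, map_ofNat]
      simp only [this]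
      rw [← Finset.smul_sum, hEsum, smul_smul]
      norm_num
    rw [h2]
    refine sum_mem fun z _ => AddSubgroup.subset_closure ⟨_, _, rfl⟩
  · -- membership
    have hXZ : X κ ∈ ZI 2 (GG κ) := Subring.subset_closure (Or.inl ⟨_, rfl⟩)
    refine huS (ZI 2 (GG κ)) ?_ ?_ ?_
    · exact mul_mem (io_ZI κ 0 2 _ (Subring.subset_closure (Or.inl ⟨_, rfl⟩))) hXZ
    · intro b k
      exact ⟨mul_mem (mul_mem (io_ZI κ _ 2 _ (hEZ _ _)) (io_ZI κ _ 2 _ (hEZ _ _)))
        (io_ZI κ _ 2 _ (hEZ _ _)), mul_mem (mul_mem (io_ZI κ _ 2 _ (hEZ _ _))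
        (io_ZI κ _ 2 _ (hEZ _ _))) (io_ZI κ _ 2 _ (hEZ _ _))⟩
    · intro n n'
      refine (Subring.closure_le.2 ?_) (hcS n n')
      rintro a (⟨i, rfl⟩ | ha)
      · have hsZ : sB κ ∈ ZI 2 (YY κ) := Subring.subset_closure (Or.inl ⟨_, rfl⟩)
        exact io_ZI κ _ 2 _ (add_mem hsZ (pow_mem hsZ 2))
      · rw [Set.mem_singleton_iff] at ha
        subst ha
        exact hXZ
  · -- traces
    intro τ hτ j
    constructor
    · intro hj
      have h27 : ¬ 27 ∣ j := fun h => hj (dvd_trans (by norm_num) h)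
      rw [hutr τ hτ j h27]
      have h1 : ∀ b, τ (F b * Matrix.trace (c ^ j)) = 3 * τ (F b * (2 - io κ 0 S) * X κ ^ j) :=
        fun b => hctr τ hτ (F b) (fun i => hFS b i) (hFX b) j hj
      simp only [h1]
      rw [tr3 κ (fun z => E z z) (fun z => hidE z z) hES hEsum τ hτ j hj]
      ring
    · intro hj
      by_cases h27 : 27 ∣ j
      · obtain ⟨d, rfl⟩ := h27
        rw [pow_mul, hu27, one_pow, pow_mul, hy27, one_pow]
      · rw [hutr τ hτ j h27, hctr0 j hj h27]
        simp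
  · -- the ideal of the base idempotent
    refine huJ _ (fun a z hz => ⟨idl_mul_left _ a z hz, idl_mul_right _ a z hz⟩) ?_
    intro z
    refine AddSubgroup.subset_closure ⟨io κ 0 (E z 0) * io κ 1 (E z 0) * io κ 2 (E z 0),
      io κ 0 (E 0 z) * io κ 1 (E 0 z) * io κ 2 (E 0 z), ?_⟩
    rw [T_mul (io κ) hι, T_mul (io κ) hι]
    simp only [hE, if_true, hF]
  · -- fullness
    set P0 := p 0 k0 with hP0
    set Q0 := q 0 k0 with hQ0
    have hPQ : P0 * Q0 = F 0 := by
      have := hpq' 0 0 k0 0 k0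
      rw [pow_zero, mul_one] at this
      rw [this, if_pos ⟨dvd_zero _, rfl, rfl⟩]
    have hFF : F 0 * F 0 = F 0 := by
      simp only [hF]
      rw [T_mul (io κ) hι, hE, if_pos rfl]
    have hEu : ∀ i : ℕ, (Q0 * P0) * u ^ i * (Q0 * P0) = (Q0 * P0) * yy κ ^ i * (Q0 * P0) := by
      refine huE (Q0 * P0) ?_ ?_
      · intro i b k
        have h := hpq' i 0 k0 b k.1
        rw [if_neg (fun h => k.2 h.2.2.symm)] at h
        calc Q0 * P0 * yy κ ^ i * q b k.1 = Q0 * (P0 * yy κ ^ i * q b k.1) := by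
              simp only [mul_assoc]
          _ = 0 := by rw [hP0, h, mul_zero]
      · intro i b k
        have h := hpq' i b k.1 0 k0
        rw [if_neg (fun h => k.2 h.2.2)] at h
        calc p b k.1 * yy κ ^ i * (Q0 * P0) = (p b k.1 * yy κ ^ i * Q0) * P0 := by
              simp only [mul_assoc]
          _ = 0 := by rw [hQ0, h, zero_mul]
    have hEy' : ∀ i : ℕ, (Q0 * P0) * yy κ ^ i * (Q0 * P0) = if 27 ∣ i then Q0 * P0 else 0 := by
      intro i
      have h := hpq' i 0 k0 0 k0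
      calc (Q0 * P0) * yy κ ^ i * (Q0 * P0) = Q0 * (P0 * yy κ ^ i * Q0) * P0 := by
            simp only [mul_assoc]
        _ = _ := by
            rw [hP0, hQ0, h]
            by_cases h27 : 27 ∣ i
            · rw [if_pos ⟨h27, rfl, rfl⟩, if_pos h27, mul_assoc, hFp]
            · rw [if_neg (fun h => h27 h.1), if_neg h27, mul_zero, zero_mul]
    have hsum : (Q0 * P0) * (∑ i ∈ Finset.range 27, u ^ i) * (Q0 * P0) = Q0 * P0 := by
      rw [Finset.mul_sum, Finset.sum_mul]
      rw [Finset.sum_eq_single 0]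
      · rw [hEu, hEy', if_pos (dvd_zero _)]
      · intro i hi hi0
        rw [hEu, hEy', if_neg]
        intro h
        have := Nat.le_of_dvd (Nat.pos_of_ne_zero hi0) h
        rw [Finset.mem_range] at hi
        omega
      · intro h
        exact absurd (Finset.mem_range.2 (by norm_num)) h
    have hfin : io κ 0 (E 0 0) * io κ 1 (E 0 0) * io κ 2 (E 0 0)
        = (P0 * Q0 * P0) * (∑ i ∈ Finset.range 27, u ^ i) * (Q0 * P0 * Q0) := by
      calc io κ 0 (E 0 0) * io κ 1 (E 0 0) * io κ 2 (E 0 0) = F 0 := rfl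
        _ = P0 * (Q0 * P0) * Q0 := by
            rw [← mul_assoc P0 Q0 P0, hPQ, mul_assoc (F 0) P0 Q0, hPQ, hFF]
        _ = P0 * ((Q0 * P0) * (∑ i ∈ Finset.range 27, u ^ i) * (Q0 * P0)) * Q0 := by rw [hsum]
        _ = _ := by simp only [mul_assoc]
    rw [hfin]
    exact AddSubgroup.subset_closure ⟨_, _, rfl⟩

end Pool.Agent.Helper563_BV
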