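import Mathlib
import Pool.Agent.Helper563_BV.Defs
import Pool.Agent.Helper563_BV.C6
import Pool.Agent.Helper563_BV.Side3
import Pool.Agent.Helper563_BV.Side2
import Pool.Agent.Helper563_BV.F1
import Pool.Agent.Helper563_BV.F2
set_option autoImplicit false
namespace Pool.Agent.Helper563_BV

/-- the trace functional of a class function -/
noncomputable def trC {G : Type} [Group G] [Fintype G] (φ : G → ℚ) : MonoidAlgebra ℚ G →+ ℚ where
  toFun a := ∑ g, φ g * a.coeff g
  map_zero' := by simp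
  map_add' a b := by
    rw [← Finset.sum_add_distrib]
    refine Finset.sum_congr rfl fun g _ => ?_
    rw [MonoidAlgebra.coeff_add, Finsupp.add_apply, mul_add]

theorem trC_single {G : Type} [Group G] [Fintype G] (φ : G → ℚ) (g : G) (c : ℚ) :
    trC φ (MonoidAlgebra.single g c) = φ g * c := by
  classical
  show ∑ h, φ h * (MonoidAlgebra.single g c).coeff h = φ g * c
  rw [Finset.sum_eq_single g]
  · rw [MonoidAlgebra.coeff_single, Finsupp.single_eq_same]
  · intro h _ hne
    rw [MonoidAlgebra.coeff_single, Finsupp.single_eq_of_ne hne, mul_zero]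
  · intro h; exact absurd (Finset.mem_univ g) h

theorem trC_isTr {G : Type} [Group G] [Fintype G] (φ : G → ℚ)
    (hφ : ∀ a b : G, φ (a * b) = φ (b * a)) : IsTr (trC φ) := by
  intro x y
  induction x using MonoidAlgebra.induction_linear with
  | zero => simp
  | add a b ha hb => rw [add_mul, mul_add, map_add, map_add, ha, hb]
  | single g c =>
    induction y using MonoidAlgebra.induction_linear with
    | zero => simp
    | add a b ha hb => rw [add_mul, mul_add, map_add, map_add, ha, hb]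
    | single h d =>
      rw [MonoidAlgebra.single_mul_single, MonoidAlgebra.single_mul_single, trC_single,
        trC_single, hφ, mul_comm c d]

theorem trC_of {G : Type} [Group G] [Fintype G] (φ : G → ℚ) (g : G) :
    trC φ (MonoidAlgebra.of ℚ G g) = φ g := by
  rw [MonoidAlgebra.of_apply, trC_single, mul_one]

theorem Idl_mono {A : Type*} [Ring A] (e f : A) (h : e ∈ Idl f) : Idl e ≤ Idl f := by
  have hl : ∀ (a z : A), z ∈ Idl f → a * z ∈ Idl f := by
    intro a z hz
    induction hz using AddSubgroup.closure_induction with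
    | mem x hx =>
      obtain ⟨c, d, rfl⟩ := hx
      exact AddSubgroup.subset_closure ⟨a * c, d, by simp only [mul_assoc]⟩
    | zero => rw [mul_zero]; exact zero_mem _
    | add x y _ _ hx hy => rw [mul_add]; exact add_mem hx hy
    | neg x _ hx => rw [mul_neg]; exact neg_mem hx
  have hr : ∀ (a z : A), z ∈ Idl f → z * a ∈ Idl f := by
    intro a z hz
    induction hz using AddSubgroup.closure_induction with
    | mem x hx =>
      obtain ⟨c, d, rfl⟩ := hx
      exact AddSubgroup.subset_closure ⟨c, d * a, by simp only [mul_assoc]⟩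
    | zero => rw [zero_mul]; exact zero_mem _
    | add x y _ _ hx hy => rw [add_mul]; exact add_mem hx hy
    | neg x _ hx => rw [neg_mul]; exact neg_mem hx
  refine (AddSubgroup.closure_le _).2 ?_
  rintro z ⟨a, b, rfl⟩
  exact hr _ _ (hl _ _ h)

theorem io_of (κ : Type) (i : ZMod 3) (g : YY κ) :
    io κ i (MonoidAlgebra.of ℚ (YY κ) g) = MonoidAlgebra.of ℚ (GG κ) (iG κ i g) := by
  unfold io
  simp [MonoidAlgebra.of_apply]

theorem main_exists (κ : Type) [Fintype κ] [DecidableEq κ] [Fintype (GG κ)] [DecidableEq (GG κ)]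
    (hκ : Fintype.card κ = 730) :
    ∃ v : MonoidAlgebra ℚ (GG κ), IntC v ∧ v ^ 27 = 1 ∧ v ^ 9 ≠ 1 ∧
      ∑ g ∈ Finset.univ.filter (fun g : GG κ => orderOf g = 3), v.coeff g = 3 := by
  obtain ⟨E0, u1, h1t, h1Z, h1p, h1tr, h1J, h1g⟩ := side3 κ hκ
  obtain ⟨u2, h2Z, h2p, h2tr, h2J⟩ := side2 κ (by omega) E0 h1t
  have hne : Nonempty κ := by
    rw [← Fintype.card_pos_iff]; omega
  obtain ⟨ho1, ho2, ho3, ho4⟩ := fin_order κ
  have htr : ∀ τ : MonoidAlgebra ℚ (GG κ) →+ ℚ, IsTr τ → ∀ j : ℕ, τ (u1 ^ j) = τ (u2 ^ j) := by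
    intro τ hτ j
    by_cases hj : 3 ∣ j
    · rw [(h1tr τ hτ j).2 hj, (h2tr τ hτ j).2 hj]
    · rw [(h1tr τ hτ j).1 hj, (h2tr τ hτ j).1 hj]
  have hJ : u1 - u2 ∈ Idl (∑ i ∈ Finset.range 27, u1 ^ i) := by
    refine Idl_mono _ _ h1g ?_
    have : u1 - u2 = (u1 - yy κ) - (u2 - yy κ) := by abel
    rw [this]
    exact sub_mem h1J h2J
  obtain ⟨γ, hγ⟩ := mainpatch (GG κ) u1 u2 h1Z h2Z 27 (by norm_num) h1p h2p htr hJ
  have hpow : ∀ j : ℕ, ((γ : MonoidAlgebra ℚ (GG κ)) * u1 *
      ((γ⁻¹ : (MonoidAlgebra ℚ (GG κ))ˣ) : MonoidAlgebra ℚ (GG κ))) ^ j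
      = (γ : MonoidAlgebra ℚ (GG κ)) * u1 ^ j *
      ((γ⁻¹ : (MonoidAlgebra ℚ (GG κ))ˣ) : MonoidAlgebra ℚ (GG κ)) := by
    intro j
    induction j with
    | zero => simp
    | succ n ih =>
      rw [pow_succ, ih, pow_succ]
      simp only [mul_assoc]
      rw [← mul_assoc ((γ⁻¹ : (MonoidAlgebra ℚ (GG κ))ˣ) : MonoidAlgebra ℚ (GG κ)) (γ : MonoidAlgebra ℚ (GG κ)),
        Units.inv_mul, one_mul]
  have htc : ∀ τ : MonoidAlgebra ℚ (GG κ) →+ ℚ, IsTr τ → ∀ a : MonoidAlgebra ℚ (GG κ),
      τ ((γ : MonoidAlgebra ℚ (GG κ)) * a *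
      ((γ⁻¹ : (MonoidAlgebra ℚ (GG κ))ˣ) : MonoidAlgebra ℚ (GG κ))) = τ a := by
    intro τ hτ a
    rw [hτ, ← mul_assoc, Units.inv_mul, one_mul]
  refine ⟨_, hγ, ?_, ?_, ?_⟩
  · rw [hpow, h1p, mul_one, Units.mul_inv]
  · intro h
    rw [hpow] at h
    -- the trace: coefficient at one
    have hcl : ∀ a b : GG κ, (if a * b = 1 then (1 : ℚ) else 0) = if b * a = 1 then 1 else 0 := by
      intro a b
      have : a * b = 1 ↔ b * a = 1 := by
        constructor <;> intro h
        · rw [mul_eq_one_iff_eq_inv] at h; rw [h, mul_inv_cancel]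
        · rw [mul_eq_one_iff_eq_inv] at h; rw [h, mul_inv_cancel]
      simp only [this]
    have hT := trC_isTr (fun g : GG κ => if g = 1 then (1 : ℚ) else 0) hcl
    have h9 := (h1tr _ hT 9).2 (by norm_num)
    have h9' := htc _ hT (u1 ^ 9)
    rw [h, h9] at h9'
    have hone : (1 : MonoidAlgebra ℚ (GG κ)) = MonoidAlgebra.of ℚ (GG κ) 1 := (map_one _).symm
    have hyy : yy κ = MonoidAlgebra.of ℚ (GG κ) (iG κ 0 (yP κ) * xG κ) := by
      rw [yy, y0, io_of, X, ← map_mul]
    rw [hyy, ← map_pow, trC_of, hone, trC_of, if_pos rfl, if_neg ho4] at h9'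
    exact one_ne_zero h9'
  · -- the trace: elements of order three
    have hcl : ∀ a b : GG κ, (if orderOf (a * b) = 3 then (1 : ℚ) else 0)
        = if orderOf (b * a) = 3 then 1 else 0 := by
      intro a b
      have : orderOf (a * b) = orderOf (b * a) := by
        have h : a * b = a * (b * a) * a⁻¹ := by group
        rw [h]
        exact (MulAut.conj a).orderOf_eq (b * a) ▸ rfl
      rw [this]
    have hT := trC_isTr (fun g : GG κ => if orderOf g = 3 then (1 : ℚ) else 0) hcl
    have hval : ∀ a : MonoidAlgebra ℚ (GG κ),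
        ∑ g ∈ Finset.univ.filter (fun g : GG κ => orderOf g = 3), a.coeff g
          = trC (fun g : GG κ => if orderOf g = 3 then (1 : ℚ) else 0) a := by
      intro a
      show _ = ∑ g, (if orderOf g = 3 then (1 : ℚ) else 0) * a.coeff g
      rw [Finset.sum_filter]
      refine Finset.sum_congr rfl fun g _ => ?_
      by_cases hg : orderOf g = 3 <;> simp [hg]
    rw [hval, htc _ hT]
    have h1 := (h1tr _ hT 1).1 (by norm_num)
    rw [pow_one, pow_one, pow_one] at h1
    have hyy : yy κ = MonoidAlgebra.of ℚ (GG κ) (iG κ 0 (yP κ) * xG κ) := by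
      rw [yy, y0, io_of, X, ← map_mul]
    have hss : io κ 0 (sB κ) * X κ = MonoidAlgebra.of ℚ (GG κ) (iG κ 0 (sP κ) * xG κ) := by
      rw [sB, io_of, X, ← map_mul]
    rw [h1, hyy, hss, X, trC_of, trC_of, trC_of, if_neg ho3, if_pos ho1, if_neg ho2]
    norm_num

/-- the counterexample -/
theorem bovdi_false :
    ¬ (∀ (G : Type) [Group G] [Fintype G] [DecidableEq G] (p m : ℕ)
      (u : (MonoidAlgebra ℤ G)ˣ) (c : G → ℤ),
      p.Prime →
      (u : MonoidAlgebra ℤ G) = ∑ g : G, c g • MonoidAlgebra.of ℤ G g →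
      (∑ g : G, c g) = 1 →
      orderOf u = p ^ m →
      (∀ k : ℕ, k ≠ m →
          (∑ g ∈ Finset.univ.filter (fun g : G => orderOf g = p ^ k), c g) = 0) ∧
      (∑ g ∈ Finset.univ.filter (fun g : G => orderOf g = p ^ m), c g) = 1) := by
  intro H
  let : Fintype (GG (Fin 730)) := Fintype.ofFinite _
  let : DecidableEq (GG (Fin 730)) := Classical.decEq _
  obtain ⟨v, hv, h27, h9, hT⟩ := main_exists (Fin 730) (Fintype.card_fin _)
  obtain ⟨u, c, hu, haug, hord, hsum⟩ := fin_unit (GG (Fin 730)) v hv h27 h9 hT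
  have := (H (GG (Fin 730)) 3 3 u c Nat.prime_three hu haug hord).1 1 (by norm_num)
  rw [hsum] at this
  norm_num at this

/-- a class function of an element conjugate to a group element -/
theorem kimmerle_false :
    ¬ (∀ (G : Type) [Group G] [Fintype G] (u : (MonoidAlgebra ℤ G)ˣ),
      (∀ ε : MonoidAlgebra ℤ G →+* ℤ,
          (∀ g : G, ε (MonoidAlgebra.single g (1 : ℤ)) = 1) →
          ε (u : MonoidAlgebra ℤ G) = 1) →
      IsOfFinOrder u →
      ∃ (H : Type) (_ : Group H) (_ : Fintype H) (f : G →* H),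
        Function.Injective f ∧
        ∃ φ : MonoidAlgebra ℤ G →+* MonoidAlgebra ℚ H,
          (∀ g : G, φ (MonoidAlgebra.single g (1 : ℤ))
              = MonoidAlgebra.single (f g) (1 : ℚ)) ∧
          ∃ (w : (MonoidAlgebra ℚ H)ˣ) (g : G),
            (w : MonoidAlgebra ℚ H) * φ (u : MonoidAlgebra ℤ G) *
                ((w⁻¹ : (MonoidAlgebra ℚ H)ˣ) : MonoidAlgebra ℚ H)
              = MonoidAlgebra.single (f g) (1 : ℚ)) := by
  intro K
  let : Fintype (GG (Fin 730)) := Fintype.ofFinite _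
  let : DecidableEq (GG (Fin 730)) := Classical.decEq _
  obtain ⟨v, hv, h27, h9, hT⟩ := main_exists (Fin 730) (Fintype.card_fin _)
  obtain ⟨u, c, hu, haug, hord, hsum⟩ := fin_unit (GG (Fin 730)) v hv h27 h9 hT
  obtain ⟨H, _, _, f, hf, φ, hφ, w, g0, hw⟩ := K (GG (Fin 730)) u (by
    intro ε hε
    rw [hu, map_sum, ← haug]
    refine Finset.sum_congr rfl fun g _ => ?_
    rw [map_zsmul, MonoidAlgebra.of_apply, hε, smul_eq_mul, mul_one]) (by
    rw [← orderOf_pos_iff, hord]; norm_num)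
  have hcl : ∀ a b : H, (if orderOf (a * b) = 3 then (1 : ℚ) else 0)
      = if orderOf (b * a) = 3 then 1 else 0 := by
    intro a b
    have : orderOf (a * b) = orderOf (b * a) := by
      have h : a * b = a * (b * a) * a⁻¹ := by group
      rw [h]
      exact (MulAut.conj a).orderOf_eq (b * a) ▸ rfl
    rw [this]
  have hTr := trC_isTr (fun g : H => if orderOf g = 3 then (1 : ℚ) else 0) hcl
  have h1 : trC (fun g : H => if orderOf g = 3 then (1 : ℚ) else 0) (φ (u : MonoidAlgebra ℤ (GG (Fin 730)))) = 3 := by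
    rw [hu, map_sum, map_sum]
    have : ∀ g : GG (Fin 730), trC (fun g : H => if orderOf g = 3 then (1 : ℚ) else 0)
        (φ (c g • MonoidAlgebra.of ℤ (GG (Fin 730)) g)) = if orderOf g = 3 then (c g : ℚ) else 0 := by
      intro g
      rw [map_zsmul, MonoidAlgebra.of_apply, hφ, map_zsmul, trC_single, orderOf_injective f hf,
        mul_one, zsmul_eq_mul]
      by_cases hg : orderOf g = 3 <;> simp [hg]
    simp only [this]
    rw [← Finset.sum_filter]
    have h3 := congrArg (fun n : ℤ => (n : ℚ)) hsum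
    simp only [pow_one, Int.cast_sum] at h3
    rw [h3]; norm_num
  have h2 := congrArg (trC (fun g : H => if orderOf g = 3 then (1 : ℚ) else 0)) hw
  rw [hTr, ← mul_assoc, Units.inv_mul, one_mul, h1, trC_single, mul_one] at h2
  by_cases hg : orderOf (f g0) = 3 <;> simp [hg] at h2

end Pool.Agent.Helper563_BV
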